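import Pool.Agent.KFlat.Stp

/-! FB7: the subset of space of the flattened polygon. -/

set_option autoImplicit false

open Pool.Agent.LK

namespace Pool.Agent.KFlat

open Pool.Agent.KTube Pool.Agent.KRing Pool.Agent.KLog
open Pool.Agent.LatticeTube (pedges mem_pedges mem_of_mem_pedges)

variable {H : ℕ} {p : P3} {w : List P3} {b c : Bool}

/-- The segments between the layers of the flattened walk. -/
def VJ (H : ℕ) : P3 → Bool → List P3 → Bool → Set R3
  | p, b, [], c => if b = c then ∅ else VS H p
  | p, b, d :: w, c => (if b = ou d then ∅ else VS H p) ∪ VJ H (p + d) (!ou d) w c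

/-- the layer after the walk `A` -/
private def inn (b : Bool) (A : List P3) : Bool := A.foldl (fun _ d => !ou d) b

/-- the layer before the walk `B` -/
private def out : List P3 → Bool → Bool
  | [], c => c
  | e :: _, _ => ou e

private theorem inn_concat (b : Bool) (A : List P3) (d : P3) : inn b (A ++ [d]) = !ou d := by
  unfold inn
  rw [List.foldl_append]
  rfl

private theorem lay_concat (A : List P3) (d : P3) : lay (A ++ [d]) = !ou d := by
  unfold lay
  rw [List.getLastD_concat]

private theorem mem_VJ {x : R3} : ∀ (w : List P3) (p : P3) (b c : Bool), x ∈ VJ H p b w c ↔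
    ∃ A B, w = A ++ B ∧ inn b A ≠ out B c ∧ x ∈ VS H (p + A.sum)
  | [], p, b, c => by
    unfold VJ
    constructor
    · intro h
      by_cases hbc : b = c
      · rw [if_pos hbc] at h
        exact absurd h (Set.notMem_empty x)
      · rw [if_neg hbc] at h
        exact ⟨[], [], rfl, hbc, by rwa [List.sum_nil, add_zero]⟩
    · rintro ⟨A, B, h, h1, h2⟩
      obtain ⟨rfl, rfl⟩ := List.append_eq_nil_iff.1 h.symm
      rw [List.sum_nil, add_zero] at h2
      rw [if_neg (show b ≠ c from h1)]
      exact h2
  | d :: w, p, b, c => by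
    unfold VJ
    rw [Set.mem_union, mem_VJ w (p + d) (!ou d) c]
    constructor
    · rintro (h | ⟨A, B, rfl, h1, h2⟩)
      · by_cases hbd : b = ou d
        · rw [if_pos hbd] at h
          exact absurd h (Set.notMem_empty x)
        · rw [if_neg hbd] at h
          exact ⟨[], d :: w, rfl, hbd, by rwa [List.sum_nil, add_zero]⟩
      · exact ⟨d :: A, B, rfl, h1, by rwa [List.sum_cons, ← add_assoc]⟩
    · rintro ⟨A, B, h, h1, h2⟩
      cases A with
      | nil =>
        left
        rw [List.nil_append] at h
        subst h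
        rw [List.sum_nil, add_zero] at h2
        rw [if_neg (show b ≠ ou d from h1)]
        exact h2
      | cons a A =>
        right
        simp only [List.cons_append, List.cons.injEq] at h
        obtain ⟨rfl, rfl⟩ := h
        exact ⟨A, B, rfl, h1, by rwa [List.sum_cons, ← add_assoc] at h2⟩

private theorem ax_inj {u u' : P3} {a a' : Ax} (h : s(u, u + Ax.v a) = s(u', u' + Ax.v a')) :
    u = u' ∧ a = a' := by
  obtain ⟨x, y, z⟩ := u
  obtain ⟨x', y', z'⟩ := u'
  rw [Sym2.eq_iff] at h
  cases a <;> cases a' <;>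
    simp only [Ax.v, Prod.mk_add_mk, Prod.mk.injEq, reduceCtorEq, and_true, and_false] at h ⊢ <;>
    omega

private theorem body_fx (p : P3) (b c : Bool) : body (pedges (wk (VV H b p) (fx b c))) =
    if b = c then ∅ else VS H p := by
  by_cases hbc : b = c
  · rw [if_pos hbc, fx, if_pos hbc, wk_nil]
    ext x
    constructor
    · rintro ⟨u, v, h, -⟩
      exact absurd h (Finset.notMem_empty _)
    · intro h
      exact absurd h (Set.notMem_empty x)
  · rw [if_neg hbc, fx, if_neg hbc]
    cases c with
    | true =>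
      have hb : b = false := by cases b <;> simp_all
      subst hb
      rw [if_pos rfl]
      have h1 := body_rp (VV H false p) (0, 1, 0) 1 one_pos
      rw [List.replicate_one] at h1
      rw [h1]
      ext ⟨x, y, z⟩
      simp only [Set.mem_ofPred_eq, VS, VV, toR, lb, Prod.smul_mk, smul_eq_mul, Prod.mk_add_mk,
        Prod.mk.injEq, Nat.cast_one, Int.cast_zero, Int.cast_one, mul_zero, mul_one, add_zero,
        Bool.false_eq_true, if_false, zero_add]
      constructor
      · rintro ⟨t, h0, h1, rfl, rfl, rfl⟩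
        exact ⟨rfl, rfl, h0, h1⟩
      · rintro ⟨rfl, rfl, h0, h1⟩
        exact ⟨y, h0, h1, rfl, rfl, rfl⟩
    | false =>
      have hb : b = true := by cases b <;> simp_all
      subst hb
      rw [if_neg (by simp)]
      have h1 := body_rp (VV H true p) (0, -1, 0) 1 one_pos
      rw [List.replicate_one] at h1
      rw [h1]
      ext ⟨x, y, z⟩
      simp only [Set.mem_ofPred_eq, VS, VV, toR, lb, Prod.smul_mk, smul_eq_mul, Prod.mk_add_mk,
        Prod.mk.injEq, Nat.cast_one, Int.cast_zero, Int.cast_one, mul_zero, mul_one, add_zero,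
        if_true, Int.cast_neg, mul_neg]
      constructor
      · rintro ⟨t, h0, h1, rfl, rfl, rfl⟩
        exact ⟨rfl, rfl, by linarith, by linarith⟩
      · rintro ⟨rfl, rfl, h0, h1⟩
        exact ⟨1 - y, by linarith, by linarith, rfl, by ring, rfl⟩

private theorem pedges_wk_cons (p d : P3) (w : List P3) :
    pedges (wk p (d :: w)) = insert s(p, p + d) (pedges (wk (p + d) w)) := by
  cases w <;> rfl

/-- Induction on `w`: `body_append`, `fw_walk`; `body (pedges (wk (VV H b p) (fx b c)))` is empty for `b = c` and `VS H p`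
otherwise. (For `w ≠ []`; for `w = []` it is true as well.) -/
theorem body_gw (hw : Steps w) (hh : ∀ q ∈ wk p w, 0 ≤ q.2.1 ∧ q.2.1 ≤ H) :
    body (pedges (wk (VV H b p) (GW H p.2.1 b w c))) =
      {x | ∃ u a, s(u, u + Ax.v a) ∈ pedges (wk p w) ∧ x ∈ PE H u a} ∪ VJ H p b w c := by
  induction w generalizing p b with
  | nil =>
    have h1 : {x : R3 | ∃ u a, s(u, u + Ax.v a) ∈ pedges (wk p []) ∧ x ∈ PE H u a} = ∅ := by
      ext x
      constructor
      · rintro ⟨u, a, h, -⟩
        exact absurd h (Finset.notMem_empty _)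
      · intro h
        exact absurd h (Set.notMem_empty x)
    rw [h1, Set.empty_union]
    exact body_fx p b c
  | cons d w ih =>
    have hd : IsStep d := hw d List.mem_cons_self
    have hp := hh p (by rw [wk_cons]; exact List.mem_cons_self)
    have hpd := hh (p + d) (by
      rw [wk_cons]
      refine List.mem_cons_of_mem _ ?_
      cases w <;> simp)
    have e1 : VV H b p + (fx b (ou d)).sum = VV H (ou d) p := by
      rw [sum_fx]
      unfold VV
      simp
    have e2 : VV H (ou d) p + (fw H p.2.1 d).sum = VV H (!ou d) (p + d) := by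
      rw [sum_fw hd hp.1 hp.2]
      unfold VV X0 Z0
      simp only [Prod.mk_add_mk, Prod.fst_add, Prod.snd_add, add_sub_cancel, Prod.mk.injEq,
        true_and]
      constructor <;> ring
    have e3 : GW H p.2.1 b (d :: w) c =
        fx b (ou d) ++ (fw H p.2.1 d ++ GW H (p.2.1 + d.2.1) (!ou d) w c) := rfl
    rw [e3, body_append, e1, body_append, e2, body_fx]
    have ih' := ih (p := p + d) (b := !ou d) (fun x hx => hw x (List.mem_cons_of_mem _ hx))
      (fun q hq => hh q (by rw [wk_cons]; exact List.mem_cons_of_mem _ hq))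
    have e4 : (p + d).2.1 = p.2.1 + d.2.1 := rfl
    rw [e4] at ih'
    rw [ih']
    obtain ⟨u, a, I, h1, -, -, -, -, -, h2⟩ := fw_walk hd hp.1 hp.2 hpd.1 hpd.2
    rw [h2, pedges_wk_cons]
    have e5 : VJ H p b (d :: w) c =
        (if b = ou d then ∅ else VS H p) ∪ VJ H (p + d) (!ou d) w c := rfl
    rw [e5]
    ext x
    simp only [Set.mem_union, Set.mem_ofPred_eq, Finset.mem_insert]
    constructor
    · rintro (h | h | ⟨u', a', h3, h4⟩ | h)
      · exact Or.inr (Or.inl h)
      · exact Or.inl ⟨u, a, Or.inl h1, h⟩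
      · exact Or.inl ⟨u', a', Or.inr h3, h4⟩
      · exact Or.inr (Or.inr h)
    · rintro (⟨u', a', h3 | h3, h4⟩ | h | h)
      · obtain ⟨rfl, rfl⟩ := ax_inj (h3.trans h1.symm)
        exact Or.inr (Or.inl h4)
      · exact Or.inr (Or.inr (Or.inl ⟨u', a', h3, h4⟩))
      · exact Or.inl h
      · exact Or.inr (Or.inr (Or.inr h))

private theorem clo_chain (h : Clo H p w) : Steps w := by
  have h1 : (wk p w).IsChain Adj := by
    have hne := h.ring.ne_nil
    cases w with
    | nil => exact absurd rfl hne
    | cons d w =>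
      rw [wk_cons, List.isChain_cons]
      refine ⟨fun v hv => ?_, ?_⟩
      · refine h.ring.close p ?_ v ?_
        · rw [wk_cons, List.tail_cons, last_wk]
          have h2 := h.sum
          rw [List.sum_cons] at h2
          simp only [Option.mem_def, Option.some.injEq]
          rw [add_assoc, h2, add_zero]
        · rw [wk_cons, List.tail_cons]
          exact hv
      · have := h.ring.chain
        rwa [wk_cons, List.tail_cons] at this
  exact chain_wk.1 h1

private theorem clo_len (h : Clo H p w) : 3 ≤ w.length := by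
  have := h.ring.three
  rw [List.length_tail, length_wk] at this
  omega

private theorem clo_sub (h : Clo H p w) {X Y Z : List P3} (hw : w = X ++ (Y ++ Z)) (hY : Y ≠ [])
    (hXZ : X ++ Z ≠ []) : Y.sum ≠ 0 := by
  have hn := h.ring.nodup
  cases X with
  | cons d X =>
    rw [hw, List.cons_append, wk_cons, List.tail_cons, nodup_wk] at hn
    exact hn X Y Z rfl hY
  | nil =>
    intro h0
    rw [List.nil_append] at hw hXZ
    obtain ⟨d, Y', rfl⟩ := List.exists_cons_of_ne_nil hY
    rw [hw, List.cons_append, wk_cons, List.tail_cons, nodup_wk] at hn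
    refine hn Y' Z [] (by rw [List.append_nil]) hXZ ?_
    have h1 := h.sum
    rw [hw, List.sum_append, h0, zero_add] at h1
    exact h1

/-- the two edges at a point of a closed walk -/
private theorem clo_loc (h : Clo H p w) {A B : List P3} {e : P3} (hw : w = A ++ e :: B) :
    ∃ d, IsStep d ∧ s(p + A.sum, p + A.sum + -d) ∈ pedges (wk p w) ∧
      inn (lay w) A = ou (-d) ∧ -d ≠ e ∧ s(p + A.sum, p + A.sum + e) ∈ pedges (wk p w) := by
  have hst := clo_chain h
  have hlen := clo_len h
  have he : s(p + A.sum, p + A.sum + e) ∈ pedges (wk p w) :=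
    mem_pedges_wk.2 ⟨A, e, B, hw, rfl⟩
  rcases List.eq_nil_or_concat' A with rfl | ⟨A', d, rfl⟩
  · -- the first point
    rw [List.nil_append] at hw
    rcases List.eq_nil_or_concat' B with rfl | ⟨D, d, rfl⟩
    · rw [hw] at hlen
      simp at hlen
    · have hd : IsStep d := hst d (by rw [hw]; simp)
      refine ⟨d, hd, ?_, ?_, ?_, he⟩
      · refine mem_pedges_wk.2 ⟨e :: D, d, [], by rw [hw]; rfl, ?_⟩
        have h1 := h.sum
        rw [hw, List.sum_cons, List.sum_append, List.sum_singleton] at h1
        rw [List.sum_nil, add_zero, Sym2.eq_iff]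
        right
        rw [List.sum_cons]
        have h2 : e + D.sum = -d := by
          rw [eq_neg_iff_add_eq_zero, ← h1]
          abel
        rw [h2]
        exact ⟨by abel, rfl⟩
      · have h1 : w = (e :: D) ++ [d] := by rw [hw]; rfl
        rw [h1, lay_concat, ou_neg hd]
        rfl
      · intro h1
        have hD : D ≠ [] := by
          rintro rfl
          rw [hw] at hlen
          simp at hlen
        refine clo_sub h (X := [e]) (Y := D) (Z := [d]) (by rw [hw]; rfl) hD (by simp) ?_
        have h2 := h.sum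
        rw [hw, List.sum_cons, List.sum_append, List.sum_singleton, ← h1] at h2
        rw [← h2]
        abel
  · have hd : IsStep d := hst d (by rw [hw]; simp)
    refine ⟨d, hd, ?_, ?_, ?_, he⟩
    · refine mem_pedges_wk.2 ⟨A', d, e :: B, by rw [hw]; simp, ?_⟩
      rw [List.sum_append, List.sum_singleton, Sym2.eq_iff]
      right
      exact ⟨by abel, by abel⟩
    · rw [inn_concat, ou_neg hd]
    · intro h1
      refine clo_sub h (X := A') (Y := [d, e]) (Z := B) (by rw [hw]; simp) (by simp) ?_ ?_
      · intro h2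
        obtain ⟨rfl, rfl⟩ := List.append_eq_nil_iff.1 h2
        rw [hw] at hlen
        simp at hlen
      · rw [← h1]
        simp

private theorem top_iff {E : Finset (Sym2 P3)} {u : P3} : Top E u ↔
    ∃ d, IsStep d ∧ ou d = true ∧ s(u, u + d) ∈ E := by
  constructor
  · rintro (h | h | h)
    · exact ⟨_, by simp [IsStep], by decide, h⟩
    · exact ⟨_, by simp [IsStep], by decide, h⟩
    · exact ⟨_, by simp [IsStep], by decide, h⟩
  · rintro ⟨d, -, h1, h2⟩
    have h3 := of_decide_eq_true h1
    rcases h3 with rfl | rfl | rfl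
    · exact Or.inl h2
    · exact Or.inr (Or.inl h2)
    · exact Or.inr (Or.inr h2)

private theorem bot_iff {E : Finset (Sym2 P3)} {u : P3} : Bot E u ↔
    ∃ d, IsStep d ∧ ou d = false ∧ s(u, u + d) ∈ E := by
  constructor
  · rintro (h | h | h)
    · exact ⟨_, by simp [IsStep], by decide, h⟩
    · exact ⟨_, by simp [IsStep], by decide, h⟩
    · exact ⟨_, by simp [IsStep], by decide, h⟩
  · rintro ⟨d, h0, h1, h2⟩
    rcases step_cases h0 with rfl | rfl | rfl | rfl | rfl | rfl
    · exact Or.inl h2
    · exact absurd h1 (by decide)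
    · exact absurd h1 (by decide)
    · exact Or.inr (Or.inr h2)
    · exact Or.inr (Or.inl h2)
    · exact absurd h1 (by decide)

private theorem vj_clo (h : Clo H p w) (x : R3) : x ∈ VJ H p (lay w) w (lay w) ↔
    ∃ u, Top (pedges (wk p w)) u ∧ Bot (pedges (wk p w)) u ∧ x ∈ VS H u := by
  have hlen := clo_len h
  have hst := clo_chain h
  rw [mem_VJ]
  constructor
  · rintro ⟨A, B, hw, h1, h2⟩
    refine ⟨p + A.sum, ?_⟩
    cases B with
    | nil =>
      exfalso
      apply h1
      rw [List.append_nil] at hw
      subst hw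
      rcases List.eq_nil_or_concat' w with rfl | ⟨A', d, rfl⟩
      · simp at hlen
      · rw [inn_concat]
        change _ = lay (A' ++ [d])
        rw [lay_concat]
    | cons e B =>
      obtain ⟨d, hd, h3, h4, -, h5⟩ := clo_loc h hw
      have he : IsStep e := hst e (by rw [hw]; simp)
      have hd' : IsStep (-d) := by
        unfold IsStep at hd ⊢
        simpa [Prod.neg_mk] using hd
      change inn (lay w) A ≠ ou e at h1
      rw [h4] at h1
      cases hu : ou e with
      | true =>
        rw [hu] at h1
        exact ⟨top_iff.2 ⟨e, he, hu, h5⟩, bot_iff.2 ⟨-d, hd', by simpa using h1, h3⟩, h2⟩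
      | false =>
        rw [hu] at h1
        exact ⟨top_iff.2 ⟨-d, hd', by simpa using h1, h3⟩, bot_iff.2 ⟨e, he, hu, h5⟩, h2⟩
  · rintro ⟨u, h1, h2, h3⟩
    obtain ⟨d1, -, h4, h5⟩ := top_iff.1 h1
    obtain ⟨d2, -, h6, h7⟩ := bot_iff.1 h2
    obtain ⟨A, B, hw, hu⟩ := mem_wk.1 (mem_of_mem_pedges h5).1
    -- a decomposition with a step after the point
    obtain ⟨A, e, B, hw, hu⟩ : ∃ A e B, w = A ++ e :: B ∧ u = p + A.sum := by
      cases B with
      | cons e B => exact ⟨A, e, B, hw, hu⟩
      | nil =>
        rw [List.append_nil] at hw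
        subst hw
        rw [h.sum, add_zero] at hu
        cases w with
        | nil => simp at hlen
        | cons e w => exact ⟨[], e, w, rfl, by rw [hu, List.sum_nil, add_zero]⟩
    obtain ⟨d, hd, g1, g2, g3, g4⟩ := clo_loc h hw
    rw [← hu] at g1 g4
    refine ⟨A, e :: B, hw, ?_, by rwa [← hu]⟩
    change inn (lay w) A ≠ ou e
    rw [g2]
    intro g5
    have hE : ring (wk p w).tail = pedges (wk p w) := ring_wk h.sum
    have hdeg := h.ring.isPolygon.deg u (by
      rw [hE]
      exact ⟨_, h5⟩)
    rw [hE] at hdeg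
    have hN : ({u + -d, u + e} : Set P3) = {v | s(u, v) ∈ pedges (wk p w)} := by
      refine Set.eq_of_subset_of_ncard_le ?_ ?_ (Set.finite_of_ncard_ne_zero (by omega))
      · rintro v (rfl | rfl)
        · exact g1
        · exact g4
      · rw [hdeg, Set.ncard_pair]
        intro g6
        exact g3 (add_left_cancel g6)
    have k : ∀ x, s(u, u + x) ∈ pedges (wk p w) → ou x = ou e := by
      intro x hx
      have hx' : u + x ∈ ({u + -d, u + e} : Set P3) := by
        rw [hN]
        exact hx
      rcases hx' with h8 | h8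
      · rw [add_left_cancel h8, g5]
      · rw [add_left_cancel h8]
    have k1 := k d1 h5
    have k2 := k d2 h7
    rw [← k2, h4, h6] at k1
    exact absurd k1 (by simp)


/-- PROOF. By `ring_wk` (both walks are closed, `sum_gw`) the left side is `body (pedges (wk P (GW ..)))`, and
`ring (wk p w).tail = pedges (wk p w)`. By `body_gw` it remains to show that `VJ H p (lay w) w (lay w)` is the union of the sets
`VS H u` over the vertices `u` with `Top E u` and `Bot E u`, `E = pedges (wk p w)`. Let `p_i`, `i = 0, …, n`, be the points of the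
walk, `d_i` the steps, `p_n = p_0`, `d_0 := d_n`. The neighbours of `p_i` (`0 ≤ i < n`) in `E` are exactly `p_i - d_i` and
`p_i + d_{i+1}` (`IsPolygon.deg`: two neighbours, these are two different ones because the points `p_1, …, p_n` are different and
`n ≥ 3`), so `Top E p_i` iff `ou (-d_i)` or `ou (d_{i+1})`, `Bot E p_i` iff one of them is `false`; both iff
`ou (-d_i) = !ou d_i ≠ ou d_{i+1}`, and exactly then `VS H p_i` is a part of `VJ` (the layer before the step `d_{i+1}` is `!ou d_i`, for
`i = 0` it is `lay w = !ou d_n`; the last part, `if (!ou d_n) = lay w then ∅ ..`, is empty). -/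
theorem body_flat (h : Clo H p w) :
    body (ring (wk (VV H (lay w) p) (GW H p.2.1 (lay w) w (lay w))).tail) =
      FS H (ring (wk p w).tail) := by
  have hst := clo_chain h
  have h0 : (GW H p.2.1 (lay w) w (lay w)).sum = 0 := by
    rw [sum_gw hst ((htw_iff p).1 h.ht), h.sum]
    simp
  rw [ring_wk h0, ring_wk h.sum, body_gw hst h.ht]
  ext x
  rw [Set.mem_union, vj_clo h]
  constructor
  · rintro (⟨u, a, h1, h2⟩ | ⟨u, h1, h2, h3⟩)
    · refine ⟨u, ?_⟩
      cases a
      · exact Or.inl ⟨h1, h2⟩
      · exact Or.inr (Or.inl ⟨h1, h2⟩)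
      · exact Or.inr (Or.inr (Or.inl ⟨h1, h2⟩))
    · exact ⟨u, Or.inr (Or.inr (Or.inr ⟨h1, h2, h3⟩))⟩
  · rintro ⟨u, ⟨h1, h2⟩ | ⟨h1, h2⟩ | ⟨h1, h2⟩ | ⟨h1, h2, h3⟩⟩
    · exact Or.inl ⟨u, .x, h1, h2⟩
    · exact Or.inl ⟨u, .y, h1, h2⟩
    · exact Or.inl ⟨u, .z, h1, h2⟩
    · exact Or.inr ⟨u, h1, h2, h3⟩

end Pool.Agent.KFlat
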