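import Pool.Agent.KFlat.FH

/-! FB9: unknotted halves with small heights, and unknotted flattened halves. -/

set_option autoImplicit false

open Pool.Agent.LK

namespace Pool.Agent.KFlat

open Pool.Agent.KTube Pool.Agent.KRing Pool.Agent.KLog
open Pool.Agent.LatticeTube (pedges mem_of_mem_pedges)

variable {H : ℕ} {a : ℤ} {v : ℤ × ℤ} {r l : List P3}

/-- A horizontal self-avoiding path to the origin with small heights. -/
private theorem exists_path_h (z : ℤ) : ∀ (n : ℕ) (v : ℤ × ℤ), nrm v = n → ∃ l : List P3,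
    l.Nodup ∧ l.IsChain Adj ∧ l.head? = some (v.1, v.2, z) ∧
    l.getLast? = some ((0 : ℤ), (0 : ℤ), z) ∧
    ∀ u ∈ l, u.2.2 = z ∧ nrm (u.1, u.2.1) ≤ n ∧ min 0 v.2 ≤ u.2.1 ∧ u.2.1 ≤ max 0 v.2 := by
  intro n
  induction n with
  | zero =>
    rintro ⟨x, y⟩ hv
    simp only [nrm, Nat.add_eq_zero_iff, Int.natAbs_eq_zero] at hv
    obtain ⟨rfl, rfl⟩ := hv
    refine ⟨[(0, 0, z)], by simp, by simp, rfl, rfl, ?_⟩
    intro u hu
    rw [List.mem_singleton] at hu
    subst hu
    simp [nrm]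
  | succ n ih =>
    rintro ⟨x, y⟩ hv
    obtain ⟨⟨x', y'⟩, hw, hadj, hy1, hy2⟩ : ∃ w : ℤ × ℤ, nrm w = n ∧
        Adj (x, y, z) (w.1, w.2, z) ∧ min 0 y ≤ min 0 w.2 ∧ max 0 w.2 ≤ max 0 y := by
      simp only [nrm] at hv
      rcases lt_trichotomy x 0 with h | h | h
      · exact ⟨(x + 1, y), by simp only [nrm]; omega, by simp [Adj], le_rfl, le_rfl⟩
      · rcases lt_trichotomy y 0 with h' | h' | h'
        · exact ⟨(x, y + 1), by simp only [nrm]; omega, by simp [Adj], by simp only; omega,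
            by simp only; omega⟩
        · omega
        · exact ⟨(x, y - 1), by simp only [nrm]; omega, by simp [Adj], by simp only; omega,
            by simp only; omega⟩
      · exact ⟨(x - 1, y), by simp only [nrm]; omega, by simp [Adj], le_rfl, le_rfl⟩
    obtain ⟨l, h1, h2, h3, h4, h5⟩ := ih (x', y') hw
    refine ⟨(x, y, z) :: l, ?_, ?_, rfl, ?_, ?_⟩
    · refine List.nodup_cons.2 ⟨fun h => ?_, h1⟩
      have := (h5 _ h).2.1
      rw [hv] at this
      omega
    · rw [List.isChain_cons]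
      refine ⟨fun u hu => ?_, h2⟩
      rw [h3] at hu
      simp only [Option.mem_def, Option.some.injEq] at hu
      subst hu
      exact hadj
    · rw [List.getLast?_cons, h4]; rfl
    · intro u hu
      rcases List.mem_cons.1 hu with rfl | h
      · exact ⟨rfl, hv.le, min_le_right _ _, le_max_right _ _⟩
      · exact ⟨(h5 u h).1, (h5 u h).2.1.trans (Nat.le_succ _), hy1.trans (h5 u h).2.2.1,
          (h5 u h).2.2.2.trans hy2⟩

/-- PROOF. The path in the level `0` from `(v.1, v.2, 0)` with `|v.1|` steps in the first and then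
`|v.2|` steps in the second direction
to `(0, 0, 0)`; a half in one level is unknotted (see `exists_path`, `exists_flat2`, `exists_flat`
in `KLog/Caps.lean`: copy the
induction of `exists_path` with the additional condition on the heights). -/
theorem exists_lu_h (hv : v ≠ 0) :
    ∃ l, LU 0 0 v l ∧ ∀ q ∈ l, min 0 v.2 ≤ q.2.1 ∧ q.2.1 ≤ max 0 v.2 := by
  obtain ⟨l, l1, l2, l3, l4, l5⟩ := exists_path_h 0 _ v rfl
  obtain ⟨r, r1, r2, r3, r4, r5⟩ := exists_path 1 _ v rfl
  have hl : Lower 0 0 v l := ⟨l1, l2, l3, l4, fun u hu => (l5 u hu).1.le⟩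
  have hr : Upper 0 0 v r.reverse := by
    refine ⟨List.nodup_reverse.2 r1, ?_, ?_, ?_, fun u hu => ?_⟩
    · rw [List.isChain_reverse]
      exact r2.imp fun a b h => h.symm
    · rw [List.head?_reverse, r4]; rfl
    · rw [List.getLast?_reverse, r3]; rfl
    · rw [(r5 u (List.mem_reverse.1 hu)).1]; norm_num
  have hP := (ring_of hv.symm hr hl).isPolygon
  have h0 := cross_ring_of hr hl
  have hU : Unknotted (ring (r.reverse ++ l)) := by
    refine unknotted_of_two hP ?_ ⟨0, by rw [h0]; exact ⟨0, by simp⟩⟩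
    intro j hj
    rcases lt_trichotomy j 0 with h | rfl | h
    · exfalso
      obtain ⟨c, hc⟩ := hj
      rw [cross_ring_low hr hl h] at hc
      have h1 := (l5 _ (mem_of_mem_pedges hc).1).1
      simp only at h1
      omega
    · rw [h0]; exact Set.ncard_pair hv.symm
    · exfalso
      obtain ⟨c, hc⟩ := hj
      rw [cross_ring_upp hr hl h] at hc
      have h1 := (r5 _ (List.mem_reverse.1 (mem_of_mem_pedges hc).2)).1
      simp only at h1
      omega
  exact ⟨l, ⟨hv.symm, hl, _, hr, ((unknotted_iff hP (isTwo_ring_of hv.symm hr hl)).1 hU).1⟩,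
    fun q hq => (l5 q hq).2.2⟩

/-- `UU_flp` for the half of `exists_lu_h` (`flp` does not change the heights). -/
theorem exists_uu_h (hv : v ≠ 0) :
    ∃ r, UU 0 0 v r ∧ ∀ q ∈ r, min 0 v.2 ≤ q.2.1 ∧ q.2.1 ≤ max 0 v.2 := by
  obtain ⟨l, hl, h⟩ := exists_lu_h hv
  exact ⟨flp l, UU_flp hl, fun q hq => h (flipZ 1 q) (mem_flp.1 hq)⟩

private theorem fits_of {s t : List P3} (h1 : ((0 : ℤ), (0 : ℤ), (0 : ℤ)) ∈ s ∨ (0, 0, 1) ∈ s)
    (h2 : (v.1, v.2, 0) ∈ s ∨ (v.1, v.2, 1) ∈ s) (fs : Fits H a s)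
    (ht : ∀ q ∈ t, min 0 v.2 ≤ q.2.1 ∧ q.2.1 ≤ max 0 v.2) : Fits H a t := by
  have e1 : 0 ≤ a ∧ a ≤ H := by
    rcases h1 with h1 | h1
    · have := fs _ h1
      simp only at this
      omega
    · have := fs _ h1
      simp only at this
      omega
  have e2 : 0 ≤ v.2 + a ∧ v.2 + a ≤ H := by
    rcases h2 with h2 | h2
    · exact fs _ h2
    · exact fs _ h2
  intro q hq
  have := ht q hq
  omega

private theorem fits_ne (hv : v ≠ 0) {s : List P3}
    (h1 : ((0 : ℤ), (0 : ℤ), (0 : ℤ)) ∈ s ∨ (0, 0, 1) ∈ s)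
    (h2 : (v.1, v.2, 0) ∈ s ∨ (v.1, v.2, 1) ∈ s) (fs : Fits H a s) : vf H v ≠ 0 := by
  have e1 : 0 ≤ a ∧ a ≤ H := by
    rcases h1 with h1 | h1
    · have := fs _ h1
      simp only at this
      omega
    · have := fs _ h1
      simp only at this
      omega
  have e2 : 0 ≤ v.2 + a ∧ v.2 + a ≤ H := by
    rcases h2 with h2 | h2
    · exact fs _ h2
    · exact fs _ h2
  exact vf_ne hv e1.1 e1.2 (by omega) (by omega)

/-- With the half `r` of `exists_uu_h` (`Fits H a r` because `0` and `v.2` are heights of points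
of `l`) the polygon
`ring (r ++ l)` is unknotted (`unknotted_halves`), so the polygon `ring (FUp H a r ++ FLw H a v
l)` is unknotted (`fh`), and
`unknotted_iff` gives `LowU`, that is `LU`. -/
theorem lu_fl (hl : LU 0 0 v l) (fl : Fits H a l) : LU 0 0 (vf H v) (FLw H a v l) := by
  obtain ⟨hne, hL, -⟩ := id hl
  have hv : v ≠ 0 := hne.symm
  obtain ⟨r, hr, h⟩ := exists_uu_h hv
  have m1 : ((0 : ℤ), (0 : ℤ), (0 : ℤ)) ∈ l := List.mem_of_getLast? hL.last
  have m2 : (v.1, v.2, (0 : ℤ)) ∈ l := List.mem_of_head? hL.head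
  have fr : Fits H a r := fits_of (Or.inl m1) (Or.inl m2) fl h
  have hn := (fits_ne hv (Or.inl m1) (Or.inl m2) fl).symm
  obtain ⟨h1, h2, h3⟩ := fh hv hr.2.1 hL fr fl
  have hU : Unknotted (ring (FUp H a r ++ FLw H a v l)) :=
    h3.symm.unknotted (unknotted_halves hr hl)
  have hP := (ring_of hn h1 h2).isPolygon
  exact ⟨hn, h2, _, h1, ((unknotted_iff hP (isTwo_ring_of hn h1 h2)).1 hU).1⟩

theorem uu_fu (hr : UU 0 0 v r) (fr : Fits H a r) : UU 0 0 (vf H v) (FUp H a r) := by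
  obtain ⟨hne, hR, -⟩ := id hr
  have hv : v ≠ 0 := hne.symm
  obtain ⟨l, hl, h⟩ := exists_lu_h hv
  have m1 : ((0 : ℤ), (0 : ℤ), (1 : ℤ)) ∈ r := List.mem_of_head? hR.head
  have m2 : (v.1, v.2, (1 : ℤ)) ∈ r := List.mem_of_getLast? hR.last
  have fl : Fits H a l := fits_of (Or.inr m1) (Or.inr m2) fr h
  have hn := (fits_ne hv (Or.inr m1) (Or.inr m2) fr).symm
  obtain ⟨h1, h2, h3⟩ := fh hv hR hl.2.1 fr fl
  have hU : Unknotted (ring (FUp H a r ++ FLw H a v l)) :=
    h3.symm.unknotted (unknotted_halves hr hl)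
  have hP := (ring_of hn h1 h2).isPolygon
  exact ⟨hn, h1, _, h2, ((unknotted_iff hP (isTwo_ring_of hn h1 h2)).1 hU).2⟩

end Pool.Agent.KFlat
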