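import Pool.Agent.KFlat.DefsB
import Pool.Agent.KComp.ChainA
import Pool.Agent.KRing.YBlock

/-! FB11: a pair of strands is cut at its sections with two edges. -/

set_option autoImplicit false

open Pool.Agent.LK

namespace Pool.Agent.KFlat

open Pool.Agent.KTube Pool.Agent.KRing Pool.Agent.KLog
open Pool.Agent.KAmp (gl)
open Pool.Agent.KTop (GC ed cats cat2)
open Pool.Agent.LatticeTube (pedges)

variable {v : ℤ × ℤ} {P : PP}

private theorem spl_wk_snoc (p d : P3) (s t : List P3) :
    wk p (s ++ d :: t) = wk p s ++ wk (p + s.sum + d) t := by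
  induction s generalizing p with
  | nil => simp
  | cons e s ih =>
    rw [List.cons_append, wk_cons, ih, wk_cons, List.sum_cons, List.cons_append, add_assoc p e]

private theorem spl_legeq {j : ℤ} {p : P3} (h : p.2.2 = j) :
    leg (hz p) j = s(p, p + (0, 0, 1)) := by
  obtain ⟨a, b, c⟩ := p
  simp only at h
  subst h
  simp [leg, hz]

private theorem spl_up {j : ℤ} (s : List P3) (p : P3) (hs : Steps s) (hp : p.2.2 ≤ j)
    (he : j < (p + s.sum).2.2) : ∃ α α', s = α ++ (0, 0, 1) :: α' ∧
      (∀ q ∈ wk p α, q.2.2 ≤ j) ∧ (p + α.sum).2.2 = j := by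
  induction s generalizing p with
  | nil => simp at he; omega
  | cons d s ih =>
    by_cases h : (p + d).2.2 ≤ j
    · obtain ⟨α, α', h1, h2, h3⟩ := ih (p + d) hs.cons.2 h (by
        rw [List.sum_cons, ← add_assoc] at he; exact he)
      refine ⟨d :: α, α', by rw [h1]; rfl, ?_, ?_⟩
      · intro q hq
        rw [wk_cons, List.mem_cons] at hq
        rcases hq with rfl | hq
        · exact hp
        · exact h2 q hq
      · rw [List.sum_cons, ← add_assoc]; exact h3
    · have hd := step_cases hs.cons.1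
      have h0 : (p + d).2.2 = p.2.2 + d.2.2 := rfl
      rcases hd with rfl | rfl | rfl | rfl | rfl | rfl
      all_goals simp only at h0
      all_goals first
        | (exfalso; omega)
        | skip
      refine ⟨[], s, rfl, ?_, ?_⟩
      · intro q hq
        rw [wk_nil, List.mem_singleton] at hq
        subst hq
        exact hp
      · simp only [List.sum_nil, add_zero]
        omega

private theorem spl_down {j : ℤ} (s : List P3) (p : P3) (hs : Steps s) (hp : j < p.2.2)
    (he : ∃ q ∈ wk p s, q.2.2 ≤ j) : ∃ c, leg c j ∈ pedges (wk p s) := by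
  induction s generalizing p with
  | nil =>
    obtain ⟨q, hq, h⟩ := he
    rw [wk_nil, List.mem_singleton] at hq
    subst hq
    omega
  | cons d s ih =>
    by_cases h : (p + d).2.2 ≤ j
    · have hd := step_cases hs.cons.1
      have h0 : (p + d).2.2 = p.2.2 + d.2.2 := rfl
      refine ⟨hz p, ?_⟩
      unfold leg
      rw [mem_pedges_wk]
      refine ⟨[], d, s, rfl, ?_⟩
      rcases hd with rfl | rfl | rfl | rfl | rfl | rfl
      all_goals simp only at h0
      all_goals first
        | (exfalso; omega)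
        | skip
      have h1 : p.2.2 = j + 1 := by omega
      rw [Sym2.eq_iff]
      right
      constructor
      · ext
        · simp [hz]
        · simp [hz]
        · simp only [List.sum_nil, add_zero]
          rw [h0]
          omega
      · ext
        · simp [hz]
        · simp [hz]
        · simp [h1]
    · obtain ⟨q, hq, h2⟩ := he
      rw [wk_cons, List.mem_cons] at hq
      rcases hq with rfl | hq
      · omega
      · obtain ⟨c, hc⟩ := ih (p + d) hs.cons.2 (by omega) ⟨q, hq, h2⟩
        refine ⟨c, ?_⟩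
        have h1 : wk p (d :: s) = [p] ++ wk (p + d) s := rfl
        rw [h1, mem_pedges_cat (a := p) rfl (head_wk _ _)]
        exact Or.inr (Or.inr hc)

private theorem spl_cut {j : ℤ} {s : List P3} {p : P3} {c0 : ℤ × ℤ} (hs : Steps s)
    (hn : (wk p s).Nodup) (hp : p.2.2 ≤ j) (he : j < (p + s.sum).2.2)
    (hu : ∀ c, leg c j ∈ pedges (wk p s) → c = c0) : ∃ α α', s = α ++ (0, 0, 1) :: α' ∧
      (∀ q ∈ wk p α, q.2.2 ≤ j) ∧ (p + α.sum).2.2 = j ∧
      ∀ q ∈ wk (p + α.sum + (0, 0, 1)) α', j < q.2.2 := by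
  obtain ⟨α, α', h1, h2, h3⟩ := spl_up s p hs hp he
  refine ⟨α, α', h1, h2, h3, ?_⟩
  by_contra hcon
  push Not at hcon
  have hst : Steps α' := by
    rw [h1] at hs
    exact (Steps.append hs).2.cons.2
  have h4 : (p + α.sum + (0, 0, 1)).2.2 = j + 1 := by
    have : (p + α.sum + (0, 0, 1)).2.2 = (p + α.sum).2.2 + 1 := rfl
    rw [this, h3]
  obtain ⟨c, hc⟩ := spl_down α' _ hst (by rw [h4]; omega) hcon
  have h5 : leg c j ∈ pedges (wk p s) := by
    rw [h1, spl_wk_snoc, mem_pedges_cat (last_wk _ _) (head_wk _ _)]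
    exact Or.inr (Or.inr hc)
  have h6 : leg (hz (p + α.sum)) j ∈ pedges (wk p s) := by
    rw [h1, spl_wk_snoc, mem_pedges_cat (last_wk _ _) (head_wk _ _)]
    right; left
    exact spl_legeq h3
  have h7 : c = hz (p + α.sum) := by rw [hu c h5, hu _ h6]
  have h8 := (LatticeTube.mem_of_mem_pedges hc).1
  have h9 : p + α.sum ∈ wk p α := List.mem_of_getLast? (last_wk _ _)
  have h10 : ((c.1, c.2, j) : P3) = p + α.sum := by
    rw [h7, ← h3]
    rfl
  rw [h1, spl_wk_snoc] at hn
  rw [h10] at h8
  exact (List.nodup_append.1 hn).2.2 _ h9 _ h8 rfl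

private theorem spl_leg {j : ℤ} {s : List P3} {p : P3} (hs : Steps s)
    (hp : p.2.2 ≤ j) (he : j < (p + s.sum).2.2) : ∃ c, leg c j ∈ pedges (wk p s) := by
  obtain ⟨α, α', h1, h2, h3⟩ := spl_up s p hs hp he
  refine ⟨hz (p + α.sum), ?_⟩
  have h4 : (p + α.sum + (0, 0, 1)).2.2 = j + 1 := by
    have : (p + α.sum + (0, 0, 1)).2.2 = (p + α.sum).2.2 + 1 := rfl
    rw [this, h3]
  rw [h1, spl_wk_snoc, mem_pedges_cat (last_wk _ _) (head_wk _ _)]
  right; left
  exact spl_legeq h3

private theorem spl_low {j i : ℤ} {α α' : List P3} {p : P3} (hij : i < j)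
    (h3 : (p + α.sum).2.2 = j) (h4 : ∀ q ∈ wk (p + α.sum + (0, 0, 1)) α', j < q.2.2)
    (c : ℤ × ℤ) : leg c i ∈ pedges (wk p (α ++ (0, 0, 1) :: α')) ↔ leg c i ∈ pedges (wk p α) := by
  rw [spl_wk_snoc, mem_pedges_cat (last_wk _ _) (head_wk _ _)]
  constructor
  · rintro (h | h | h)
    · exact h
    · exfalso
      have h5 : (p + α.sum + (0, 0, 1)).2.2 = j + 1 := by
        have : (p + α.sum + (0, 0, 1)).2.2 = (p + α.sum).2.2 + 1 := rfl
        rw [this, h3]
      rw [leg, Sym2.eq_iff] at h
      rcases h with ⟨h, h'⟩ | ⟨h, h'⟩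
      · have := congrArg (fun q : P3 => q.2.2) h
        simp only [h3] at this
        omega
      · have := congrArg (fun q : P3 => q.2.2) h
        simp only [h5] at this
        omega
    · exfalso
      have := h4 _ (LatticeTube.mem_of_mem_pedges h).1
      simp only at this
      omega
  · exact fun h => Or.inl h

private theorem spl_assoc (π ρ : PP) (s : List PP) :
    cats (cat2 π ρ) s = cat2 π (cats ρ s) := by
  induction s generalizing ρ with
  | nil => rfl
  | cons σ s ih =>
    rw [cats, cats, ← ih]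
    congr 1
    simp [cat2]

/-- Two strands cut at the level `j`. -/
private theorem spl_one (h : Geo0 v P) {j : ℤ} (hj : 0 < j) (hj' : j < hgt P)
    (h2 : {c | leg c j ∈ pedges (sdA P) ∨ leg c j ∈ pedges (sdB v P)}.ncard = 2)
    (hmin : ∀ i, 0 < i → i < j →
      {c | leg c i ∈ pedges (sdA P) ∨ leg c i ∈ pedges (sdB v P)}.ncard ≠ 2) :
    ∃ π ρ : PP, P = cat2 π ρ ∧ Geo v π ∧ Geo0 (v + dsp π) ρ := by
  obtain ⟨A, B⟩ := P
  have hb := h.block
  have hA := hb.lastA
  have hB := hb.headB
  rw [sdA, last_wk] at hA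
  rw [sdB, List.head?_reverse, last_wk] at hB
  simp only [Option.some.injEq] at hA hB
  have hAl : j < (((0, 0, 1) : P3) + A.sum).2.2 := by
    rw [hA]; exact hj'
  have hBl : j < (((v.1, v.2, 1) : P3) + B.sum).2.2 := by
    rw [hB]; exact hj'
  have hnA : (wk (0, 0, 1) A).Nodup := hb.nodupA
  have hnB : (wk (v.1, v.2, 1) B).Nodup := List.nodup_reverse.1 hb.nodupB
  obtain ⟨cA, hcA⟩ := spl_leg (p := (0, 0, 1)) h.stA (by simpa using (show (1 : ℤ) ≤ j by omega)) hAl
  obtain ⟨cB, hcB⟩ := spl_leg (p := (v.1, v.2, 1)) h.stB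
    (by simpa using (show (1 : ℤ) ≤ j by omega)) hBl
  have hdis : ∀ c, leg c j ∈ pedges (wk (0, 0, 1) A) → leg c j ∈ pedges (wk (v.1, v.2, 1) B) →
      False := by
    intro c h3 h4
    exact hb.disj _ (LatticeTube.mem_of_mem_pedges h3).1 (List.mem_reverse.2 (LatticeTube.mem_of_mem_pedges h4).1)
  set S : Set (ℤ × ℤ) := {c | leg c j ∈ pedges (sdA (A, B)) ∨ leg c j ∈ pedges (sdB v (A, B))}
    with hS
  have hSA : ∀ c, leg c j ∈ pedges (wk (0, 0, 1) A) → c ∈ S := fun c hc => Or.inl hc
  have hSB : ∀ c, leg c j ∈ pedges (wk (v.1, v.2, 1) B) → c ∈ S := fun c hc =>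
    Or.inr (mem_pedges_reverse.2 hc)
  obtain ⟨x, y, hxy, hSxy⟩ := Set.ncard_eq_two.1 h2
  have huA : ∀ c, leg c j ∈ pedges (wk (0, 0, 1) A) → c = cA := by
    intro c hc
    by_contra hne
    have h3 := hSA c hc
    have h4 := hSA cA hcA
    have h5 := hSB cB hcB
    rw [hSxy] at h3 h4 h5
    have h6 : cB ≠ cA := by
      rintro rfl
      exact hdis _ hcA hcB
    have h7 : cB ≠ c := by
      rintro rfl
      exact hdis _ hc hcB
    simp only [Set.mem_insert_iff, Set.mem_singleton_iff] at h3 h4 h5
    rcases h3 with rfl | rfl <;> rcases h4 with rfl | rfl <;> rcases h5 with rfl | rfl <;>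
      simp_all
  have huB : ∀ c, leg c j ∈ pedges (wk (v.1, v.2, 1) B) → c = cB := by
    intro c hc
    by_contra hne
    have h3 := hSB c hc
    have h4 := hSA cA hcA
    have h5 := hSB cB hcB
    rw [hSxy] at h3 h4 h5
    have h6 : cB ≠ cA := by
      rintro rfl
      exact hdis _ hcA hcB
    have h7 : cA ≠ c := by
      rintro rfl
      exact hdis _ hcA hc
    simp only [Set.mem_insert_iff, Set.mem_singleton_iff] at h3 h4 h5
    rcases h3 with rfl | rfl <;> rcases h4 with rfl | rfl <;> rcases h5 with rfl | rfl <;>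
      simp_all
  obtain ⟨α, α', rfl, a2, a3, a4⟩ := spl_cut (p := (0, 0, 1)) h.stA hnA
    (by simpa using (show (1 : ℤ) ≤ j by omega)) hAl huA
  obtain ⟨β, β', rfl, b2, b3, b4⟩ := spl_cut (p := (v.1, v.2, 1)) h.stB hnB
    (by simpa using (show (1 : ℤ) ≤ j by omega)) hBl huB
  have hαl : α.sum.2.2 = j - 1 := by
    have : (((0, 0, 1) : P3) + α.sum).2.2 = 1 + α.sum.2.2 := rfl
    omega
  have hβl : β.sum.2.2 = j - 1 := by
    have : (((v.1, v.2, 1) : P3) + β.sum).2.2 = 1 + β.sum.2.2 := rfl
    omega
  have hgj : hgt (α, β) = j := by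
    simp only [KLog.hgt]
    omega
  have stA : Steps α ∧ Steps ((0, 0, 1) :: α') := Steps.append h.stA
  have stB : Steps β ∧ Steps ((0, 0, 1) :: β') := Steps.append h.stB
  have stA' := stA.2.cons.2
  have stB' := stB.2.cons.2
  rw [spl_wk_snoc] at hnA hnB
  have eA : sdA (α ++ (0, 0, 1) :: α', β ++ (0, 0, 1) :: β') =
      wk (0, 0, 1) α ++ wk ((0, 0, 1) + α.sum + (0, 0, 1)) α' := by
    rw [sdA, spl_wk_snoc]
  have eB : sdB v (α ++ (0, 0, 1) :: α', β ++ (0, 0, 1) :: β') =
      (wk (v.1, v.2, 1) β ++ wk ((v.1, v.2, 1) + β.sum + (0, 0, 1)) β').reverse := by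
    rw [sdB, spl_wk_snoc]
  have memA : ∀ u, u ∈ sdA (α ++ (0, 0, 1) :: α', β ++ (0, 0, 1) :: β') ↔
      u ∈ wk (0, 0, 1) α ∨ u ∈ wk ((0, 0, 1) + α.sum + (0, 0, 1)) α' := by
    intro u
    rw [eA, List.mem_append]
  have memB : ∀ u, u ∈ sdB v (α ++ (0, 0, 1) :: α', β ++ (0, 0, 1) :: β') ↔
      u ∈ wk (v.1, v.2, 1) β ∨ u ∈ wk ((v.1, v.2, 1) + β.sum + (0, 0, 1)) β' := by
    intro u
    rw [eB, List.mem_reverse, List.mem_append]
  have chr : ∀ (p : P3) (s : List P3), Steps s → (wk p s).reverse.IsChain Adj := by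
    intro p s hs
    rw [List.isChain_reverse]
    have := (chain_wk (p := p)).2 hs
    exact this.imp fun _ _ hab => hab.symm
  refine ⟨(α, β), (α', β'), rfl, ⟨h.ne, stA.1, stB.1, ?_, ?_⟩, ⟨?_, stA', stB', ?_⟩⟩
  · rw [hgj]
    refine ⟨hj, (List.nodup_append.1 hnA).1, List.nodup_reverse.2 (List.nodup_append.1 hnB).1,
      ?_, chain_wk.2 stA.1, chr _ _ stB.1, ?_, ?_, ?_, ?_, ?_, ?_⟩
    · intro u hu hu'
      exact hb.disj u ((memA u).2 (Or.inl hu)) ((memB u).2 (Or.inl (List.mem_reverse.1 hu')))
    · rw [sdA, head_wk]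
      rfl
    · rw [sdA, last_wk]
      simp only [Option.some.injEq]
      ext
      · simp [hz]
      · simp [hz]
      · simpa using a3
    · rw [sdB, List.head?_reverse, last_wk]
      simp only [Option.some.injEq]
      ext
      · simp [hz]
      · simp [hz]
      · simpa using b3
    · rw [sdB, List.getLast?_reverse, head_wk]
      rfl
    · intro u hu
      exact ⟨(hb.levA u ((memA u).2 (Or.inl hu))).1, a2 u hu⟩
    · intro u hu
      have hu' := List.mem_reverse.1 hu
      exact ⟨(hb.levB u ((memB u).2 (Or.inl hu'))).1, b2 u hu'⟩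
  · intro i hi hi'
    rw [hgj] at hi'
    have := hmin i hi hi'
    convert this using 2
    ext c
    simp only [Set.mem_ofPred_eq]
    rw [sdB, sdB, mem_pedges_reverse, mem_pedges_reverse, sdA, sdA, spl_low hi' a3 a4,
      spl_low hi' b3 b4]
  · intro h0
    have h1 : ((0, 0, 1) : P3) + α.sum = (v.1, v.2, 1) + β.sum := by
      have e1 := congrArg Prod.fst h0
      have e2 := congrArg Prod.snd h0
      simp only [dsp, hz, Prod.fst_add, Prod.snd_add, Prod.fst_sub, Prod.snd_sub,
        Prod.fst_zero, Prod.snd_zero] at e1 e2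
      ext
      · simp only [Prod.fst_add]; omega
      · simp only [Prod.fst_add, Prod.snd_add]; omega
      · simp only [Prod.snd_add]; omega
    have h3 : ((0, 0, 1) : P3) + α.sum ∈ wk (0, 0, 1) α := List.mem_of_getLast? (last_wk _ _)
    have h4 : ((v.1, v.2, 1) : P3) + β.sum ∈ wk (v.1, v.2, 1) β :=
      List.mem_of_getLast? (last_wk _ _)
    refine hb.disj _ ((memA _).2 (Or.inl h3)) ((memB _).2 (Or.inl ?_))
    rw [h1]
    exact h4
  · have hgA : hgt (α ++ (0, 0, 1) :: α', β ++ (0, 0, 1) :: β') = j + hgt (α', β') := by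
      simp only [KLog.hgt, List.sum_append, List.sum_cons, Prod.snd_add]
      omega
    have tA : wk ((0, 0, 1) + α.sum + (0, 0, 1)) α' =
        (wk (0, 0, 1) α').map (· + (α.sum.1, α.sum.2.1, j)) := by
      rw [map_wk]
      congr 1
      ext
      · simp
      · simp
      · simp only [Prod.snd_add]; omega
    have tB : wk ((v.1, v.2, 1) + β.sum + (0, 0, 1)) β' =
        (wk ((v + dsp (α, β)).1, (v + dsp (α, β)).2, 1) β').map
          (· + (α.sum.1, α.sum.2.1, j)) := by
      rw [map_wk]
      congr 1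
      ext
      · simp [dsp, hz]
        ring
      · simp [dsp, hz]
        ring
      · simp only [Prod.snd_add]; omega
    have hinj : Function.Injective (fun u : P3 => u + (α.sum.1, α.sum.2.1, j)) :=
      add_left_injective _
    have hA2 : (α ++ (0, 0, 1) :: α').sum = α.sum + ((0, 0, 1) + α'.sum) := by
      rw [List.sum_append, List.sum_cons]
    have hB2 : (β ++ (0, 0, 1) :: β').sum = β.sum + ((0, 0, 1) + β'.sum) := by
      rw [List.sum_append, List.sum_cons]
    have hlev : β'.sum.2.2 = α'.sum.2.2 := by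
      have e1 := congrArg (fun q : P3 => q.2.2) hA
      have e2 := congrArg (fun q : P3 => q.2.2) hB
      simp only [hA2, hB2, Prod.snd_add] at e1 e2
      omega
    refine ⟨by rw [hgA] at hj'; omega, ?_, ?_, ?_, chain_wk.2 stA', chr _ _ stB', ?_, ?_, ?_, ?_,
      ?_, ?_⟩
    · have := (List.nodup_append.1 hnA).2.1
      rw [tA] at this
      exact List.Nodup.of_map _ this
    · have := (List.nodup_append.1 hnB).2.1
      rw [tB] at this
      exact List.nodup_reverse.2 (List.Nodup.of_map _ this)
    · intro u hu hu'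
      refine hb.disj (u + (α.sum.1, α.sum.2.1, j)) ((memA _).2 (Or.inr ?_))
        ((memB _).2 (Or.inr ?_))
      · rw [tA]
        exact List.mem_map_of_mem hu
      · rw [tB]
        exact List.mem_map_of_mem (List.mem_reverse.1 hu')
    · rw [sdA, head_wk]
      rfl
    · rw [sdA, last_wk]
      simp only [Option.some.injEq]
      ext
      · simp [hz]
      · simp [hz]
      · simp only [Prod.snd_add, KLog.hgt]; omega
    · rw [sdB, List.head?_reverse, last_wk]
      simp only [Option.some.injEq]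
      ext
      · simp [hz]
      · simp [hz]
      · simp only [Prod.snd_add, KLog.hgt]; omega
    · rw [sdB, List.getLast?_reverse, head_wk]
      simp
    · intro u hu
      have hu2 : u + (α.sum.1, α.sum.2.1, j) ∈ wk ((0, 0, 1) + α.sum + (0, 0, 1)) α' := by
        rw [tA]
        exact List.mem_map_of_mem hu
      have h5 := a4 _ hu2
      have h6 := (hb.levA _ ((memA _).2 (Or.inr hu2))).2
      rw [hgA] at h6
      simp only [Prod.snd_add] at h5 h6
      constructor <;> omega
    · intro u hu
      have hu2 : u + (α.sum.1, α.sum.2.1, j) ∈ wk ((v.1, v.2, 1) + β.sum + (0, 0, 1)) β' := by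
        rw [tB]
        exact List.mem_map_of_mem (List.mem_reverse.1 hu)
      have h5 := b4 _ hu2
      have h6 := (hb.levB _ ((memB _).2 (Or.inr hu2))).2
      rw [hgA] at h6
      simp only [Prod.snd_add] at h5 h6
      constructor <;> omega


/-- PROOF. Induction on the number of sections `j`, `0 < j < hgt P`, of the strands with two edges (`{c | leg c j ∈ pedges (sdA P) ∨ leg c j ∈
pedges (sdB v P)}.ncard = 2`). If there is none, `P` is `Geo` and `π = P`, `s = []`. Otherwise let `j` be the lowest one. Each strand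
leads from the level `1` to the level `hgt P > j`, so it has an edge in this section, and because there are two edges each strand has exactly
one: `P.1 = α ++ (0, 0, 1) :: α'`, `P.2 = β ++ (0, 0, 1) :: β'`, where the points of `α`, `β` are at levels `≤ j` and the points of
`α'`, `β'` at levels `> j`. (A walk from a level `≤ j` to a level `> j` with exactly one edge in this section is below before the edge and
above after it.) `π = (α, β)` is `Geo v` with `hgt π = j`, and `P' = (α', β')` is `Geo0 (v + dsp π)`, with fewer such sections; `P = cat2 π P'`,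
and `cats π (π' :: s') = cats (cat2 π π') s'`; use `cats_fst`, `cats_snd` to see that `cats π (π' :: s') = cat2 π (cats π' s')`.
(Another way: `glu v l P` for a cap `l` without such sections is a lower half, `KComp.chain_a` decomposes it as `gl v' l' s'` with a cap
`l'`; the lowest section with two edges is the same, so `l' = l`, and `gl_cats` and the injectivity of `glu` give the claim.) -/
theorem split (h : Geo0 v P) : ∃ (π : PP) (s : List PP), GC v (π :: s) ∧ cats π s = P := by
  induction hn : P.1.length using Nat.strong_induction_on generalizing P v with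
  | _ n ih =>
    subst hn
    by_cases hex : ∃ n : ℕ, 0 < (n : ℤ) ∧ (n : ℤ) < hgt P ∧
        {c | leg c (n : ℤ) ∈ pedges (sdA P) ∨ leg c (n : ℤ) ∈ pedges (sdB v P)}.ncard = 2
    · classical
      obtain ⟨h1, h2, h3⟩ := Nat.find_spec hex
      obtain ⟨π, ρ, rfl, hπ, hρ⟩ := spl_one h h1 h2 h3 (by
        intro i hi hi' h4
        have h5 := Nat.find_min hex (m := i.toNat) (by omega)
        have h6 : ((i.toNat : ℕ) : ℤ) = i := by omega
        rw [h6] at h5
        exact h5 ⟨hi, by omega, h4⟩)
      obtain ⟨π', s', h4, h5⟩ := ih ρ.1.length (by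
        simp only [cat2, List.length_append, List.length_cons]
        omega) hρ rfl
      refine ⟨π, π' :: s', ⟨hπ, h4⟩, ?_⟩
      rw [cats, spl_assoc, h5]
    · refine ⟨P, [], ⟨⟨h.ne, h.stA, h.stB, h.block, ?_⟩, ?_⟩, rfl⟩
      · intro j hj hj' h2
        apply hex
        refine ⟨j.toNat, ?_, ?_, ?_⟩
        · omega
        · omega
        · have h6 : ((j.toNat : ℕ) : ℤ) = j := by omega
          rw [h6]
          exact h2
      · intro h0
        have hb := h.block
        have hA := List.mem_of_getLast? hb.lastA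
        have hB := List.mem_of_head? hb.headB
        have h1 : hz P.1.sum = v + hz P.2.sum := by
          have e1 := congrArg Prod.fst h0
          have e2 := congrArg Prod.snd h0
          simp only [dsp, Prod.fst_add, Prod.snd_add, Prod.fst_sub, Prod.snd_sub,
            Prod.fst_zero, Prod.snd_zero] at e1 e2
          ext
          · simp only [Prod.fst_add]; omega
          · simp only [Prod.snd_add]; omega
        rw [h1] at hA
        exact hb.disj _ hA hB

private theorem spl_lev {s : List PP} (h : GC v s) : ∀ ρ ∈ s, ρ.2.sum.2.2 = ρ.1.sum.2.2 := by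
  induction s generalizing v with
  | nil => simp
  | cons π s ih =>
    intro ρ hρ
    rcases List.mem_cons.1 hρ with rfl | hρ
    · exact KTop.level h.1
    · exact ih h.2 ρ hρ

private theorem spl_dsp2 {π ρ : PP} : dsp (cat2 π ρ) = dsp π + dsp ρ := by
  ext <;> simp [dsp, cat2, hz] <;> ring

private theorem spl_dsp {π : PP} {s : List PP} : dsp (cats π s) = dsp π + (s.map dsp).sum := by
  induction s generalizing π with
  | nil => simp [cats]
  | cons ρ s ih =>
    rw [cats, ih, spl_dsp2, List.map_cons, List.sum_cons, add_assoc]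

private theorem spl_nh2 {π ρ : PP} : nh (cat2 π ρ) = nh π + nh ρ := by
  have h0 : hlet ((0, 0, 1) : P3) = none := by
    unfold hlet
    decide
  simp only [nh, cat2, lets_append, lets_cons, stp_append, h0, stp_none]
  omega

private theorem spl_nh {π : PP} {s : List PP} : nh (cats π s) = nh π + (s.map nh).sum := by
  induction s generalizing π with
  | nil => simp [cats]
  | cons ρ s ih =>
    rw [cats, ih, spl_nh2, List.map_cons, List.sum_cons, add_assoc]

private theorem spl_cl2 {π ρ : PP} {i k : ℤ × ℤ} (h : CL i k (cat2 π ρ)) :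
    (∃ i' j', CL i' j' π) ∧ ∃ i' j', CL i' j' ρ := by
  have hA := h.inA
  have hB := h.inB
  simp only [cat2] at hA hB
  simp only [spl_wk_snoc, List.mem_append] at hA hB
  constructor
  · exact ⟨i, (i.1 + π.1.sum.2.1, i.2 + π.2.sum.2.1), fun q hq => hA q (Or.inl hq),
      fun q hq => hB q (Or.inl hq), rfl, rfl⟩
  · refine ⟨(i.1 + π.1.sum.2.1, i.2 + π.2.sum.2.1), (i.1 + π.1.sum.2.1 + ρ.1.sum.2.1,
      i.2 + π.2.sum.2.1 + ρ.2.sum.2.1), ?_, ?_, rfl, rfl⟩
    · intro q hq
      have h1 : q + (π.1.sum + (0, 0, 1)) ∈ wk ((0, 0, 1) + π.1.sum + (0, 0, 1)) ρ.1 := by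
        rw [add_assoc, ← map_wk]
        exact List.mem_map_of_mem hq
      have h2 := hA _ (Or.inr h1)
      simp only [Prod.fst_add, Prod.snd_add] at h2
      simp only
      constructor <;> omega
    · intro q hq
      have h1 : q + (π.2.sum + (0, 0, 1)) ∈ wk ((0, 0, 1) + π.2.sum + (0, 0, 1)) ρ.2 := by
        rw [add_assoc, ← map_wk]
        exact List.mem_map_of_mem hq
      have h2 := hB _ (Or.inr h1)
      simp only [Prod.fst_add, Prod.snd_add] at h2
      simp only
      constructor <;> omega

private theorem spl_cl {π : PP} {s : List PP} {i k : ℤ × ℤ} (h : CL i k (cats π s)) :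
    ∀ ρ ∈ π :: s, ∃ i' j', CL i' j' ρ := by
  induction s generalizing π i k with
  | nil =>
    intro ρ hρ
    rw [List.mem_singleton] at hρ
    subst hρ
    exact ⟨i, k, h⟩
  | cons σ s ih =>
    rw [cats, spl_assoc] at h
    obtain ⟨h1, i', k', h2⟩ := spl_cl2 h
    intro ρ hρ
    rcases List.mem_cons.1 hρ with rfl | hρ
    · exact h1
    · exact ih h2 ρ hρ

/-- The number of horizontal steps, the displacement and the layers of the blocks of a chain: `cats_fst`, `cats_snd`, `gl_cats` (`level`). -/
theorem split_full (h : Geo0 v P) : ∃ s : List PP, GC v s ∧ ed v s = v + dsp P ∧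
    (∀ l, gl v l s = glu v l P) ∧ (s.map nh).sum = nh P ∧
    ∀ i j, CL i j P → ∀ ρ ∈ s, ∃ i' j', CL i' j' ρ := by
  obtain ⟨π, s, h1, h2⟩ := split h
  refine ⟨π :: s, h1, ?_, ?_, ?_, ?_⟩
  · rw [KTop.ed, List.map_cons, List.sum_cons, ← h2, spl_dsp]
  · intro l
    rw [KTop.gl_cats (spl_lev h1), h2]
  · rw [List.map_cons, List.sum_cons, ← h2, spl_nh]
  · intro i j hc
    rw [← h2] at hc
    exact spl_cl hc

end Pool.Agent.KFlat
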