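import Pool.Agent.KFlat.MarkF
import Pool.Agent.KFlat.Spl

/-! FB13: the flattened chain. -/

set_option autoImplicit false

open Pool.Agent.LK

namespace Pool.Agent.KFlat

open Pool.Agent.KTube Pool.Agent.KRing Pool.Agent.KLog
open Pool.Agent.KAsym (ln)
open Pool.Agent.KAmp (gl)
open Pool.Agent.KTop (GC UC ed ash ed_nil ed_cons ed_append)
open Pool.Agent.KComp (Kn mk mk_cons mk_append kn_of_mem_mk uc_iff)

private theorem cf_vf_add (H : ℕ) (v w : ℤ × ℤ) : vf H v + vf H w = vf H (v + w) := by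
  unfold vf
  refine Prod.ext ?_ ?_
  · simp only [Prod.fst_add, Prod.snd_add]
    ring
  · simp

private theorem cf_last {H : ℕ} {y : ℤ} {w : List P3} (h : HtW H y w) :
    0 ≤ y + w.sum.2.1 ∧ y + w.sum.2.1 ≤ H := by
  have h1 : (0, y, 0) + w.sum ∈ wk (0, y, 0) w :=
    mem_wk.2 ⟨w, [], by simp, rfl⟩
  have h2 := h _ h1
  simpa using h2

private theorem cf_mk_nil (v : ℤ × ℤ) : mk v [] = [] := rfl

/-- PROOF. Induction on `s` (for all `a`, `v`). `s = []`: `t = []`, `vf_ne`. `s = π :: s'`: let `t1` be the chain of `split_full` for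
`Geo0 (vf H v) (FPr H a v π)` (`geo0_fpr`), `ed (vf H v) t1 = vf H v + vf H (dsp π) = vf H (v + dsp π)` (`dsp_fpr`, `vf` is additive),
and `t2` the chain of the induction hypothesis for `a + π.1.sum.2.1`, `v + dsp π` (the heights of its two first columns are those of the
ends of the strands of `π`); `t = t1 ++ t2` (`gc_append`, `ed_append`, `gl_append`, `mk_append`). The composition with a half:
`gl (vf H v) (FLw H a v l) t1 = glu (vf H v) (FLw H a v l) (FPr H a v π) = FLw H (a + π.1.sum.2.1) (v + dsp π) (glu v l π)` (`fl_glu`), `glu v l π`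
is a lower half (`lower_glu`) and fits (`fits_glu`); `ash (π :: s') = hz π.1.sum + ash s'`. Marks: `mk v s` is `mk (v + dsp π) s'`,
with `(v, π)` in front if `π` is knotted; in this case `mk (vf H v) t1` is not empty (`mark_f`). Layers: `cl_fpr`, `split_full`. The last
claim: if `(mk (vf H v) t).length ≤ (mk v s).length` then, by the two inequalities for the parts (`0` or `1 ≤ (mk (vf H v) t1).length`, and the
induction hypothesis), both are equalities; so the claim for the marks in `t2` follows from the induction hypothesis, and if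
`mk (vf H v) t1` is not empty then `π` is knotted, `(v, π) ∈ mk v s`, `nh (FPr H a v π) ≤ (mH H + 2) * ln π < nrm (vf H v)` (`nh_fpr`),
`(t1.map nh).sum = nh (FPr H a v π)`, and `mark_far` gives the claim. -/
theorem chain_f {H : ℕ} (s : List PP) : ∀ (a : ℤ) (v : ℤ × ℤ), GC v s → FitC H a v s →
    0 ≤ a → a ≤ H → 0 ≤ a + v.2 → a + v.2 ≤ H →
    ∃ t : List PP, GC (vf H v) t ∧ ed (vf H v) t = vf H (ed v s) ∧
      (∀ l, Lower 0 0 v l → Fits H a l →
        gl (vf H v) (FLw H a v l) t = FLw H (a + (ash s).2) (ed v s) (gl v l s) ∧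
        Fits H (a + (ash s).2) (gl v l s)) ∧
      (mk v s).length ≤ (mk (vf H v) t).length ∧ (∀ ρ ∈ t, ∃ i j, CL i j ρ) ∧
      ((mk (vf H v) t).length ≤ (mk v s).length →
        (∀ m ∈ mk v s, (mH H + 2) * (ln m.2 : ℤ) < nrm (vf H m.1)) →
        ∀ m ∈ mk (vf H v) t, nh m.2 < nrm m.1) := by
  induction s with
  | nil =>
    intro a v hg _ h0 h1 h2 h3
    have hg' : v ≠ 0 := hg
    have e0 : (ash ([] : List PP)).2 = 0 := by simp [ash]
    refine ⟨[], vf_ne hg' h0 h1 h2 h3, ?_, ?_, le_rfl, ?_, ?_⟩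
    · rw [ed_nil, ed_nil]
    · intro l _ fl
      have e1 : gl v l [] = l := rfl
      have e2 : gl (vf H v) (FLw H a v l) [] = FLw H a v l := rfl
      rw [e0, e1, e2, ed_nil, add_zero]
      exact ⟨rfl, fl⟩
    · intro ρ hρ
      exact absurd hρ List.not_mem_nil
    · intro _ _ m hm
      rw [cf_mk_nil] at hm
      exact absurd hm List.not_mem_nil
  | cons π s' ih =>
    intro a v hgc hfc h0 h1 h2 h3
    obtain ⟨hg, hgs⟩ : Geo v π ∧ GC (v + dsp π) s' := hgc
    obtain ⟨hf, hfs⟩ : FitP H a v π ∧ FitC H (a + π.1.sum.2.1) (v + dsp π) s' := hfc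
    have hA := cf_last hf.1
    have hB := cf_last hf.2
    have ev : a + π.1.sum.2.1 + (v + dsp π).2 = a + v.2 + π.2.sum.2.1 := by
      simp only [dsp, hz, Prod.snd_add, Prod.snd_sub]
      ring
    obtain ⟨t1, g1, e1, c1, n1, k1⟩ := split_full (geo0_fpr hg hf)
    have e1' : ed (vf H v) t1 = vf H (v + dsp π) := by
      rw [e1, dsp_fpr hg.stA hg.stB hf, cf_vf_add]
    obtain ⟨t2, g2, e2, c2, m2, k2, f2⟩ := ih (a + π.1.sum.2.1) (v + dsp π) hgs hfs hA.1 hA.2
      (by rw [ev]; exact hB.1) (by rw [ev]; exact hB.2)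
    have hash : (ash (π :: s')).2 = π.1.sum.2.1 + (ash s').2 := by
      simp [ash, hz]
    have hmkt : mk (vf H v) (t1 ++ t2) = mk (vf H v) t1 ++ mk (vf H (v + dsp π)) t2 := by
      rw [mk_append, e1']
    refine ⟨t1 ++ t2, ?_, ?_, ?_, ?_, ?_, ?_⟩
    · rw [Pool.Agent.KTop.gc_append, e1']
      exact ⟨g1, g2⟩
    · rw [ed_append, e1', e2, ed_cons]
    · intro l hl fl
      have q1 : gl (vf H v) (FLw H a v l) t1 =
          FLw H (a + π.1.sum.2.1) (v + dsp π) (glu v l π) := by
        rw [c1, fl_glu (Geo0.of_geo hg) hf hl fl]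
      have q2 := c2 (glu v l π) (Pool.Agent.KTop.lower_glu hg hl) (fits_glu hf fl)
      have q3 : gl v l (π :: s') = gl (v + dsp π) (glu v l π) s' := rfl
      rw [Pool.Agent.KTop.gl_append, e1', q1, q3, ed_cons, hash, ← add_assoc]
      exact q2
    · rw [hmkt, List.length_append, mk_cons]
      split_ifs with hu
      · exact m2.trans (Nat.le_add_left _ _)
      · have h4 := mark_f ⟨hg, hu⟩ hf g1 e1' c1
        have h5 : 1 ≤ (mk (vf H v) t1).length := List.length_pos_of_ne_nil h4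
        rw [List.length_cons]
        omega
    · intro ρ hρ
      rcases List.mem_append.1 hρ with h4 | h4
      · exact k1 _ _ (cl_fpr hg.stA hg.stB hf) ρ h4
      · exact k2 ρ h4
    · intro hlen hbig m hm
      rw [hmkt, List.length_append] at hlen
      rw [hmkt, List.mem_append] at hm
      rw [mk_cons] at hlen hbig
      by_cases hu : Unk v π
      · rw [if_pos hu] at hlen hbig
        have h4 : (mk (vf H v) t1).length = 0 := by omega
        have h5 : mk (vf H v) t1 = [] := List.length_eq_zero_iff.1 h4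
        rcases hm with hm | hm
        · rw [h5] at hm
          exact absurd hm List.not_mem_nil
        · exact f2 (by omega) hbig m hm
      · rw [if_neg hu] at hlen hbig
        rw [List.length_cons] at hlen
        have h4 := mark_f ⟨hg, hu⟩ hf g1 e1' c1
        have h5 : 1 ≤ (mk (vf H v) t1).length := List.length_pos_of_ne_nil h4
        rcases hm with hm | hm
        · refine (mark_far g1 ?_ m hm).1
          have h6 := hbig (v, π) List.mem_cons_self
          have h7 := nh_fpr hg.stA hg.stB hf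
          rw [n1]
          have h8 : (nh (FPr H a v π) : ℤ) < nrm (vf H v) := lt_of_le_of_lt h7 h6
          exact_mod_cast h8
        · exact f2 (by omega) (fun m' hm' => hbig m' (List.mem_cons_of_mem _ hm')) m hm

private theorem cf_fits (l : List P3) : ∃ B : ℕ, ∀ (H : ℕ) (a : ℤ), (B : ℤ) ≤ a →
    (B : ℤ) ≤ H - a → Fits H a l := by
  induction l with
  | nil => exact ⟨0, fun H a _ _ q hq => absurd hq List.not_mem_nil⟩
  | cons p l ih =>
    obtain ⟨B, hB⟩ := ih
    refine ⟨B + p.2.1.natAbs, fun H a h1 h2 q hq => ?_⟩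
    rcases List.mem_cons.1 hq with rfl | hq
    · omega
    · exact hB H a (by omega) (by omega) q hq

private theorem cf_htw (w : List P3) : ∃ B : ℕ, ∀ (H : ℕ) (a : ℤ), (B : ℤ) ≤ a →
    (B : ℤ) ≤ H - a → HtW H a w := by
  obtain ⟨B, hB⟩ := cf_fits (wk (0, 0, 0) w)
  refine ⟨B, fun H a h1 h2 q hq => ?_⟩
  obtain ⟨A, C, hAC, hq'⟩ := mem_wk.1 hq
  have h3 := hB H a h1 h2 ((0, 0, 0) + A.sum) (mem_wk.2 ⟨A, C, hAC, rfl⟩)
  rw [hq']
  simp only [Prod.snd_add, Prod.fst_add, zero_add] at h3 ⊢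
  constructor
  · linarith [h3.1]
  · linarith [h3.2]

private theorem cf_fitc (s : List PP) : ∀ v : ℤ × ℤ, ∃ B : ℕ, ∀ (H : ℕ) (a : ℤ), (B : ℤ) ≤ a →
    (B : ℤ) ≤ H - a → FitC H a v s := by
  induction s with
  | nil => exact fun v => ⟨0, fun H a _ _ => trivial⟩
  | cons π s ih =>
    intro v
    obtain ⟨B1, h1⟩ := cf_htw π.1
    obtain ⟨B2, h2⟩ := cf_htw π.2
    obtain ⟨B3, h3⟩ := ih (v + dsp π)
    refine ⟨B1 + B2 + B3 + v.2.natAbs + π.1.sum.2.1.natAbs, fun H a h4 h5 => ?_⟩
    refine ⟨⟨h1 H a (by omega) (by omega), h2 H (a + v.2) (by omega) (by omega)⟩, ?_⟩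
    exact h3 H (a + π.1.sum.2.1) (by omega) (by omega)

/-- All heights are bounded: there is `B : ℕ` such that all heights of the points of the strands (relative to the first column) and of `l`
and `r` are in `[-B, B]`, together with `0`, `v.2`; take `a = B` and `H = 2 B`. (Induction on `s`: the statement for all large `a` and `H - a`.) -/
theorem exists_fit (v : ℤ × ℤ) (s : List PP) (l r : List P3) :
    ∃ (H : ℕ) (a : ℤ), FitC H a v s ∧ Fits H a l ∧ Fits H (a + (ash s).2) r ∧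
      0 ≤ a ∧ a ≤ H ∧ 0 ≤ a + v.2 ∧ a + v.2 ≤ H := by
  obtain ⟨B1, h1⟩ := cf_fitc s v
  obtain ⟨B2, h2⟩ := cf_fits l
  obtain ⟨B3, h3⟩ := cf_fits r
  obtain ⟨B, hB⟩ : ∃ B : ℕ, B = B1 + B2 + B3 + v.2.natAbs + (ash s).2.natAbs := ⟨_, rfl⟩
  have hB' : (B : ℤ) = B1 + B2 + B3 + |v.2| + |(ash s).2| := by
    rw [hB]
    push_cast
    rfl
  have ha := abs_le.1 (le_refl |v.2|)
  have hb := abs_le.1 (le_refl |(ash s).2|)
  have e : (((2 * B : ℕ) : ℤ)) = 2 * B := by push_cast; rfl
  refine ⟨2 * B, B, h1 _ _ ?_ ?_, h2 _ _ ?_ ?_, h3 _ _ ?_ ?_, ?_, ?_, ?_, ?_⟩ <;>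
    (try rw [e]) <;> linarith [ha.1, ha.2, hb.1, hb.2, abs_nonneg v.2, abs_nonneg (ash s).2,
      Int.natCast_nonneg B1, Int.natCast_nonneg B2, Int.natCast_nonneg B3]

end Pool.Agent.KFlat
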