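import Pool.Agent.KFlat.DefsB

/-! FB4: the lattice points of different new edges and vertices are different. -/

set_option autoImplicit false

open Pool.Agent.LK

namespace Pool.Agent.KFlat

/-- The points over the new column of a vertex. -/
def VP (H : ℕ) (u : P3) : Set P3 := {q | q.1 = X0 H u ∧ q.2.2 = Z0 H u}

/-- The lattice points inside the new edge. -/
def EP (H : ℕ) (u : P3) : Ax → Set P3
  | .x => {q | q.2.2 = Z0 H u ∧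
      ((q.2.1 = 0 ∧ X0 H u < q.1 ∧ q.1 ≤ mH H * (u.1 + 1) - 1) ∨
        (q.2.1 = 1 ∧ mH H * (u.1 + 1) - 1 ≤ q.1 ∧ q.1 < X0 H u + mH H))}
  | .z => {q | q.1 = X0 H u ∧
      ((q.2.1 = 0 ∧ Z0 H u < q.2.2 ∧ q.2.2 ≤ mH H * (u.2.2 + 1) - 1) ∨
        (q.2.1 = 1 ∧ mH H * (u.2.2 + 1) - 1 ≤ q.2.2 ∧ q.2.2 < Z0 H u + mH H))}
  | .y => {q | q = (X0 H u + 1, 1, Z0 H u) ∨ q = (X0 H u + 1, 1, Z0 H u + 1) ∨
      q = (X0 H u + 1, 0, Z0 H u + 1) ∨ q = (X0 H u + 2, 0, Z0 H u + 1)}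

private theorem dj_tri {m : ℤ} (hm : 0 < m) (i j : ℤ) :
    (i = j ∧ m * i = m * j) ∨ (i + 1 ≤ j ∧ m * i + m ≤ m * j) ∨
      (j + 1 ≤ i ∧ m * j + m ≤ m * i) := by
  rcases lt_trichotomy i j with h | h | h
  · refine Or.inr (Or.inl ⟨h, ?_⟩)
    have h1 : m * (i + 1) ≤ m * j := mul_le_mul_of_nonneg_left h hm.le
    linarith
  · exact Or.inl ⟨h, by rw [h]⟩
  · refine Or.inr (Or.inr ⟨h, ?_⟩)
    have h1 : m * (j + 1) ≤ m * i := mul_le_mul_of_nonneg_left h hm.le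
    linarith

private theorem dj_ev (H : ℕ) (i : ℤ) : ∃ k : ℤ, mH H * i = 2 * k :=
  ⟨(H + 1) * i, by unfold mH; ring⟩

private theorem dj_m (H : ℕ) (i : ℤ) : mH H * (i + 1) = mH H * i + mH H := by ring

variable {H : ℕ} {u u' q : P3} {a a' : Ax}

/-- `eucl`: the remainders of the coordinates are `2 u₂`. -/
theorem dj_vv (h0 : 0 ≤ u.2.1) (h1 : u.2.1 ≤ H) (h0' : 0 ≤ u'.2.1) (h1' : u'.2.1 ≤ H)
    (hq : q ∈ VP H u) (hq' : q ∈ VP H u') : u = u' := by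
  obtain ⟨a, b, c⟩ := u
  obtain ⟨a', b', c'⟩ := u'
  obtain ⟨x, y, z⟩ := q
  simp only [VP, X0, Z0, Set.mem_setOf_eq] at *
  have hm : mH H = 2 * H + 2 := rfl
  have t1 := dj_tri (mH_pos H) a a'
  have t3 := dj_tri (mH_pos H) c c'
  have h5 : a = a' ∧ b = b' ∧ c = c' := by
    rcases t1 with t1 | t1 | t1 <;> rcases t3 with t3 | t3 | t3 <;> omega
  obtain ⟨h5, h6, h7⟩ := h5
  rw [h5, h6, h7]

/-- `m = mH H = 2 H + 2`. `a = x`: `q.2.2 = m u₃ + 2 u₂ = m u₃' + 2 u₂'`, so `u₂ = u₂'`, and `q.1 = m u₁' + 2 u₂` with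
`m u₁ + 2 u₂ < q.1 < m u₁ + 2 u₂ + m` (in both layers), impossible. `a = z`: the same. `a = y`: one of the coordinates of `q` is
odd. -/
theorem dj_ve (h0 : 0 ≤ u.2.1) (h1 : u.2.1 + (Ax.v a).2.1 ≤ H) (h0' : 0 ≤ u'.2.1)
    (h1' : u'.2.1 ≤ H) (hq : q ∈ EP H u a) (hq' : q ∈ VP H u') : False := by
  obtain ⟨x, y, z⟩ := q
  obtain ⟨i, b, c⟩ := u
  obtain ⟨i', b', c'⟩ := u'
  have hm : mH H = 2 * H + 2 := rfl
  have t1 := dj_tri (mH_pos H) i i'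
  have t3 := dj_tri (mH_pos H) c c'
  obtain ⟨k1, e1⟩ := dj_ev H i
  obtain ⟨k2, e2⟩ := dj_ev H c
  obtain ⟨k3, e3⟩ := dj_ev H i'
  obtain ⟨k4, e4⟩ := dj_ev H c'
  cases a
  · simp only [EP, VP, X0, Z0, Set.mem_setOf_eq, Ax.v, dj_m] at *
    rcases t1 with t1 | t1 | t1 <;> rcases t3 with t3 | t3 | t3 <;> omega
  · simp only [EP, VP, X0, Z0, Set.mem_setOf_eq, Ax.v, dj_m, Prod.mk.injEq] at *
    rcases t1 with t1 | t1 | t1 <;> rcases t3 with t3 | t3 | t3 <;> omega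
  · simp only [EP, VP, X0, Z0, Set.mem_setOf_eq, Ax.v, dj_m] at *
    rcases t1 with t1 | t1 | t1 <;> rcases t3 with t3 | t3 | t3 <;> omega

/-- Let `r = u₂`, `r' = u₂'`.
`x`, `x`: the same row, so `r = r'`, `u₃ = u₃'` (`eucl`); layer `0`: `q.1 - m u₁ ∈ (2 r, m - 1]`, layer `1`:
`q.1 - (m (u₁ + 1) - 1) ∈ [0, 2 r]`, `2 r < m`, so `u₁ = u₁'`. `z`, `z` the same.
`x`, `z` (`u` in the direction `x`): `q.2.2 = m u₃ + 2 r`, `q.1 = m u₁' + 2 r'`. Layer `0`: `m u₁ + 2 r < m u₁' + 2 r' ≤ m u₁ + m - 1`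
gives `u₁' = u₁`, `r < r'`; `m u₃' + 2 r' < m u₃ + 2 r ≤ m u₃' + m - 1` gives `r' < r`. Layer `1`:
`m (u₁ + 1) - 1 ≤ m u₁' + 2 r' < m (u₁ + 1) + 2 r` gives (parity) `u₁' = u₁ + 1`, `r' < r`; in the same way `r < r'`.
`x` (`u`), `y` (`u'`, `r' + 1 ≤ H`): `q.2.2` is even, so `q = (X0 H u' + 1, 1, Z0 H u')`, `r = r'`, `u₃ = u₃'`, and
`m (u₁ + 1) - 1 ≤ m u₁' + 2 r + 1 < m (u₁ + 1) + 2 r`: the second inequality gives `u₁' ≤ u₁`, the first one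
`m (u₁ + 1 - u₁') ≤ 2 r + 2 < m`, so `u₁' > u₁`.
`z` (`u`), `y` (`u'`): `q.1` is even, so `q = (X0 H u' + 2, 0, Z0 H u' + 1)`, `r = r' + 1`, `u₁ = u₁'`, layer `0`:
`m u₃ + 2 r < m u₃' + 2 r - 1 ≤ m u₃ + m - 1`, impossible (`r ≥ 1`).
`y`, `y`: the offsets `(1, 0)`, `(1, 1)`, `(1, 1)`, `(2, 1)` have the layers `1, 1, 0, 0`; by parity the offsets are the same, and
`2 r + 2 < m`, so `u = u'` (`eucl`). -/
theorem dj_ee (h0 : 0 ≤ u.2.1) (h1 : u.2.1 + (Ax.v a).2.1 ≤ H) (h0' : 0 ≤ u'.2.1)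
    (h1' : u'.2.1 + (Ax.v a').2.1 ≤ H) (hq : q ∈ EP H u a) (hq' : q ∈ EP H u' a') :
    u = u' ∧ a = a' := by
  obtain ⟨x, y, z⟩ := q
  obtain ⟨i, b, c⟩ := u
  obtain ⟨i', b', c'⟩ := u'
  have hm : mH H = 2 * H + 2 := rfl
  have t1 := dj_tri (mH_pos H) i i'
  have t3 := dj_tri (mH_pos H) c c'
  obtain ⟨k1, e1⟩ := dj_ev H i
  obtain ⟨k2, e2⟩ := dj_ev H c
  obtain ⟨k3, e3⟩ := dj_ev H i'
  obtain ⟨k4, e4⟩ := dj_ev H c'
  have key : (i = i' ∧ b = b' ∧ c = c') ∧ a = a' := by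
    cases a <;> cases a' <;>
      simp only [EP, X0, Z0, Set.mem_setOf_eq, Ax.v, dj_m, Prod.mk.injEq, reduceCtorEq,
        and_true, and_false] at * <;>
      rcases t1 with t1 | t1 | t1 <;> rcases t3 with t3 | t3 | t3 <;> omega
  obtain ⟨⟨h5, h6, h7⟩, h8⟩ := key
  exact ⟨by rw [h5, h6, h7], h8⟩

end Pool.Agent.KFlat
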