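import Pool.Agent.KFlat.DefsA

/-! FA10: the directions in which the columns are moved. -/

set_option autoImplicit false

open Set

namespace Pool.Agent.KFlat

open Pool.Agent.LK

/-- The columns are moved in the layer `0` in the direction of the edge that begins or ends there in the layer `0`. -/
structure GoodD (H : ℕ) (E : Finset (Sym2 P3)) (D : ℤ → ℤ → ℝ × ℝ) : Prop where
  le : ∀ i k, |(D i k).1| ≤ 1 ∧ |(D i k).2| ≤ 1
  vx : ∀ u, s(u, u + Ax.v .x) ∈ E → (Top E u → D (X0 H u) (Z0 H u) = (1, 0)) ∧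
    (¬ Top E u → D (X0 H u) (Z0 H u) = (0, 0))
  vz : ∀ u, s(u, u + Ax.v .z) ∈ E → (Top E u → D (X0 H u) (Z0 H u) = (0, 1)) ∧
    (¬ Top E u → D (X0 H u) (Z0 H u) = (0, 0))
  vy : ∀ u, s(u, u + Ax.v .y) ∈ E →
    (Top E (u + (0, 1, 0)) → D (X0 H u + 2) (Z0 H u + 2) = (0, -1)) ∧
    (¬ Top E (u + (0, 1, 0)) → D (X0 H u + 2) (Z0 H u + 2) = (0, 0))
  col : ∀ i k r : ℤ, 0 ≤ r → r ≤ H → D (mH H * (i + 1) - 1) (mH H * k + 2 * r) = (-1, 0)
  row : ∀ i k r : ℤ, 0 ≤ r → r ≤ H → D (mH H * i + 2 * r) (mH H * (k + 1) - 1) = (0, -1)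
  mid : ∀ i k r : ℤ, 0 ≤ r → r < H → D (mH H * i + 2 * r + 1) (mH H * k + 2 * r + 1) = (1, 0)
  ox : ∀ i k q r : ℤ, 0 ≤ q → q < mH H - 1 → 0 ≤ r → r ≤ H → q ≠ 2 * r →
    D (mH H * i + q) (mH H * k + 2 * r) = (0, 0)
  oz : ∀ i k q r : ℤ, 0 ≤ q → q < mH H - 1 → 0 ≤ r → r ≤ H → q ≠ 2 * r →
    D (mH H * i + 2 * r) (mH H * k + q) = (0, 0)

open Classical in
/-- The directions in terms of quotients and remainders. -/
private noncomputable def Df (H : ℕ) (E : Finset (Sym2 P3)) (a ξ b ζ : ℤ) : ℝ × ℝ :=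
  if ξ = ζ ∧ ξ % 2 = 0 then
    if ¬ Top E (a, ξ / 2, b) then (0, 0)
    else if s((a, ξ / 2, b), (a, ξ / 2, b) + (1, 0, 0)) ∈ E then (1, 0)
    else if s((a, ξ / 2, b), (a, ξ / 2, b) + (0, 0, 1)) ∈ E then (0, 1)
    else if s((a, ξ / 2, b), (a, ξ / 2, b) + (0, -1, 0)) ∈ E then (0, -1)
    else (0, 0)
  else if ξ = mH H - 1 ∧ ζ % 2 = 0 then (-1, 0)
  else if ζ = mH H - 1 ∧ ξ % 2 = 0 then (0, -1)
  else if ξ = ζ then (1, 0)
  else (0, 0)

private noncomputable def Dp (H : ℕ) (E : Finset (Sym2 P3)) (i k : ℤ) : ℝ × ℝ :=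
  Df H E (i / mH H) (i % mH H) (k / mH H) (k % mH H)

private theorem Dp_eq {H : ℕ} {E : Finset (Sym2 P3)} {i k a b ξ ζ : ℤ} (hi : i = mH H * a + ξ)
    (hk : k = mH H * b + ζ) (h1 : 0 ≤ ξ) (h2 : ξ < mH H) (h3 : 0 ≤ ζ) (h4 : ζ < mH H) :
    Dp H E i k = Df H E a ξ b ζ := by
  have h5 := (Int.ediv_emod_unique (mH_pos H) (a := i) (q := a) (r := ξ)).2
    ⟨by rw [hi]; ring, h1, h2⟩
  have h6 := (Int.ediv_emod_unique (mH_pos H) (a := k) (q := b) (r := ζ)).2
    ⟨by rw [hk]; ring, h3, h4⟩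
  unfold Dp
  rw [h5.1, h5.2, h6.1, h6.2]

private theorem no3 {E : Finset (Sym2 P3)} (hP : IsPolygon E) {u a b c : P3}
    (hu : u ∈ verts E) (ha : s(u, u + a) ∈ E) (hb : s(u, u + b) ∈ E) (hc : s(u, u + c) ∈ E)
    (hab : a ≠ b) (hac : a ≠ c) (hbc : b ≠ c) : False := by
  obtain ⟨x, y, -, hs⟩ := Set.ncard_eq_two.1 (hP.deg u hu)
  have h1 : u + a ∈ ({x, y} : Set P3) := hs ▸ ha
  have h2 : u + b ∈ ({x, y} : Set P3) := hs ▸ hb
  have h3 : u + c ∈ ({x, y} : Set P3) := hs ▸ hc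
  simp only [Set.mem_insert_iff, Set.mem_singleton_iff] at h1 h2 h3
  rcases h1 with h1 | h1 <;> rcases h2 with h2 | h2 <;> rcases h3 with h3 | h3
  · exact hab (add_left_cancel (h1.trans h2.symm))
  · exact hab (add_left_cancel (h1.trans h2.symm))
  · exact hac (add_left_cancel (h1.trans h3.symm))
  · exact hbc (add_left_cancel (h2.trans h3.symm))
  · exact hbc (add_left_cancel (h2.trans h3.symm))
  · exact hac (add_left_cancel (h1.trans h3.symm))
  · exact hab (add_left_cancel (h1.trans h2.symm))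
  · exact hab (add_left_cancel (h1.trans h2.symm))

private theorem top3 {E : Finset (Sym2 P3)} (hP : IsPolygon E) {u a b : P3}
    (hu : u ∈ verts E) (hT : Top E u) (ha : s(u, u + a) ∈ E) (hb : s(u, u + b) ∈ E)
    (hab : a ≠ b) (ha1 : a ≠ (-1, 0, 0)) (ha2 : a ≠ (0, 0, -1)) (ha3 : a ≠ (0, 1, 0))
    (hb1 : b ≠ (-1, 0, 0)) (hb2 : b ≠ (0, 0, -1)) (hb3 : b ≠ (0, 1, 0)) : False := by
  rcases hT with h | h | h
  · exact no3 hP hu ha hb h hab ha1 hb1
  · exact no3 hP hu ha hb h hab ha2 hb2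
  · exact no3 hP hu ha hb h hab ha3 hb3

private theorem Dp_vert {H : ℕ} {E : Finset (Sym2 P3)} {u : P3} (h1 : 0 ≤ u.2.1)
    (h2 : u.2.1 ≤ H) : Dp H E (X0 H u) (Z0 H u) = Df H E u.1 (2 * u.2.1) u.2.2 (2 * u.2.1) := by
  have h3 : (2 * u.2.1) < mH H := by
    unfold mH
    omega
  exact Dp_eq rfl rfl (by omega) h3 (by omega) h3

private theorem Df_vert {H : ℕ} {E : Finset (Sym2 P3)} {u : P3} [Decidable (Top E u)]
    [Decidable (s(u, u + (1, 0, 0)) ∈ E)] [Decidable (s(u, u + (0, 0, 1)) ∈ E)]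
    [Decidable (s(u, u + (0, -1, 0)) ∈ E)] :
    Df H E u.1 (2 * u.2.1) u.2.2 (2 * u.2.1) = if ¬ Top E u then (0, 0)
      else if s(u, u + (1, 0, 0)) ∈ E then (1, 0)
      else if s(u, u + (0, 0, 1)) ∈ E then (0, 1)
      else if s(u, u + (0, -1, 0)) ∈ E then (0, -1)
      else (0, 0) := by
  have h1 : (2 * u.2.1) / 2 = u.2.1 := by omega
  have h2 : (2 * u.2.1) % 2 = 0 := by omega
  have h3 : ((u.1, u.2.1, u.2.2) : P3) = u := rfl
  unfold Df
  rw [if_pos ⟨rfl, h2⟩, h1, h3]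
  congr

/-- PROOF. Let `m = mH H`, `ξ = i % m`, `ζ = k % m`, `u = (i / m, ξ / 2, k / m)`. Define (classically) `D i k` by: if `ξ = ζ` and
`ξ % 2 = 0` then (if `¬ Top E u` then `(0, 0)` else if `s(u, u + (1, 0, 0)) ∈ E` then `(1, 0)` else if
`s(u, u + (0, 0, 1)) ∈ E` then `(0, 1)` else if `s(u, u + (0, -1, 0)) ∈ E` then `(0, -1)` else `(0, 0)`); else if `ξ = m - 1` and
`ζ % 2 = 0` then `(-1, 0)`; else if `ζ = m - 1` and `ξ % 2 = 0` then `(0, -1)`; else if `ξ = ζ` then `(1, 0)`; else `(0, 0)`.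
For a vertex `u` of `E` (heights in `[0, H]` by `Ht`) the point `(X0 H u, Z0 H u)` has `ξ = ζ = 2 u₂` and gives `u`
back (`Int.emod_emod_of_dvd`, `Int.add_mul_emod_self`, or `eucl`). For `vx` the first choice is taken. For `vz`: if `Top E u`
then `s(u, u + (1, 0, 0)) ∉ E`: otherwise `u` has three different neighbours (in the directions `(1, 0, 0)`, `(0, 0, 1)` and one
of the directions of `Top`), in contradiction to `IsPolygon.deg`. For `vy` with `u' = u + (0, 1, 0)`,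
`(X0 H u + 2, Z0 H u + 2) = (X0 H u', Z0 H u')`, `s(u', u' + (0, -1, 0)) ∈ E`: if `Top E u'` then `u'` has no edge in the directions
`(1, 0, 0)` and `(0, 0, 1)` for the same reason. `m - 1 = 2 H + 1` is odd, so the cases `col`, `row`, `mid`, `ox`, `oz` follow from
the remainders. -/
theorem exists_goodD {H : ℕ} {E : Finset (Sym2 P3)} (hP : IsPolygon E) (hE : Ht H E) :
    ∃ D, GoodD H E D := by
  classical
  have hl : ∀ u v, s(u, v) ∈ E → u ∈ verts E := fun u v h => ⟨v, h⟩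
  refine ⟨Dp H E, ?_, ?_, ?_, ?_, ?_, ?_, ?_, ?_, ?_⟩
  · intro i k
    unfold Dp Df
    split_ifs <;> norm_num
  · intro u hu
    have hu1 := hl u _ hu
    obtain ⟨h1, h2⟩ := hE u hu1
    rw [Dp_vert h1 h2, Df_vert]
    refine ⟨fun hT => ?_, fun hT => ?_⟩
    · rw [if_neg (not_not.2 hT)]
      exact if_pos hu
    · exact if_pos hT
  · intro u hu
    have hu1 := hl u _ hu
    obtain ⟨h1, h2⟩ := hE u hu1
    rw [Dp_vert h1 h2, Df_vert]
    refine ⟨fun hT => ?_, fun hT => ?_⟩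
    · have h3 : s(u, u + (1, 0, 0)) ∉ E := fun h => by
        refine top3 hP hu1 hT h hu ?_ ?_ ?_ ?_ ?_ ?_ ?_ <;> simp [Ax.v]
      rw [if_neg (not_not.2 hT), if_neg h3]
      exact if_pos hu
    · exact if_pos hT
  · intro u hu
    have hu2 : s(u + (0, 1, 0), (u + (0, 1, 0)) + (0, -1, 0)) ∈ E := by
      have h3 : (u + (0, 1, 0)) + (0, -1, 0) = u := by
        ext <;> simp
      rw [h3, Sym2.eq_swap]
      exact hu
    have hu1 := hl _ _ hu2
    obtain ⟨h1, h2⟩ := hE _ hu1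
    have hX : X0 H u + 2 = X0 H (u + (0, 1, 0)) := by
      simp only [X0, Prod.fst_add, Prod.snd_add]
      ring
    have hZ : Z0 H u + 2 = Z0 H (u + (0, 1, 0)) := by
      simp only [Z0, Prod.fst_add, Prod.snd_add]
      ring
    rw [hX, hZ, Dp_vert h1 h2, Df_vert]
    refine ⟨fun hT => ?_, fun hT => ?_⟩
    · have h3 : s(u + (0, 1, 0), (u + (0, 1, 0)) + (1, 0, 0)) ∉ E := fun h => by
        refine top3 hP hu1 hT h hu2 ?_ ?_ ?_ ?_ ?_ ?_ ?_ <;> simp
      have h4 : s(u + (0, 1, 0), (u + (0, 1, 0)) + (0, 0, 1)) ∉ E := fun h => by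
        refine top3 hP hu1 hT h hu2 ?_ ?_ ?_ ?_ ?_ ?_ ?_ <;> simp
      rw [if_neg (not_not.2 hT), if_neg h3, if_neg h4]
      exact if_pos hu2
    · exact if_pos hT
  · intro i k r h0 h1
    have hm := mH_pos H
    rw [Dp_eq (a := i) (ξ := mH H - 1) (b := k) (ζ := 2 * r) (by ring) rfl (by omega) (by omega)
      (by omega) (by unfold mH; omega)]
    unfold Df
    rw [if_neg (by unfold mH; omega), if_pos ⟨rfl, by omega⟩]
  · intro i k r h0 h1
    have hm := mH_pos H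
    rw [Dp_eq (a := i) (ξ := 2 * r) (b := k) (ζ := mH H - 1) rfl (by ring) (by omega)
      (by unfold mH; omega) (by omega) (by omega)]
    unfold Df
    rw [if_neg (by unfold mH; omega), if_neg (by unfold mH; omega), if_pos ⟨rfl, by omega⟩]
  · intro i k r h0 h1
    rw [Dp_eq (a := i) (ξ := 2 * r + 1) (b := k) (ζ := 2 * r + 1) (by ring) (by ring) (by omega)
      (by unfold mH; omega) (by omega) (by unfold mH; omega)]
    unfold Df
    rw [if_neg (by omega), if_neg (by omega), if_neg (by omega), if_pos rfl]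
  · intro i k q r h0 h1 h2 h3 h4
    rw [Dp_eq (a := i) (ξ := q) (b := k) (ζ := 2 * r) rfl rfl h0
      (by omega) (by omega) (by unfold mH; omega)]
    unfold Df
    rw [if_neg (fun h => h4 h.1), if_neg (by omega), if_neg (by unfold mH; omega), if_neg h4]
  · intro i k q r h0 h1 h2 h3 h4
    rw [Dp_eq (a := i) (ξ := 2 * r) (b := k) (ζ := q) rfl rfl (by omega)
      (by unfold mH; omega) h0 (by omega)]
    unfold Df
    rw [if_neg (fun h => h4 h.1.symm), if_neg (by unfold mH; omega), if_neg (by omega),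
      if_neg (fun h => h4 h.symm)]

end Pool.Agent.KFlat
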