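import Pool.Agent.MP_aea6d5_co.KDefs

/-! Flattening of a polygon into two layers: definitions, geometric part.

A polygon with heights (second coordinates) in `{0, …, H}` is deformed to a polygon with heights in
`{0, 1}`. The mesh is `mH H = 2 H + 2`; the vertex `u` moves to the column
`(X0 H u, Z0 H u) = (m u₁ + 2 u₂, m u₃ + 2 u₂)`. -/

set_option autoImplicit false

open Set

namespace Pool.Agent.KFlat

open Pool.Agent.LK

/-- The mesh. -/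
def mH (H : ℕ) : ℤ := 2 * H + 2

/-- The first coordinate of the new column of `u`. -/
def X0 (H : ℕ) (u : P3) : ℤ := mH H * u.1 + 2 * u.2.1

/-- The last coordinate of the new column of `u`. -/
def Z0 (H : ℕ) (u : P3) : ℤ := mH H * u.2.2 + 2 * u.2.1

/-- The axes. -/
inductive Ax
  | x
  | y
  | z

/-- The unit vector of an axis. -/
def Ax.v : Ax → P3
  | .x => (1, 0, 0)
  | .y => (0, 1, 0)
  | .z => (0, 0, 1)

/-- The length of the plane image of an edge. -/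
def leN (H : ℕ) : Ax → ℕ
  | .x => 2 * H + 2
  | .y => 4
  | .z => 2 * H + 2

/-- The truncation to `[0, 1]`. -/
noncomputable def cl (t : ℝ) : ℝ := max 0 (min 1 t)

/-- The plane image of the edge from `u` to `u + a`. -/
noncomputable def gm (H : ℕ) (u : P3) : Ax → ℝ → ℝ × ℝ
  | .x, t => ((X0 H u : ℝ) + t, (Z0 H u : ℝ))
  | .y, t => ((X0 H u : ℝ) + (cl t + cl (t - 2)), (Z0 H u : ℝ) + (cl (t - 1) + cl (t - 3)))
  | .z, t => ((X0 H u : ℝ), (Z0 H u : ℝ) + t)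

/-- The old heights over the plane image. -/
noncomputable def hm (u : P3) : Ax → ℝ → ℝ
  | .x, _ => (u.2.1 : ℝ)
  | .y, t => (u.2.1 : ℝ) + t / 4
  | .z, _ => (u.2.1 : ℝ)

/-- The vertex `u` has an edge that leaves in the layer `1`. -/
def Top (E : Finset (Sym2 P3)) (u : P3) : Prop :=
  s(u, u + (-1, 0, 0)) ∈ E ∨ s(u, u + (0, 0, -1)) ∈ E ∨ s(u, u + (0, 1, 0)) ∈ E

/-- The vertex `u` has an edge that leaves in the layer `0`. -/
def Bot (E : Finset (Sym2 P3)) (u : P3) : Prop :=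
  s(u, u + (1, 0, 0)) ∈ E ∨ s(u, u + (0, 0, 1)) ∈ E ∨ s(u, u + (0, -1, 0)) ∈ E

open Classical in
/-- The new height of the vertex `u`. -/
noncomputable def mu (E : Finset (Sym2 P3)) (u : P3) : ℝ := if Top E u then 1 else 0

/-- The new heights over the plane image. -/
noncomputable def em (H : ℕ) (E : Finset (Sym2 P3)) (u : P3) : Ax → ℝ → ℝ
  | .x, t => max (mu E u * (1 - 8 * t)) (cl (8 * (t - (mH H - 1 - 2 * u.2.1)) + 1))
  | .y, t => max (cl (1 - 8 * (t - 2))) (mu E (u + (0, 1, 0)) * (1 - 8 * (4 - t)))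
  | .z, t => max (mu E u * (1 - 8 * t)) (cl (8 * (t - (mH H - 1 - 2 * u.2.1)) + 1))

/-- The heights of the polygon are in `{0, …, H}`. -/
def Ht (H : ℕ) (E : Finset (Sym2 P3)) : Prop := ∀ u ∈ verts E, 0 ≤ u.2.1 ∧ u.2.1 ≤ H

/-- The plane images with the old heights. -/
def CH (H : ℕ) (E : Finset (Sym2 P3)) : Set R3 :=
  {p | ∃ (u : P3) (a : Ax) (t : ℝ), s(u, u + Ax.v a) ∈ E ∧ 0 ≤ t ∧ t ≤ leN H a ∧
    p = ((gm H u a t).1, hm u a t, (gm H u a t).2)}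

/-- The plane images with the new heights. -/
def CE (H : ℕ) (E : Finset (Sym2 P3)) : Set R3 :=
  {p | ∃ (u : P3) (a : Ax) (t : ℝ), s(u, u + Ax.v a) ∈ E ∧ 0 ≤ t ∧ t ≤ leN H a ∧
    p = ((gm H u a t).1, em H E u a t, (gm H u a t).2)}

/-- The relation between the differences of the old heights and of the new heights. -/
def OrdR (κ Λ s d : ℝ) : Prop :=
  (0 ≤ s → κ * s ≤ d ∧ d ≤ Λ * s) ∧ (s ≤ 0 → Λ * s ≤ d ∧ d ≤ κ * s)

/-! ### The flattened polygon as a subset of space -/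

/-- The new edge from `u` in the first direction: in the layer `0` to `x = m (u₁ + 1) - 1`, there up,
then in the layer `1`. -/
def PX (H : ℕ) (u : P3) : Set R3 :=
  {p | p.2.2 = Z0 H u ∧
    ((p.2.1 = 0 ∧ (X0 H u : ℝ) ≤ p.1 ∧ p.1 ≤ mH H * (u.1 + 1) - 1) ∨
      (p.1 = mH H * (u.1 + 1) - 1 ∧ 0 ≤ p.2.1 ∧ p.2.1 ≤ 1) ∨
      (p.2.1 = 1 ∧ (mH H * (u.1 + 1) - 1 : ℝ) ≤ p.1 ∧ p.1 ≤ X0 H u + mH H))}

/-- The same in the last direction. -/
def PZ (H : ℕ) (u : P3) : Set R3 :=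
  {p | p.1 = X0 H u ∧
    ((p.2.1 = 0 ∧ (Z0 H u : ℝ) ≤ p.2.2 ∧ p.2.2 ≤ mH H * (u.2.2 + 1) - 1) ∨
      (p.2.2 = mH H * (u.2.2 + 1) - 1 ∧ 0 ≤ p.2.1 ∧ p.2.1 ≤ 1) ∨
      (p.2.1 = 1 ∧ (mH H * (u.2.2 + 1) - 1 : ℝ) ≤ p.2.2 ∧ p.2.2 ≤ Z0 H u + mH H))}

/-- The new edge from `u` in the second direction: two unit steps in the layer `1`, then down, then
two unit steps in the layer `0`. -/
def PY (H : ℕ) (u : P3) : Set R3 :=
  {p | (p.2.1 = 1 ∧ p.2.2 = Z0 H u ∧ (X0 H u : ℝ) ≤ p.1 ∧ p.1 ≤ X0 H u + 1) ∨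
    (p.2.1 = 1 ∧ p.1 = X0 H u + 1 ∧ (Z0 H u : ℝ) ≤ p.2.2 ∧ p.2.2 ≤ Z0 H u + 1) ∨
    (p.1 = X0 H u + 1 ∧ p.2.2 = Z0 H u + 1 ∧ 0 ≤ p.2.1 ∧ p.2.1 ≤ 1) ∨
    (p.2.1 = 0 ∧ p.2.2 = Z0 H u + 1 ∧ (X0 H u + 1 : ℝ) ≤ p.1 ∧ p.1 ≤ X0 H u + 2) ∨
    (p.2.1 = 0 ∧ p.1 = X0 H u + 2 ∧ (Z0 H u + 1 : ℝ) ≤ p.2.2 ∧ p.2.2 ≤ Z0 H u + 2)}

/-- The segment between the layers at `u`. -/
def VS (H : ℕ) (u : P3) : Set R3 :=
  {p | p.1 = X0 H u ∧ p.2.2 = Z0 H u ∧ 0 ≤ p.2.1 ∧ p.2.1 ≤ 1}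

/-- The flattened polygon. -/
def FS (H : ℕ) (E : Finset (Sym2 P3)) : Set R3 :=
  {p | ∃ u, (s(u, u + Ax.v .x) ∈ E ∧ p ∈ PX H u) ∨ (s(u, u + Ax.v .y) ∈ E ∧ p ∈ PY H u) ∨
    (s(u, u + Ax.v .z) ∈ E ∧ p ∈ PZ H u) ∨ (Top E u ∧ Bot E u ∧ p ∈ VS H u)}

/-! ### Basic facts -/

theorem cl_nonneg (t : ℝ) : 0 ≤ cl t := le_max_left _ _

theorem cl_le (t : ℝ) : cl t ≤ 1 := max_le zero_le_one (min_le_left _ _)

theorem cl_of_le {t : ℝ} (h : t ≤ 0) : cl t = 0 := by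
  unfold cl
  rw [min_eq_right (h.trans zero_le_one), max_eq_left h]

theorem cl_of_ge {t : ℝ} (h : 1 ≤ t) : cl t = 1 := by
  unfold cl
  rw [min_eq_left h, max_eq_right zero_le_one]

theorem cl_of_mem {t : ℝ} (h : 0 ≤ t) (h' : t ≤ 1) : cl t = t := by
  unfold cl
  rw [min_eq_right h', max_eq_right h]

theorem cl_lip (s t : ℝ) : |cl s - cl t| ≤ |s - t| := by
  have h1 : |min 1 s - min 1 t| ≤ |s - t| := by
    simpa using abs_min_sub_min_le_max 1 s 1 t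
  have h2 : |max 0 (min 1 s) - max 0 (min 1 t)| ≤ |min 1 s - min 1 t| := by
    simpa using abs_max_sub_max_le_max 0 (min 1 s) 0 (min 1 t)
  exact h2.trans h1

theorem mu_nonneg (E : Finset (Sym2 P3)) (u : P3) : 0 ≤ mu E u := by
  unfold mu
  split_ifs <;> norm_num

theorem mu_le (E : Finset (Sym2 P3)) (u : P3) : mu E u ≤ 1 := by
  unfold mu
  split_ifs <;> norm_num

theorem mu_of_top {E : Finset (Sym2 P3)} {u : P3} (h : Top E u) : mu E u = 1 := if_pos h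

theorem mu_of_not {E : Finset (Sym2 P3)} {u : P3} (h : ¬ Top E u) : mu E u = 0 := if_neg h

theorem mH_pos (H : ℕ) : 0 < mH H := by unfold mH; omega

theorem OrdR.neg {κ Λ s d : ℝ} (h : OrdR κ Λ s d) : OrdR κ Λ (-s) (-d) := by
  refine ⟨fun h1 => ?_, fun h1 => ?_⟩
  · have := h.2 (by linarith)
    constructor <;> linarith [this.1, this.2]
  · have := h.1 (by linarith)
    constructor <;> linarith [this.1, this.2]

theorem OrdR.zero (κ Λ : ℝ) : OrdR κ Λ 0 0 := ⟨fun _ => by simp, fun _ => by simp⟩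

/-- Division with remainder by the mesh. -/
theorem eucl {H : ℕ} {i j r s : ℤ} (h : mH H * i + r = mH H * j + s) (hr : 0 ≤ r) (hr' : r < mH H)
    (hs : 0 ≤ s) (hs' : s < mH H) : i = j ∧ r = s := by
  have h1 : i = j := by
    rcases lt_trichotomy i j with h1 | h1 | h1
    · have : mH H * (i + 1) ≤ mH H * j := mul_le_mul_of_nonneg_left h1 (mH_pos H).le
      linarith
    · exact h1
    · have : mH H * (j + 1) ≤ mH H * i := mul_le_mul_of_nonneg_left h1 (mH_pos H).le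
      linarith
  subst h1
  exact ⟨rfl, by linarith⟩

end Pool.Agent.KFlat
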