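import Pool.Agent.KFlat.DefsA
import Pool.Agent.KTop.Comp
import Pool.Agent.KTop.Cats

/-! Flattening of a polygon into two layers: definitions, words.

A walk with the steps `w` from the height `y` becomes the walk with the steps `GW H y b w c`, from the layer `b` to the
layer `c` (`true` is the layer `1`). -/

set_option autoImplicit false

open Pool.Agent.LK

namespace Pool.Agent.KFlat

open Pool.Agent.KTube Pool.Agent.KRing Pool.Agent.KLog

/-- The height of a layer. -/
def lb (b : Bool) : ℤ := if b then 1 else 0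

/-- The new place of the vertex `u` in the layer `b`. -/
def VV (H : ℕ) (b : Bool) (u : P3) : P3 := (X0 H u, lb b, Z0 H u)

/-- The layer in which the edge in the direction `d` leaves; it arrives in the other layer. -/
def ou (d : P3) : Bool := decide (d = (-1, 0, 0) ∨ d = (0, 0, -1) ∨ d = (0, 1, 0))

/-- The step between the layers. -/
def fx (b c : Bool) : List P3 := if b = c then [] else if c then [(0, 1, 0)] else [(0, -1, 0)]

/-- `n` steps `d`. -/
def rp (n : ℤ) (d : P3) : List P3 := List.replicate n.toNat d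

/-- The new edge in the direction `d` from a vertex of the height `y`. -/
def fw (H : ℕ) (y : ℤ) (d : P3) : List P3 :=
  if d = (1, 0, 0) ∨ d = (0, 0, 1) then rp (mH H - 1 - 2 * y) d ++ (0, 1, 0) :: rp (2 * y + 1) d
  else if d = (-1, 0, 0) ∨ d = (0, 0, -1) then
    rp (2 * y + 1) d ++ (0, -1, 0) :: rp (mH H - 1 - 2 * y) d
  else if d = (0, 1, 0) then [(1, 0, 0), (0, 0, 1), (0, -1, 0), (1, 0, 0), (0, 0, 1)]
  else [(0, 0, -1), (-1, 0, 0), (0, 1, 0), (0, 0, -1), (-1, 0, 0)]

/-- The flattened walk from the height `y`, from the layer `b` to the layer `c`. -/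
def GW (H : ℕ) : ℤ → Bool → List P3 → Bool → List P3
  | _, b, [], c => fx b c
  | y, b, d :: w, c => fx b (ou d) ++ (fw H y d ++ GW H (y + d.2.1) (!ou d) w c)

/-- The steps of a walk given by its points. -/
def dl : List P3 → List P3
  | [] => []
  | [_] => []
  | p :: q :: l => (q - p) :: dl (q :: l)

/-- The steps backwards. -/
def rev (s : List P3) : List P3 := (s.map fun d => -d).reverse

/-- The flattened strand of a block. -/
def FB (H : ℕ) (y : ℤ) (s : List P3) : List P3 :=
  rp (2 * y) (0, 0, 1) ++ (GW H y true s false ++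
    (rp (mH H - 1 - 2 * (y + s.sum.2.1)) (0, 0, 1) ++ [(0, 1, 0)]))

/-- The steps of a flattened upper half. -/
def FUs (H : ℕ) (y : ℤ) (s : List P3) : List P3 :=
  rp (2 * y) (0, 0, 1) ++ (GW H y true s true ++ rp (2 * (y + s.sum.2.1)) (0, 0, -1))

/-- The steps of a flattened lower half. -/
def FLs (H : ℕ) (y : ℤ) (s : List P3) : List P3 :=
  (0, -1, 0) :: (rp (mH H - 1 - 2 * y) (0, 0, -1) ++ (GW H y false s false ++
    (rp (mH H - 1 - 2 * (y + s.sum.2.1)) (0, 0, 1) ++ [(0, 1, 0)])))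

/-- The new displacement. -/
def vf (H : ℕ) (v : ℤ × ℤ) : ℤ × ℤ := (mH H * v.1 + 2 * v.2, 0)

/-- The flattened lower half; its first column has the height `a` and its second column `v` the height `a + v.2`. -/
def FLw (H : ℕ) (a : ℤ) (v : ℤ × ℤ) (l : List P3) : List P3 :=
  wk ((vf H v).1, 0, 0) (FLs H (a + v.2) (dl l))

/-- The flattened upper half. -/
def FUp (H : ℕ) (a : ℤ) (r : List P3) : List P3 := wk (0, 0, 1) (FUs H a (dl r))

/-- The flattened block. -/
def FPr (H : ℕ) (a : ℤ) (v : ℤ × ℤ) (π : PP) : PP := (FB H a π.1, FB H (a + v.2) π.2)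

/-- The heights of the walk with the steps `w` from the height `y` are in `{0, …, H}`. -/
def HtW (H : ℕ) (y : ℤ) (w : List P3) : Prop :=
  ∀ q ∈ wk (0, y, 0) w, 0 ≤ q.2.1 ∧ q.2.1 ≤ H

/-- The points, raised by `a`, have heights in `{0, …, H}`. -/
def Fits (H : ℕ) (a : ℤ) (l : List P3) : Prop := ∀ q ∈ l, 0 ≤ q.2.1 + a ∧ q.2.1 + a ≤ H

/-- The block, raised by `a`, has heights in `{0, …, H}`. -/
def FitP (H : ℕ) (a : ℤ) (v : ℤ × ℤ) (π : PP) : Prop := HtW H a π.1 ∧ HtW H (a + v.2) π.2

/-- The chain of blocks, raised by `a`, has heights in `{0, …, H}`. -/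
def FitC (H : ℕ) : ℤ → ℤ × ℤ → List PP → Prop
  | _, _, [] => True
  | a, v, π :: s => FitP H a v π ∧ FitC H (a + π.1.sum.2.1) (v + dsp π) s

/-- The flattened blocks of a chain. -/
def FCh (H : ℕ) : ℤ → ℤ × ℤ → List PP → List PP
  | _, _, [] => []
  | a, v, π :: s => FPr H a v π :: FCh H (a + π.1.sum.2.1) (v + dsp π) s

/-- A closed walk from `p` with the steps `w` and with heights in `{0, …, H}`. -/
structure Clo (H : ℕ) (p : P3) (w : List P3) : Prop where
  ring : Ring (wk p w).tail
  sum : w.sum = 0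
  ht : ∀ q ∈ wk p w, 0 ≤ q.2.1 ∧ q.2.1 ≤ H

/-- The layer in which the walk arrives. -/
def lay (w : List P3) : Bool := !ou (w.getLastD 0)

/-- A pair of strands between two sections with two edges, possibly with further such sections between them. -/
structure Geo0 (v : ℤ × ℤ) (π : PP) : Prop where
  ne : v ≠ 0
  stA : Steps π.1
  stB : Steps π.2
  block : Block 0 (hgt π) 0 v (hz π.1.sum) (v + hz π.2.sum) (sdA π) (sdB v π)

theorem Geo0.of_geo {v : ℤ × ℤ} {π : PP} (h : Geo v π) : Geo0 v π := ⟨h.ne, h.stA, h.stB, h.block⟩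

/-- The pair of words leads from the layers `i` to the layers `j` with heights in `{0, 1}`. -/
structure CL (i j : ℤ × ℤ) (π : PP) : Prop where
  inA : ∀ q ∈ wk (0, 0, 1) π.1, 0 ≤ q.2.1 + i.1 ∧ q.2.1 + i.1 ≤ 1
  inB : ∀ q ∈ wk (0, 0, 1) π.2, 0 ≤ q.2.1 + i.2 ∧ q.2.1 + i.2 ≤ 1
  eA : i.1 + π.1.sum.2.1 = j.1
  eB : i.2 + π.2.sum.2.1 = j.2

end Pool.Agent.KFlat
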