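import Pool.Agent.KFlat.DefsB

/-! FB2: points and steps. -/

set_option autoImplicit false

open Pool.Agent.LK

namespace Pool.Agent.KFlat

open Pool.Agent.KTube Pool.Agent.KRing Pool.Agent.KLog
open Pool.Agent.LatticeTube (pedges)

variable {p u : P3} {s t l : List P3}

private theorem dl_cons_wk (p q : P3) (s : List P3) : dl (p :: wk q s) = (q - p) :: dl (wk q s) := by
  cases s <;> rfl

theorem dl_wk (p : P3) (s : List P3) : dl (wk p s) = s := by
  induction s generalizing p with
  | nil => rfl
  | cons d s ih => rw [wk_cons, dl_cons_wk, ih, add_sub_cancel_left]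

theorem wk_dl (h : l.head? = some p) : wk p (dl l) = l := by
  obtain ⟨s, rfl⟩ := exists_wk l p h
  rw [dl_wk]

theorem dl_map (t : P3) (l : List P3) : dl (l.map (· + t)) = dl l := by
  cases l with
  | nil => rfl
  | cons p l =>
    obtain ⟨s, hs⟩ := exists_wk (p :: l) p rfl
    rw [hs, map_wk, dl_wk, dl_wk]

theorem steps_dl (h : l.IsChain Adj) : Steps (dl l) := by
  cases l with
  | nil =>
    intro d hd
    simp [dl] at hd
  | cons p l =>
    obtain ⟨s, hs⟩ := exists_wk (p :: l) p rfl
    rw [hs] at h ⊢
    rw [dl_wk]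
    exact chain_wk.1 h

private theorem snoc (p d : P3) (s t : List P3) :
    wk p (s ++ d :: t) = wk p s ++ wk (p + s.sum + d) t := by
  induction s generalizing p with
  | nil => simp
  | cons e s ih =>
    rw [List.cons_append, wk_cons, ih, wk_cons, List.sum_cons, List.cons_append, add_assoc p e]

theorem dl_append {x y : List P3} {p q : P3} (hx : x.getLast? = some p) (hy : y.head? = some q) :
    dl (x ++ y) = dl x ++ (q - p) :: dl y := by
  obtain ⟨t, rfl⟩ := exists_wk y q hy
  cases x with
  | nil => simp at hx
  | cons a x =>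
    obtain ⟨s, hs⟩ := exists_wk (a :: x) a rfl
    rw [hs, last_wk, Option.some.injEq] at hx
    have h1 : wk a s ++ wk q t = wk a (s ++ (q - p) :: t) := by
      rw [snoc, hx, add_sub_cancel]
    rw [hs, h1, dl_wk, dl_wk, dl_wk]

theorem sum_dl {p q : P3} (h : l.head? = some p) (h' : l.getLast? = some q) :
    (dl l).sum = q - p := by
  obtain ⟨s, rfl⟩ := exists_wk l p h
  rw [last_wk, Option.some.injEq] at h'
  rw [dl_wk, ← h', add_sub_cancel_left]

theorem wk_snoc (p d : P3) (s t : List P3) :
    wk p (s ++ d :: t) = wk p s ++ wk (p + s.sum + d) t :=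
  snoc p d s t

private theorem rev_cons (d : P3) (s : List P3) : rev (d :: s) = rev s ++ [-d] := by
  simp [rev]

private theorem sum_rev' (s : List P3) : (rev s).sum = -s.sum := by
  induction s with
  | nil => simp [rev]
  | cons d s ih =>
    rw [rev_cons, List.sum_append, ih, List.sum_cons, List.sum_cons, List.sum_nil, add_zero]
    abel

theorem wk_reverse (p : P3) (s : List P3) : (wk p s).reverse = wk (p + s.sum) (rev s) := by
  induction s generalizing p with
  | nil => simp [rev]
  | cons d s ih =>
    rw [wk_cons, List.reverse_cons, ih, rev_cons, snoc, sum_rev', List.sum_cons, wk_nil]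
    have h1 : p + (d + s.sum) = p + d + s.sum := (add_assoc _ _ _).symm
    rw [h1]
    congr 2
    abel

theorem dl_reverse (l : List P3) : dl l.reverse = rev (dl l) := by
  cases l with
  | nil => rfl
  | cons p l =>
    obtain ⟨s, hs⟩ := exists_wk (p :: l) p rfl
    rw [hs, wk_reverse, dl_wk, dl_wk]

/-- A closed walk: the edges of `ring` are the edges of the walk. -/
theorem ring_wk (h : s.sum = 0) : ring (wk p s).tail = pedges (wk p s) := by
  cases s with
  | nil => rfl
  | cons d s =>
    have h1 : (wk (p + d) s).getLast? = some p := by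
      rw [last_wk, add_assoc, ← List.sum_cons, h, add_zero]
    rw [wk_cons, List.tail_cons, ring_eq h1]

private theorem ring_comm' {x y : List P3} (hx : x ≠ []) (hy : y ≠ []) :
    ring (x ++ y) = ring (y ++ x) := by
  have key : ∀ (x y : List P3) (x0 x1 y0 y1 : P3), x.head? = some x0 → x.getLast? = some x1 →
      y.head? = some y0 → y.getLast? = some y1 → ∀ e, e ∈ ring (x ++ y) ↔
      e = s(y1, x0) ∨ e = s(x1, y0) ∨ e ∈ pedges x ∨ e ∈ pedges y := by
    intro x y x0 x1 y0 y1 h0 h1 h2 h3 e
    have h4 : (x ++ y).getLast? = some y1 := by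
      rw [List.getLast?_append, h3]; rfl
    have h5 : (x ++ y).head? = some x0 := by
      rw [List.head?_append, h0]; rfl
    rw [ring_eq h4, ← List.singleton_append, mem_pedges_cat (A := [y1]) (a := y1) rfl h5,
      mem_pedges_cat h1 h2]
    have h6 : e ∉ pedges [y1] := by simp [Pool.Agent.LatticeTube.pedges]
    tauto
  obtain ⟨x0, hx0⟩ : ∃ u, x.head? = some u := by
    cases x with
    | nil => exact absurd rfl hx
    | cons u x => exact ⟨u, rfl⟩
  obtain ⟨y0, hy0⟩ : ∃ u, y.head? = some u := by
    cases y with
    | nil => exact absurd rfl hy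
    | cons u y => exact ⟨u, rfl⟩
  have hx1 : x.getLast? = some (x.getLast hx) := List.getLast?_eq_getLast_of_ne_nil hx
  have hy1 : y.getLast? = some (y.getLast hy) := List.getLast?_eq_getLast_of_ne_nil hy
  ext e
  rw [key x y _ _ _ _ hx0 hx1 hy0 hy1, key y x _ _ _ _ hy0 hy1 hx0 hx1]
  tauto

private theorem Ring_comm' {x y : List P3} (hx : x ≠ []) (hy : y ≠ []) (h : Ring (x ++ y)) :
    Ring (y ++ x) := by
  have h1 := List.isChain_append.1 h.chain
  have hl : (x ++ y).getLast? = y.getLast? := List.getLast?_append_of_ne_nil _ hy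
  have hl' : (y ++ x).getLast? = x.getLast? := List.getLast?_append_of_ne_nil _ hx
  have hh : (x ++ y).head? = x.head? := List.head?_append_of_ne_nil _ hx
  have hh' : (y ++ x).head? = y.head? := List.head?_append_of_ne_nil _ hy
  refine ⟨?_, ?_, ?_, ?_⟩
  · have h2 := h.three
    rw [List.length_append] at h2 ⊢
    omega
  · exact (List.perm_append_comm.nodup_iff).1 h.nodup
  · refine List.isChain_append.2 ⟨h1.2.1, h1.1, fun u hu v hv => ?_⟩
    exact h.close u (by rwa [hl]) v (by rwa [hh])
  · intro u hu v hv
    rw [hl'] at hu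
    rw [hh'] at hv
    exact h1.2.2 u hu v hv

/-- Rotation of a closed walk: `(wk p (s ++ t)).tail = (wk p s).tail ++ (wk (p + s.sum) t).tail`,
and with `s.sum + t.sum = 0` the other list is `(wk (p + s.sum) t).tail ++ (wk p s).tail`. The edges of `ring (x ++ y)` and `ring (y ++ x)` are the same
(see the private `ring_comm` in `KTop/Loop.lean`), and `Ring` is invariant under rotation. -/
theorem ring_rot (h : (s ++ t).sum = 0) (hR : Ring (wk p (s ++ t)).tail) :
    Ring (wk (p + s.sum) (t ++ s)).tail ∧
      ring (wk (p + s.sum) (t ++ s)).tail = ring (wk p (s ++ t)).tail := by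
  rw [List.sum_append] at h
  cases s with
  | nil =>
    rw [List.nil_append] at hR
    rw [List.sum_nil, add_zero, List.append_nil, List.nil_append]
    exact ⟨hR, rfl⟩
  | cons d s =>
    cases t with
    | nil =>
      rw [List.sum_nil, add_zero] at h
      rw [List.append_nil] at hR
      rw [h, add_zero, List.append_nil, List.nil_append]
      exact ⟨hR, rfl⟩
    | cons e t =>
      have h1 : (wk p (d :: s ++ e :: t)).tail =
          wk (p + d) s ++ wk (p + (d :: s).sum + e) t := by
        rw [snoc, wk_cons, List.cons_append, List.tail_cons]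
      have h2 : (wk (p + (d :: s).sum) (e :: t ++ d :: s)).tail =
          wk (p + (d :: s).sum + e) t ++ wk (p + d) s := by
        have h3 : p + (d :: s).sum + (e :: t).sum = p := by rw [add_assoc, h, add_zero]
        rw [snoc, wk_cons, List.cons_append, List.tail_cons, h3]
      rw [h1] at hR
      rw [h1, h2]
      exact ⟨Ring_comm' (wk_ne_nil _ _) (wk_ne_nil _ _) hR,
        ring_comm' (wk_ne_nil _ _) (wk_ne_nil _ _)⟩

end Pool.Agent.KFlat
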