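import Pool.Agent.KFlat.SMap
import Pool.Agent.KFlat.DMap

/-! FA11: the images of the pieces in the directions `x` and `z`. -/

set_option autoImplicit false

open Set

namespace Pool.Agent.KFlat

open Pool.Agent.LK

private theorem rnd (i : ℤ) {s : ℝ} (h1 : -(1 / 2) ≤ s) (h2 : s < 1 / 2) :
    round ((i : ℝ) + s) = i := by
  rw [round_intCast_add, round_eq, add_eq_left, Int.floor_eq_zero_iff]
  constructor <;> linarith

private theorem rnd0 (i : ℤ) : round (i : ℝ) = i := round_intCast i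

/-- The map on the segments in the first direction. -/
private theorem SM_x (D : ℤ → ℤ → ℝ × ℝ) (i k : ℤ) {s : ℝ} (y : ℝ) (h1 : -(1 / 2) ≤ s)
    (h2 : s ≤ 1 / 2) : SM D ((i : ℝ) + s, y, (k : ℝ)) =
      ((i : ℝ) + s + 1 / 8 * (cl (1 - y) * (1 - 2 * |s|)) * (D i k).1, y,
        (k : ℝ) + 1 / 8 * (cl (1 - y) * (1 - 2 * |s|)) * (D i k).2) := by
  unfold SM bmp
  rcases h2.lt_or_eq with h3 | h3
  · simp only [rnd i h1 h3, rnd0, add_sub_cancel_left, sub_self, abs_zero, mul_zero, sub_zero,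
      mul_one]
  · have h4 : |(i : ℝ) + s - (round ((i : ℝ) + s) : ℤ)| = 1 / 2 := by
      subst h3
      have h5 : round ((i : ℝ) + 1 / 2) = i + 1 := by
        rw [round_intCast_add, round_eq]
        norm_num
      rw [h5]
      push_cast
      rw [show (i : ℝ) + 1 / 2 - (i + 1) = -(1 / 2) by ring, abs_neg]
      norm_num
    have h6 : |s| = 1 / 2 := by rw [h3]; norm_num
    simp only [h4, h6]
    norm_num

/-- The map on the segments in the last direction. -/
private theorem SM_z (D : ℤ → ℤ → ℝ × ℝ) (i k : ℤ) {s : ℝ} (y : ℝ) (h1 : -(1 / 2) ≤ s)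
    (h2 : s ≤ 1 / 2) : SM D ((i : ℝ), y, (k : ℝ) + s) =
      ((i : ℝ) + 1 / 8 * (cl (1 - y) * (1 - 2 * |s|)) * (D i k).1, y,
        (k : ℝ) + s + 1 / 8 * (cl (1 - y) * (1 - 2 * |s|)) * (D i k).2) := by
  unfold SM bmp
  rcases h2.lt_or_eq with h3 | h3
  · simp only [rnd k h1 h3, rnd0, add_sub_cancel_left, sub_self, abs_zero, mul_zero, sub_zero,
      mul_one, one_mul]
  · have h4 : |(k : ℝ) + s - (round ((k : ℝ) + s) : ℤ)| = 1 / 2 := by
      subst h3
      have h5 : round ((k : ℝ) + 1 / 2) = k + 1 := by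
        rw [round_intCast_add, round_eq]
        norm_num
      rw [h5]
      push_cast
      rw [show (k : ℝ) + 1 / 2 - (k + 1) = -(1 / 2) by ring, abs_neg]
      norm_num
    have h6 : |s| = 1 / 2 := by rw [h3]; norm_num
    simp only [h4, h6]
    norm_num

private theorem SM_top (D : ℤ → ℤ → ℝ × ℝ) (x z : ℝ) : SM D (x, 1, z) = (x, 1, z) := by
  unfold SM bmp
  simp [cl_of_le]

/-- The map in the layer `0` along an edge. -/
private noncomputable def gg (δ q s : ℝ) : ℝ :=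
  s + δ / 8 * max 0 (1 - 2 * s) - 1 / 8 * max 0 (1 - 2 * (q - s))

private theorem gg_lo {δ q s : ℝ} (hq : 1 ≤ q) (h0 : 0 ≤ s) (h1 : s ≤ 1 / 2) :
    gg δ q s = s + 1 / 8 * (1 * (1 - 2 * |s|)) * δ := by
  unfold gg
  rw [max_eq_right (by linarith : (0 : ℝ) ≤ 1 - 2 * s),
    max_eq_left (by linarith : 1 - 2 * (q - s) ≤ 0), abs_of_nonneg h0]
  ring

private theorem gg_hi {δ q s : ℝ} (hq : 1 ≤ q) (h0 : s ≤ q) (h1 : q - 1 / 2 ≤ s) :
    gg δ q s = q + (s - q) + 1 / 8 * (1 * (1 - 2 * |s - q|)) * (-1) := by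
  unfold gg
  rw [max_eq_left (by linarith : 1 - 2 * s ≤ 0),
    max_eq_right (by linarith : (0 : ℝ) ≤ 1 - 2 * (q - s)), abs_of_nonpos (by linarith)]
  ring

private theorem gg_mid {δ q s : ℝ} (h0 : 1 / 2 ≤ s) (h1 : s ≤ q - 1 / 2) :
    gg δ q s = s := by
  unfold gg
  rw [max_eq_left (by linarith : 1 - 2 * s ≤ 0),
    max_eq_left (by linarith : 1 - 2 * (q - s) ≤ 0)]
  ring

private theorem gg_mem {δ q s : ℝ} (hδ : δ = 0 ∨ δ = 1) (hq : 1 ≤ q) (h0 : 0 ≤ s) (h1 : s ≤ q) :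
    δ / 8 ≤ gg δ q s ∧ gg δ q s ≤ q - 1 / 8 := by
  rcases le_total s (1 / 2) with h | h
  · rw [gg_lo hq h0 h, abs_of_nonneg h0]
    rcases hδ with rfl | rfl <;> constructor <;> linarith
  · rcases le_total (q - 1 / 2) s with h' | h'
    · rw [gg_hi hq h1 h', abs_of_nonpos (by linarith)]
      rcases hδ with rfl | rfl <;> constructor <;> linarith
    · rw [gg_mid h h']
      rcases hδ with rfl | rfl <;> constructor <;> linarith

private theorem gg_surj {δ q t : ℝ} (hq : 1 ≤ q) (h0 : δ / 8 ≤ t)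
    (h1 : t ≤ q - 1 / 8) : ∃ s, 0 ≤ s ∧ s ≤ q ∧ gg δ q s = t := by
  have hc : ContinuousOn (gg δ q) (Icc 0 q) := by
    unfold gg
    fun_prop
  have h2 := intermediate_value_Icc (by linarith : (0 : ℝ) ≤ q) hc
  have e0 : gg δ q 0 = δ / 8 := by
    rw [gg_lo hq le_rfl (by norm_num), abs_zero]
    ring
  have e1 : gg δ q q = q - 1 / 8 := by
    rw [gg_hi hq le_rfl (by linarith), sub_self, abs_zero]
    ring
  rw [e0, e1] at h2
  obtain ⟨s, hs, hs'⟩ := h2 ⟨h0, h1⟩
  exact ⟨s, hs.1, hs.2, hs'⟩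

private theorem core {P : ℝ → ℝ → R3} {S : R3 → R3} {δ q m : ℝ} (hδ : δ = 0 ∨ δ = 1)
    (hq : 1 ≤ q) (hqm : q ≤ m) (h1 : ∀ s, S (P s 1) = P s 1)
    (h0 : ∀ s, 0 ≤ s → s ≤ q → S (P s 0) = P (gg δ q s) 0)
    (hc : ∀ y, 0 ≤ y → y ≤ 1 → S (P q y) = P (q - (1 - y) / 8) y)
    (hv : δ = 1 → ∀ y, 0 ≤ y → y ≤ 1 → S (P 0 y) = P ((1 - y) / 8) y) {A : Set R3}
    (hA : ∀ p, p ∈ A ↔ (∃ s, 0 ≤ s ∧ s ≤ q ∧ p = P s 0) ∨ (∃ y, 0 ≤ y ∧ y ≤ 1 ∧ p = P q y) ∨
      (∃ s, q ≤ s ∧ s ≤ m ∧ p = P s 1) ∨ (δ = 1 ∧ ∃ y, 0 ≤ y ∧ y ≤ 1 ∧ p = P 0 y)) :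
    S '' A = {p | ∃ t, 0 ≤ t ∧ t ≤ m ∧
      p = P t (max (δ * (1 - 8 * t)) (cl (8 * (t - q) + 1)))} := by
  have hδ0 : 0 ≤ δ := by rcases hδ with rfl | rfl <;> norm_num
  have hδ1 : δ ≤ 1 := by rcases hδ with rfl | rfl <;> norm_num
  -- the heights
  have e1 : ∀ t, δ / 8 ≤ t → t ≤ q - 1 / 8 →
      max (δ * (1 - 8 * t)) (cl (8 * (t - q) + 1)) = 0 := by
    intro t ht ht'
    rw [cl_of_le (by linarith)]
    refine max_eq_right ?_
    rcases hδ with rfl | rfl
    · simp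
    · linarith
  have e2 : ∀ y, 0 ≤ y → y ≤ 1 →
      max (δ * (1 - 8 * (q - (1 - y) / 8))) (cl (8 * (q - (1 - y) / 8 - q) + 1)) = y := by
    intro y hy hy'
    rw [show 8 * (q - (1 - y) / 8 - q) + 1 = y by ring, cl_of_mem hy hy']
    refine max_eq_right ?_
    rcases hδ with rfl | rfl
    · simpa using hy
    · linarith
  have e3 : ∀ t, q ≤ t → max (δ * (1 - 8 * t)) (cl (8 * (t - q) + 1)) = 1 := by
    intro t ht
    rw [cl_of_ge (by linarith)]
    refine max_eq_right ?_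
    rcases hδ with rfl | rfl
    · simp
    · linarith
  have e4 : δ = 1 → ∀ y, 0 ≤ y → y ≤ 1 →
      max (δ * (1 - 8 * ((1 - y) / 8))) (cl (8 * ((1 - y) / 8 - q) + 1)) = y := by
    intro h y hy hy'
    rw [cl_of_le (by linarith), h]
    refine (max_eq_left ?_).trans ?_
    · linarith
    · ring
  ext p
  constructor
  · rintro ⟨p, hp, rfl⟩
    rcases (hA p).1 hp with ⟨s, hs, hs', rfl⟩ | ⟨y, hy, hy', rfl⟩ | ⟨s, hs, hs', rfl⟩ |
      ⟨h, y, hy, hy', rfl⟩
    · obtain ⟨g1, g2⟩ := gg_mem hδ hq hs hs'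
      refine ⟨gg δ q s, by linarith, by linarith, ?_⟩
      rw [e1 _ g1 g2]
      exact h0 s hs hs'
    · refine ⟨q - (1 - y) / 8, by linarith, by linarith, ?_⟩
      rw [e2 y hy hy']
      exact hc y hy hy'
    · refine ⟨s, by linarith, hs', ?_⟩
      rw [e3 s hs]
      exact h1 s
    · refine ⟨(1 - y) / 8, by linarith, by linarith, ?_⟩
      rw [e4 h y hy hy']
      exact hv h y hy hy'
  · rintro ⟨t, ht, ht', rfl⟩
    rcases le_total q t with h | h
    · rw [e3 t h]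
      exact ⟨P t 1, (hA _).2 (Or.inr (Or.inr (Or.inl ⟨t, h, ht', rfl⟩))), h1 t⟩
    · rcases le_total (q - 1 / 8) t with h' | h'
      · have hy : 0 ≤ 1 - 8 * (q - t) := by linarith
        have hy' : 1 - 8 * (q - t) ≤ 1 := by linarith
        have et : q - (1 - (1 - 8 * (q - t))) / 8 = t := by ring
        have h3 := e2 _ hy hy'
        have h4 := hc _ hy hy'
        rw [et] at h3 h4
        rw [h3]
        exact ⟨P q (1 - 8 * (q - t)), (hA _).2 (Or.inr (Or.inl ⟨_, hy, hy', rfl⟩)), h4⟩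
      · rcases le_total (δ / 8) t with h'' | h''
        · rw [e1 t h'' h']
          obtain ⟨s, hs, hs', hst⟩ := gg_surj hq h'' h'
          refine ⟨P s 0, (hA _).2 (Or.inl ⟨s, hs, hs', rfl⟩), ?_⟩
          rw [h0 s hs hs', hst]
        · rcases hδ with hd | hd
          · have ht0 : t = 0 := by
              rw [hd] at h''
              linarith
            rw [e1 t (by rw [hd]; linarith) h']
            obtain ⟨s, hs, hs', hst⟩ := gg_surj (δ := δ) (t := t) hq (by rw [hd]; linarith) h'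
            refine ⟨P s 0, (hA _).2 (Or.inl ⟨s, hs, hs', rfl⟩), ?_⟩
            rw [h0 s hs hs', hst]
          · have hy : 0 ≤ 1 - 8 * t := by
              rw [hd] at h''
              linarith
            have hy' : 1 - 8 * t ≤ 1 := by linarith
            have et : (1 - (1 - 8 * t)) / 8 = t := by ring
            have h3 := e4 hd _ hy hy'
            have h4 := hv hd _ hy hy'
            rw [et] at h3 h4
            rw [h3]
            exact ⟨P 0 (1 - 8 * t), (hA _).2 (Or.inr (Or.inr (Or.inr ⟨hd, _, hy, hy', rfl⟩))),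
              h4⟩

private theorem mu_cases (E : Finset (Sym2 P3)) (u : P3) :
    (mu E u = 0 ∧ ¬ Top E u) ∨ (mu E u = 1 ∧ Top E u) := by
  by_cases h : Top E u
  · exact Or.inr ⟨mu_of_top h, h⟩
  · exact Or.inl ⟨mu_of_not h, h⟩

private theorem mu_one (E : Finset (Sym2 P3)) (u : P3) : mu E u = 1 ↔ Top E u := by
  rcases mu_cases E u with ⟨h, h'⟩ | ⟨h, h'⟩
  · rw [h]
    exact ⟨fun h => absurd h (by norm_num), fun h => absurd h h'⟩
  · exact ⟨fun _ => h', fun _ => h⟩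

private theorem near (s : ℝ) : ∃ j : ℤ, -(1 / 2) ≤ s - j ∧ s - j ≤ 1 / 2 := by
  have h := abs_le.1 (abs_sub_round s)
  exact ⟨round s, h.1, h.2⟩

/-- PROOF. Write `m = mH H`, `X = X0 H u`, `Z = Z0 H u`, `n = u₂ ∈ [0, H]`, `q = m - 1 - 2 n ≥ 1` and `c = X + q = m (u₁ + 1) - 1`,
`D` is `(δ, 0)` at the column `(X, Z)` with `δ = 1` if `Top E u` and `δ = 0` otherwise (`vx`), `(0, 0)` at `(X + j, Z)` for
`1 ≤ j < q` (`ox` with `i = u₁`, `q := 2 n + j`, `r = n`), and `(-1, 0)` at `(c, Z)` (`col`). All points have `p.2.2 = Z`, so `round p.2.2 = Z`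
and the last coordinate does not change (the second component of `D` is `0` at all these columns) and
`bmp p = 1/8 * cl (1 - p.2.1) * (1 - 2 |p.1 - round p.1|)`.
Points in the layer `1`: `cl (1 - 1) = 0`, they are fixed. Points in the layer `0`, `p = (X + s, 0, Z)`, `0 ≤ s ≤ q`: they are
mapped to `(X + g s, 0, Z)`, with `g s = s + δ/8 (1 - 2 s)` for `s ≤ 1/2`, `g s = s` for `1/2 ≤ s ≤ q - 1/2` and
`g s = s - 1/8 (1 - 2 (q - s))` for `s ≥ q - 1/2` (at the points with the distance `1/2` from a column the bump is `0`, so it does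
not matter how `round` rounds). `g` is continuous and increasing from `[0, q]` onto `[δ/8, q - 1/8]`, and
`em H E u x t = 0` for `t` in this interval (`1 - 8 t ≤ 0` or `mu = 0`; `8 (t - q) + 1 ≤ 0`).
The segment `(c, y, Z)`, `0 ≤ y ≤ 1`, is mapped to `(c - (1 - y)/8, y, Z)`, and `em H E u x t = y` for `t = q - (1 - y)/8`:
`8 (t - q) + 1 = y`, and the first term is `≤ 0` if `t ≥ 1/8`; in the remaining case `q = 1`, `y ≤ ..` note that
`t = q - (1 - y)/8 ≥ 7/8 ≥ 1/8`. If `Top E u` the segment `(X, y, Z)` is mapped to `(X + (1 - y)/8, y, Z)`, and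
`em = y` for `t = (1 - y)/8 ≤ 1/8` (the second term is `0`: `8 (t - q) + 1 ≤ 1 - 8 + 1 < 0`). For `t ≥ q`: `em = 1`, the points of
the layer `1`. So the image is the curve: its parameters `t ∈ [0, 1/8]` (only if `δ = 1`; if `δ = 0` then `em = 0` on `[0, 1/8]` as
well and these points are in the image of the layer `0`), `[δ/8, q - 1/8]`, `[q - 1/8, q]`, `[q, m]`. -/
theorem sd_x {H : ℕ} {E : Finset (Sym2 P3)} {D : ℤ → ℤ → ℝ × ℝ} (hD : GoodD H E D) (hE : Ht H E)
    {u : P3} (hu : s(u, u + Ax.v .x) ∈ E) :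
    SM D '' (PX H u ∪ {p | Top E u ∧ p ∈ VS H u}) =
      {p | ∃ t : ℝ, 0 ≤ t ∧ t ≤ leN H .x ∧
        p = ((gm H u .x t).1, em H E u .x t, (gm H u .x t).2)} := by
  have hn := hE u ⟨_, hu⟩
  have hm : mH H = 2 * H + 2 := rfl
  have hq1 : 1 ≤ mH H - 1 - 2 * u.2.1 := by omega
  have hδ : mu E u = 0 ∨ mu E u = 1 := (mu_cases E u).imp And.left And.left
  have hDX : D (X0 H u) (Z0 H u) = (mu E u, 0) := by
    rcases mu_cases E u with ⟨h, h'⟩ | ⟨h, h'⟩
    · rw [h]
      exact (hD.vx u hu).2 h'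
    · rw [h]
      exact (hD.vx u hu).1 h'
  have hDj : ∀ j : ℤ, 1 ≤ j → j < mH H - 1 - 2 * u.2.1 → D (X0 H u + j) (Z0 H u) = (0, 0) := by
    intro j h1 h2
    have h3 := hD.ox u.1 u.2.2 (2 * u.2.1 + j) u.2.1 (by omega) (by omega) hn.1 hn.2 (by omega)
    rwa [← add_assoc] at h3
  have hDc : D (X0 H u + (mH H - 1 - 2 * u.2.1)) (Z0 H u) = (-1, 0) := by
    have h3 := hD.col u.1 u.2.2 u.2.1 hn.1 hn.2
    have h4 : X0 H u + (mH H - 1 - 2 * u.2.1) = mH H * (u.1 + 1) - 1 := by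
      unfold X0
      ring
    rw [h4]
    exact h3
  have hqr : ((mH H - 1 - 2 * u.2.1 : ℤ) : ℝ) = (mH H : ℝ) - 1 - 2 * (u.2.1 : ℝ) := by
    push_cast
    ring
  have hq1r : (1 : ℝ) ≤ (mH H : ℝ) - 1 - 2 * (u.2.1 : ℝ) := by
    rw [← hqr]
    exact_mod_cast hq1
  have hcr : (X0 H u : ℝ) + ((mH H : ℝ) - 1 - 2 * (u.2.1 : ℝ)) = mH H * (u.1 + 1) - 1 := by
    unfold X0
    push_cast
    ring
  have hmr : ((leN H .x : ℕ) : ℝ) = (mH H : ℝ) := by
    rw [hm]
    simp only [leN]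
    push_cast
    ring
  have hnr : (0 : ℝ) ≤ u.2.1 := by exact_mod_cast hn.1
  have c1 : cl (1 - 0) = 1 := cl_of_ge (by norm_num)
  rw [hmr]
  refine core (P := fun s y => ((X0 H u : ℝ) + s, y, (Z0 H u : ℝ))) (S := SM D) hδ hq1r
    (by linarith) ?_ ?_ ?_ ?_ ?_
  · intro s
    exact SM_top D _ _
  · intro s h0 h1
    rcases le_total s (1 / 2) with h | h
    · have h2 := SM_x D (X0 H u) (Z0 H u) 0 (by linarith : -(1 / 2) ≤ s) h
      rw [hDX, c1] at h2
      rw [gg_lo hq1r h0 h]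
      refine h2.trans ?_
      ext <;> simp <;> ring
    · rcases le_total ((mH H : ℝ) - 1 - 2 * (u.2.1 : ℝ) - 1 / 2) s with h' | h'
      · have h2 := SM_x D (X0 H u + (mH H - 1 - 2 * u.2.1)) (Z0 H u)
          (s := s - ((mH H : ℝ) - 1 - 2 * (u.2.1 : ℝ))) 0 (by linarith) (by linarith)
        rw [hDc, c1] at h2
        rw [gg_hi hq1r h1 h']
        have e : (((X0 H u + (mH H - 1 - 2 * u.2.1) : ℤ) : ℝ) +
            (s - ((mH H : ℝ) - 1 - 2 * (u.2.1 : ℝ)))) = (X0 H u : ℝ) + s := by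
          push_cast
          ring
        rw [e] at h2
        refine h2.trans ?_
        ext <;> simp <;> ring
      · obtain ⟨j, hj, hj'⟩ := near s
        rw [gg_mid h h']
        rcases lt_or_ge j 1 with hj1 | hj1
        · have h3 : (j : ℝ) ≤ 0 := by exact_mod_cast (by omega : j ≤ 0)
          have h2 := SM_x D (X0 H u) (Z0 H u) 0 (by linarith : -(1 / 2) ≤ s) (by linarith)
          have h5 : s = 1 / 2 := le_antisymm (by linarith) h
          have h6 : |s| = 1 / 2 := by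
            rw [h5]
            norm_num
          rw [h6] at h2
          refine h2.trans ?_
          ext <;> simp
        · rcases lt_or_ge j (mH H - 1 - 2 * u.2.1) with hj2 | hj2
          · have h2 := SM_x D (X0 H u + j) (Z0 H u) (s := s - j) 0 hj hj'
            rw [hDj j hj1 hj2] at h2
            have e : (((X0 H u + j : ℤ) : ℝ) + (s - j)) = (X0 H u : ℝ) + s := by
              push_cast
              ring
            rw [e] at h2
            refine h2.trans ?_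
            ext <;> simp
          · have h3 : ((mH H : ℝ) - 1 - 2 * (u.2.1 : ℝ)) ≤ j := by
              rw [← hqr]
              exact_mod_cast hj2
            have h2 := SM_x D (X0 H u + (mH H - 1 - 2 * u.2.1)) (Z0 H u)
              (s := s - ((mH H : ℝ) - 1 - 2 * (u.2.1 : ℝ))) 0 (by linarith) (by linarith)
            have e : (((X0 H u + (mH H - 1 - 2 * u.2.1) : ℤ) : ℝ) +
                (s - ((mH H : ℝ) - 1 - 2 * (u.2.1 : ℝ)))) = (X0 H u : ℝ) + s := by
              push_cast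
              ring
            have h5 : s - ((mH H : ℝ) - 1 - 2 * (u.2.1 : ℝ)) = -(1 / 2) :=
              le_antisymm (by linarith) (by linarith)
            have h6 : |s - ((mH H : ℝ) - 1 - 2 * (u.2.1 : ℝ))| = 1 / 2 := by
              rw [h5]
              norm_num
            rw [e, h6] at h2
            refine h2.trans ?_
            ext <;> simp
  · intro y h0 h1
    have h2 := SM_x D (X0 H u + (mH H - 1 - 2 * u.2.1)) (Z0 H u) (s := 0) y (by norm_num)
      (by norm_num)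
    rw [hDc, cl_of_mem (by linarith) (by linarith), abs_zero] at h2
    have e : (((X0 H u + (mH H - 1 - 2 * u.2.1) : ℤ) : ℝ) + 0) =
        (X0 H u : ℝ) + ((mH H : ℝ) - 1 - 2 * (u.2.1 : ℝ)) := by
      push_cast
      ring
    rw [e] at h2
    refine h2.trans ?_
    ext <;> simp <;> ring
  · intro hd y h0 h1
    have h2 := SM_x D (X0 H u) (Z0 H u) (s := 0) y (by norm_num) (by norm_num)
    rw [hDX, cl_of_mem (by linarith) (by linarith), abs_zero, hd] at h2
    refine h2.trans ?_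
    ext <;> simp <;> ring
  · intro p
    obtain ⟨p1, p2, p3⟩ := p
    simp only [mem_union, mem_setOf_eq, PX, VS, mu_one, Prod.mk.injEq, ← hcr]
    constructor
    · rintro (⟨h3, h | h | h⟩ | ⟨hT, h⟩)
      · exact Or.inl ⟨p1 - X0 H u, by linarith, by linarith, by ring, h.1, h3⟩
      · exact Or.inr (Or.inl ⟨p2, h.2.1, h.2.2, h.1, rfl, h3⟩)
      · exact Or.inr (Or.inr (Or.inl ⟨p1 - X0 H u, by linarith, by linarith, by ring, h.1, h3⟩))
      · exact Or.inr (Or.inr (Or.inr ⟨hT, p2, h.2.2.1, h.2.2.2, by linarith [h.1], rfl, h.2.1⟩))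
    · rintro (⟨s, h0, h1, h2, h3, h4⟩ | ⟨y, h0, h1, h2, h3, h4⟩ | ⟨s, h0, h1, h2, h3, h4⟩ |
        ⟨hT, y, h0, h1, h2, h3, h4⟩)
      · exact Or.inl ⟨h4, Or.inl ⟨h3, by linarith, by linarith⟩⟩
      · exact Or.inl ⟨h4, Or.inr (Or.inl ⟨h2, by linarith, by linarith⟩)⟩
      · exact Or.inl ⟨h4, Or.inr (Or.inr ⟨h3, by linarith, by linarith⟩)⟩
      · exact Or.inr ⟨hT, by linarith, h4, by linarith, by linarith⟩

/-- The same with the coordinates exchanged (`vz`, `oz`, `row`). -/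
theorem sd_z {H : ℕ} {E : Finset (Sym2 P3)} {D : ℤ → ℤ → ℝ × ℝ} (hD : GoodD H E D) (hE : Ht H E)
    {u : P3} (hu : s(u, u + Ax.v .z) ∈ E) :
    SM D '' (PZ H u ∪ {p | Top E u ∧ p ∈ VS H u}) =
      {p | ∃ t : ℝ, 0 ≤ t ∧ t ≤ leN H .z ∧
        p = ((gm H u .z t).1, em H E u .z t, (gm H u .z t).2)} := by
  have hn := hE u ⟨_, hu⟩
  have hm : mH H = 2 * H + 2 := rfl
  have hq1 : 1 ≤ mH H - 1 - 2 * u.2.1 := by omega
  have hδ : mu E u = 0 ∨ mu E u = 1 := (mu_cases E u).imp And.left And.left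
  have hDX : D (X0 H u) (Z0 H u) = (0, mu E u) := by
    rcases mu_cases E u with ⟨h, h'⟩ | ⟨h, h'⟩
    · rw [h]
      exact (hD.vz u hu).2 h'
    · rw [h]
      exact (hD.vz u hu).1 h'
  have hDj : ∀ j : ℤ, 1 ≤ j → j < mH H - 1 - 2 * u.2.1 → D (X0 H u) (Z0 H u + j) = (0, 0) := by
    intro j h1 h2
    have h3 := hD.oz u.1 u.2.2 (2 * u.2.1 + j) u.2.1 (by omega) (by omega) hn.1 hn.2 (by omega)
    rwa [← add_assoc] at h3
  have hDc : D (X0 H u) (Z0 H u + (mH H - 1 - 2 * u.2.1)) = (0, -1) := by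
    have h3 := hD.row u.1 u.2.2 u.2.1 hn.1 hn.2
    have h4 : Z0 H u + (mH H - 1 - 2 * u.2.1) = mH H * (u.2.2 + 1) - 1 := by
      unfold Z0
      ring
    rw [h4]
    exact h3
  have hqr : ((mH H - 1 - 2 * u.2.1 : ℤ) : ℝ) = (mH H : ℝ) - 1 - 2 * (u.2.1 : ℝ) := by
    push_cast
    ring
  have hq1r : (1 : ℝ) ≤ (mH H : ℝ) - 1 - 2 * (u.2.1 : ℝ) := by
    rw [← hqr]
    exact_mod_cast hq1
  have hcr : (Z0 H u : ℝ) + ((mH H : ℝ) - 1 - 2 * (u.2.1 : ℝ)) = mH H * (u.2.2 + 1) - 1 := by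
    unfold Z0
    push_cast
    ring
  have hmr : ((leN H .z : ℕ) : ℝ) = (mH H : ℝ) := by
    rw [hm]
    simp only [leN]
    push_cast
    ring
  have hnr : (0 : ℝ) ≤ u.2.1 := by exact_mod_cast hn.1
  have c1 : cl (1 - 0) = 1 := cl_of_ge (by norm_num)
  rw [hmr]
  refine core (P := fun s y => ((X0 H u : ℝ), y, (Z0 H u : ℝ) + s)) (S := SM D) hδ hq1r
    (by linarith) ?_ ?_ ?_ ?_ ?_
  · intro s
    exact SM_top D _ _
  · intro s h0 h1
    rcases le_total s (1 / 2) with h | h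
    · have h2 := SM_z D (X0 H u) (Z0 H u) 0 (by linarith : -(1 / 2) ≤ s) h
      rw [hDX, c1] at h2
      rw [gg_lo hq1r h0 h]
      refine h2.trans ?_
      ext <;> simp <;> ring
    · rcases le_total ((mH H : ℝ) - 1 - 2 * (u.2.1 : ℝ) - 1 / 2) s with h' | h'
      · have h2 := SM_z D (X0 H u) (Z0 H u + (mH H - 1 - 2 * u.2.1))
          (s := s - ((mH H : ℝ) - 1 - 2 * (u.2.1 : ℝ))) 0 (by linarith) (by linarith)
        rw [hDc, c1] at h2
        rw [gg_hi hq1r h1 h']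
        have e : (((Z0 H u + (mH H - 1 - 2 * u.2.1) : ℤ) : ℝ) +
            (s - ((mH H : ℝ) - 1 - 2 * (u.2.1 : ℝ)))) = (Z0 H u : ℝ) + s := by
          push_cast
          ring
        rw [e] at h2
        refine h2.trans ?_
        ext <;> simp <;> ring
      · obtain ⟨j, hj, hj'⟩ := near s
        rw [gg_mid h h']
        rcases lt_or_ge j 1 with hj1 | hj1
        · have h3 : (j : ℝ) ≤ 0 := by exact_mod_cast (by omega : j ≤ 0)
          have h2 := SM_z D (X0 H u) (Z0 H u) 0 (by linarith : -(1 / 2) ≤ s) (by linarith)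
          have h5 : s = 1 / 2 := le_antisymm (by linarith) h
          have h6 : |s| = 1 / 2 := by
            rw [h5]
            norm_num
          rw [h6] at h2
          refine h2.trans ?_
          ext <;> simp
        · rcases lt_or_ge j (mH H - 1 - 2 * u.2.1) with hj2 | hj2
          · have h2 := SM_z D (X0 H u) (Z0 H u + j) (s := s - j) 0 hj hj'
            rw [hDj j hj1 hj2] at h2
            have e : (((Z0 H u + j : ℤ) : ℝ) + (s - j)) = (Z0 H u : ℝ) + s := by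
              push_cast
              ring
            rw [e] at h2
            refine h2.trans ?_
            ext <;> simp
          · have h3 : ((mH H : ℝ) - 1 - 2 * (u.2.1 : ℝ)) ≤ j := by
              rw [← hqr]
              exact_mod_cast hj2
            have h2 := SM_z D (X0 H u) (Z0 H u + (mH H - 1 - 2 * u.2.1))
              (s := s - ((mH H : ℝ) - 1 - 2 * (u.2.1 : ℝ))) 0 (by linarith) (by linarith)
            have e : (((Z0 H u + (mH H - 1 - 2 * u.2.1) : ℤ) : ℝ) +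
                (s - ((mH H : ℝ) - 1 - 2 * (u.2.1 : ℝ)))) = (Z0 H u : ℝ) + s := by
              push_cast
              ring
            have h5 : s - ((mH H : ℝ) - 1 - 2 * (u.2.1 : ℝ)) = -(1 / 2) :=
              le_antisymm (by linarith) (by linarith)
            have h6 : |s - ((mH H : ℝ) - 1 - 2 * (u.2.1 : ℝ))| = 1 / 2 := by
              rw [h5]
              norm_num
            rw [e, h6] at h2
            refine h2.trans ?_
            ext <;> simp
  · intro y h0 h1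
    have h2 := SM_z D (X0 H u) (Z0 H u + (mH H - 1 - 2 * u.2.1)) (s := 0) y (by norm_num)
      (by norm_num)
    rw [hDc, cl_of_mem (by linarith) (by linarith), abs_zero] at h2
    have e : (((Z0 H u + (mH H - 1 - 2 * u.2.1) : ℤ) : ℝ) + 0) =
        (Z0 H u : ℝ) + ((mH H : ℝ) - 1 - 2 * (u.2.1 : ℝ)) := by
      push_cast
      ring
    rw [e] at h2
    refine h2.trans ?_
    ext <;> simp <;> ring
  · intro hd y h0 h1
    have h2 := SM_z D (X0 H u) (Z0 H u) (s := 0) y (by norm_num) (by norm_num)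
    rw [hDX, cl_of_mem (by linarith) (by linarith), abs_zero, hd] at h2
    refine h2.trans ?_
    ext <;> simp <;> ring
  · intro p
    obtain ⟨p1, p2, p3⟩ := p
    simp only [mem_union, mem_setOf_eq, PZ, VS, mu_one, Prod.mk.injEq, ← hcr]
    constructor
    · rintro (⟨h3, h | h | h⟩ | ⟨hT, h⟩)
      · exact Or.inl ⟨p3 - Z0 H u, by linarith, by linarith, h3, h.1, by ring⟩
      · exact Or.inr (Or.inl ⟨p2, h.2.1, h.2.2, h3, rfl, h.1⟩)
      · exact Or.inr (Or.inr (Or.inl ⟨p3 - Z0 H u, by linarith, by linarith, h3, h.1, by ring⟩))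
      · exact Or.inr (Or.inr (Or.inr ⟨hT, p2, h.2.2.1, h.2.2.2, h.1, rfl, by linarith [h.2.1]⟩))
    · rintro (⟨s, h0, h1, h2, h3, h4⟩ | ⟨y, h0, h1, h2, h3, h4⟩ | ⟨s, h0, h1, h2, h3, h4⟩ |
        ⟨hT, y, h0, h1, h2, h3, h4⟩)
      · exact Or.inl ⟨h2, Or.inl ⟨h3, by linarith, by linarith⟩⟩
      · exact Or.inl ⟨h2, Or.inr (Or.inl ⟨h4, by linarith, by linarith⟩)⟩
      · exact Or.inl ⟨h2, Or.inr (Or.inr ⟨h3, by linarith, by linarith⟩)⟩
      · exact Or.inr ⟨hT, h2, by linarith, by linarith, by linarith⟩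

end Pool.Agent.KFlat
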