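import Pool.Agent.KFlat.SMap
import Pool.Agent.KFlat.DMap

/-! FA12: the images of the pieces in the direction `y`. -/

set_option autoImplicit false

open Set

namespace Pool.Agent.KFlat

open Pool.Agent.LK

private theorem rnd (i : ℤ) {s : ℝ} (h1 : -(1 / 2) ≤ s) (h2 : s < 1 / 2) :
    round ((i : ℝ) + s) = i := by
  rw [round_intCast_add, round_eq, add_eq_left, Int.floor_eq_zero_iff]
  constructor <;> linarith

private theorem rnd0 (i : ℤ) : round (i : ℝ) = i := round_intCast i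

/-- The map on the segments in the first direction. -/
private theorem SM_x (D : ℤ → ℤ → ℝ × ℝ) (i k : ℤ) {s : ℝ} (y : ℝ) (h1 : -(1 / 2) ≤ s)
    (h2 : s ≤ 1 / 2) : SM D ((i : ℝ) + s, y, (k : ℝ)) =
      ((i : ℝ) + s + 1 / 8 * (cl (1 - y) * (1 - 2 * |s|)) * (D i k).1, y,
        (k : ℝ) + 1 / 8 * (cl (1 - y) * (1 - 2 * |s|)) * (D i k).2) := by
  unfold SM bmp
  rcases h2.lt_or_eq with h3 | h3
  · simp only [rnd i h1 h3, rnd0, add_sub_cancel_left, sub_self, abs_zero, mul_zero, sub_zero,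
      mul_one]
  · have h4 : |(i : ℝ) + s - (round ((i : ℝ) + s) : ℤ)| = 1 / 2 := by
      subst h3
      have h5 : round ((i : ℝ) + 1 / 2) = i + 1 := by
        rw [round_intCast_add, round_eq]
        norm_num
      rw [h5]
      push_cast
      rw [show (i : ℝ) + 1 / 2 - (i + 1) = -(1 / 2) by ring, abs_neg]
      norm_num
    have h6 : |s| = 1 / 2 := by rw [h3]; norm_num
    simp only [h4, h6]
    norm_num

/-- The map on the segments in the last direction. -/
private theorem SM_z (D : ℤ → ℤ → ℝ × ℝ) (i k : ℤ) {s : ℝ} (y : ℝ) (h1 : -(1 / 2) ≤ s)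
    (h2 : s ≤ 1 / 2) : SM D ((i : ℝ), y, (k : ℝ) + s) =
      ((i : ℝ) + 1 / 8 * (cl (1 - y) * (1 - 2 * |s|)) * (D i k).1, y,
        (k : ℝ) + s + 1 / 8 * (cl (1 - y) * (1 - 2 * |s|)) * (D i k).2) := by
  unfold SM bmp
  rcases h2.lt_or_eq with h3 | h3
  · simp only [rnd k h1 h3, rnd0, add_sub_cancel_left, sub_self, abs_zero, mul_zero, sub_zero,
      one_mul]
  · have h4 : |(k : ℝ) + s - (round ((k : ℝ) + s) : ℤ)| = 1 / 2 := by
      subst h3
      have h5 : round ((k : ℝ) + 1 / 2) = k + 1 := by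
        rw [round_intCast_add, round_eq]
        norm_num
      rw [h5]
      push_cast
      rw [show (k : ℝ) + 1 / 2 - (k + 1) = -(1 / 2) by ring, abs_neg]
      norm_num
    have h6 : |s| = 1 / 2 := by rw [h3]; norm_num
    simp only [h4, h6]
    norm_num

/-- The layer `1` is fixed. -/
private theorem SM_one (D : ℤ → ℤ → ℝ × ℝ) (x z : ℝ) : SM D (x, 1, z) = (x, 1, z) := by
  unfold SM bmp
  simp only [sub_self, cl_of_le le_rfl, zero_mul, mul_zero, add_zero]

/-- The points of the curve. -/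
private theorem curve_eq {H : ℕ} {E : Finset (Sym2 P3)} {u : P3} {t a b e : ℝ}
    (ha : cl t + cl (t - 2) = a) (hb : cl (t - 1) + cl (t - 3) = b)
    (he : max (cl (1 - 8 * (t - 2))) (mu E (u + (0, 1, 0)) * (1 - 8 * (4 - t))) = e) :
    ((gm H u .y t).1, em H E u .y t, (gm H u .y t).2) =
      ((X0 H u : ℝ) + a, e, (Z0 H u : ℝ) + b) := by
  simp only [gm, em, ha, hb, he]

/-- PROOF. Write `X = X0 H u`, `Z = Z0 H u`, `n = u₂`, `0 ≤ n ≤ H - 1` (`Ht` for `u + (0, 1, 0)`),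
`δ = 1` if `Top E (u + (0, 1, 0))` and `δ = 0` otherwise. The values of `D`: `(1, 0)` at `(X + 1,
Z + 1)` (`mid`), `(0, 0)` at `(X + 2, Z + 1)` (`oz` with `r = n + 1`, `q = 2 n + 1 < m - 1`), `(0,
-δ)` at `(X + 2, Z + 2)` (`vy`). `VS H (u + (0, 1, 0)) = {p | p.1 = X + 2 ∧ p.2.2 = Z + 2 ∧ ..}`.
The points in the layer `1` are fixed (`cl 0 = 0`): they are the parameters `t ∈ [0, 2]`, `em = 1`
there (`1 - 8 (t - 2) ≥ 1`). The segment `(X + 1, y, Z + 1)` is mapped to `(X + 1 + (1 - y)/8, y,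
Z + 1)`: `t = 2 + (1 - y)/8`, `em = y` (the second term is `≤ 0`, as `4 - t ≥ 1`). The segment `(X
+ 1 + s, 0, Z + 1)`, `0 ≤ s ≤ 1`, is mapped to `(X + 1 + g s, 0, Z + 1)`, `g s = s + (1 - 2 s)/8`
for `s ≤ 1/2` and `g s = s` for `s ≥ 1/2`: onto `t ∈ [2 + 1/8, 3]`, `em = 0` there. The segment
`(X + 2, 0, Z + 2 - s)`, `0 ≤ s ≤ 1`, is mapped to `(X + 2, 0, Z + 2 - g s)`, `g s = s + δ (1 - 2
s)/8` for `s ≤ 1/2` and `g s = s` for `s ≥ 1/2`: onto `t = 4 - g s ∈ [3, 4 - δ/8]`, `em = 0`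
there. If `δ = 1` the segment `(X + 2, y, Z + 2)` is mapped to `(X + 2, y, Z + 2 - (1 - y)/8)`: `t
= 4 - (1 - y)/8`, `em = 1 - 8 (4 - t) = y`. (If `δ = 0` then `em = 0` on `[3, 4]`.) At the points
with the distance `1/2` from a column the bump is `0`, so it does not matter how `round` rounds.
-/
theorem sd_y {H : ℕ} {E : Finset (Sym2 P3)} {D : ℤ → ℤ → ℝ × ℝ} (hD : GoodD H E D) (hE : Ht H E)
    {u : P3} (hu : s(u, u + Ax.v .y) ∈ E) :
    SM D '' (PY H u ∪ {p | Top E (u + (0, 1, 0)) ∧ p ∈ VS H (u + (0, 1, 0))}) =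
      {p | ∃ t : ℝ, 0 ≤ t ∧ t ≤ leN H .y ∧
        p = ((gm H u .y t).1, em H E u .y t, (gm H u .y t).2)} := by
  have hn : 0 ≤ u.2.1 := (hE u ⟨_, hu⟩).1
  have hn' : u.2.1 < H := by
    have h1 : u + Ax.v .y ∈ verts E := ⟨u, by rw [Sym2.eq_swap]; exact hu⟩
    have h2 := (hE _ h1).2
    have h3 : (u + Ax.v .y).2.1 = u.2.1 + 1 := rfl
    omega
  have hXX : X0 H (u + (0, 1, 0)) = X0 H u + 2 := by
    have h3 : (u + (0, 1, 0)).2.1 = u.2.1 + 1 := rfl
    have h4 : (u + (0, 1, 0)).1 = u.1 := by simp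
    unfold X0
    rw [h3, h4]
    ring
  have hZZ : Z0 H (u + (0, 1, 0)) = Z0 H u + 2 := by
    have h3 : (u + (0, 1, 0)).2.1 = u.2.1 + 1 := rfl
    have h4 : (u + (0, 1, 0)).2.2 = u.2.2 := by simp
    unfold Z0
    rw [h3, h4]
    ring
  have hD11 : D (X0 H u + 1) (Z0 H u + 1) = (1, 0) := hD.mid u.1 u.2.2 u.2.1 hn hn'
  have hD21 : D (X0 H u + 2) (Z0 H u + 1) = (0, 0) := by
    have := hD.oz u.1 u.2.2 (2 * u.2.1 + 1) (u.2.1 + 1) (by omega) (by unfold mH; omega)
      (by omega) (by omega) (by omega)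
    have h1 : X0 H u + 2 = mH H * u.1 + 2 * (u.2.1 + 1) := by unfold X0; ring
    have h2 : Z0 H u + 1 = mH H * u.2.2 + (2 * u.2.1 + 1) := by unfold Z0; ring
    rw [h1, h2, this]
  obtain ⟨X, hX⟩ : ∃ X : ℤ, X = X0 H u := ⟨_, rfl⟩
  obtain ⟨Z, hZ⟩ : ∃ Z : ℤ, Z = Z0 H u := ⟨_, rfl⟩
  obtain ⟨C, hC⟩ : ∃ C : ℝ → R3, C = fun t =>
    ((gm H u .y t).1, em H E u .y t, (gm H u .y t).2) := ⟨_, rfl⟩
  have hmu0 := mu_nonneg E (u + (0, 1, 0))
  have hmu1 := mu_le E (u + (0, 1, 0))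
  have hvy := hD.vy u hu
  rw [← hX, ← hZ] at hD11 hD21 hvy
  rw [← hX] at hXX
  rw [← hZ] at hZZ
  have hneg : ∀ t : ℝ, t ≤ 4 - 1 / 8 → mu E (u + (0, 1, 0)) * (1 - 8 * (4 - t)) ≤ 0 :=
    fun t ht => mul_nonpos_of_nonneg_of_nonpos hmu0 (by linarith)
  have hmax : ∀ t : ℝ, t ≤ 4 - 1 / 8 →
      max (cl (1 - 8 * (t - 2))) (mu E (u + (0, 1, 0)) * (1 - 8 * (4 - t))) =
        cl (1 - 8 * (t - 2)) := fun t ht => max_eq_left ((hneg t ht).trans (cl_nonneg _))
  have F1 : ∀ s : ℝ, 0 ≤ s → s ≤ 1 → SM D ((X : ℝ) + s, 1, (Z : ℝ)) = C s := by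
    intro s h0 h1
    rw [SM_one, hC]
    simp only
    rw [curve_eq (t := s) (a := s) (b := 0) (e := 1), hX, hZ, add_zero]
    · rw [cl_of_mem h0 h1, cl_of_le (by linarith), add_zero]
    · rw [cl_of_le (by linarith), cl_of_le (by linarith), add_zero]
    · rw [hmax s (by linarith), cl_of_ge (by linarith)]
  have F2 : ∀ s : ℝ, 0 ≤ s → s ≤ 1 → SM D ((X : ℝ) + 1, 1, (Z : ℝ) + s) = C (1 + s) := by
    intro s h0 h1
    rw [SM_one, hC]
    simp only
    rw [curve_eq (t := 1 + s) (a := 1) (b := s) (e := 1), hX, hZ]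
    · rw [cl_of_ge (by linarith), cl_of_le (by linarith), add_zero]
    · rw [add_sub_cancel_left, cl_of_mem h0 h1, cl_of_le (by linarith), add_zero]
    · rw [hmax (1 + s) (by linarith), cl_of_ge (by linarith)]
  have F3 : ∀ y : ℝ, 0 ≤ y → y ≤ 1 →
      SM D ((X : ℝ) + 1, y, (Z : ℝ) + 1) = C (2 + (1 - y) / 8) := by
    intro y h0 h1
    have h := SM_x D (X + 1) (Z + 1) (s := 0) y (by norm_num) (by norm_num)
    rw [hD11] at h
    push_cast at h
    rw [add_zero] at h
    rw [h, hC]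
    simp only
    rw [curve_eq (t := 2 + (1 - y) / 8) (a := 1 + (1 - y) / 8) (b := 1) (e := y), hX, hZ]
    · rw [abs_zero, cl_of_mem (t := 1 - y) (by linarith) (by linarith)]
      refine Prod.ext ?_ (Prod.ext ?_ ?_)
      · simp only
        ring
      · rfl
      · simp only
        ring
    · rw [cl_of_ge (by linarith), add_sub_cancel_left, cl_of_mem (by linarith) (by linarith)]
    · rw [cl_of_ge (by linarith), cl_of_le (by linarith), add_zero]
    · rw [hmax _ (by linarith), show 1 - 8 * (2 + (1 - y) / 8 - 2) = y by ring,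
        cl_of_mem h0 h1]
  have F4 : ∀ s : ℝ, 0 ≤ s → s ≤ 1 / 2 →
      SM D ((X : ℝ) + 1 + s, 0, (Z : ℝ) + 1) = C (2 + s + (1 - 2 * s) / 8) := by
    intro s h0 h1
    have h := SM_x D (X + 1) (Z + 1) (s := s) 0 (by linarith) h1
    rw [hD11] at h
    push_cast at h
    rw [h, hC]
    simp only
    rw [curve_eq (t := 2 + s + (1 - 2 * s) / 8) (a := 1 + (s + (1 - 2 * s) / 8)) (b := 1)
      (e := 0), hX, hZ]
    · rw [abs_of_nonneg h0, cl_of_ge (t := 1 - 0) (by linarith)]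
      refine Prod.ext ?_ (Prod.ext ?_ ?_)
      · simp only
        ring
      · rfl
      · simp only
        ring
    · rw [cl_of_ge (by linarith), show 2 + s + (1 - 2 * s) / 8 - 2 = s + (1 - 2 * s) / 8 by ring,
        cl_of_mem (by linarith) (by linarith)]
    · rw [cl_of_ge (by linarith), cl_of_le (by linarith), add_zero]
    · rw [hmax _ (by linarith), cl_of_le (by linarith)]
  have F4' : ∀ s : ℝ, 1 / 2 ≤ s → s ≤ 1 →
      SM D ((X : ℝ) + 1 + s, 0, (Z : ℝ) + 1) = C (2 + s) := by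
    intro s h0 h1
    have h := SM_x D (X + 2) (Z + 1) (s := s - 1) 0 (by linarith) (by linarith)
    rw [hD21] at h
    push_cast at h
    rw [show (X : ℝ) + 2 + (s - 1) = X + 1 + s by ring] at h
    rw [h, hC]
    simp only
    rw [curve_eq (t := 2 + s) (a := 1 + s) (b := 1) (e := 0), hX, hZ]
    · refine Prod.ext ?_ (Prod.ext ?_ ?_)
      · simp only
        ring
      · rfl
      · simp only
        ring
    · rw [cl_of_ge (by linarith), add_sub_cancel_left, cl_of_mem (by linarith) (by linarith)]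
    · rw [cl_of_ge (by linarith), cl_of_le (by linarith), add_zero]
    · rw [hmax _ (by linarith), cl_of_le (by linarith)]
  have F5 : ∀ w : ℝ, 0 ≤ w → w ≤ 1 / 2 →
      SM D ((X : ℝ) + 2, 0, (Z : ℝ) + 1 + w) = C (3 + w) := by
    intro w h0 h1
    have h := SM_z D (X + 2) (Z + 1) (s := w) 0 (by linarith) h1
    rw [hD21] at h
    push_cast at h
    rw [h, hC]
    simp only
    rw [curve_eq (t := 3 + w) (a := 2) (b := 1 + w) (e := 0), hX, hZ]
    · refine Prod.ext ?_ (Prod.ext ?_ ?_)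
      · simp only
        ring
      · rfl
      · simp only
        ring
    · rw [cl_of_ge (by linarith), cl_of_ge (by linarith)]
      norm_num
    · rw [cl_of_ge (by linarith), add_sub_cancel_left, cl_of_mem (by linarith) (by linarith)]
    · rw [hmax _ (by linarith), cl_of_le (by linarith)]
  have F5' : ¬ Top E (u + (0, 1, 0)) → ∀ w : ℝ, 1 / 2 ≤ w → w ≤ 1 →
      SM D ((X : ℝ) + 2, 0, (Z : ℝ) + 1 + w) = C (3 + w) := by
    intro hT w h0 h1
    have h := SM_z D (X + 2) (Z + 2) (s := w - 1) 0 (by linarith) (by linarith)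
    rw [hvy.2 hT] at h
    push_cast at h
    rw [show (Z : ℝ) + 2 + (w - 1) = Z + 1 + w by ring] at h
    rw [h, hC]
    simp only
    rw [curve_eq (t := 3 + w) (a := 2) (b := 1 + w) (e := 0), hX, hZ]
    · refine Prod.ext ?_ (Prod.ext ?_ ?_)
      · simp only
        ring
      · rfl
      · simp only
        ring
    · rw [cl_of_ge (by linarith), cl_of_ge (by linarith)]
      norm_num
    · rw [cl_of_ge (by linarith), add_sub_cancel_left, cl_of_mem (by linarith) (by linarith)]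
    · rw [mu_of_not hT, zero_mul, cl_of_le (by linarith), max_self]
  have F5'' : Top E (u + (0, 1, 0)) → ∀ w : ℝ, 1 / 2 ≤ w → w ≤ 1 →
      SM D ((X : ℝ) + 2, 0, (Z : ℝ) + 1 + w) = C (3 + w - (2 * w - 1) / 8) := by
    intro hT w h0 h1
    have h := SM_z D (X + 2) (Z + 2) (s := w - 1) 0 (by linarith) (by linarith)
    rw [hvy.1 hT] at h
    push_cast at h
    rw [show (Z : ℝ) + 2 + (w - 1) = Z + 1 + w by ring] at h
    rw [h, hC]
    simp only
    rw [curve_eq (t := 3 + w - (2 * w - 1) / 8) (a := 2) (b := 1 + (w - (2 * w - 1) / 8))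
      (e := 0), hX, hZ]
    · rw [abs_of_nonpos (by linarith), cl_of_ge (t := 1 - 0) (by linarith)]
      refine Prod.ext ?_ (Prod.ext ?_ ?_)
      · simp only
        ring
      · rfl
      · simp only
        ring
    · rw [cl_of_ge (by linarith), cl_of_ge (by linarith)]
      norm_num
    · rw [cl_of_ge (by linarith),
        show 3 + w - (2 * w - 1) / 8 - 3 = w - (2 * w - 1) / 8 by ring,
        cl_of_mem (by linarith) (by linarith)]
    · rw [hmax _ (by linarith), cl_of_le (by linarith)]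
  have F6 : Top E (u + (0, 1, 0)) → ∀ y : ℝ, 0 ≤ y → y ≤ 1 →
      SM D ((X : ℝ) + 2, y, (Z : ℝ) + 2) = C (4 - (1 - y) / 8) := by
    intro hT y h0 h1
    have h := SM_z D (X + 2) (Z + 2) (s := 0) y (by norm_num) (by norm_num)
    rw [hvy.1 hT] at h
    push_cast at h
    rw [add_zero] at h
    rw [h, hC]
    simp only
    rw [curve_eq (t := 4 - (1 - y) / 8) (a := 2) (b := 2 - (1 - y) / 8) (e := y), hX, hZ]
    · rw [abs_zero, cl_of_mem (t := 1 - y) (by linarith) (by linarith)]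
      refine Prod.ext ?_ (Prod.ext ?_ ?_)
      · simp only
        ring
      · rfl
      · simp only
        ring
    · rw [cl_of_ge (by linarith), cl_of_ge (by linarith)]
      norm_num
    · rw [cl_of_ge (by linarith), show 4 - (1 - y) / 8 - 3 = 1 - (1 - y) / 8 by ring,
        cl_of_mem (by linarith) (by linarith)]
      ring
    · rw [mu_of_top hT, cl_of_le (by linarith), one_mul,
        show 1 - 8 * (4 - (4 - (1 - y) / 8)) = y by ring, max_eq_right h0]
  have hgoal : {p : R3 | ∃ t : ℝ, 0 ≤ t ∧ t ≤ leN H .y ∧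
      p = ((gm H u .y t).1, em H E u .y t, (gm H u .y t).2)} =
      {p : R3 | ∃ t : ℝ, 0 ≤ t ∧ t ≤ 4 ∧ p = C t} := by
    rw [hC]
    simp [leN]
  rw [hgoal]
  unfold PY VS
  rw [hXX, hZZ, ← hX, ← hZ]
  push_cast
  ext p
  constructor
  · rintro ⟨⟨x, y, z⟩, hp, rfl⟩
    simp only [mem_union, mem_ofPred_eq] at hp ⊢
    rcases hp with (⟨h1, h2, h3, h4⟩ | ⟨h1, h2, h3, h4⟩ | ⟨h1, h2, h3, h4⟩ | ⟨h1, h2, h3, h4⟩ |
      ⟨h1, h2, h3, h4⟩) | ⟨hT, h1, h2, h3, h4⟩
    · refine ⟨x - X, by linarith, by linarith, ?_⟩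
      rw [← F1 _ (by linarith) (by linarith), h1, h2, add_sub_cancel]
    · refine ⟨1 + (z - Z), by linarith, by linarith, ?_⟩
      rw [← F2 _ (by linarith) (by linarith), h1, h2, add_sub_cancel]
    · refine ⟨2 + (1 - y) / 8, by linarith, by linarith, ?_⟩
      rw [← F3 _ h3 h4, h1, h2]
    · rcases le_total (x - X - 1) (1 / 2) with h5 | h5
      · refine ⟨2 + (x - X - 1) + (1 - 2 * (x - X - 1)) / 8, by linarith, by linarith, ?_⟩
        rw [← F4 _ (by linarith) h5, h1, h2, show (X : ℝ) + 1 + (x - X - 1) = x by ring]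
      · refine ⟨2 + (x - X - 1), by linarith, by linarith, ?_⟩
        rw [← F4' _ h5 (by linarith), h1, h2, show (X : ℝ) + 1 + (x - X - 1) = x by ring]
    · rcases le_total (z - Z - 1) (1 / 2) with h5 | h5
      · refine ⟨3 + (z - Z - 1), by linarith, by linarith, ?_⟩
        rw [← F5 _ (by linarith) h5, h1, h2, show (Z : ℝ) + 1 + (z - Z - 1) = z by ring]
      · by_cases hT : Top E (u + (0, 1, 0))
        · refine ⟨3 + (z - Z - 1) - (2 * (z - Z - 1) - 1) / 8, by linarith, by linarith, ?_⟩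
          rw [← F5'' hT _ h5 (by linarith), h1, h2, show (Z : ℝ) + 1 + (z - Z - 1) = z by ring]
        · refine ⟨3 + (z - Z - 1), by linarith, by linarith, ?_⟩
          rw [← F5' hT _ h5 (by linarith), h1, h2, show (Z : ℝ) + 1 + (z - Z - 1) = z by ring]
    · refine ⟨4 - (1 - y) / 8, by linarith, by linarith, ?_⟩
      rw [← F6 hT _ h3 h4, h1, h2]
  · rintro ⟨t, ht0, ht4, rfl⟩
    rcases le_total t 1 with h1 | h1
    · refine ⟨((X : ℝ) + t, 1, (Z : ℝ)), Or.inl (Or.inl ?_), F1 t ht0 h1⟩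
      exact ⟨rfl, rfl, by simp only; linarith, by simp only; linarith⟩
    rcases le_total t 2 with h2 | h2
    · refine ⟨((X : ℝ) + 1, 1, (Z : ℝ) + (t - 1)), Or.inl (Or.inr (Or.inl ?_)), ?_⟩
      · exact ⟨rfl, rfl, by simp only; linarith, by simp only; linarith⟩
      · rw [F2 _ (by linarith) (by linarith), add_sub_cancel]
    rcases le_total t (2 + 1 / 8) with h3 | h3
    · refine ⟨((X : ℝ) + 1, 1 - 8 * (t - 2), (Z : ℝ) + 1),
        Or.inl (Or.inr (Or.inr (Or.inl ?_))), ?_⟩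
      · exact ⟨rfl, rfl, by simp only; linarith, by simp only; linarith⟩
      · rw [F3 _ (by linarith) (by linarith)]
        congr 1
        ring
    rcases le_total t (2 + 1 / 2) with h4 | h4
    · refine ⟨((X : ℝ) + 1 + (t - 2 - 1 / 8) * (4 / 3), 0, (Z : ℝ) + 1),
        Or.inl (Or.inr (Or.inr (Or.inr (Or.inl ?_)))), ?_⟩
      · exact ⟨rfl, rfl, by simp only; linarith, by simp only; linarith⟩
      · rw [F4 _ (by linarith) (by linarith)]
        congr 1
        ring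
    rcases le_total t 3 with h5 | h5
    · refine ⟨((X : ℝ) + 1 + (t - 2), 0, (Z : ℝ) + 1),
        Or.inl (Or.inr (Or.inr (Or.inr (Or.inl ?_)))), ?_⟩
      · exact ⟨rfl, rfl, by simp only; linarith, by simp only; linarith⟩
      · rw [F4' _ (by linarith) (by linarith)]
        congr 1
        ring
    rcases le_total t (3 + 1 / 2) with h6 | h6
    · refine ⟨((X : ℝ) + 2, 0, (Z : ℝ) + 1 + (t - 3)),
        Or.inl (Or.inr (Or.inr (Or.inr (Or.inr ?_)))), ?_⟩
      · exact ⟨rfl, rfl, by simp only; linarith, by simp only; linarith⟩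
      · rw [F5 _ (by linarith) (by linarith)]
        congr 1
        ring
    by_cases hT : Top E (u + (0, 1, 0))
    · rcases le_total t (4 - 1 / 8) with h7 | h7
      · refine ⟨((X : ℝ) + 2, 0, (Z : ℝ) + 1 + (t - 3 - 1 / 8) * (4 / 3)),
          Or.inl (Or.inr (Or.inr (Or.inr (Or.inr ?_)))), ?_⟩
        · exact ⟨rfl, rfl, by simp only; linarith, by simp only; linarith⟩
        · rw [F5'' hT _ (by linarith) (by linarith)]
          congr 1
          ring
      · refine ⟨((X : ℝ) + 2, 1 - 8 * (4 - t), (Z : ℝ) + 2), Or.inr ⟨hT, ?_⟩, ?_⟩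
        · exact ⟨rfl, rfl, by simp only; linarith, by simp only; linarith⟩
        · rw [F6 hT _ (by linarith) (by linarith)]
          congr 1
          ring
    · refine ⟨((X : ℝ) + 2, 0, (Z : ℝ) + 1 + (t - 3)),
        Or.inl (Or.inr (Or.inr (Or.inr (Or.inr ?_)))), ?_⟩
      · exact ⟨rfl, rfl, by simp only; linarith, by simp only; linarith⟩
      · rw [F5' hT _ (by linarith) (by linarith)]
        congr 1
        ring

end Pool.Agent.KFlat
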