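import Pool.Agent.KFlat.DefsA

/-! FA5: the order relation for edges in the directions `x` and `z`. -/

set_option autoImplicit false

open Set

namespace Pool.Agent.KFlat

open Pool.Agent.LK

variable {H : ℕ} {E : Finset (Sym2 P3)} {u u' : P3} {t t' : ℝ}

private theorem ox_mR (H : ℕ) : ((mH H : ℤ) : ℝ) = 2 * H + 2 := by
  unfold mH
  push_cast
  ring

private theorem ox_one (a : Ax) (ha : a = .x ∨ a = .z) (ht : 0 ≤ t)
    (h : ((mH H : ℤ) : ℝ) - 1 - 2 * (u.2.1 : ℝ) ≤ t) : em H E u a t = 1 := by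
  have h1 : cl (8 * (t - ((mH H : ℤ) - 1 - 2 * (u.2.1 : ℝ))) + 1) = 1 := cl_of_ge (by linarith)
  have h2 : mu E u * (1 - 8 * t) ≤ 1 := by
    have := mu_nonneg E u
    have := mu_le E u
    nlinarith
  rcases ha with rfl | rfl
  · show max (mu E u * (1 - 8 * t)) (cl (8 * (t - ((mH H : ℤ) - 1 - 2 * (u.2.1 : ℝ))) + 1)) = 1
    rw [h1, max_eq_right h2]
  · show max (mu E u * (1 - 8 * t)) (cl (8 * (t - ((mH H : ℤ) - 1 - 2 * (u.2.1 : ℝ))) + 1)) = 1
    rw [h1, max_eq_right h2]

private theorem ox_nil (a : Ax) (ha : a = .x ∨ a = .z) (ht : 1 ≤ t)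
    (h : t + 1 ≤ ((mH H : ℤ) : ℝ) - 1 - 2 * (u.2.1 : ℝ)) : em H E u a t = 0 := by
  have h1 : cl (8 * (t - ((mH H : ℤ) - 1 - 2 * (u.2.1 : ℝ))) + 1) = 0 := cl_of_le (by linarith)
  have h2 : mu E u * (1 - 8 * t) ≤ 0 := by
    have := mu_nonneg E u
    nlinarith
  rcases ha with rfl | rfl
  · show max (mu E u * (1 - 8 * t)) (cl (8 * (t - ((mH H : ℤ) - 1 - 2 * (u.2.1 : ℝ))) + 1)) = 0
    rw [h1, max_eq_right h2]
  · show max (mu E u * (1 - 8 * t)) (cl (8 * (t - ((mH H : ℤ) - 1 - 2 * (u.2.1 : ℝ))) + 1)) = 0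
    rw [h1, max_eq_right h2]

private theorem ox_start (a : Ax) (ha : a = .x ∨ a = .z)
    (h : 1 ≤ ((mH H : ℤ) : ℝ) - 1 - 2 * (u.2.1 : ℝ)) : em H E u a 0 = mu E u := by
  have h1 : cl (8 * (0 - ((mH H : ℤ) - 1 - 2 * (u.2.1 : ℝ))) + 1) = 0 := cl_of_le (by linarith)
  have h2 : mu E u * (1 - 8 * 0) = mu E u := by ring
  rcases ha with rfl | rfl
  · show max (mu E u * (1 - 8 * 0)) (cl (8 * (0 - ((mH H : ℤ) - 1 - 2 * (u.2.1 : ℝ))) + 1)) = _
    rw [h1, h2, max_eq_left (mu_nonneg E u)]
  · show max (mu E u * (1 - 8 * 0)) (cl (8 * (0 - ((mH H : ℤ) - 1 - 2 * (u.2.1 : ℝ))) + 1)) = _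
    rw [h1, h2, max_eq_left (mu_nonneg E u)]

/-- the heights in real numbers -/
private theorem ox_ht (hE : Ht H E) {v : P3} (hu : s(u, v) ∈ E) :
    0 ≤ u.2.1 ∧ u.2.1 ≤ H ∧ (0 : ℝ) ≤ (u.2.1 : ℝ) ∧ (u.2.1 : ℝ) ≤ H := by
  obtain ⟨h1, h2⟩ := hE u ⟨v, hu⟩
  exact ⟨h1, h2, by exact_mod_cast h1, by exact_mod_cast h2⟩

/-- an integer `d` with `m d = r`, `|r| ≤ m` -/
private theorem ox_int {d : ℤ} {m r : ℝ} (hm : 0 < m) (h : m * d = r) (h1 : -m ≤ r) (h2 : r ≤ m) :
    d = -1 ∨ d = 0 ∨ d = 1 := by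
  have h3 : (-1 : ℝ) ≤ d := by
    by_contra hcon
    push Not at hcon
    nlinarith
  have h4 : (d : ℝ) ≤ 1 := by
    by_contra hcon
    push Not at hcon
    nlinarith
  have h5 : -1 ≤ d := by exact_mod_cast h3
  have h6 : d ≤ 1 := by exact_mod_cast h4
  omega

/-- the end of an edge and the start of the next one -/
private theorem ox_next (a : Ax) (ha : a = .x ∨ a = .z) (hE : Ht H E)
    (hu : s(u, u + a.v) ∈ E) (hu' : s(u', u' + a.v) ∈ E) (he : u' = u + a.v)
    (ht : t = ((mH H : ℤ) : ℝ)) (ht' : t' = 0) :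
    OrdR (1 / (H + 1)) 32 (hm u a t - hm u' a t') (em H E u a t - em H E u' a t') := by
  obtain ⟨a1, a2, a3, a4⟩ := ox_ht hE hu
  obtain ⟨b1, b2, b3, b4⟩ := ox_ht hE hu'
  have hm1 := ox_mR H
  have hH : (0 : ℝ) ≤ H := Nat.cast_nonneg H
  have e1 : em H E u a t = 1 := ox_one a ha (by rw [ht, hm1]; linarith) (by rw [ht]; linarith)
  have e2 : em H E u' a t' = mu E u' := by
    rw [ht']
    exact ox_start a ha (by rw [hm1]; linarith)
  have e3 : Top E u' := by
    rcases ha with rfl | rfl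
    · left
      have h1 : u' + (-1, 0, 0) = u := by
        rw [he]
        simp [Ax.v, Prod.ext_iff]
      rw [h1, Sym2.eq_swap, he]
      exact hu
    · right
      left
      have h1 : u' + (0, 0, -1) = u := by
        rw [he]
        simp [Ax.v, Prod.ext_iff]
      rw [h1, Sym2.eq_swap, he]
      exact hu
  have e4 : hm u a t = hm u' a t' := by
    rcases ha with rfl | rfl
    · show (u.2.1 : ℝ) = (u'.2.1 : ℝ)
      rw [he]
      simp [Ax.v]
    · show (u.2.1 : ℝ) = (u'.2.1 : ℝ)
      rw [he]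
      simp [Ax.v]
  rw [e1, e2, mu_of_top e3, e4, sub_self, sub_self]
  exact OrdR.zero _ _

theorem ord_xx (hE : Ht H E) (hu : s(u, u + Ax.v .x) ∈ E) (hu' : s(u', u' + Ax.v .x) ∈ E)
    (ht : 0 ≤ t) (ht1 : t ≤ leN H .x) (ht' : 0 ≤ t') (ht1' : t' ≤ leN H .x)
    (hg : gm H u .x t = gm H u' .x t') :
    OrdR (1 / (H + 1)) 32 (hm u .x t - hm u' .x t') (em H E u .x t - em H E u' .x t') := by
  obtain ⟨a1, a2, a3, a4⟩ := ox_ht hE hu
  obtain ⟨b1, b2, b3, b4⟩ := ox_ht hE hu'
  have hm1 := ox_mR H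
  have hH : (0 : ℝ) ≤ H := Nat.cast_nonneg H
  have hle : ((leN H .x : ℕ) : ℝ) = ((mH H : ℤ) : ℝ) := by
    rw [hm1]
    show (((2 * H + 2 : ℕ)) : ℝ) = _
    push_cast
    ring
  rw [hle] at ht1 ht1'
  have hg1 : (X0 H u : ℝ) + t = (X0 H u' : ℝ) + t' := congrArg Prod.fst hg
  have hg2 : (Z0 H u : ℝ) = (Z0 H u' : ℝ) := congrArg Prod.snd hg
  have hg3 : Z0 H u = Z0 H u' := by exact_mod_cast hg2
  unfold Z0 at hg3
  obtain ⟨c1, c2⟩ := eucl hg3 (by omega) (by unfold mH; omega) (by omega) (by unfold mH; omega)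
  have c3 : u.2.1 = u'.2.1 := by omega
  unfold X0 at hg1
  push_cast at hg1
  rw [c3] at hg1
  have hmp : (0 : ℝ) < ((mH H : ℤ) : ℝ) := by rw [hm1]; linarith
  have hd : ((mH H : ℤ) : ℝ) * ((u'.1 - u.1 : ℤ) : ℝ) = t - t' := by
    push_cast
    linarith
  rcases ox_int hmp hd (by linarith) (by linarith) with h | h | h
  · rw [h] at hd
    push_cast at hd
    have h1 : t' = ((mH H : ℤ) : ℝ) := by linarith
    have h2 : t = 0 := by linarith
    have h3 : u = u' + Ax.v .x := by
      refine Prod.ext ?_ (Prod.ext ?_ ?_)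
      · show u.1 = u'.1 + 1
        omega
      · show u.2.1 = u'.2.1 + 0
        omega
      · show u.2.2 = u'.2.2 + 0
        omega
    have h4 := (ox_next .x (Or.inl rfl) hE hu' hu h3 h1 h2).neg
    rwa [neg_sub, neg_sub] at h4
  · rw [h] at hd
    push_cast at hd
    have h1 : t = t' := by linarith
    have h3 : u = u' := by
      refine Prod.ext ?_ (Prod.ext ?_ ?_)
      · omega
      · exact c3
      · exact c1
    rw [h1, h3, sub_self, sub_self]
    exact OrdR.zero _ _
  · rw [h] at hd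
    push_cast at hd
    have h1 : t = ((mH H : ℤ) : ℝ) := by linarith
    have h2 : t' = 0 := by linarith
    have h3 : u' = u + Ax.v .x := by
      refine Prod.ext ?_ (Prod.ext ?_ ?_)
      · show u'.1 = u.1 + 1
        omega
      · show u'.2.1 = u.2.1 + 0
        omega
      · show u'.2.2 = u.2.2 + 0
        omega
    exact ox_next .x (Or.inl rfl) hE hu hu' h3 h1 h2

theorem ord_zz (hE : Ht H E) (hu : s(u, u + Ax.v .z) ∈ E) (hu' : s(u', u' + Ax.v .z) ∈ E)
    (ht : 0 ≤ t) (ht1 : t ≤ leN H .z) (ht' : 0 ≤ t') (ht1' : t' ≤ leN H .z)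
    (hg : gm H u .z t = gm H u' .z t') :
    OrdR (1 / (H + 1)) 32 (hm u .z t - hm u' .z t') (em H E u .z t - em H E u' .z t') := by
  obtain ⟨a1, a2, a3, a4⟩ := ox_ht hE hu
  obtain ⟨b1, b2, b3, b4⟩ := ox_ht hE hu'
  have hm1 := ox_mR H
  have hH : (0 : ℝ) ≤ H := Nat.cast_nonneg H
  have hle : ((leN H .z : ℕ) : ℝ) = ((mH H : ℤ) : ℝ) := by
    rw [hm1]
    show (((2 * H + 2 : ℕ)) : ℝ) = _
    push_cast
    ring
  rw [hle] at ht1 ht1'
  have hg2 : (Z0 H u : ℝ) + t = (Z0 H u' : ℝ) + t' := congrArg Prod.snd hg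
  have hg1 : (X0 H u : ℝ) = (X0 H u' : ℝ) := congrArg Prod.fst hg
  have hg3 : X0 H u = X0 H u' := by exact_mod_cast hg1
  unfold X0 at hg3
  obtain ⟨c1, c2⟩ := eucl hg3 (by omega) (by unfold mH; omega) (by omega) (by unfold mH; omega)
  have c3 : u.2.1 = u'.2.1 := by omega
  unfold Z0 at hg2
  push_cast at hg2
  rw [c3] at hg2
  have hmp : (0 : ℝ) < ((mH H : ℤ) : ℝ) := by rw [hm1]; linarith
  have hd : ((mH H : ℤ) : ℝ) * ((u'.2.2 - u.2.2 : ℤ) : ℝ) = t - t' := by
    push_cast
    linarith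
  rcases ox_int hmp hd (by linarith) (by linarith) with h | h | h
  · rw [h] at hd
    push_cast at hd
    have h1 : t' = ((mH H : ℤ) : ℝ) := by linarith
    have h2 : t = 0 := by linarith
    have h3 : u = u' + Ax.v .z := by
      refine Prod.ext ?_ (Prod.ext ?_ ?_)
      · show u.1 = u'.1 + 0
        omega
      · show u.2.1 = u'.2.1 + 0
        omega
      · show u.2.2 = u'.2.2 + 1
        omega
    have h4 := (ox_next .z (Or.inr rfl) hE hu' hu h3 h1 h2).neg
    rwa [neg_sub, neg_sub] at h4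
  · rw [h] at hd
    push_cast at hd
    have h1 : t = t' := by linarith
    have h3 : u = u' := by
      refine Prod.ext ?_ (Prod.ext ?_ ?_)
      · exact c1
      · exact c3
      · omega
    rw [h1, h3, sub_self, sub_self]
    exact OrdR.zero _ _
  · rw [h] at hd
    push_cast at hd
    have h1 : t = ((mH H : ℤ) : ℝ) := by linarith
    have h2 : t' = 0 := by linarith
    have h3 : u' = u + Ax.v .z := by
      refine Prod.ext ?_ (Prod.ext ?_ ?_)
      · show u'.1 = u.1 + 0
        omega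
      · show u'.2.1 = u.2.1 + 0
        omega
      · show u'.2.2 = u.2.2 + 1
        omega
    exact ox_next .z (Or.inr rfl) hE hu hu' h3 h1 h2

/-- an integer `d` with `m d = r + e`, `0 ≤ r ≤ m`, `0 < e < m` -/
private theorem ox_up {d : ℤ} {m r e : ℝ} (h : m * d = r + e) (h1 : 0 ≤ r) (h2 : r ≤ m)
    (h3 : 0 < e) (h4 : e < m) : d = 1 := by
  have h5 : (0 : ℝ) < d := by
    by_contra hcon
    push Not at hcon
    nlinarith
  have h6 : (d : ℝ) < 2 := by
    by_contra hcon
    push Not at hcon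
    nlinarith
  have h7 : 0 < d := by exact_mod_cast h5
  have h8 : d < 2 := by exact_mod_cast h6
  omega

/-- an integer `d` with `m d + e = r`, `0 ≤ r ≤ m`, `0 < e < m` -/
private theorem ox_dn {d : ℤ} {m r e : ℝ} (h : m * d + e = r) (h1 : 0 ≤ r) (h2 : r ≤ m)
    (h3 : 0 < e) (h4 : e < m) : d = 0 := by
  have h5 : (-1 : ℝ) < d := by
    by_contra hcon
    push Not at hcon
    nlinarith
  have h6 : (d : ℝ) < 1 := by
    by_contra hcon
    push Not at hcon
    nlinarith
  have h7 : -1 < d := by exact_mod_cast h5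
  have h8 : d < 1 := by exact_mod_cast h6
  omega

theorem ord_xz (hE : Ht H E) (hu : s(u, u + Ax.v .x) ∈ E) (hu' : s(u', u' + Ax.v .z) ∈ E)
    (ht : 0 ≤ t) (ht1 : t ≤ leN H .x) (ht' : 0 ≤ t') (ht1' : t' ≤ leN H .z)
    (hg : gm H u .x t = gm H u' .z t') :
    OrdR (1 / (H + 1)) 32 (hm u .x t - hm u' .z t') (em H E u .x t - em H E u' .z t') := by
  obtain ⟨a1, a2, a3, a4⟩ := ox_ht hE hu
  obtain ⟨b1, b2, b3, b4⟩ := ox_ht hE hu'
  have hm1 := ox_mR H
  have hH : (0 : ℝ) ≤ H := Nat.cast_nonneg H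
  have hle : ((leN H .x : ℕ) : ℝ) = ((mH H : ℤ) : ℝ) := by
    rw [hm1]
    show (((2 * H + 2 : ℕ)) : ℝ) = _
    push_cast
    ring
  have hle' : ((leN H .z : ℕ) : ℝ) = ((mH H : ℤ) : ℝ) := hle
  rw [hle] at ht1
  rw [hle'] at ht1'
  have hg1 : (X0 H u : ℝ) + t = (X0 H u' : ℝ) := congrArg Prod.fst hg
  have hg2 : (Z0 H u : ℝ) = (Z0 H u' : ℝ) + t' := congrArg Prod.snd hg
  unfold X0 at hg1
  unfold Z0 at hg2
  push_cast at hg1 hg2
  have hmp : (0 : ℝ) < ((mH H : ℤ) : ℝ) := by rw [hm1]; linarith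
  have ehm : hm u .x t = (u.2.1 : ℝ) := rfl
  have ehm' : hm u' .z t' = (u'.2.1 : ℝ) := rfl
  rcases lt_trichotomy u.2.1 u'.2.1 with hlt | heq | hlt
  · -- `u₂ < u₂'`
    have hk : (u.2.1 : ℝ) + 1 ≤ (u'.2.1 : ℝ) := by exact_mod_cast hlt
    have d1 : u'.1 - u.1 = 0 := by
      refine ox_dn (m := ((mH H : ℤ) : ℝ)) (r := t) (e := 2 * ((u'.2.1 : ℝ) - (u.2.1 : ℝ))) ?_ ht ht1
        (by linarith) (by rw [hm1]; linarith)
      push_cast
      linarith
    have d2 : u.2.2 - u'.2.2 = 1 := by
      refine ox_up (m := ((mH H : ℤ) : ℝ)) (r := t') (e := 2 * ((u'.2.1 : ℝ) - (u.2.1 : ℝ))) ?_ ht'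
        ht1' (by linarith) (by rw [hm1]; linarith)
      push_cast
      linarith
    have d1' : (u'.1 : ℝ) = (u.1 : ℝ) := by
      have : u'.1 = u.1 := by omega
      exact_mod_cast this
    have d2' : (u.2.2 : ℝ) = (u'.2.2 : ℝ) + 1 := by
      have : u.2.2 = u'.2.2 + 1 := by omega
      exact_mod_cast this
    rw [d1'] at hg1
    rw [d2'] at hg2
    have e1 : em H E u .x t = 0 := ox_nil .x (Or.inl rfl) (by linarith) (by linarith)
    have e2 : em H E u' .z t' = 1 := ox_one .z (Or.inr rfl) ht' (by linarith)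
    rw [e1, e2, ehm, ehm']
    refine ⟨fun h => ?_, fun h => ?_⟩
    · exfalso
      linarith
    · refine ⟨by linarith, ?_⟩
      have h5 : (u'.2.1 : ℝ) - (u.2.1 : ℝ) ≤ (H : ℝ) + 1 := by linarith
      rw [div_mul_eq_mul_div, one_mul, le_div_iff₀ (by positivity)]
      linarith
  · -- equal heights
    have heq' : (u.2.1 : ℝ) = (u'.2.1 : ℝ) := by rw [heq]
    have hz : em H E u .x t = em H E u' .z t' := by
      have hd1 : ((mH H : ℤ) : ℝ) * ((u'.1 - u.1 : ℤ) : ℝ) = t := by
        push_cast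
        linarith
      have hd2 : ((mH H : ℤ) : ℝ) * ((u.2.2 - u'.2.2 : ℤ) : ℝ) = t' := by
        push_cast
        linarith
      have k1 := ox_int hmp hd1 (by linarith) ht1
      have k2 := ox_int hmp hd2 (by linarith) ht1'
      have k1' : u'.1 - u.1 ≠ -1 := by
        intro h
        rw [h] at hd1
        push_cast at hd1
        linarith
      have k2' : u.2.2 - u'.2.2 ≠ -1 := by
        intro h
        rw [h] at hd2
        push_cast at hd2
        linarith
      rcases k1.resolve_left k1' with k1 | k1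
      · have t0 : t = 0 := by
          rw [k1] at hd1
          push_cast at hd1
          linarith
        have e1 : em H E u .x t = mu E u := by
          rw [t0]
          exact ox_start .x (Or.inl rfl) (by rw [hm1]; linarith)
        rcases k2.resolve_left k2' with k2 | k2
        · have t0' : t' = 0 := by
            rw [k2] at hd2
            push_cast at hd2
            linarith
          have e2 : em H E u' .z t' = mu E u' := by
            rw [t0']
            exact ox_start .z (Or.inr rfl) (by rw [hm1]; linarith)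
          have h3 : u = u' := by
            refine Prod.ext ?_ (Prod.ext ?_ ?_)
            · omega
            · exact heq
            · omega
          rw [e1, e2, h3]
        · have t0' : t' = ((mH H : ℤ) : ℝ) := by
            rw [k2] at hd2
            push_cast at hd2
            linarith
          have e2 : em H E u' .z t' = 1 := ox_one .z (Or.inr rfl) ht' (by linarith)
          have h3 : u + (0, 0, -1) = u' := by
            refine Prod.ext ?_ (Prod.ext ?_ ?_)
            · show u.1 + 0 = u'.1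
              omega
            · show u.2.1 + 0 = u'.2.1
              omega
            · show u.2.2 + -1 = u'.2.2
              omega
          have h4 : u' + Ax.v .z = u := by
            refine Prod.ext ?_ (Prod.ext ?_ ?_)
            · show u'.1 + 0 = u.1
              omega
            · show u'.2.1 + 0 = u.2.1
              omega
            · show u'.2.2 + 1 = u.2.2
              omega
          have e3 : Top E u := by
            right
            left
            rw [h3, Sym2.eq_swap]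
            rw [h4] at hu'
            exact hu'
          rw [e1, e2, mu_of_top e3]
      · have t0 : t = ((mH H : ℤ) : ℝ) := by
          rw [k1] at hd1
          push_cast at hd1
          linarith
        have e1 : em H E u .x t = 1 := ox_one .x (Or.inl rfl) ht (by linarith)
        rcases k2.resolve_left k2' with k2 | k2
        · have t0' : t' = 0 := by
            rw [k2] at hd2
            push_cast at hd2
            linarith
          have e2 : em H E u' .z t' = mu E u' := by
            rw [t0']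
            exact ox_start .z (Or.inr rfl) (by rw [hm1]; linarith)
          have h3 : u' + (-1, 0, 0) = u := by
            refine Prod.ext ?_ (Prod.ext ?_ ?_)
            · show u'.1 + -1 = u.1
              omega
            · show u'.2.1 + 0 = u.2.1
              omega
            · show u'.2.2 + 0 = u.2.2
              omega
          have h4 : u + Ax.v .x = u' := by
            refine Prod.ext ?_ (Prod.ext ?_ ?_)
            · show u.1 + 1 = u'.1
              omega
            · show u.2.1 + 0 = u'.2.1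
              omega
            · show u.2.2 + 0 = u'.2.2
              omega
          have e3 : Top E u' := by
            left
            rw [h3, Sym2.eq_swap]
            rw [h4] at hu
            exact hu
          rw [e1, e2, mu_of_top e3]
        · have t0' : t' = ((mH H : ℤ) : ℝ) := by
            rw [k2] at hd2
            push_cast at hd2
            linarith
          have e2 : em H E u' .z t' = 1 := ox_one .z (Or.inr rfl) ht' (by linarith)
          rw [e1, e2]
    rw [hz, ehm, ehm', heq', sub_self, sub_self]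
    exact OrdR.zero _ _
  · -- `u₂' < u₂`
    have hk : (u'.2.1 : ℝ) + 1 ≤ (u.2.1 : ℝ) := by exact_mod_cast hlt
    have d1 : u'.1 - u.1 = 1 := by
      refine ox_up (m := ((mH H : ℤ) : ℝ)) (r := t) (e := 2 * ((u.2.1 : ℝ) - (u'.2.1 : ℝ))) ?_ ht ht1
        (by linarith) (by rw [hm1]; linarith)
      push_cast
      linarith
    have d2 : u.2.2 - u'.2.2 = 0 := by
      refine ox_dn (m := ((mH H : ℤ) : ℝ)) (r := t') (e := 2 * ((u.2.1 : ℝ) - (u'.2.1 : ℝ))) ?_ ht'
        ht1' (by linarith) (by rw [hm1]; linarith)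
      push_cast
      linarith
    have d1' : (u'.1 : ℝ) = (u.1 : ℝ) + 1 := by
      have : u'.1 = u.1 + 1 := by omega
      exact_mod_cast this
    have d2' : (u.2.2 : ℝ) = (u'.2.2 : ℝ) := by
      have : u.2.2 = u'.2.2 := by omega
      exact_mod_cast this
    rw [d1'] at hg1
    rw [d2'] at hg2
    have e1 : em H E u .x t = 1 := ox_one .x (Or.inl rfl) ht (by linarith)
    have e2 : em H E u' .z t' = 0 := ox_nil .z (Or.inr rfl) (by linarith) (by linarith)
    rw [e1, e2, ehm, ehm']
    refine ⟨fun h => ?_, fun h => ?_⟩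
    · refine ⟨?_, by linarith⟩
      have h5 : (u.2.1 : ℝ) - (u'.2.1 : ℝ) ≤ (H : ℝ) + 1 := by linarith
      rw [div_mul_eq_mul_div, one_mul, div_le_iff₀ (by positivity)]
      linarith
    · exfalso
      linarith

end Pool.Agent.KFlat
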