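import Pool.Agent.KFlat.DefsA

/-! FA6: the order relation for an edge in the direction `y` and another edge. -/

set_option autoImplicit false

open Set

namespace Pool.Agent.KFlat

open Pool.Agent.LK

variable {H : ℕ} {E : Finset (Sym2 P3)} {u u' : P3} {t t' : ℝ}

/-- An edge `u` in the direction `y` and an edge `u'` in the direction `x`. Put `n = u₂`, so `0 ≤ n ≤ H - 1` (`Ht` for `u` and
`u + (0, 1, 0)`), `m = mH H = 2 H + 2 ≥ 4`. Let `(a, b) = (cl t + cl (t - 2), cl (t - 1) + cl (t - 3))` be the offset, it is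
`(t, 0)`, `(1, t - 1)`, `(t - 1, 1)`, `(2, t - 2)` for `t` in `[0, 1]`, `[1, 2]`, `[2, 3]`, `[3, 4]`. `hg` says
`X0 H u + a = X0 H u' + t'`, `Z0 H u + b = Z0 H u'`. So `b` is an integer, and it is even (`Z0` is even), so `b = 0` and
`t ≤ 1`, or `b = 2` and `t = 4`.
(1) `b = 0`, `t ≤ 1`, `a = t`: `Z0 H u = Z0 H u'`, so `u₂' = n`, `u₃' = u₃` (`eucl`), and `m u₁ + t = m u₁' + t'`. If
`u₁' = u₁` then `u' = u`, `t' = t`. The heights are `n + t / 4` and `n`; the new heights are `1` (as `t ≤ 2`) and
`max (1 - 8 t) 0` (`Top E u` because of the edge `s(u, u + (0, 1, 0))`; `8 (t - (m - 1 - 2 n)) + 1 ≤ 0` because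
`m - 1 - 2 n ≥ 3`). The differences are `t / 4` and `min (8 t) 1`, and `t / (4 (H + 1)) ≤ min (8 t) 1 ≤ 32 (t / 4)`.
If `u₁' = u₁ + 1`: `t = m + t'` impossible. If `u₁' = u₁ - 1`: `t + m = t' ≤ m`, so `t = 0`, `t' = m`: the heights are both
`n`, the new heights are both `1`.
(2) `t = 4`, `a = b = 2`: `Z0 H u + 2 = Z0 H u'`, that is `m u₃ + 2 (n + 1) = m u₃' + 2 u₂'` with `n + 1 ≤ H`, so `u₂' = n + 1`,
`u₃' = u₃` (`eucl`), and `X0 H u + 2 = m u₁ + 2 (n + 1) = m u₁' + 2 (n + 1) + t'`, so `t' = 0`, `u' = u + (0, 1, 0)`, or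
`t' = m`, `u' + (1, 0, 0) = u + (0, 1, 0)`. The heights are both `n + 1`. The new height of the first edge is
`max (cl (1 - 16)) (mu E (u + (0, 1, 0))) = mu E (u + (0, 1, 0))`. The new height of the second edge is, if `t' = 0`,
`mu E u'` (the second term is `cl (1 - 8 (m - 1 - 2 (n + 1))) = 0`, as `m - 1 - 2 (n + 1) ≥ 1`), and if `t' = m` it is `1`,
and `Top E (u + (0, 1, 0))` because of the edge in the direction `(-1, 0, 0)`. -/
theorem ord_yx (hE : Ht H E) (hu : s(u, u + Ax.v .y) ∈ E) (hu' : s(u', u' + Ax.v .x) ∈ E)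
    (ht : 0 ≤ t) (ht1 : t ≤ leN H .y) (ht' : 0 ≤ t') (ht1' : t' ≤ leN H .x)
    (hg : gm H u .y t = gm H u' .x t') :
    OrdR (1 / (H + 1)) 32 (hm u .y t - hm u' .x t') (em H E u .y t - em H E u' .x t') := by
  obtain ⟨p, n, q⟩ := u
  obtain ⟨p', n', q'⟩ := u'
  have v1 : ((p, n, q) : P3) + Ax.v .y = (p, n + 1, q) := by simp [Ax.v]
  have v1' : ((p, n, q) : P3) + (0, 1, 0) = (p, n + 1, q) := by simp
  have v2 : ((p', n', q') : P3) + Ax.v .x = (p' + 1, n', q') := by simp [Ax.v]
  have a1 := hE _ (show _ ∈ verts E from ⟨_, hu⟩)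
  have a2 := hE _ (show _ ∈ verts E from ⟨_, by rw [Sym2.eq_swap]; exact hu⟩)
  have a3 := hE _ (show _ ∈ verts E from ⟨_, hu'⟩)
  rw [v1] at a2
  simp only at a1 a2 a3
  have t4 : t ≤ 4 := by
    have : ((leN H .y : ℕ) : ℝ) = 4 := by simp [leN]
    linarith
  have tm : t' ≤ (mH H : ℝ) := by
    have : ((leN H .x : ℕ) : ℝ) = (mH H : ℝ) := by simp [leN, mH]
    linarith
  have hmH : (mH H : ℝ) = 2 * (H : ℝ) + 2 := by simp [mH]
  have hmZ : mH H = 2 * (H : ℤ) + 2 := rfl
  have hH1 : (1 : ℤ) ≤ H := by omega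
  have hHr : (1 : ℝ) ≤ H := by exact_mod_cast hH1
  have nr0 : (0 : ℝ) ≤ n := by exact_mod_cast a1.1
  have nr1 : (n : ℝ) + 1 ≤ H := by exact_mod_cast a2.2
  have g1 := congrArg Prod.fst hg
  have g2 := congrArg Prod.snd hg
  simp only [gm, X0, Z0] at g1 g2
  push_cast at g1 g2
  -- the values at the end of an edge in the direction x
  have endx : ∀ w : P3, 0 ≤ w.2.1 → em H E w .x (mH H : ℝ) = 1 := by
    intro w hw
    have hw' : (0 : ℝ) ≤ w.2.1 := by exact_mod_cast hw
    simp only [em]
    rw [cl_of_ge (by linarith), max_eq_right]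
    have h1 := mu_nonneg E w
    have h2 := mu_le E w
    nlinarith
  have emy : t ≤ 1 → em H E (p, n, q) .y t = 1 := by
    intro h
    simp only [em]
    rw [cl_of_ge (by linarith), max_eq_left]
    have h1 := mu_nonneg E ((p, n, q) + (0, 1, 0))
    nlinarith
  by_cases ht2 : t ≤ 1
  · -- the first part of the edge
    rw [cl_of_mem ht ht2, cl_of_le (by linarith : t - 2 ≤ 0)] at g1
    rw [cl_of_le (by linarith : t - 1 ≤ 0), cl_of_le (by linarith : t - 3 ≤ 0)] at g2
    have g2' : mH H * q + 2 * n = mH H * q' + 2 * n' := by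
      have : ((mH H * q + 2 * n : ℤ) : ℝ) = ((mH H * q' + 2 * n' : ℤ) : ℝ) := by
        push_cast
        linarith
      exact_mod_cast this
    obtain ⟨e1, e2⟩ := eucl g2' (by omega) (by omega) (by omega) (by omega)
    have e3 : n' = n := by omega
    subst e3
    subst e1
    have g1' : (mH H : ℝ) * ((p' - p : ℤ) : ℝ) = t - t' := by
      push_cast
      linarith
    have d1 : p' - p ≤ 0 := by
      by_contra hc
      have hc' : (1 : ℝ) ≤ ((p' - p : ℤ) : ℝ) := by
        have : (1 : ℤ) ≤ p' - p := by omega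
        exact_mod_cast this
      nlinarith
    have d2 : -1 ≤ p' - p := by
      by_contra hc
      have hc' : ((p' - p : ℤ) : ℝ) ≤ -2 := by
        have : p' - p ≤ (-2 : ℤ) := by omega
        exact_mod_cast this
      nlinarith
    rcases (by omega : p' - p = 0 ∨ p' - p = -1) with d | d
    · have e4 : p' = p := by omega
      subst e4
      rw [d] at g1'
      have e5 : t' = t := by
        push_cast at g1'
        linarith
      subst e5
      rw [emy ht2]
      have htop : Top E (p', n', q) := Or.inr (Or.inr (by rw [v1']; rw [v1] at hu; exact hu))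
      have emx : em H E (p', n', q) .x t' = max (1 - 8 * t') 0 := by
        simp only [em]
        rw [mu_of_top htop, one_mul, cl_of_le (by rw [hmH]; linarith)]
      rw [emx]
      simp only [hm]
      have hκ : (1 / ((H : ℝ) + 1)) ≤ 1 := by
        rw [div_le_one (by linarith)]
        linarith
      have hκ0 : 0 ≤ (1 / ((H : ℝ) + 1)) := by positivity
      have hs : (n' : ℝ) + t' / 4 - n' = t' / 4 := by ring
      rw [hs]
      refine ⟨fun _ => ⟨?_, ?_⟩, fun h => ?_⟩
      · have h1 : 1 / ((H : ℝ) + 1) * (t' / 4) ≤ t' / 4 := by nlinarith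
        rcases le_total (1 - 8 * t') 0 with h2 | h2
        · rw [max_eq_right h2]
          linarith
        · rw [max_eq_left h2]
          linarith
      · have h1 : 1 - 8 * t' ≤ max (1 - 8 * t') 0 := le_max_left _ _
        linarith
      · have h1 : t' = 0 := by linarith
        rw [h1]
        norm_num
    · rw [d] at g1'
      push_cast at g1'
      have e5 : t = 0 := by linarith
      have e6 : t' = (mH H : ℝ) := by linarith
      rw [emy ht2, e6, endx _ a3.1]
      simp only [hm]
      rw [e5]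
      have h1 : (n' : ℝ) + 0 / 4 - n' = 0 := by ring
      rw [h1, sub_self]
      exact OrdR.zero _ _
  · -- the end point of the edge
    rw [not_le] at ht2
    have b1 : 0 < cl (t - 1) := lt_max_of_lt_right (lt_min one_pos (by linarith))
    have b2 := cl_le (t - 1)
    have b3 := cl_nonneg (t - 3)
    have b4 := cl_le (t - 3)
    have g2' : ((2 * (((H : ℤ) + 1) * (q' - q) + (n' - n)) : ℤ) : ℝ) = cl (t - 1) + cl (t - 3) := by
      push_cast
      rw [hmH] at g2
      linarith
    set e : ℤ := ((H : ℤ) + 1) * (q' - q) + (n' - n) with he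
    have e0 : 0 < e := by
      have : (0 : ℝ) < ((2 * e : ℤ) : ℝ) := by rw [g2']; linarith
      have h1 : (0 : ℤ) < 2 * e := by exact_mod_cast this
      omega
    have e1 : e ≤ 1 := by
      have : ((2 * e : ℤ) : ℝ) ≤ 2 := by rw [g2']; linarith
      have h1 : 2 * e ≤ 2 := by exact_mod_cast this
      omega
    have e2 : e = 1 := by omega
    rw [e2] at g2'
    push_cast at g2'
    have b5 : cl (t - 3) = 1 := by linarith
    have t4' : t = 4 := by
      by_contra hc
      have h1 : t < 4 := lt_of_le_of_ne t4 hc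
      have h2 : cl (t - 3) < 1 := max_lt one_pos (lt_of_le_of_lt (min_le_right _ _) (by linarith))
      linarith
    subst t4'
    have c1 : cl (4 : ℝ) = 1 := cl_of_ge (by norm_num)
    have c2 : cl ((4 : ℝ) - 2) = 1 := cl_of_ge (by norm_num)
    have c3 : cl ((4 : ℝ) - 1) = 1 := cl_of_ge (by norm_num)
    rw [c1, c2] at g1
    rw [c3, b5] at g2
    have g3 : mH H * q + 2 * (n + 1) = mH H * q' + 2 * n' := by
      have : ((mH H * q + 2 * (n + 1) : ℤ) : ℝ) = ((mH H * q' + 2 * n' : ℤ) : ℝ) := by
        push_cast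
        linarith
      exact_mod_cast this
    obtain ⟨f1, f2⟩ := eucl g3 (by omega) (by omega) (by omega) (by omega)
    have f3 : n' = n + 1 := by omega
    subst f3
    subst f1
    push_cast at g1
    have g1' : (mH H : ℝ) * ((p - p' : ℤ) : ℝ) = t' := by
      push_cast
      linarith
    have d1 : 0 ≤ p - p' := by
      by_contra hc
      have hc' : ((p - p' : ℤ) : ℝ) ≤ -1 := by
        have : p - p' ≤ (-1 : ℤ) := by omega
        exact_mod_cast this
      nlinarith
    have d2 : p - p' ≤ 1 := by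
      by_contra hc
      have hc' : (2 : ℝ) ≤ ((p - p' : ℤ) : ℝ) := by
        have : (2 : ℤ) ≤ p - p' := by omega
        exact_mod_cast this
      nlinarith
    have emy4 : em H E (p, n, q) .y 4 = mu E (p, n + 1, q) := by
      simp only [em]
      rw [v1', cl_of_le (by norm_num)]
      have h1 := mu_nonneg E (p, n + 1, q)
      rw [show mu E (p, n + 1, q) * (1 - 8 * (4 - 4 : ℝ)) = mu E (p, n + 1, q) by ring]
      exact max_eq_right h1
    have hh : (n : ℝ) + 4 / 4 - ((n + 1 : ℤ) : ℝ) = 0 := by
      push_cast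
      ring
    rcases (by omega : p - p' = 0 ∨ p - p' = 1) with d | d
    · have e4 : p' = p := by omega
      subst e4
      rw [d] at g1'
      have e5 : t' = 0 := by
        push_cast at g1'
        linarith
      have emx : em H E (p', n + 1, q) .x t' = mu E (p', n + 1, q) := by
        simp only [em]
        rw [e5, cl_of_le (by rw [hmH]; push_cast; linarith)]
        rw [show mu E (p', n + 1, q) * (1 - 8 * (0 : ℝ)) = mu E (p', n + 1, q) by ring]
        exact max_eq_left (mu_nonneg E _)
      rw [emy4, emx, sub_self]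
      simp only [hm]
      rw [hh]
      exact OrdR.zero _ _
    · rw [d] at g1'
      have e5 : t' = (mH H : ℝ) := by
        push_cast at g1'
        linarith
      have e6 : p = p' + 1 := by omega
      have htop : Top E (p, n + 1, q) := by
        left
        rw [v2] at hu'
        have h1 : ((p, n + 1, q) : P3) + (-1, 0, 0) = (p', n + 1, q) := by
          rw [e6]
          simp
        rw [h1, Sym2.eq_swap, e6]
        exact hu'
      rw [emy4, mu_of_top htop, e5, endx _ a3.1, sub_self]
      simp only [hm]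
      rw [hh]
      exact OrdR.zero _ _

end Pool.Agent.KFlat
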