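import Pool.Agent.KFlat.DefsA

/-! FA8: the order relation for two edges in the direction `y`. -/

set_option autoImplicit false

open Set

namespace Pool.Agent.KFlat

open Pool.Agent.LK

variable {H : ℕ} {E : Finset (Sym2 P3)} {u u' : P3} {t t' : ℝ}

private theorem yy_sum (h0 : 0 ≤ t) (h4 : t ≤ 4) :
    (cl t + cl (t - 2)) + (cl (t - 1) + cl (t - 3)) = t := by
  rcases le_total t 1 with h | h
  · rw [cl_of_mem h0 h, cl_of_le (by linarith : t - 2 ≤ 0), cl_of_le (by linarith : t - 1 ≤ 0),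
      cl_of_le (by linarith : t - 3 ≤ 0)]
    ring
  rcases le_total t 2 with h' | h'
  · rw [cl_of_ge h, cl_of_le (by linarith : t - 2 ≤ 0),
      cl_of_mem (by linarith : 0 ≤ t - 1) (by linarith), cl_of_le (by linarith : t - 3 ≤ 0)]
    ring
  rcases le_total t 3 with h3 | h3
  · rw [cl_of_ge h, cl_of_mem (by linarith : 0 ≤ t - 2) (by linarith),
      cl_of_ge (by linarith : 1 ≤ t - 1), cl_of_le (by linarith : t - 3 ≤ 0)]
    ring
  · rw [cl_of_ge h, cl_of_ge (by linarith : 1 ≤ t - 2), cl_of_ge (by linarith : 1 ≤ t - 1),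
      cl_of_mem (by linarith : 0 ≤ t - 3) (by linarith)]
    ring

private theorem yy_aux (hu' : s(u', u' + Ax.v .y) ∈ E) (h1 : u.1 = u'.1)
    (h2 : u'.2.1 = u.2.1 + 1) (h3 : u.2.2 = u'.2.2) (ht : t = 4) (ht' : t' = 0) :
    hm u .y t = hm u' .y t' ∧ em H E u .y t = em H E u' .y t' := by
  have hu : u + (0, 1, 0) = u' := by
    refine Prod.ext ?_ (Prod.ext ?_ ?_)
    · simp [h1]
    · simp [h2]
    · simp [h3]
  have hT : mu E u' = 1 := mu_of_top (Or.inr (Or.inr hu'))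
  subst ht ht'
  refine ⟨?_, ?_⟩
  · unfold hm
    simp only [h2]
    push_cast
    ring
  · unfold em
    simp only [hu, hT]
    rw [cl_of_le (by norm_num : (1 : ℝ) - 8 * (4 - 2) ≤ 0),
      cl_of_ge (by norm_num : (1 : ℝ) ≤ 1 - 8 * (0 - 2)), max_eq_right (by norm_num), max_eq_left]
    · norm_num
    · have := mu_nonneg E (u' + (0, 1, 0))
      linarith

private theorem yy_int {m n n' i j X : ℤ} (hm : m = 2 * (H : ℤ) + 2) (hn : 0 ≤ n)
    (hn1 : n + 1 ≤ H) (hn' : 0 ≤ n') (hn1' : n' + 1 ≤ H)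
    (hX : (m * i + 2 * n) - (m * j + 2 * n') = X) (h1 : -2 ≤ X) (h2 : X ≤ 2) : i = j := by
  rcases lt_trichotomy i j with h | h | h
  · have h3 : m * (i + 1) ≤ m * j := mul_le_mul_of_nonneg_left h (by omega)
    linarith
  · exact h
  · have h3 : m * (j + 1) ≤ m * i := mul_le_mul_of_nonneg_left h (by omega)
    linarith

/-- Two edges `u`, `u'` in the direction `y`. Put `n = u₂`, `n' = u₂'`, `m = mH H = 2 H + 2`. Then `0 ≤ n, n' ≤ H - 1` (`Ht` for
`u + (0, 1, 0)`). Let `(a, b)`, `(a', b')` be the offsets `(cl t + cl (t - 2), cl (t - 1) + cl (t - 3))`, in `[0, 2]²`. `hg`: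
`m (u₁ - u₁') + 2 (n - n') = a' - a ∈ [-2, 2]` and `m (u₃ - u₃') + 2 (n - n') = b' - b ∈ [-2, 2]`. Because
`|n - n'| ≤ H - 1`, `|2 (n - n')| + 2 ≤ 2 H < m`, so `u₁ = u₁'`, `u₃ = u₃'` and `n - n' ∈ {-1, 0, 1}`.
(1) `n = n'`: `u = u'`, `a = a'`, `b = b'`, so `t = a + b = t'`. (`cl t + cl (t - 1) + cl (t - 2) + cl (t - 3) = t` for
`t ∈ [0, 4]`.) All differences are `0`.
(2) `n' = n + 1`, `u' = u + (0, 1, 0)`: `a' - a = b' - b = -2`, so `a = b = 2`, `a' = b' = 0`: `t = 4`, `t' = 0`. The heights are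
both `n + 1`, the new heights are `mu E u' = 1` (`Top E u'` because of the edge `s(u', u' + (0, 1, 0))`) and `1`.
(3) `n = n' + 1`: symmetric (`OrdR.neg`). -/
theorem ord_yy (hE : Ht H E) (hu : s(u, u + Ax.v .y) ∈ E) (hu' : s(u', u' + Ax.v .y) ∈ E)
    (ht : 0 ≤ t) (ht1 : t ≤ leN H .y) (ht' : 0 ≤ t') (ht1' : t' ≤ leN H .y)
    (hg : gm H u .y t = gm H u' .y t') :
    OrdR (1 / (H + 1)) 32 (hm u .y t - hm u' .y t') (em H E u .y t - em H E u' .y t') := by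
  have hlen : ((leN H .y : ℕ) : ℝ) = 4 := by norm_num [leN]
  rw [hlen] at ht1 ht1'
  have hs := yy_sum ht ht1
  have hs' := yy_sum ht' ht1'
  have hx := congrArg Prod.fst hg
  have hz := congrArg Prod.snd hg
  simp only [gm] at hx hz
  have b1 := cl_nonneg t
  have b2 := cl_nonneg (t - 1)
  have b3 := cl_nonneg (t - 2)
  have b4 := cl_nonneg (t - 3)
  have c1 := cl_le t
  have c2 := cl_le (t - 1)
  have c3 := cl_le (t - 2)
  have c4 := cl_le (t - 3)
  have b1' := cl_nonneg t'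
  have b2' := cl_nonneg (t' - 1)
  have b3' := cl_nonneg (t' - 2)
  have b4' := cl_nonneg (t' - 3)
  have c1' := cl_le t'
  have c2' := cl_le (t' - 1)
  have c3' := cl_le (t' - 2)
  have c4' := cl_le (t' - 3)
  have v1 := hE u ⟨_, hu⟩
  have v2 := hE (u + Ax.v .y) ⟨u, by rw [Sym2.eq_swap]; exact hu⟩
  have v1' := hE u' ⟨_, hu'⟩
  have v2' := hE (u' + Ax.v .y) ⟨u', by rw [Sym2.eq_swap]; exact hu'⟩
  have e2 : (u + Ax.v .y).2.1 = u.2.1 + 1 := rfl
  have e2' : (u' + Ax.v .y).2.1 = u'.2.1 + 1 := rfl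
  rw [e2] at v2
  rw [e2'] at v2'
  have hX1 : (-2 : ℤ) ≤ X0 H u - X0 H u' := by
    have h : ((-2 : ℤ) : ℝ) ≤ ((X0 H u - X0 H u' : ℤ) : ℝ) := by
      push_cast
      linarith
    exact_mod_cast h
  have hX2 : X0 H u - X0 H u' ≤ 2 := by
    have h : ((X0 H u - X0 H u' : ℤ) : ℝ) ≤ ((2 : ℤ) : ℝ) := by
      push_cast
      linarith
    exact_mod_cast h
  have hZ1 : (-2 : ℤ) ≤ Z0 H u - Z0 H u' := by
    have h : ((-2 : ℤ) : ℝ) ≤ ((Z0 H u - Z0 H u' : ℤ) : ℝ) := by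
      push_cast
      linarith
    exact_mod_cast h
  have hZ2 : Z0 H u - Z0 H u' ≤ 2 := by
    have h : ((Z0 H u - Z0 H u' : ℤ) : ℝ) ≤ ((2 : ℤ) : ℝ) := by
      push_cast
      linarith
    exact_mod_cast h
  have hi : u.1 = u'.1 := yy_int (m := mH H) rfl v1.1 v2.2 v1'.1 v2'.2 rfl hX1 hX2
  have hk : u.2.2 = u'.2.2 := yy_int (m := mH H) rfl v1.1 v2.2 v1'.1 v2'.2 rfl hZ1 hZ2
  have hXd : X0 H u - X0 H u' = 2 * (u.2.1 - u'.2.1) := by
    unfold X0
    rw [hi]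
    ring
  have hZd : Z0 H u - Z0 H u' = 2 * (u.2.1 - u'.2.1) := by
    unfold Z0
    rw [hk]
    ring
  have hXr : (X0 H u : ℝ) - X0 H u' = 2 * ((u.2.1 : ℝ) - u'.2.1) := by exact_mod_cast hXd
  have hZr : (Z0 H u : ℝ) - Z0 H u' = 2 * ((u.2.1 : ℝ) - u'.2.1) := by exact_mod_cast hZd
  have hcase : u.2.1 = u'.2.1 ∨ u'.2.1 = u.2.1 + 1 ∨ u.2.1 = u'.2.1 + 1 := by omega
  rcases hcase with h | h | h
  · have huu : u = u' := Prod.ext hi (Prod.ext h hk)
    have htt : t = t' := by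
      have hr : (u.2.1 : ℝ) = u'.2.1 := by exact_mod_cast h
      rw [hr] at hXr hZr
      linarith
    subst huu htt
    rw [sub_self, sub_self]
    exact OrdR.zero _ _
  · have hr : (u'.2.1 : ℝ) = u.2.1 + 1 := by exact_mod_cast h
    rw [hr] at hXr hZr
    obtain ⟨e1, e2⟩ := yy_aux (H := H) hu' hi h hk (t := t) (t' := t') (by linarith)
      (by linarith)
    rw [e1, e2, sub_self, sub_self]
    exact OrdR.zero _ _
  · have hr : (u.2.1 : ℝ) = u'.2.1 + 1 := by exact_mod_cast h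
    rw [hr] at hXr hZr
    obtain ⟨e1, e2⟩ := yy_aux (H := H) hu hi.symm h hk.symm (t := t') (t' := t) (by linarith)
      (by linarith)
    rw [e1, e2, sub_self, sub_self]
    exact OrdR.zero _ _

end Pool.Agent.KFlat
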