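import Pool.Agent.KFlat.DefsA

/-! FA7: the order relation for an edge in the direction `y` and an edge in the direction `z`. -/

set_option autoImplicit false

open Set

namespace Pool.Agent.KFlat

open Pool.Agent.LK

variable {H : ℕ} {E : Finset (Sym2 P3)} {u u' : P3} {t t' : ℝ}

/-- An edge `u` in the direction `y` and an edge `u'` in the direction `z`. Put `n = u₂`, so `0 ≤ n ≤ H - 1` (`Ht` for `u` and
`u + (0, 1, 0)`), `m = mH H = 2 H + 2 ≥ 4`. Let `(a, b) = (cl t + cl (t - 2), cl (t - 1) + cl (t - 3))` be the offset, it is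
`(t, 0)`, `(1, t - 1)`, `(t - 1, 1)`, `(2, t - 2)` for `t` in `[0, 1]`, `[1, 2]`, `[2, 3]`, `[3, 4]`. `hg` says
`X0 H u + a = X0 H u'`, `Z0 H u + b = Z0 H u' + t'`. So `a` is an integer, and it is even (`X0` is even), so `a = 0`, `t = 0`,
or `a = 2`, `3 ≤ t`.
(1) `t = 0`, `a = b = 0`: `X0 H u = X0 H u'`, so `u₂' = n`, `u₁' = u₁` (`eucl`), `m u₃ = m u₃' + t'`: `t' = 0`, `u' = u`, or
`t' = m`, `u' + (0, 0, 1) = u`. The heights are both `n`. The new height of the first edge is `1`; of the second one: if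
`t' = 0` it is `mu E u = 1` (`Top E u`), if `t' = m` it is `1`.
(2) `a = 2`, `t ∈ [3, 4]`, `b = t - 2`: `m u₁ + 2 (n + 1) = m u₁' + 2 u₂'`, so `u₂' = n + 1`, `u₁' = u₁` (`eucl`, `n + 1 ≤ H`), and
`m u₃ + 2 n + (t - 2) = m u₃' + 2 (n + 1) + t'`, that is `m u₃ = m u₃' + t' + (4 - t)` with `0 ≤ 4 - t ≤ 1`. So `u₃' = u₃` and
`t' = 0`, `t = 4`; or `u₃' = u₃ - 1` and `t' = m - (4 - t)`.
If `t = 4`, `t' = 0`, `u' = u + (0, 1, 0)`: the heights are both `n + 1`, the new heights are both `mu E u'` (the first one: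
`max (cl (1 - 16)) (mu E (u + (0, 1, 0)))`; the second one: `m - 1 - 2 (n + 1) ≥ 1`).
If `t' = m - (4 - t)`, `u' + (0, 0, 1) = u + (0, 1, 0)`: `Top E (u + (0, 1, 0))` (direction `(0, 0, -1)`), so the new height of
the first edge is `max 0 (1 - 8 (4 - t))`, that of the second one is `1` (`t' ≥ m - 1 ≥ m - 1 - 2 (n + 1)`, and the first term
is `≤ 1`). The heights are `n + t / 4` and `n + 1`. With `q = 4 - t ∈ [0, 1]` the differences are `- q / 4` and
`- min (8 q) 1`: `32 * (- q / 4) ≤ - min (8 q) 1 ≤ (1 / (H + 1)) * (- q / 4)`. -/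
theorem ord_yz (hE : Ht H E) (hu : s(u, u + Ax.v .y) ∈ E) (hu' : s(u', u' + Ax.v .z) ∈ E)
    (ht : 0 ≤ t) (ht1 : t ≤ leN H .y) (ht' : 0 ≤ t') (ht1' : t' ≤ leN H .z)
    (hg : gm H u .y t = gm H u' .z t') :
    OrdR (1 / (H + 1)) 32 (hm u .y t - hm u' .z t') (em H E u .y t - em H E u' .z t') := by
  obtain ⟨p, n, q⟩ := u
  obtain ⟨p', n', q'⟩ := u'
  have v1 : ((p, n, q) : P3) + Ax.v .y = (p, n + 1, q) := by simp [Ax.v]
  have v1' : ((p, n, q) : P3) + (0, 1, 0) = (p, n + 1, q) := by simp
  have v2 : ((p', n', q') : P3) + Ax.v .z = (p', n', q' + 1) := by simp [Ax.v]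
  have a1 := hE _ (show _ ∈ verts E from ⟨_, hu⟩)
  have a2 := hE _ (show _ ∈ verts E from ⟨_, by rw [Sym2.eq_swap]; exact hu⟩)
  have a3 := hE _ (show _ ∈ verts E from ⟨_, hu'⟩)
  rw [v1] at a2
  simp only at a1 a2 a3
  have t4 : t ≤ 4 := by
    have : ((leN H .y : ℕ) : ℝ) = 4 := by simp [leN]
    linarith
  have tm : t' ≤ (mH H : ℝ) := by
    have : ((leN H .z : ℕ) : ℝ) = (mH H : ℝ) := by simp [leN, mH]
    linarith
  have hmH : (mH H : ℝ) = 2 * (H : ℝ) + 2 := by simp [mH]
  have hmZ : mH H = 2 * (H : ℤ) + 2 := rfl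
  have hH1 : (1 : ℤ) ≤ H := by omega
  have hHr : (1 : ℝ) ≤ H := by exact_mod_cast hH1
  have nr0 : (0 : ℝ) ≤ n := by exact_mod_cast a1.1
  have nr1 : (n : ℝ) + 1 ≤ H := by exact_mod_cast a2.2
  have g1 := congrArg Prod.fst hg
  have g2 := congrArg Prod.snd hg
  simp only [gm, X0, Z0] at g1 g2
  push_cast at g1 g2
  -- the values at the end of an edge in the direction z
  have endz : ∀ (w : P3) (r : ℝ), 0 ≤ w.2.1 → (mH H : ℝ) - 1 ≤ r → em H E w .z r = 1 := by
    intro w r hw hr
    have hw' : (0 : ℝ) ≤ w.2.1 := by exact_mod_cast hw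
    simp only [em]
    rw [cl_of_ge (by linarith), max_eq_right]
    have h1 := mu_nonneg E w
    have h2 := mu_le E w
    nlinarith
  -- the offset in the first direction is an even integer
  have b1 := cl_nonneg t
  have b2 := cl_le t
  have b3 := cl_nonneg (t - 2)
  have b4 := cl_le (t - 2)
  have g1' : ((2 * (((H : ℤ) + 1) * (p' - p) + (n' - n)) : ℤ) : ℝ) = cl t + cl (t - 2) := by
    push_cast
    rw [hmH] at g1
    linarith
  set e : ℤ := ((H : ℤ) + 1) * (p' - p) + (n' - n) with he
  have e0 : 0 ≤ e := by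
    have : (0 : ℝ) ≤ ((2 * e : ℤ) : ℝ) := by rw [g1']; linarith
    have h1 : (0 : ℤ) ≤ 2 * e := by exact_mod_cast this
    omega
  have e1 : e ≤ 1 := by
    have : ((2 * e : ℤ) : ℝ) ≤ 2 := by rw [g1']; linarith
    have h1 : 2 * e ≤ 2 := by exact_mod_cast this
    omega
  rcases (by omega : e = 0 ∨ e = 1) with e2 | e2
  · -- the initial point of the edge
    rw [e2] at g1'
    push_cast at g1'
    have t0 : t = 0 := by
      by_contra hc
      have h1 : 0 < t := lt_of_le_of_ne ht (Ne.symm hc)
      have h2 : 0 < cl t := lt_max_of_lt_right (lt_min one_pos h1)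
      linarith
    subst t0
    rw [cl_of_le (le_refl (0 : ℝ)), cl_of_le (by norm_num : (0 : ℝ) - 2 ≤ 0)] at g1
    rw [cl_of_le (by norm_num : (0 : ℝ) - 1 ≤ 0), cl_of_le (by norm_num : (0 : ℝ) - 3 ≤ 0)] at g2
    have g3 : mH H * p + 2 * n = mH H * p' + 2 * n' := by
      have : ((mH H * p + 2 * n : ℤ) : ℝ) = ((mH H * p' + 2 * n' : ℤ) : ℝ) := by
        push_cast
        linarith
      exact_mod_cast this
    obtain ⟨f1, f2⟩ := eucl g3 (by omega) (by omega) (by omega) (by omega)
    have f3 : n' = n := by omega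
    subst f3
    subst f1
    have g4 : (mH H : ℝ) * ((q - q' : ℤ) : ℝ) = t' := by
      push_cast
      linarith
    have d1 : 0 ≤ q - q' := by
      by_contra hc
      have hc' : ((q - q' : ℤ) : ℝ) ≤ -1 := by
        have : q - q' ≤ (-1 : ℤ) := by omega
        exact_mod_cast this
      nlinarith
    have d2 : q - q' ≤ 1 := by
      by_contra hc
      have hc' : (2 : ℝ) ≤ ((q - q' : ℤ) : ℝ) := by
        have : (2 : ℤ) ≤ q - q' := by omega
        exact_mod_cast this
      nlinarith
    have emy0 : em H E (p, n', q) .y 0 = 1 := by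
      simp only [em]
      rw [cl_of_ge (by norm_num), max_eq_left]
      have h1 := mu_nonneg E ((p, n', q) + (0, 1, 0))
      nlinarith
    have hh : (n' : ℝ) + 0 / 4 - (n' : ℝ) = 0 := by ring
    rcases (by omega : q - q' = 0 ∨ q - q' = 1) with d | d
    · have e4 : q' = q := by omega
      subst e4
      rw [d] at g4
      have e5 : t' = 0 := by
        push_cast at g4
        linarith
      have htop : Top E (p, n', q') := Or.inr (Or.inr (by rw [v1']; rw [v1] at hu; exact hu))
      have emz : em H E (p, n', q') .z t' = 1 := by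
        simp only [em]
        rw [mu_of_top htop, e5, cl_of_le (by rw [hmH]; linarith)]
        norm_num
      rw [emy0, emz, sub_self]
      simp only [hm]
      rw [hh]
      exact OrdR.zero _ _
    · rw [d] at g4
      have e5 : t' = (mH H : ℝ) := by
        push_cast at g4
        linarith
      rw [emy0, endz _ _ a3.1 (by linarith), sub_self]
      simp only [hm]
      rw [hh]
      exact OrdR.zero _ _
  · -- the last part of the edge
    rw [e2] at g1'
    push_cast at g1'
    have b5 : cl (t - 2) = 1 := by linarith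
    have t3 : 3 ≤ t := by
      by_contra hc
      rw [not_le] at hc
      have h2 : cl (t - 2) < 1 := max_lt one_pos (lt_of_le_of_lt (min_le_right _ _) (by linarith))
      linarith
    rw [cl_of_ge (by linarith : 1 ≤ t), b5] at g1
    rw [cl_of_ge (by linarith : 1 ≤ t - 1),
      cl_of_mem (by linarith : 0 ≤ t - 3) (by linarith : t - 3 ≤ 1)] at g2
    have g3 : mH H * p + 2 * (n + 1) = mH H * p' + 2 * n' := by
      have : ((mH H * p + 2 * (n + 1) : ℤ) : ℝ) = ((mH H * p' + 2 * n' : ℤ) : ℝ) := by
        push_cast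
        linarith
      exact_mod_cast this
    obtain ⟨f1, f2⟩ := eucl g3 (by omega) (by omega) (by omega) (by omega)
    have f3 : n' = n + 1 := by omega
    subst f3
    subst f1
    push_cast at g2
    have g4 : (mH H : ℝ) * ((q - q' : ℤ) : ℝ) = t' + (4 - t) := by
      push_cast
      linarith
    have d1 : 0 ≤ q - q' := by
      by_contra hc
      have hc' : ((q - q' : ℤ) : ℝ) ≤ -1 := by
        have : q - q' ≤ (-1 : ℤ) := by omega
        exact_mod_cast this
      nlinarith
    have d2 : q - q' ≤ 1 := by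
      by_contra hc
      have hc' : (2 : ℝ) ≤ ((q - q' : ℤ) : ℝ) := by
        have : (2 : ℤ) ≤ q - q' := by omega
        exact_mod_cast this
      nlinarith
    rcases (by omega : q - q' = 0 ∨ q - q' = 1) with d | d
    · have e4 : q' = q := by omega
      subst e4
      rw [d] at g4
      push_cast at g4
      have e5 : t' = 0 := by linarith
      have e6 : t = 4 := by linarith
      subst e6
      have emy4 : em H E (p, n, q') .y 4 = mu E (p, n + 1, q') := by
        simp only [em]
        rw [v1', cl_of_le (by norm_num)]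
        have h1 := mu_nonneg E (p, n + 1, q')
        rw [show mu E (p, n + 1, q') * (1 - 8 * (4 - 4 : ℝ)) = mu E (p, n + 1, q') by ring]
        exact max_eq_right h1
      have emz : em H E (p, n + 1, q') .z t' = mu E (p, n + 1, q') := by
        simp only [em]
        rw [e5, cl_of_le (by rw [hmH]; push_cast; linarith)]
        rw [show mu E (p, n + 1, q') * (1 - 8 * (0 : ℝ)) = mu E (p, n + 1, q') by ring]
        exact max_eq_left (mu_nonneg E _)
      rw [emy4, emz, sub_self]
      simp only [hm]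
      have hh : (n : ℝ) + 4 / 4 - ((n + 1 : ℤ) : ℝ) = 0 := by
        push_cast
        ring
      rw [hh]
      exact OrdR.zero _ _
    · rw [d] at g4
      push_cast at g4
      have e6 : q = q' + 1 := by omega
      have htop : Top E (p, n + 1, q) := by
        right
        left
        rw [v2] at hu'
        have h1 : ((p, n + 1, q) : P3) + (0, 0, -1) = (p, n + 1, q') := by
          rw [e6]
          simp
        rw [h1, Sym2.eq_swap, e6]
        exact hu'
      have emy : em H E (p, n, q) .y t = max 0 (1 - 8 * (4 - t)) := by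
        simp only [em]
        rw [v1', mu_of_top htop, one_mul, cl_of_le (by linarith)]
      rw [emy, endz _ _ a3.1 (by linarith)]
      simp only [hm]
      have hh : (n : ℝ) + t / 4 - ((n + 1 : ℤ) : ℝ) = - (4 - t) / 4 := by
        push_cast
        ring
      rw [hh]
      have hκ : (1 / ((H : ℝ) + 1)) ≤ 1 := by
        rw [div_le_one (by linarith)]
        linarith
      have hκ0 : 0 ≤ (1 / ((H : ℝ) + 1)) := by positivity
      have hq : 0 ≤ 4 - t := by linarith
      have hκq : 1 / ((H : ℝ) + 1) * (4 - t) ≤ 4 - t := by nlinarith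
      refine ⟨fun h => ?_, fun _ => ⟨?_, ?_⟩⟩
      · have h1 : t = 4 := by linarith
        rw [h1]
        norm_num
      · have h1 : 1 - 8 * (4 - t) ≤ max 0 (1 - 8 * (4 - t)) := le_max_right _ _
        linarith
      · rcases le_total (1 - 8 * (4 - t)) 0 with h2 | h2
        · rw [max_eq_left h2]
          linarith
        · rw [max_eq_right h2]
          linarith

end Pool.Agent.KFlat
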