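import Pool.Agent.KFlat.Tile
import Pool.Agent.KFlat.OrdX
import Pool.Agent.KFlat.OrdY
import Pool.Agent.KFlat.OrdZ
import Pool.Agent.KFlat.OrdYY

/-! FA9: the old heights are pushed to the new heights. -/

set_option autoImplicit false

open Set

namespace Pool.Agent.KFlat

open Pool.Agent.LK

/-- The base point of the unit piece `n` of the plane image of the edge. -/
private def bs (H : ℕ) (u : P3) : Ax → ℕ → ℤ × ℤ
  | .x, n => (X0 H u + n, Z0 H u)
  | .y, 0 => (X0 H u, Z0 H u)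
  | .y, 1 => (X0 H u + 1, Z0 H u)
  | .y, 2 => (X0 H u + 1, Z0 H u + 1)
  | .y, _ => (X0 H u + 2, Z0 H u + 1)
  | .z, n => (X0 H u, Z0 H u + n)

/-- The direction of the unit piece `n` of the plane image of the edge. -/
private def dr : Ax → ℕ → Bool
  | .x, _ => true
  | .y, 0 => true
  | .y, 1 => false
  | .y, 2 => true
  | .y, _ => false
  | .z, _ => false

private theorem gm_tl (H : ℕ) (u : P3) (a : Ax) (n : ℕ) (hn : n < leN H a) {s : ℝ}
    (hs : s ∈ Icc (0 : ℝ) 1) : tl (bs H u a n) (dr a n) s = gm H u a (n + s) := by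
  obtain ⟨h0, h1⟩ := hs
  cases a with
  | x =>
    simp only [bs, dr, tl, gm, if_true]
    push_cast
    rw [add_assoc]
  | z =>
    simp only [bs, dr, tl, gm]
    push_cast
    ext
    · rfl
    · simp only []
      ring_nf
  | y =>
    simp only [leN] at hn
    interval_cases n
    · simp only [bs, dr, tl, gm, if_true, Nat.cast_zero, zero_add]
      rw [cl_of_mem h0 h1, cl_of_le (by linarith : s - 2 ≤ 0), cl_of_le (by linarith : s - 1 ≤ 0),
        cl_of_le (by linarith : s - 3 ≤ 0)]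
      ext <;> simp
    · simp only [bs, dr, tl, gm, Nat.cast_one]
      rw [cl_of_ge (by linarith : 1 ≤ 1 + s), cl_of_le (by linarith : 1 + s - 2 ≤ 0),
        cl_of_mem (by linarith : 0 ≤ 1 + s - 1) (by linarith),
        cl_of_le (by linarith : 1 + s - 3 ≤ 0)]
      ext <;> simp
    · simp only [bs, dr, tl, gm, if_true, Nat.cast_ofNat]
      rw [cl_of_ge (by linarith : 1 ≤ 2 + s), cl_of_mem (by linarith : 0 ≤ 2 + s - 2) (by linarith),
        cl_of_ge (by linarith : 1 ≤ 2 + s - 1), cl_of_le (by linarith : 2 + s - 3 ≤ 0)]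
      ext
      · simp only []
        push_cast
        ring
      · simp
    · simp only [bs, dr, tl, gm, Nat.cast_ofNat]
      rw [cl_of_ge (by linarith : 1 ≤ 3 + s), cl_of_ge (by linarith : 1 ≤ 3 + s - 2),
        cl_of_ge (by linarith : 1 ≤ 3 + s - 1), cl_of_mem (by linarith : 0 ≤ 3 + s - 3) (by linarith)]
      ext
      · simp only []
        push_cast
        norm_num
      · simp only []
        push_cast
        norm_num
        ring

private theorem hm_lip (u : P3) (a : Ax) (s t : ℝ) : |hm u a s - hm u a t| ≤ 8 * |s - t| := by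
  have h0 := abs_nonneg (s - t)
  cases a with
  | x => simp only [hm, sub_self, abs_zero]; positivity
  | z => simp only [hm, sub_self, abs_zero]; positivity
  | y =>
    simp only [hm]
    have h1 : (u.2.1 : ℝ) + s / 4 - ((u.2.1 : ℝ) + t / 4) = (s - t) * (1 / 4) := by ring
    rw [h1, abs_mul, abs_of_pos (by norm_num : (0 : ℝ) < 1 / 4)]
    linarith

private theorem max_lip {a b c d e : ℝ} (h1 : |a - c| ≤ e) (h2 : |b - d| ≤ e) :
    |max a b - max c d| ≤ e :=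
  (abs_max_sub_max_le_max a b c d).trans (max_le h1 h2)

private theorem mu_lip (E : Finset (Sym2 P3)) (w : P3) {p q s t : ℝ}
    (h : |p - q| ≤ 8 * |s - t|) : |mu E w * p - mu E w * q| ≤ 8 * |s - t| := by
  rw [← mul_sub, abs_mul, abs_of_nonneg (mu_nonneg E w)]
  calc mu E w * |p - q| ≤ 1 * |p - q| := mul_le_mul_of_nonneg_right (mu_le E w) (abs_nonneg _)
    _ ≤ 8 * |s - t| := by rwa [one_mul]

private theorem em_lip (H : ℕ) (E : Finset (Sym2 P3)) (u : P3) (a : Ax) (s t : ℝ) :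
    |em H E u a s - em H E u a t| ≤ 8 * |s - t| := by
  have e8 : |(8 : ℝ)| = 8 := abs_of_pos (by norm_num)
  have k1 : |(1 - 8 * s) - (1 - 8 * t)| ≤ 8 * |s - t| := by
    have h1 : (1 - 8 * s) - (1 - 8 * t) = 8 * (t - s) := by ring
    rw [h1, abs_mul, e8, abs_sub_comm]
  have k2 : ∀ c : ℝ, |cl (8 * (s - c) + 1) - cl (8 * (t - c) + 1)| ≤ 8 * |s - t| := by
    intro c
    refine (cl_lip _ _).trans ?_
    have h1 : 8 * (s - c) + 1 - (8 * (t - c) + 1) = 8 * (s - t) := by ring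
    rw [h1, abs_mul, e8]
  cases a with
  | x => exact max_lip (mu_lip E u k1) (k2 _)
  | z => exact max_lip (mu_lip E u k1) (k2 _)
  | y =>
    refine max_lip ?_ (mu_lip E _ ?_)
    · refine (cl_lip _ _).trans ?_
      have h1 : 1 - 8 * (s - 2) - (1 - 8 * (t - 2)) = 8 * (t - s) := by ring
      rw [h1, abs_mul, e8, abs_sub_comm]
    · have h1 : 1 - 8 * (4 - s) - (1 - 8 * (4 - t)) = 8 * (s - t) := by ring
      rw [h1, abs_mul, e8]

private theorem em_bd (H : ℕ) (E : Finset (Sym2 P3)) (u : P3) (a : Ax) {t : ℝ} (h0 : 0 ≤ t)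
    (h1 : t ≤ leN H a) : 0 ≤ em H E u a t ∧ em H E u a t ≤ 1 := by
  have key : ∀ (w : P3) (p : ℝ), p ≤ 1 → mu E w * p ≤ 1 := by
    intro w p hp
    calc mu E w * p ≤ mu E w * 1 := mul_le_mul_of_nonneg_left hp (mu_nonneg E w)
      _ ≤ 1 := by rw [mul_one]; exact mu_le E w
  cases a with
  | x =>
    exact ⟨le_max_of_le_right (cl_nonneg _), max_le (key _ _ (by linarith)) (cl_le _)⟩
  | z =>
    exact ⟨le_max_of_le_right (cl_nonneg _), max_le (key _ _ (by linarith)) (cl_le _)⟩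
  | y =>
    have h4 : t ≤ 4 := by simpa [leN] using h1
    exact ⟨le_max_of_le_left (cl_nonneg _), max_le (cl_le _) (key _ _ (by linarith))⟩

private theorem hm_bd {H : ℕ} {E : Finset (Sym2 P3)} (hE : Ht H E) {u : P3} {a : Ax}
    (hu : s(u, u + Ax.v a) ∈ E) {t : ℝ} (h0 : 0 ≤ t) (h1 : t ≤ leN H a) :
    0 ≤ hm u a t ∧ hm u a t ≤ (H : ℝ) + 1 := by
  obtain ⟨h2, h3⟩ := hE u ⟨_, hu⟩
  have h2' : (0 : ℝ) ≤ (u.2.1 : ℝ) := by exact_mod_cast h2
  have h3' : (u.2.1 : ℝ) ≤ H := by exact_mod_cast h3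
  cases a with
  | x => exact ⟨h2', by simp only [hm]; linarith⟩
  | z => exact ⟨h2', by simp only [hm]; linarith⟩
  | y =>
    have h4 : t ≤ 4 := by simpa [leN] using h1
    simp only [hm]
    constructor <;> linarith

private theorem ord_all {H : ℕ} {E : Finset (Sym2 P3)} (hE : Ht H E) {u u' : P3} {a a' : Ax}
    {t t' : ℝ} (hu : s(u, u + Ax.v a) ∈ E) (hu' : s(u', u' + Ax.v a') ∈ E)
    (ht : 0 ≤ t) (ht1 : t ≤ leN H a) (ht' : 0 ≤ t') (ht1' : t' ≤ leN H a')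
    (hg : gm H u a t = gm H u' a' t') :
    OrdR (1 / (H + 1)) 32 (hm u a t - hm u' a' t') (em H E u a t - em H E u' a' t') := by
  have sw : ∀ {x y z w : ℝ}, OrdR (1 / (H + 1)) 32 (x - y) (z - w) →
      OrdR (1 / (H + 1)) 32 (y - x) (w - z) := by
    intro x y z w h
    have h1 := h.neg
    rwa [neg_sub, neg_sub] at h1
  cases a <;> cases a'
  · exact ord_xx hE hu hu' ht ht1 ht' ht1' hg
  · exact sw (ord_yx hE hu' hu ht' ht1' ht ht1 hg.symm)
  · exact ord_xz hE hu hu' ht ht1 ht' ht1' hg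
  · exact ord_yx hE hu hu' ht ht1 ht' ht1' hg
  · exact ord_yy hE hu hu' ht ht1 ht' ht1' hg
  · exact ord_yz hE hu hu' ht ht1 ht' ht1' hg
  · exact sw (ord_xz hE hu' hu ht' ht1' ht ht1 hg.symm)
  · exact sw (ord_yz hE hu' hu ht' ht1' ht ht1 hg.symm)
  · exact ord_zz hE hu hu' ht ht1 ht' ht1' hg

private theorem piece {L : ℕ} (hL : 0 < L) {t : ℝ} (h0 : 0 ≤ t) (h1 : t ≤ L) :
    ∃ n < L, ∃ s ∈ Icc (0 : ℝ) 1, t = (n : ℝ) + s := by
  rcases h1.lt_or_eq with h | h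
  · refine ⟨⌊t⌋₊, (Nat.floor_lt h0).2 h, t - ⌊t⌋₊, ⟨sub_nonneg.2 (Nat.floor_le h0), ?_⟩, by ring⟩
    have := Nat.lt_floor_add_one t
    linarith
  · refine ⟨L - 1, Nat.sub_lt hL one_pos, 1, ⟨zero_le_one, le_refl _⟩, ?_⟩
    have h2 : (((L - 1 : ℕ) : ℝ)) = (L : ℝ) - 1 := by
      rw [Nat.cast_sub (by omega : 1 ≤ L), Nat.cast_one]
    rw [h2, h]
    ring

/-- PROOF. `tile` for the index type `ι = {(u, a, n) : P3 × Ax × ℕ // s(u, u + Ax.v a) ∈ E ∧ n < leN H a}`: the unit piece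
`t = n + s`, `s ∈ [0, 1]` of the edge. The base point of the tile is the lattice point `gm H u a n` and its direction `o` is
`true` for `a = x`, `false` for `a = z`, and for `a = y` it is `true` for `n = 0, 2` and `false` for `n = 1, 3`:
`(X0, Z0) + (0, 0), (1, 0), (1, 1), (2, 1)` for `n = 0, 1, 2, 3`. Then `tl (base) o s = gm H u a (n + s)` for `s ∈ [0, 1]`.
`h s = hm u a (n + s)`, `e s = em H E u a (n + s)`. The heights satisfy `0 ≤ h ≤ H` (`Ht`), `0 ≤ e ≤ 1` (`B = H + 1`); `h` is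
`1/4`-Lipschitz and `e` is `8`-Lipschitz (`C = 8`; `max` of two `8`-Lipschitz functions, `0 ≤ mu ≤ 1`, `cl_lip`). `κ = 1 / (H + 1)`,
`Λ = 32`. The condition `ord` follows from `ord_xx`, `ord_zz`, `ord_xz`, `ord_yx`, `ord_yz`, `ord_yy` and `OrdR.neg` for the
exchanged pairs. -/
theorem top_ce {H : ℕ} {E : Finset (Sym2 P3)} (hE : Ht H E) :
    ∃ φ : R3 ≃ₜ R3, φ '' CH H E = CE H E := by
  let ι := {q : P3 × Ax × ℕ // s(q.1, q.1 + Ax.v q.2.1) ∈ E ∧ q.2.2 < leN H q.2.1}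
  have rg : ∀ (q : ι) (s : ℝ), s ∈ Icc (0 : ℝ) 1 →
      0 ≤ (q.1.2.2 : ℝ) + s ∧ (q.1.2.2 : ℝ) + s ≤ leN H q.1.2.1 := by
    intro q s hs
    have h1 : ((q.1.2.2 : ℝ)) + 1 ≤ leN H q.1.2.1 := by exact_mod_cast q.2.2
    have h2 : (0 : ℝ) ≤ (q.1.2.2 : ℝ) := Nat.cast_nonneg _
    exact ⟨by linarith [hs.1], by linarith [hs.2]⟩
  have hH : (0 : ℝ) ≤ H := Nat.cast_nonneg _
  obtain ⟨φ, hφ⟩ := tile (ι := ι) (fun q => bs H q.1.1 q.1.2.1 q.1.2.2)
    (fun q => dr q.1.2.1 q.1.2.2) (fun q s => hm q.1.1 q.1.2.1 (q.1.2.2 + s))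
    (fun q s => em H E q.1.1 q.1.2.1 (q.1.2.2 + s)) (B := (H : ℝ) + 1) (C := 8)
    (κ := 1 / ((H : ℝ) + 1)) (Λ := 32) (by positivity)
    (by rw [div_le_iff₀ (by linarith)]; linarith)
    (by
      intro q s hs
      obtain ⟨r1, r2⟩ := rg q s hs
      obtain ⟨b1, b2⟩ := hm_bd hE q.2.1 r1 r2
      obtain ⟨c1, c2⟩ := em_bd H E q.1.1 q.1.2.1 r1 r2
      exact ⟨abs_le.2 ⟨by linarith, b2⟩, abs_le.2 ⟨by linarith, by linarith⟩⟩)
    (by
      intro q s _ t _
      have h1 := hm_lip q.1.1 q.1.2.1 (q.1.2.2 + s) (q.1.2.2 + t)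
      have h2 := em_lip H E q.1.1 q.1.2.1 (q.1.2.2 + s) (q.1.2.2 + t)
      rw [add_sub_add_left_eq_sub] at h1 h2
      exact ⟨h1, h2⟩)
    (by
      intro q q' s hs t ht h
      obtain ⟨r1, r2⟩ := rg q s hs
      obtain ⟨r1', r2'⟩ := rg q' t ht
      rw [gm_tl H _ _ _ q.2.2 hs, gm_tl H _ _ _ q'.2.2 ht] at h
      exact ord_all hE q.2.1 q'.2.1 r1 r2 r1' r2' h)
  have key : ∀ (u : P3) (a : Ax) (t : ℝ), s(u, u + Ax.v a) ∈ E → 0 ≤ t → t ≤ leN H a →
      φ ((gm H u a t).1, hm u a t, (gm H u a t).2) =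
        ((gm H u a t).1, em H E u a t, (gm H u a t).2) := by
    intro u a t hu h0 h1
    have hL : 0 < leN H a := by cases a <;> simp [leN]
    obtain ⟨n, hn, s, hs, rfl⟩ := piece hL h0 h1
    have h2 := hφ ⟨(u, a, n), hu, hn⟩ s hs
    simp only [gm_tl H u a n hn hs] at h2
    exact h2
  refine ⟨φ, ?_⟩
  ext p
  constructor
  · rintro ⟨q, ⟨u, a, t, hu, h0, h1, rfl⟩, rfl⟩
    exact ⟨u, a, t, hu, h0, h1, key u a t hu (by exact_mod_cast h0) (by exact_mod_cast h1)⟩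
  · rintro ⟨u, a, t, hu, h0, h1, rfl⟩
    exact ⟨_, ⟨u, a, t, hu, h0, h1, rfl⟩,
      key u a t hu (by exact_mod_cast h0) (by exact_mod_cast h1)⟩

end Pool.Agent.KFlat
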