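import Pool.Agent.KFlat.Shr
import Pool.Agent.KFlat.TopA
import Pool.Agent.KFlat.SdX
import Pool.Agent.KFlat.SdY

/-! FA13: a homeomorphism of space maps the polygon to the flattened polygon. -/

set_option autoImplicit false

open Set

namespace Pool.Agent.KFlat

open Pool.Agent.LK

/-- PROOF. Let `D` be as in `exists_goodD` and `φ` as in `smap` (`φ p = SM D p`). `FS H E` is the
union over the edges `s(u, u + Ax.v a) ∈ E` of the pieces `PX H u ∪ {p | Top E u ∧ p ∈ VS H u}`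
(`a = x`), `PZ H u ∪ {p | Top E u ∧ p ∈ VS H u}` (`a = z`), `PY H u ∪ {p | Top E (u + (0, 1, 0))
∧ p ∈ VS H (u + (0, 1, 0))}` (`a = y`): a vertex `u` with `Bot E u` has the edge `s(u, u + Ax.v
.x)`, or `s(u, u + Ax.v .z)`, or `u = u' + (0, 1, 0)` with `s(u', u' + Ax.v .y) ∈ E`, and
conversely. `CE H E` is the union of the curves in `sd_x`, `sd_z`, `sd_y`. -/
theorem fs_ce {H : ℕ} {E : Finset (Sym2 P3)} (hP : IsPolygon E) (hE : Ht H E) :
    ∃ φ : R3 ≃ₜ R3, φ '' FS H E = CE H E := by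
  obtain ⟨D, hD⟩ := exists_goodD hP hE
  obtain ⟨φ, hφ⟩ := smap D hD.le
  refine ⟨φ, ?_⟩
  ext p
  constructor
  · rintro ⟨q, ⟨u, hq⟩, rfl⟩
    rw [hφ]
    rcases hq with ⟨hu, hp⟩ | ⟨hu, hp⟩ | ⟨hu, hp⟩ | ⟨ht, hb, hp⟩
    · obtain ⟨t, h0, h1, h2⟩ := (sd_x hD hE hu).subset (mem_image_of_mem (SM D) (Or.inl hp))
      exact ⟨u, .x, t, hu, h0, h1, h2⟩
    · obtain ⟨t, h0, h1, h2⟩ := (sd_y hD hE hu).subset (mem_image_of_mem (SM D) (Or.inl hp))
      exact ⟨u, .y, t, hu, h0, h1, h2⟩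
    · obtain ⟨t, h0, h1, h2⟩ := (sd_z hD hE hu).subset (mem_image_of_mem (SM D) (Or.inl hp))
      exact ⟨u, .z, t, hu, h0, h1, h2⟩
    · rcases hb with hu | hu | hu
      · obtain ⟨t, h0, h1, h2⟩ := (sd_x hD hE hu).subset
          (mem_image_of_mem (SM D) (Or.inr ⟨ht, hp⟩))
        exact ⟨u, .x, t, hu, h0, h1, h2⟩
      · obtain ⟨t, h0, h1, h2⟩ := (sd_z hD hE hu).subset
          (mem_image_of_mem (SM D) (Or.inr ⟨ht, hp⟩))
        exact ⟨u, .z, t, hu, h0, h1, h2⟩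
      · have h3 : u + (0, -1, 0) + (0, 1, 0) = u := by
          rw [add_assoc]
          simp
        have hu' : s(u + (0, -1, 0), u + (0, -1, 0) + Ax.v .y) ∈ E := by
          change s(u + (0, -1, 0), u + (0, -1, 0) + (0, 1, 0)) ∈ E
          rw [h3, Sym2.eq_swap]
          exact hu
        obtain ⟨t, h0, h1, h2⟩ := (sd_y hD hE hu').subset
          (mem_image_of_mem (SM D) (Or.inr ⟨by rw [h3]; exact ht, by rw [h3]; exact hp⟩))
        exact ⟨_, .y, t, hu', h0, h1, h2⟩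
  · rintro ⟨u, a, t, hu, h0, h1, rfl⟩
    cases a with
    | x =>
      obtain ⟨q, hq, hq'⟩ := (sd_x hD hE hu).symm.subset ⟨t, h0, h1, rfl⟩
      refine ⟨q, ⟨u, ?_⟩, by rw [hφ]; exact hq'⟩
      rcases hq with hq | ⟨ht, hq⟩
      · exact Or.inl ⟨hu, hq⟩
      · exact Or.inr (Or.inr (Or.inr ⟨ht, Or.inl hu, hq⟩))
    | y =>
      obtain ⟨q, hq, hq'⟩ := (sd_y hD hE hu).symm.subset ⟨t, h0, h1, rfl⟩
      rcases hq with hq | ⟨ht, hq⟩
      · exact ⟨q, ⟨u, Or.inr (Or.inl ⟨hu, hq⟩)⟩, by rw [hφ]; exact hq'⟩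
      · refine ⟨q, ⟨u + (0, 1, 0), Or.inr (Or.inr (Or.inr ⟨ht, Or.inr (Or.inr ?_), hq⟩))⟩,
          by rw [hφ]; exact hq'⟩
        have h3 : u + (0, 1, 0) + (0, -1, 0) = u := by
          rw [add_assoc]
          simp
        rw [h3, Sym2.eq_swap]
        exact hu
    | z =>
      obtain ⟨q, hq, hq'⟩ := (sd_z hD hE hu).symm.subset ⟨t, h0, h1, rfl⟩
      refine ⟨q, ⟨u, ?_⟩, by rw [hφ]; exact hq'⟩
      rcases hq with hq | ⟨ht, hq⟩
      · exact Or.inr (Or.inr (Or.inl ⟨hu, hq⟩))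
      · exact Or.inr (Or.inr (Or.inr ⟨ht, Or.inr (Or.inl hu), hq⟩))

theorem flat_set {H : ℕ} {E : Finset (Sym2 P3)} (hP : IsPolygon E) (hE : Ht H E) :
    ∃ φ : R3 ≃ₜ R3, φ '' body E = FS H E := by
  obtain ⟨φ, h1⟩ := shear hP.adj hE
  obtain ⟨ψ, h2⟩ := top_ce hE
  obtain ⟨χ, h3⟩ := fs_ce hP hE
  refine ⟨(φ.trans ψ).trans χ.symm, ?_⟩
  change (fun x => χ.symm (ψ (φ x))) '' body E = FS H E
  have h4 : (fun x => χ.symm (ψ (φ x))) '' body E = χ.symm '' (ψ '' (φ '' body E)) := by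
    rw [image_image, image_image]
  rw [h4, h1, h2, ← h3]
  exact χ.symm_image_image _

end Pool.Agent.KFlat
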