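import Pool.Agent.KFlat.Word

/-! FB3: the layers and the levels of the points of a flattened walk. -/

set_option autoImplicit false

open Pool.Agent.LK

namespace Pool.Agent.KFlat

open Pool.Agent.KTube Pool.Agent.KRing Pool.Agent.KLog

variable {H : ℕ} {y k : ℤ} {b c : Bool} {w : List P3} {p : P3}

private theorem mem_app {p q : P3} {s t : List P3} :
    q ∈ wk p (s ++ t) ↔ q ∈ wk p s ∨ q ∈ wk (p + s.sum) t := by
  induction s generalizing p with
  | nil =>
    simp only [List.nil_append, wk_nil, List.mem_singleton, List.sum_nil, add_zero]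
    constructor
    · exact Or.inr
    · rintro (rfl | h)
      · cases t <;> simp
      · exact h
  | cons d s ih =>
    rw [List.cons_append, wk_cons, wk_cons, List.mem_cons, List.mem_cons, ih, List.sum_cons,
      add_assoc, or_assoc]

private theorem mem_rp {p q d : P3} {n : ℤ} (h : q ∈ wk p (rp n d)) :
    ∃ k : ℤ, 0 ≤ k ∧ k ≤ n.toNat ∧
      q = (p.1 + k * d.1, p.2.1 + k * d.2.1, p.2.2 + k * d.2.2) := by
  have key : ∀ (m : ℕ) (p : P3), q ∈ wk p (List.replicate m d) →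
      ∃ k : ℤ, 0 ≤ k ∧ k ≤ m ∧ q = (p.1 + k * d.1, p.2.1 + k * d.2.1, p.2.2 + k * d.2.2) := by
    intro m
    induction m with
    | zero =>
      intro p hq
      rw [List.replicate_zero, wk_nil, List.mem_singleton] at hq
      exact ⟨0, le_rfl, le_rfl, by simp [hq]⟩
    | succ m ih =>
      intro p hq
      rw [List.replicate_succ, wk_cons, List.mem_cons] at hq
      rcases hq with rfl | hq
      · exact ⟨0, le_rfl, by positivity, by simp⟩
      · obtain ⟨k, h0, h1, h2⟩ := ih (p + d) hq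
        refine ⟨k + 1, by omega, by push_cast; omega, ?_⟩
        rw [h2]
        simp only [Prod.fst_add, Prod.snd_add]
        refine Prod.ext ?_ (Prod.ext ?_ ?_) <;> simp only <;> ring
  exact key _ p h

private theorem rp_sum_y {n : ℤ} {d : P3} (h : d.2.1 = 0) : (rp n d).sum.2.1 = 0 := by
  unfold rp
  rw [List.sum_replicate, Prod.smul_snd, Prod.smul_fst, h, smul_zero]

private theorem mem_fx {p q : P3} {b c : Bool} (h : q ∈ wk p (fx b c)) :
    q = p ∨ q = p + (fx b c).sum := by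
  cases b <;> cases c <;> simpa [fx] using h

private theorem lb_bd (b : Bool) : 0 ≤ lb b ∧ lb b ≤ 1 := by
  cases b <;> simp [lb]

private theorem sum_fw_lay {d : P3} (hd : IsStep d) (H : ℕ) (y : ℤ) :
    (fw H y d).sum.2.1 = lb (!ou d) - lb (ou d) := by
  rcases step_cases hd with rfl | rfl | rfl | rfl | rfl | rfl
  · have e : fw H y (1, 0, 0) = rp (mH H - 1 - 2 * y) (1, 0, 0) ++ (0, 1, 0) ::
      rp (2 * y + 1) (1, 0, 0) := by simp [fw]
    rw [e, List.sum_append, List.sum_cons, Prod.snd_add, Prod.fst_add, Prod.snd_add, Prod.fst_add,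
      rp_sum_y rfl, rp_sum_y rfl]
    simp [lb, ou]
  · have e : fw H y (-1, 0, 0) = rp (2 * y + 1) (-1, 0, 0) ++ (0, -1, 0) ::
      rp (mH H - 1 - 2 * y) (-1, 0, 0) := by simp [fw]
    rw [e, List.sum_append, List.sum_cons, Prod.snd_add, Prod.fst_add, Prod.snd_add, Prod.fst_add,
      rp_sum_y rfl, rp_sum_y rfl]
    simp [lb, ou]
  · simp [fw, lb, ou]
  · simp [fw, lb, ou]
  · have e : fw H y (0, 0, 1) = rp (mH H - 1 - 2 * y) (0, 0, 1) ++ (0, 1, 0) ::
      rp (2 * y + 1) (0, 0, 1) := by simp [fw]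
    rw [e, List.sum_append, List.sum_cons, Prod.snd_add, Prod.fst_add, Prod.snd_add, Prod.fst_add,
      rp_sum_y rfl, rp_sum_y rfl]
    simp [lb, ou]
  · have e : fw H y (0, 0, -1) = rp (2 * y + 1) (0, 0, -1) ++ (0, -1, 0) ::
      rp (mH H - 1 - 2 * y) (0, 0, -1) := by simp [fw]
    rw [e, List.sum_append, List.sum_cons, Prod.snd_add, Prod.fst_add, Prod.snd_add, Prod.fst_add,
      rp_sum_y rfl, rp_sum_y rfl]
    simp [lb, ou]

/-- points of two runs with a step between -/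
private theorem mem_two {p q d e : P3} {n k : ℤ} (h : q ∈ wk p (rp n d ++ e :: rp k d)) :
    (∃ i : ℤ, 0 ≤ i ∧ i ≤ n.toNat ∧
      q = (p.1 + i * d.1, p.2.1 + i * d.2.1, p.2.2 + i * d.2.2)) ∨
    ∃ i : ℤ, 0 ≤ i ∧ i ≤ k.toNat ∧ q = (p.1 + n.toNat * d.1 + e.1 + i * d.1,
      p.2.1 + n.toNat * d.2.1 + e.2.1 + i * d.2.1, p.2.2 + n.toNat * d.2.2 + e.2.2 + i * d.2.2) := by
  have hs : (rp n d).sum = ((n.toNat : ℤ) * d.1, (n.toNat : ℤ) * d.2.1, (n.toNat : ℤ) * d.2.2) := by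
    unfold rp
    rw [List.sum_replicate]
    refine Prod.ext ?_ (Prod.ext ?_ ?_)
    · rw [Prod.smul_fst, nsmul_eq_mul]
    · rw [Prod.smul_snd, Prod.smul_fst, nsmul_eq_mul]
    · rw [Prod.smul_snd, Prod.smul_snd, nsmul_eq_mul]
  rcases mem_app.1 h with h1 | h1
  · exact Or.inl (mem_rp h1)
  · rw [wk_cons, List.mem_cons] at h1
    rcases h1 with rfl | h1
    · refine Or.inl ⟨n.toNat, by positivity, le_rfl, ?_⟩
      rw [hs]
      rfl
    · obtain ⟨i, h2, h3, h4⟩ := mem_rp h1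
      refine Or.inr ⟨i, h2, h3, ?_⟩
      rw [h4, hs]
      rfl

private theorem fw_lay {d p : P3} (hd : IsStep d) (H : ℕ) (y : ℤ) (hp : p.2.1 = lb (ou d)) :
    ∀ q ∈ wk p (fw H y d), 0 ≤ q.2.1 ∧ q.2.1 ≤ 1 := by
  intro q hq
  rcases step_cases hd with rfl | rfl | rfl | rfl | rfl | rfl
  · have e : fw H y (1, 0, 0) = rp (mH H - 1 - 2 * y) (1, 0, 0) ++ (0, 1, 0) ::
      rp (2 * y + 1) (1, 0, 0) := by simp [fw]
    rw [e] at hq
    have hp' : p.2.1 = 0 := hp
    rcases mem_two hq with ⟨i, -, -, rfl⟩ | ⟨i, -, -, rfl⟩ <;> simp [hp']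
  · have e : fw H y (-1, 0, 0) = rp (2 * y + 1) (-1, 0, 0) ++ (0, -1, 0) ::
      rp (mH H - 1 - 2 * y) (-1, 0, 0) := by simp [fw]
    rw [e] at hq
    have hp' : p.2.1 = 1 := hp
    rcases mem_two hq with ⟨i, -, -, rfl⟩ | ⟨i, -, -, rfl⟩ <;> simp [hp']
  · have e : fw H y (0, 1, 0) = [(1, 0, 0), (0, 0, 1), (0, -1, 0), (1, 0, 0), (0, 0, 1)] := by
      simp [fw]
    rw [e] at hq
    have hp' : p.2.1 = 1 := hp
    simp only [wk_cons, wk_nil, List.mem_cons, List.not_mem_nil, or_false] at hq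
    rcases hq with rfl | rfl | rfl | rfl | rfl | rfl <;>
      simp only [Prod.snd_add, Prod.fst_add, hp'] <;> norm_num
  · have e : fw H y (0, -1, 0) =
        [(0, 0, -1), (-1, 0, 0), (0, 1, 0), (0, 0, -1), (-1, 0, 0)] := by
      simp [fw]
    rw [e] at hq
    have hp' : p.2.1 = 0 := hp
    simp only [wk_cons, wk_nil, List.mem_cons, List.not_mem_nil, or_false] at hq
    rcases hq with rfl | rfl | rfl | rfl | rfl | rfl <;>
      simp only [Prod.snd_add, Prod.fst_add, hp'] <;> norm_num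
  · have e : fw H y (0, 0, 1) = rp (mH H - 1 - 2 * y) (0, 0, 1) ++ (0, 1, 0) ::
      rp (2 * y + 1) (0, 0, 1) := by simp [fw]
    rw [e] at hq
    have hp' : p.2.1 = 0 := hp
    rcases mem_two hq with ⟨i, -, -, rfl⟩ | ⟨i, -, -, rfl⟩ <;> simp [hp']
  · have e : fw H y (0, 0, -1) = rp (2 * y + 1) (0, 0, -1) ++ (0, -1, 0) ::
      rp (mH H - 1 - 2 * y) (0, 0, -1) := by simp [fw]
    rw [e] at hq
    have hp' : p.2.1 = 1 := hp
    rcases mem_two hq with ⟨i, -, -, rfl⟩ | ⟨i, -, -, rfl⟩ <;> simp [hp']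

private theorem fw_z {d p : P3} (hd : IsStep d) (h0 : 0 ≤ p.2.1) (h1 : p.2.1 ≤ H) :
    ∀ q ∈ wk (VV H (ou d) p) (fw H p.2.1 d),
      (Z0 H p ≤ q.2.2 ∧ q.2.2 ≤ Z0 H (p + d)) ∨ (Z0 H (p + d) ≤ q.2.2 ∧ q.2.2 ≤ Z0 H p) := by
  intro q hq
  have a1 : 0 ≤ mH H - 1 - 2 * p.2.1 := by
    unfold mH
    omega
  have a2 : 0 ≤ 2 * p.2.1 + 1 := by omega
  have b1 : ((mH H - 1 - 2 * p.2.1).toNat : ℤ) = mH H - 1 - 2 * p.2.1 := Int.toNat_of_nonneg a1
  have b2 : ((2 * p.2.1 + 1).toNat : ℤ) = 2 * p.2.1 + 1 := Int.toNat_of_nonneg a2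
  rcases step_cases hd with rfl | rfl | rfl | rfl | rfl | rfl
  · have e : fw H p.2.1 (1, 0, 0) = rp (mH H - 1 - 2 * p.2.1) (1, 0, 0) ++ (0, 1, 0) ::
      rp (2 * p.2.1 + 1) (1, 0, 0) := by simp [fw]
    rw [e] at hq
    left
    rcases mem_two hq with ⟨i, i1, i2, rfl⟩ | ⟨i, i1, i2, rfl⟩ <;> simp [VV, Z0]
  · have e : fw H p.2.1 (-1, 0, 0) = rp (2 * p.2.1 + 1) (-1, 0, 0) ++ (0, -1, 0) ::
      rp (mH H - 1 - 2 * p.2.1) (-1, 0, 0) := by simp [fw]
    rw [e] at hq
    left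
    rcases mem_two hq with ⟨i, i1, i2, rfl⟩ | ⟨i, i1, i2, rfl⟩ <;> simp [VV, Z0]
  · have e : fw H p.2.1 (0, 1, 0) =
        [(1, 0, 0), (0, 0, 1), (0, -1, 0), (1, 0, 0), (0, 0, 1)] := by
      simp [fw]
    rw [e] at hq
    left
    simp only [wk_cons, wk_nil, List.mem_cons, List.not_mem_nil, or_false] at hq
    rcases hq with rfl | rfl | rfl | rfl | rfl | rfl <;>
      simp only [Prod.snd_add, Prod.fst_add, VV, Z0] <;> constructor <;> linarith
  · have e : fw H p.2.1 (0, -1, 0) =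
        [(0, 0, -1), (-1, 0, 0), (0, 1, 0), (0, 0, -1), (-1, 0, 0)] := by
      simp [fw]
    rw [e] at hq
    right
    simp only [wk_cons, wk_nil, List.mem_cons, List.not_mem_nil, or_false] at hq
    rcases hq with rfl | rfl | rfl | rfl | rfl | rfl <;>
      simp only [Prod.snd_add, Prod.fst_add, VV, Z0] <;> constructor <;> linarith
  · have e : fw H p.2.1 (0, 0, 1) = rp (mH H - 1 - 2 * p.2.1) (0, 0, 1) ++ (0, 1, 0) ::
      rp (2 * p.2.1 + 1) (0, 0, 1) := by simp [fw]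
    rw [e] at hq
    left
    rcases mem_two hq with ⟨i, i1, i2, rfl⟩ | ⟨i, i1, i2, rfl⟩ <;>
      simp only [b1, b2] at i2 ⊢ <;>
      simp only [Prod.snd_add, Prod.fst_add, VV, Z0, mul_add] <;> constructor <;> linarith
  · have e : fw H p.2.1 (0, 0, -1) = rp (2 * p.2.1 + 1) (0, 0, -1) ++ (0, -1, 0) ::
      rp (mH H - 1 - 2 * p.2.1) (0, 0, -1) := by simp [fw]
    rw [e] at hq
    right
    rcases mem_two hq with ⟨i, i1, i2, rfl⟩ | ⟨i, i1, i2, rfl⟩ <;>
      simp only [b1, b2] at i2 ⊢ <;>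
      simp only [Prod.snd_add, Prod.fst_add, VV, Z0, mul_add] <;> constructor <;> linarith

private theorem mem_start (p : P3) (w : List P3) : p ∈ wk p w := by
  cases w <;> simp

private theorem gw_btw (hw : Steps w) (h : ∀ q ∈ wk p w, 0 ≤ q.2.1 ∧ q.2.1 ≤ H) :
    ∀ q ∈ wk (VV H b p) (GW H p.2.1 b w c),
      ∃ u ∈ wk p w, ∃ v ∈ wk p w, Z0 H u ≤ q.2.2 ∧ q.2.2 ≤ Z0 H v := by
  induction w generalizing p b with
  | nil =>
    intro q hq
    have hz : q.2.2 = Z0 H p := by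
      rcases mem_fx hq with rfl | rfl
      · rfl
      · rw [sum_fx]
        simp [VV]
    exact ⟨p, mem_start _ _, p, mem_start _ _, hz.ge, hz.le⟩
  | cons d w ih =>
    intro q hq
    have hp := h p (mem_start _ _)
    have hp1 : p + d ∈ wk p (d :: w) := by
      rw [wk_cons]
      exact List.mem_cons_of_mem _ (mem_start _ _)
    change q ∈ wk (VV H b p) (fx b (ou d) ++ (fw H p.2.1 d ++
      GW H (p.2.1 + d.2.1) (!ou d) w c)) at hq
    have e1 : VV H b p + (fx b (ou d)).sum = VV H (ou d) p := by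
      rw [sum_fx]
      simp [VV]
    have e2 : VV H (ou d) p + (fw H p.2.1 d).sum = VV H (!ou d) (p + d) := by
      rw [sum_fw hw.cons.1 hp.1 hp.2]
      refine Prod.ext ?_ (Prod.ext ?_ ?_)
      · simp only [VV, X0, Prod.fst_add, Prod.snd_add]
        ring
      · simp only [VV, Prod.fst_add, Prod.snd_add]
        ring
      · simp only [VV, Z0, Prod.fst_add, Prod.snd_add]
        ring
    rcases mem_app.1 hq with h1 | h1
    · have hz : q.2.2 = Z0 H p := by
        rcases mem_fx h1 with rfl | rfl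
        · rfl
        · rw [sum_fx]
          simp [VV]
      exact ⟨p, mem_start _ _, p, mem_start _ _, hz.ge, hz.le⟩
    · rw [e1] at h1
      rcases mem_app.1 h1 with h2 | h2
      · rcases fw_z hw.cons.1 hp.1 hp.2 q h2 with h3 | h3
        · exact ⟨p, mem_start _ _, p + d, hp1, h3.1, h3.2⟩
        · exact ⟨p + d, hp1, p, mem_start _ _, h3.1, h3.2⟩
      · rw [e2] at h2
        obtain ⟨u, hu, v, hv, h3⟩ := ih (p := p + d) hw.cons.2
          (fun q hq => h q (by rw [wk_cons]; exact List.mem_cons_of_mem _ hq)) q h2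
        refine ⟨u, ?_, v, ?_, h3⟩
        · rw [wk_cons]
          exact List.mem_cons_of_mem _ hu
        · rw [wk_cons]
          exact List.mem_cons_of_mem _ hv

/-- The points are in the layers `0` and `1`: induction; `fx b (ou d)` moves from the layer `b` to `ou d`, `fw H y d` has exactly one
step in the second direction and leads to the layer `!ou d`. (`mem_wk`, `wk_append`; no condition on the heights.) -/
theorem gw_lay (hw : Steps w) (hp : p.2.1 = lb b) :
    ∀ q ∈ wk p (GW H y b w c), 0 ≤ q.2.1 ∧ q.2.1 ≤ 1 := by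
  induction w generalizing y b p with
  | nil =>
    intro q hq
    rcases mem_fx hq with rfl | rfl
    · rw [hp]
      exact lb_bd b
    · rw [sum_fx, Prod.snd_add, Prod.fst_add, hp]
      have h1 := lb_bd c
      constructor <;> linarith [h1.1, h1.2]
  | cons d w ih =>
    intro q hq
    change q ∈ wk p (fx b (ou d) ++ (fw H y d ++ GW H (y + d.2.1) (!ou d) w c)) at hq
    have e1 : (p + (fx b (ou d)).sum).2.1 = lb (ou d) := by
      rw [sum_fx, Prod.snd_add, Prod.fst_add, hp]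
      ring
    rcases mem_app.1 hq with h1 | h1
    · rcases mem_fx h1 with rfl | rfl
      · rw [hp]
        exact lb_bd b
      · rw [e1]
        exact lb_bd _
    · rcases mem_app.1 h1 with h2 | h2
      · exact fw_lay hw.cons.1 H y e1 q h2
      · refine ih hw.cons.2 ?_ q h2
        rw [Prod.snd_add, Prod.fst_add, e1, sum_fw_lay hw.cons.1]
        ring

/-- If all vertices have `k ≤ z` and heights in `[0, H]` then the new points have `mH H * k ≤ z`: the new vertex of `u` has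
`z = Z0 H u = m u₃ + 2 u₂ ≥ m k`, and the points of a new edge lie between its ends in this coordinate. Induction on `w`. -/
theorem gw_low (hw : Steps w) (h : ∀ q ∈ wk p w, 0 ≤ q.2.1 ∧ q.2.1 ≤ H ∧ k ≤ q.2.2) :
    ∀ q ∈ wk (VV H b p) (GW H p.2.1 b w c), mH H * k ≤ q.2.2 := by
  intro q hq
  obtain ⟨u, hu, v, hv, h1, h2⟩ := gw_btw hw (fun q hq => ⟨(h q hq).1, (h q hq).2.1⟩) q hq
  obtain ⟨h3, h4, h5⟩ := h u hu
  have h6 : mH H * k ≤ mH H * u.2.2 := mul_le_mul_of_nonneg_left h5 (mH_pos H).le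
  have h7 : Z0 H u = mH H * u.2.2 + 2 * u.2.1 := rfl
  linarith

/-- In the same way `Z0 H u = m u₃ + 2 u₂ ≤ m k + 2 H`. -/
theorem gw_upp (hw : Steps w) (h : ∀ q ∈ wk p w, 0 ≤ q.2.1 ∧ q.2.1 ≤ H ∧ q.2.2 ≤ k) :
    ∀ q ∈ wk (VV H b p) (GW H p.2.1 b w c), q.2.2 ≤ mH H * k + 2 * H := by
  intro q hq
  obtain ⟨u, hu, v, hv, h1, h2⟩ := gw_btw hw (fun q hq => ⟨(h q hq).1, (h q hq).2.1⟩) q hq
  obtain ⟨h3, h4, h5⟩ := h v hv
  have h6 : mH H * v.2.2 ≤ mH H * k := mul_le_mul_of_nonneg_left h5 (mH_pos H).le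
  have h7 : Z0 H v = mH H * v.2.2 + 2 * v.2.1 := rfl
  linarith

end Pool.Agent.KFlat
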