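import Pool.Agent.KFlat.Nod
import Pool.Agent.KFlat.Bdy
import Pool.Agent.KFlat.Lev
import Pool.Agent.KFlat.FlatS

/-! FB8: the flattened halves. -/

set_option autoImplicit false

open Pool.Agent.LK

namespace Pool.Agent.KFlat

open Pool.Agent.KTube Pool.Agent.KRing Pool.Agent.KLog

variable {H : ℕ} {a : ℤ} {v : ℤ × ℤ} {r l : List P3}

/-- `mH H * v.1 + 2 * v.2 = 0` with `|v.2| ≤ H` gives `v = 0`. -/
theorem vf_ne (hv : v ≠ 0) (h0 : 0 ≤ a) (h1 : a ≤ H) (h2 : 0 ≤ a + v.2) (h3 : a + v.2 ≤ H) :
    vf H v ≠ 0 := by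
  intro h
  have h4 : mH H * v.1 + 2 * v.2 = 0 := congrArg Prod.fst h
  have h5 : mH H * v.1 + (2 * v.2 + 2 * a) = mH H * 0 + 2 * a := by linarith
  have h6 := eucl h5 (by omega) (by unfold mH; omega) (by omega) (by unfold mH; omega)
  refine hv (Prod.ext h6.1 ?_)
  have h7 := h6.2
  change v.2 = 0
  omega

/-! ### Auxiliary facts on walks -/

private theorem mem_wk_app {p u : P3} {s t : List P3} (h : u ∈ wk p (s ++ t)) :
    u ∈ wk p s ∨ u ∈ wk (p + s.sum) t := by
  rw [wk_append, List.mem_append] at h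
  exact h.imp (fun h1 => List.dropLast_subset _ h1) id

private theorem fh_mem_rp {p u d : P3} {n : ℤ} (hn : 0 ≤ n) (h : u ∈ wk p (rp n d)) :
    ∃ k : ℤ, 0 ≤ k ∧ k ≤ n ∧ u.2.2 = p.2.2 + k * d.2.2 := by
  obtain ⟨A, B, h1, rfl⟩ := mem_wk.1 h
  unfold rp at h1
  obtain ⟨h2, h3, h4⟩ := List.append_eq_replicate_iff.1 h1.symm
  have h5 : A = rp A.length d := by
    unfold rp
    rw [Int.toNat_natCast]
    exact h3
  have h6 := (congrArg List.sum h5).trans (sum_rp (by omega) d)
  refine ⟨A.length, by omega, by omega, ?_⟩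
  rw [Prod.snd_add, Prod.snd_add, h6]

private theorem map_mem {t u : P3} {p : P3} {s : List P3} (h : u ∈ wk p s) :
    u + t ∈ wk (p + t) s := by
  rw [← map_wk]
  exact List.mem_map_of_mem h

private theorem lay_app {x y : List P3} (hy : y ≠ []) : lay (x ++ y) = lay y := by
  unfold lay
  rw [List.getLastD_eq_getLast?, List.getLastD_eq_getLast?, List.getLast?_append_of_ne_nil _ hy]

private theorem up_z {y : ℤ} (hy : 0 ≤ y) (_ : y ≤ H) :
    fw H y (0, 0, 1) = rp (mH H - 1 - 2 * y) (0, 0, 1) ++
      (0, 1, 0) :: (0, 0, 1) :: rp (2 * y) (0, 0, 1) := by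
  have h1 : rp (2 * y + 1) (0, 0, 1) = (0, 0, 1) :: rp (2 * y) (0, 0, 1) := by
    rw [add_comm, rp_add (by omega) (by omega), rp_one]
    rfl
  rw [← h1]
  simp [fw]

private theorem dn_z {y : ℤ} (hy : 0 ≤ y) (_ : y ≤ H) :
    fw H y (0, 0, -1) = rp (2 * y) (0, 0, -1) ++
      (0, 0, -1) :: (0, -1, 0) :: rp (mH H - 1 - 2 * y) (0, 0, -1) := by
  have h1 : rp (2 * y + 1) (0, 0, -1) = rp (2 * y) (0, 0, -1) ++ [(0, 0, -1)] := by
    rw [rp_add (by omega) (by omega), rp_one]
  have h2 : fw H y (0, 0, -1) = rp (2 * y + 1) (0, 0, -1) ++ (0, -1, 0) ::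
      rp (mH H - 1 - 2 * y) (0, 0, -1) := by simp [fw]
  rw [h2, h1, List.append_assoc]
  rfl

private theorem sum_FUs {s : List P3} (hs : Steps s) (h : HtW H a s) :
    (FUs H a s).sum = (mH H * s.sum.1 + 2 * s.sum.2.1, 0, mH H * s.sum.2.2) := by
  have h1 := h.start
  have h2 := h.stop
  unfold FUs
  rw [List.sum_append, List.sum_append, sum_rp (by omega), sum_rp (by omega), sum_gw hs h]
  refine Prod.ext ?_ (Prod.ext ?_ ?_)
  · simp only [Prod.fst_add]
    ring
  · simp only [Prod.fst_add, Prod.snd_add]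
    ring
  · simp only [Prod.snd_add]
    ring

private theorem sum_FLs {s : List P3} (hs : Steps s) (h : HtW H a s) :
    (FLs H a s).sum = (mH H * s.sum.1 + 2 * s.sum.2.1, 0, mH H * s.sum.2.2) := by
  have h1 := h.start
  have h2 := h.stop
  unfold FLs
  rw [List.sum_cons, List.sum_append, List.sum_append, List.sum_append, List.sum_singleton,
    sum_rp (by unfold mH; omega), sum_rp (by unfold mH; omega), sum_gw hs h]
  refine Prod.ext ?_ (Prod.ext ?_ ?_)
  · simp only [Prod.fst_add]
    ring
  · simp only [Prod.fst_add, Prod.snd_add]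
    ring
  · simp only [Prod.snd_add]
    ring

/-- PROOF. Let `sr = dl r`, `sl = dl l`, `e = (0, 0, 1)`, `m = mH H`. `r` leads from `(0, 0, 1)` to `(v.1, v.2, 1)`, `l` from
`(v.1, v.2, 0)` to `(0, 0, 0)`, `sl ≠ []`. So `wk (0, 0, 0) (e :: (sr ++ (-e) :: sl)) = (0, 0, 0) :: (r ++ l)` (`wk_snoc`, `wk_dl`).
Translate by `(0, a, 0)`: `p = (0, a, 0)`, `w = e :: (sr ++ (-e) :: sl)`, `(wk p w).tail = (r ++ l).map (· + (0, a, 0))`, which is a
`Ring` (`ring_of`), and `Clo H p w` holds (`Fits`; `a` and `a + v.2` are heights of points of `r`). Let `b = lay w = lay sl`,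
`yB = a + v.2`. By the definition of `GW` and `gw_append` (`ou e = false`, `ou (-e) = true`),
`GW H a b w b = fx b false ++ fw H a e ++ GW H a true sr true ++ fw H yB (-e) ++ GW H yB false sl b`, and
`fw H a e = rp (m - 1 - 2 a) e ++ (0, 1, 0) :: e :: rp (2 a) e`, `fw H yB (-e) = rp (2 yB) (-e) ++ (-e) :: (0, -1, 0) :: rp (m - 1 - 2 yB) (-e)`
(`rp_add`, `rp_one`). With `A = fx b false ++ (rp (m - 1 - 2 a) e ++ [(0, 1, 0)])` and
`B = e :: (FUs H a sr ++ (-e) :: (0, -1, 0) :: (rp (m - 1 - 2 yB) (-e) ++ GW H yB false sl b))` this is `A ++ B`, and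
`B ++ A = e :: (FUs H a sr ++ (-e) :: FLs H yB sl)` (`gw_last`: `GW H yB false sl false = GW H yB false sl b ++ fx b false`; the
sum of the second coordinates of `sl` is `-v.2`, so `yB + sl.sum.2.1 = a`). Let `P = VV H b p`. `P + A.sum = (2 a, 1, m - 1)`. So
(`ring_flat`, `body_flat`, `ring_rot`) the list `c = (wk (2 a, 1, m - 1) (B ++ A)).tail` is a `Ring` and
`body (ring c) = FS H (ring (wk p w).tail)`, which is the image of the body of the old polygon under a homeomorphism (`flat_set`,
`Ring.isPolygon`; `Ht` from `Clo.ht`). By `wk_snoc`, `c = (FUp H a r ++ FLw H a v l).map (· + (2 a, 1, m - 1))`: `FUp` begins in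
`(0, 0, 1)` and ends in `((vf H v).1, 0, 1)` (`sum_gw`, `sum_rp`), `FLw` begins in `((vf H v).1, 0, 0)` and ends in `(0, 0, 0)`.
Translations do not change the type (`ring_map`, `sameType_shift` in `KRing`/`KTube`). `Upper`: no repetition from `Ring`, chain,
head, last; the levels: the points of the part `GW H a true sr true` have `z ≥ m` before the translation by `-(m - 1)`
(`gw_low` with the first point `(0, a, 1)` and `k = 1`; `VV H true (0, a, 1) = (2 a, 1, m + 2 a)`), so `≥ 1` after it, and the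
vertical parts `rp (2 a) e` and `rp (2 yB) (-e)` lie between the levels `1` and `1 + 2 a`, `1 + 2 yB`. `Lower`: in the same way
with `gw_upp`, `k = 0`: the points of `GW H yB false sl false` have `z ≤ 2 H = m - 2`, so `≤ -1` after the translation by
`-(m - 1)`, and the remaining points have `z ≤ m - 1` (the part of `FLs` before and after `GW` is vertical, with one step between the layers in
`z = m - 1`). -/
theorem fh (hv : v ≠ 0) (hr : Upper 0 0 v r) (hl : Lower 0 0 v l) (fr : Fits H a r)
    (fl : Fits H a l) : Upper 0 0 (vf H v) (FUp H a r) ∧ Lower 0 0 (vf H v) (FLw H a v l) ∧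
      SameType (ring (r ++ l)) (ring (FUp H a r ++ FLw H a v l)) := by
  -- the words
  have hr0 : r.head? = some (0, 0, 1) := hr.head
  have hr9 : r.getLast? = some (v.1, v.2, 1) := hr.last
  have hl0 : l.head? = some (v.1, v.2, 0) := hl.head
  have hl9 : l.getLast? = some (0, 0, 0) := hl.last
  have wr := wk_dl hr0
  have wl := wk_dl hl0
  have sr0 : (dl r).sum = (v.1, v.2, 0) := by
    rw [sum_dl hr0 hr9]
    refine Prod.ext ?_ (Prod.ext ?_ ?_)
    · exact sub_zero v.1
    · exact sub_zero v.2
    · exact sub_self (1 : ℤ)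
  have sl0 : (dl l).sum = (-v.1, -v.2, 0) := by
    rw [sum_dl hl0 hl9]
    refine Prod.ext ?_ (Prod.ext ?_ ?_)
    · exact zero_sub v.1
    · exact zero_sub v.2
    · exact sub_self (0 : ℤ)
  have str := steps_dl hr.chain
  have stl := steps_dl hl.chain
  have hdl : dl l ≠ [] := by
    intro h
    rw [h] at sl0
    refine hv (Prod.ext ?_ ?_)
    · have := congrArg Prod.fst sl0
      exact neg_eq_zero.1 this.symm
    · have := congrArg (fun q : P3 => q.2.1) sl0
      exact neg_eq_zero.1 this.symm
  -- heights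
  have ha := fr (0, 0, 1) (List.mem_of_mem_head? hr0)
  have hb := fr (v.1, v.2, 1) (List.mem_of_getLast? hr9)
  simp only [zero_add] at ha
  have hyB : v.2 + a = a + v.2 := add_comm _ _
  rw [hyB] at hb
  have mr : wk (0, a, 1) (dl r) = r.map (· + (0, a, 0)) := by
    have h1 := map_wk (0, a, 0) (0, 0, 1) (dl r)
    rw [wr] at h1
    rw [h1]
    congr 1
    simp
  have ml : wk (v.1, a + v.2, 0) (dl l) = l.map (· + (0, a, 0)) := by
    have h1 := map_wk (0, a, 0) (v.1, v.2, 0) (dl l)
    rw [wl] at h1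
    rw [h1]
    congr 1
    simp [add_comm]
  have lr : ∀ q ∈ wk (0, a, 1) (dl r), 0 ≤ q.2.1 ∧ q.2.1 ≤ H ∧ 1 ≤ q.2.2 := by
    intro q hq
    rw [mr] at hq
    obtain ⟨u, hu, rfl⟩ := List.mem_map.1 hq
    have h1 := fr u hu
    have h2 := hr.lev u hu
    simp only [Prod.snd_add, Prod.fst_add]
    omega
  have ll : ∀ q ∈ wk (v.1, a + v.2, 0) (dl l), 0 ≤ q.2.1 ∧ q.2.1 ≤ H ∧ q.2.2 ≤ 0 := by
    intro q hq
    rw [ml] at hq
    obtain ⟨u, hu, rfl⟩ := List.mem_map.1 hq
    have h1 := fl u hu
    have h2 := hl.lev u hu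
    simp only [Prod.snd_add, Prod.fst_add]
    omega
  have tr : HtW H a (dl r) := (htw_iff (0, a, 1)).1 fun q hq => ⟨(lr q hq).1, (lr q hq).2.1⟩
  have tl : HtW H (a + v.2) (dl l) :=
    (htw_iff (v.1, a + v.2, 0)).1 fun q hq => ⟨(ll q hq).1, (ll q hq).2.1⟩
  -- the closed walk
  set w : List P3 := (0, 0, 1) :: (dl r ++ (0, 0, -1) :: dl l) with hw
  have hwk : wk (0, a, 0) w = (0, a, 0) :: (r ++ l).map (· + (0, a, 0)) := by
    have h1 : ((0, a, 0) : P3) + (0, 0, 1) = (0, a, 1) := by simp
    have h2 : ((0, a, 1) : P3) + (v.1, v.2, 0) + (0, 0, -1) = (v.1, a + v.2, 0) := by simp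
    rw [hw, wk_cons, h1, wk_snoc, sr0, h2, mr, ml, List.map_append]
  have hRM : Ring ((r ++ l).map (· + ((0, a, 0) : P3))) := by
    rw [List.map_append]
    exact ring_of (csh_ne hv.symm) (hr.shift _) (hl.shift _)
  have hclo : Clo H (0, a, 0) w := by
    refine ⟨?_, ?_, ?_⟩
    · rw [hwk]
      exact hRM
    · rw [hw, List.sum_cons, List.sum_append, List.sum_cons, sr0, sl0]
      simp
    · rw [hwk]
      intro q hq
      rcases List.mem_cons.1 hq with rfl | hq
      · exact ha
      · obtain ⟨u, hu, rfl⟩ := List.mem_map.1 hq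
        rcases List.mem_append.1 hu with hu | hu
        · exact fr u hu
        · exact fl u hu
  have hlay : lay w = lay (dl l) := by
    have h1 : w = ((0, 0, 1) :: (dl r ++ [(0, 0, -1)])) ++ dl l := by simp [hw]
    rw [h1, lay_app hdl]
  -- the flattened word
  set b : Bool := lay (dl l) with hbd
  set A : List P3 := fx b false ++ (rp (mH H - 1 - 2 * a) (0, 0, 1) ++ [(0, 1, 0)]) with hA
  set B : List P3 := (0, 0, 1) :: (rp (2 * a) (0, 0, 1) ++ (GW H a true (dl r) true ++
    (rp (2 * (a + v.2)) (0, 0, -1) ++ (0, 0, -1) :: (0, -1, 0) ::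
      (rp (mH H - 1 - 2 * (a + v.2)) (0, 0, -1) ++ GW H (a + v.2) false (dl l) b)))) with hB
  have hAB : GW H a b w b = A ++ B := by
    have o1 : ou (0, 0, 1) = false := by decide
    have o2 : ou (0, 0, -1) = true := by decide
    have h1 : GW H a b w b = fx b (ou (0, 0, 1)) ++ (fw H a (0, 0, 1) ++
      GW H (a + ((0, 0, 1) : P3).2.1) (!ou (0, 0, 1)) (dl r ++ (0, 0, -1) :: dl l) b) := rfl
    have h2 : a + ((0, 0, 1) : P3).2.1 = a := add_zero a
    have h3 : a + v.2 + ((0, 0, -1) : P3).2.1 = a + v.2 := add_zero _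
    rw [h1, h2, o1, gw_append, o2, sr0, h3, up_z ha.1 ha.2, dn_z hb.1 hb.2, hA, hB]
    simp only [List.append_assoc, List.cons_append, List.nil_append, Bool.not_false, Bool.not_true]
  have hBA : B ++ A = (0, 0, 1) :: (FUs H a (dl r) ++ (0, 0, -1) :: FLs H (a + v.2) (dl l)) := by
    have h1 : a + v.2 + (dl l).sum.2.1 = a := by
      rw [sl0]
      change a + v.2 + -v.2 = a
      ring
    have h2 : (dl r).sum.2.1 = v.2 := by rw [sr0]
    unfold FUs FLs
    rw [h1, h2, gw_last hdl, ← hbd, hA, hB]
    simp only [List.append_assoc, List.cons_append]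
  obtain ⟨hR1, hS1⟩ := ring_flat hclo
  have hBo := body_flat hclo
  rw [hlay] at hR1 hS1 hBo
  change Ring (wk (VV H b (0, a, 0)) (GW H a b w b)).tail at hR1
  change (GW H a b w b).sum = 0 at hS1
  change body (ring (wk (VV H b (0, a, 0)) (GW H a b w b)).tail) = _ at hBo
  rw [hAB] at hR1 hS1 hBo
  obtain ⟨hR2, hE2⟩ := ring_rot hS1 hR1
  have hT : VV H b (0, a, 0) + A.sum = (2 * a, 1, mH H - 1) := by
    rw [hA, List.sum_append, List.sum_append, List.sum_singleton, sum_fx,
      sum_rp (by unfold mH; omega)]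
    unfold VV X0 Z0
    refine Prod.ext ?_ (Prod.ext ?_ ?_)
    · simp only [Prod.fst_add]
      ring
    · simp only [Prod.fst_add, Prod.snd_add, lb]
      simp
    · simp only [Prod.snd_add]
      ring
  rw [hT, hBA] at hR2 hE2
  have sU : (FUs H a (dl r)).sum = ((vf H v).1, 0, 0) := by
    rw [sum_FUs str tr, sr0]
    refine Prod.ext rfl (Prod.ext rfl ?_)
    exact mul_zero _
  have sL : (FLs H (a + v.2) (dl l)).sum = (-(vf H v).1, 0, 0) := by
    rw [sum_FLs stl tl, sl0]
    refine Prod.ext ?_ (Prod.ext rfl ?_)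
    · change mH H * -v.1 + 2 * -v.2 = -(mH H * v.1 + 2 * v.2)
      ring
    · exact mul_zero _
  have hc : (wk (2 * a, 1, mH H - 1) ((0, 0, 1) :: (FUs H a (dl r) ++
      (0, 0, -1) :: FLs H (a + v.2) (dl l)))).tail =
      (FUp H a r ++ FLw H a v l).map (· + (2 * a, 1, mH H - 1)) := by
    rw [wk_cons, List.tail_cons, wk_snoc, sU, List.map_append]
    unfold FUp FLw
    rw [map_wk, map_wk]
    congr 2
    · exact add_comm _ _
    · refine Prod.ext ?_ (Prod.ext ?_ ?_)
      · simp only [Prod.fst_add]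
        ring
      · simp only [Prod.fst_add, Prod.snd_add]
        ring
      · simp only [Prod.snd_add]
        ring
  rw [hc] at hR2 hE2
  have hnd := hR2.nodup.of_map
  have hch : (FUp H a r ++ FLw H a v l).IsChain Adj := by
    have h1 := hR2.chain
    rw [List.isChain_map] at h1
    refine h1.imp fun x y hxy => ?_
    simpa [Adj] using hxy
  rw [List.nodup_append] at hnd
  rw [List.isChain_append] at hch
  refine ⟨⟨hnd.1, hch.1, ?_, ?_, ?_⟩, ⟨hnd.2.1, hch.2.1, ?_, ?_, ?_⟩, ?_⟩
  · exact head_wk _ _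
  · unfold FUp
    rw [last_wk, sU]
    refine congrArg some (Prod.ext ?_ (Prod.ext ?_ ?_))
    · exact zero_add _
    · exact zero_add _
    · rfl
  · intro u hu
    unfold FUp FUs at hu
    have e1 : ((0, 0, 1) : P3) + (rp (2 * a) (0, 0, 1)).sum = (0, 0, 1 + 2 * a) := by
      rw [sum_rp (by omega)]
      refine Prod.ext ?_ (Prod.ext ?_ ?_)
      · simp
      · simp
      · simp
    rcases mem_wk_app hu with hu | hu
    · obtain ⟨k, h1, h2, h3⟩ := fh_mem_rp (by omega) hu
      simp only at h3
      omega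
    · rw [e1] at hu
      rcases mem_wk_app hu with hu | hu
      · have h1 := map_mem (t := (2 * a, 1, mH H - 1)) hu
        have h2 : ((0, 0, 1 + 2 * a) : P3) + (2 * a, 1, mH H - 1) = VV H true (0, a, 1) := by
          unfold VV X0 Z0 lb
          refine Prod.ext ?_ (Prod.ext ?_ ?_)
          · simp only [Prod.fst_add]
            ring
          · simp
          · simp only [Prod.snd_add]
            ring
        rw [h2] at h1
        have h3 := gw_low str lr _ h1
        simp only [Prod.snd_add] at h3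
        omega
      · rw [sum_gw str tr, sr0] at hu
        obtain ⟨k, h1, h2, h3⟩ := fh_mem_rp (by simp only; omega) hu
        simp only [Prod.snd_add, mul_zero, zero_add] at h1 h2 h3
        omega
  · exact head_wk _ _
  · unfold FLw
    rw [last_wk, sL]
    refine congrArg some (Prod.ext ?_ (Prod.ext ?_ ?_))
    · exact add_neg_cancel _
    · rfl
    · rfl
  · intro u hu
    unfold FLw FLs at hu
    rw [wk_cons] at hu
    rcases List.mem_cons.1 hu with rfl | hu
    · exact le_refl _
    · have hm : 0 ≤ mH H - 1 - 2 * (a + v.2) := by unfold mH; omega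
      rcases mem_wk_app hu with hu | hu
      · obtain ⟨k, h1, h2, h3⟩ := fh_mem_rp hm hu
        simp only [Prod.snd_add] at h3
        omega
      · have e1 : (((vf H v).1, 0, 0) : P3) + (0, -1, 0) +
            (rp (mH H - 1 - 2 * (a + v.2)) (0, 0, -1)).sum =
            ((vf H v).1, -1, 1 + 2 * (a + v.2) - mH H) := by
          rw [sum_rp hm]
          refine Prod.ext ?_ (Prod.ext ?_ ?_)
          · simp
          · simp
          · simp only [Prod.snd_add]
            ring
        rw [e1] at hu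
        rcases mem_wk_app hu with hu | hu
        · have h1 := map_mem (t := (2 * a, 1, mH H - 1)) hu
          have h2 : (((vf H v).1, -1, 1 + 2 * (a + v.2) - mH H) : P3) + (2 * a, 1, mH H - 1) =
              VV H false (v.1, a + v.2, 0) := by
            unfold VV X0 Z0 lb vf
            refine Prod.ext ?_ (Prod.ext ?_ ?_)
            · simp only [Prod.fst_add]
              ring
            · simp
            · simp only [Prod.snd_add]
              ring
          rw [h2] at h1
          have h3 := gw_upp stl ll _ h1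
          simp only [Prod.snd_add] at h3
          unfold mH at h3
          omega
        · rw [sum_gw stl tl, sl0] at hu
          have h2 : a + v.2 + ((-v.1, -v.2, 0) : P3).2.1 = a := by
            change a + v.2 + -v.2 = a
            ring
          rw [h2] at hu
          have hm2 : 0 ≤ mH H - 1 - 2 * a := by unfold mH; omega
          rcases mem_wk_app hu with hu | hu
          · obtain ⟨k, h1, h2, h3⟩ := fh_mem_rp hm2 hu
            simp only [Prod.snd_add, mul_zero, zero_add] at h3
            omega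
          · rw [sum_rp hm2, wk_cons, wk_nil] at hu
            simp only [List.mem_cons, List.not_mem_nil, or_false] at hu
            rcases hu with rfl | rfl
            · simp only [Prod.snd_add, mul_zero, zero_add]
              omega
            · simp only [Prod.snd_add, mul_zero, zero_add]
              omega
  · have h1 : SameType (ring (r ++ l)) (ring (wk (0, a, 0) w).tail) := by
      rw [hwk, List.tail_cons, ring_map]
      exact sameType_shift _ _
    have h2 : SameType (ring (wk (0, a, 0) w).tail)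
        (ring (wk (VV H b (0, a, 0)) (A ++ B)).tail) := by
      obtain ⟨φ, hφ⟩ := flat_set (H := H) hclo.ring.isPolygon (by
        intro u hu
        rw [hclo.ring.mem_verts] at hu
        exact hclo.ht u (List.mem_of_mem_tail hu))
      exact ⟨φ, hφ.trans hBo.symm⟩
    rw [← hE2, ring_map] at h2
    exact (h1.trans h2).trans (sameType_shift _ _).symm

end Pool.Agent.KFlat
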