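import Pool.Agent.KFlat.Fpr

/-! FB16: flattening commutes with the composition of a lower half and a block. -/

set_option autoImplicit false

open Pool.Agent.LK

namespace Pool.Agent.KFlat

open Pool.Agent.KTube Pool.Agent.KRing Pool.Agent.KLog

variable {H : ℕ} {a : ℤ} {v : ℤ × ℤ} {l : List P3} {π : PP}

/-- A half composed of a walk and a block is a walk. -/
private theorem glu_wk (w : ℤ × ℤ) (s : List P3) (ρ : PP)
    (hs : ((w.1, w.2, 0) : P3) + s.sum = 0) :
    glu w (wk (w.1, w.2, 0) s) ρ =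
      wk ((w.1, w.2, 1) + ρ.2.sum + (-(ρ.1.sum.1), -(ρ.1.sum.2.1), -(hgt ρ)))
        (rev ρ.2 ++ (0, 0, -1) :: (s ++ (0, 0, 1) :: ρ.1)) := by
  rw [← map_wk, wk_snoc, wk_snoc, sum_rev]
  have h1 : ((w.1, w.2, 1) : P3) + ρ.2.sum + -ρ.2.sum + (0, 0, -1) = (w.1, w.2, 0) := by
    rw [add_neg_cancel_right]
    ext <;> simp
  rw [h1, hs, zero_add, glu, sdA, sdB, wk_reverse]

/-- The steps of the composed half. -/
private theorem steps_glu {yB yA : ℤ} {B A m : List P3} (hB : Steps B) (h0 : 0 ≤ yB)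
    (h1 : 0 ≤ yA) (hm : yB + m.sum.2.1 = yA) :
    FLs H (yB + B.sum.2.1) (rev B ++ (0, 0, -1) :: (m ++ (0, 0, 1) :: A)) =
      rev (FB H yB B) ++ (0, 0, -1) :: (FLs H yB m ++ (0, 0, 1) :: FB H yA A) := by
  have e1 : ou (0, 0, -1) = true := by decide
  have e2 : ou (0, 0, 1) = false := by decide
  have e3 : yB + B.sum.2.1 + (rev B).sum.2.1 = yB := by
    rw [sum_rev]
    simp
  have e4 : fw H yB (0, 0, -1) = rp (2 * yB) (0, 0, -1) ++ ((0, 0, -1) :: (0, -1, 0) ::
      rp (mH H - 1 - 2 * yB) (0, 0, -1)) := by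
    have : fw H yB (0, 0, -1) = rp (2 * yB + 1) (0, 0, -1) ++ (0, -1, 0) ::
        rp (mH H - 1 - 2 * yB) (0, 0, -1) := by
      simp [fw]
    rw [this, rp_add (by linarith) zero_le_one, rp_one, List.append_assoc]
    rfl
  have e5 : fw H yA (0, 0, 1) = rp (mH H - 1 - 2 * yA) (0, 0, 1) ++ ((0, 1, 0) :: (0, 0, 1) ::
      rp (2 * yA) (0, 0, 1)) := by
    have : fw H yA (0, 0, 1) = rp (mH H - 1 - 2 * yA) (0, 0, 1) ++ (0, 1, 0) ::
        rp (2 * yA + 1) (0, 0, 1) := by
      simp [fw]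
    rw [this, add_comm (2 * yA) 1, rp_add zero_le_one (by linarith), rp_one]
    rfl
  have e6 : rev (FB H yB B) = (0, -1, 0) :: (rp (mH H - 1 - 2 * (yB + B.sum.2.1)) (0, 0, -1) ++
      (GW H (yB + B.sum.2.1) false (rev B) true ++ rp (2 * yB) (0, 0, -1))) := by
    have n1 : -((0, 0, 1) : P3) = (0, 0, -1) := by simp
    have n2 : rev [((0, 1, 0) : P3)] = [(0, -1, 0)] := by simp [rev]
    rw [FB, rev_append, rev_append, rev_append, rev_rp, rev_rp, rev_gw hB, n1, n2]
    simp only [List.append_assoc, List.cons_append, List.nil_append]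
  have e7 : yB + B.sum.2.1 + (rev B ++ (0, 0, -1) :: (m ++ (0, 0, 1) :: A)).sum.2.1 =
      yA + A.sum.2.1 := by
    rw [← hm]
    simp only [List.sum_append, List.sum_cons, Prod.snd_add, Prod.fst_add, sum_rev, Prod.snd_neg,
      Prod.fst_neg]
    ring
  rw [e6, FLs, e7, gw_append, gw_append, e1, e2, e3, FLs, FB, hm]
  simp only [Bool.not_true, Bool.not_false, add_zero]
  rw [hm, e4, e5]
  simp only [List.append_assoc, List.cons_append, List.nil_append]

/-- PROOF. Let `yA = a`, `yB = a + v.2`, `yA' = a + π.1.sum.2.1`, `yB' = yB + π.2.sum.2.1`, `e = (0, 0, 1)`, `m = mH H`. The steps of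
`glu v l π` are `rev π.2 ++ (-e) :: (dl l ++ e :: π.1)` (`dl_append`, `dl_map`, `dl_reverse`, `dl_wk`; `l` leads from `(v.1, v.2, 0)` to
`(0, 0, 0)`), and the height of its first point is `yB'` (in `FLw`: `(a + π.1.sum.2.1) + (v + dsp π).2`). By `gw_append` (twice;
`ou (-e) = true`, `ou e = false`) `GW H yB' false (rev π.2 ++ (-e) :: (dl l ++ e :: π.1)) false =`
`GW H yB' false (rev π.2) true ++ fw H yB (-e) ++ GW H yB false (dl l) false ++ fw H yA e ++ GW H yA true π.1 false` with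
`fw H yB (-e) = rp (2 yB) (-e) ++ (-e) :: (0, -1, 0) :: rp (m - 1 - 2 yB) (-e)` and
`fw H yA e = rp (m - 1 - 2 yA) e ++ (0, 1, 0) :: e :: rp (2 yA) e` (`rp_add`, `rp_one`). So
`FLs H yB' (..) = rev (FB H yB π.2) ++ (-e) :: (FLs H yB (dl l) ++ e :: FB H yA π.1)` (`rev_append`, `rev_rp`, `rev_gw`). Both sides
of the claim are walks with these steps (`wk_reverse`, `wk_snoc`, `map_wk`), and the first points agree: `sum_fb`, `dsp_fpr`,
`hgt_fpr`, `Geo0.level`. -/
theorem fl_glu (hg : Geo0 v π) (hf : FitP H a v π) (hl : Lower 0 0 v l) (fl : Fits H a l) :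
    FLw H (a + π.1.sum.2.1) (v + dsp π) (glu v l π) =
      glu (vf H v) (FLw H a v l) (FPr H a v π) := by
  have hl0 : wk (v.1, v.2, 0) (dl l) = l := wk_dl hl.head
  have hsum : (dl l).sum = ((0, 0, 0) : P3) - (v.1, v.2, 0) := sum_dl hl.head hl.last
  have hz0 : ((v.1, v.2, 0) : P3) + (dl l).sum = 0 := by
    rw [hsum]
    ext <;> simp
  have hst : Steps (dl l) := steps_dl hl.chain
  have hht : HtW H (a + v.2) (dl l) := by
    have h1 := (htw_iff (H := H) (s := dl l) ((v.1, v.2, 0) + (0, a, 0))).1 (by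
      intro q hq
      rw [← map_wk, hl0, List.mem_map] at hq
      obtain ⟨q', hq', rfl⟩ := hq
      exact fl q' hq')
    have h2 : (((v.1, v.2, 0) : P3) + (0, a, 0)).2.1 = a + v.2 := by
      simp [add_comm]
    rwa [h2] at h1
  obtain ⟨yB0, yB1⟩ := hht.start
  obtain ⟨ya0, ya1⟩ := hf.1.start
  have hys : (a + v.2) + (dl l).sum.2.1 = a := by
    rw [hsum]
    simp
  have hF : (((vf H v).1, (vf H v).2, 0) : P3) + (FLs H (a + v.2) (dl l)).sum = 0 := by
    have hm1 : 0 ≤ mH H - 1 - 2 * (a + v.2) := by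
      unfold mH
      linarith
    have hm2 : 0 ≤ mH H - 1 - 2 * a := by
      unfold mH
      linarith
    rw [FLs, List.sum_cons, List.sum_append, List.sum_append, List.sum_append, sum_rp hm1, hys,
      sum_rp hm2, sum_gw hst hht, hsum, List.sum_singleton]
    ext <;> simp [vf, lb] <;> ring
  have hL : glu v l π = wk ((v.1, v.2, 1) + π.2.sum + (-(π.1.sum.1), -(π.1.sum.2.1), -(hgt π)))
      (rev π.2 ++ (0, 0, -1) :: (dl l ++ (0, 0, 1) :: π.1)) := by
    have h := glu_wk v (dl l) π hz0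
    rwa [hl0] at h
  have hR := glu_wk (vf H v) (FLs H (a + v.2) (dl l)) (FPr H a v π) hF
  have h0 : FLw H a v l = wk ((vf H v).1, (vf H v).2, 0) (FLs H (a + v.2) (dl l)) := rfl
  rw [h0, hR, hL, FLw, dl_wk]
  have hy : a + π.1.sum.2.1 + (v + dsp π).2 = (a + v.2) + π.2.sum.2.1 := by
    simp [dsp, hz]
    ring
  have hp : (((vf H (v + dsp π)).1, 0, 0) : P3) = ((vf H v).1, (vf H v).2, 1) +
      (FPr H a v π).2.sum + (-((FPr H a v π).1.sum.1), -((FPr H a v π).1.sum.2.1),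
        -(hgt (FPr H a v π))) := by
    have hlev := hg.level
    simp only [KLog.hgt, FPr, sum_fb hg.stA hf.1, sum_fb hg.stB hf.2]
    ext
    · simp [vf, dsp, hz]
      ring
    · simp [vf]
    · simp [vf, hlev]
  rw [hy, steps_glu hg.stB yB0 ya0 hys, ← hp]
  rfl

end Pool.Agent.KFlat
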