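import Pool.Agent.KFlat.Lev
import Pool.Agent.KFlat.Dl
import Pool.Agent.KAsym.RecB

/-! FB10: the flattened block. -/

set_option autoImplicit false

open Pool.Agent.LK

namespace Pool.Agent.KFlat

open Pool.Agent.KTube Pool.Agent.KRing Pool.Agent.KLog
open Pool.Agent.KAsym (ln)

variable {H : ℕ} {a y : ℤ} {v : ℤ × ℤ} {l s : List P3} {π : PP}

private theorem mem_wk_append {p q : P3} {s t : List P3} (h : q ∈ wk p (s ++ t)) :
    q ∈ wk p s ∨ q ∈ wk (p + s.sum) t := by
  rw [wk_append, List.mem_append] at h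
  rcases h with h | h
  · exact Or.inl (List.mem_of_mem_dropLast h)
  · exact Or.inr h

/-- `level` (`KTop/Cats.lean`) for `Geo0`. -/
theorem Geo0.level (hg : Geo0 v π) : π.2.sum.2.2 = π.1.sum.2.2 := by
  have hA := hg.block.lastA
  have hB := hg.block.headB
  rw [sdA, last_wk] at hA
  rw [sdB, List.head?_reverse, last_wk] at hB
  simp only [Option.some.injEq, Prod.ext_iff, Prod.fst_add, Prod.snd_add] at hA hB
  omega

theorem sum_fb (hs : Steps s) (h : HtW H y s) :
    (FB H y s).sum = (mH H * s.sum.1 + 2 * s.sum.2.1, 0, mH H * (s.sum.2.2 + 1) - 1) := by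
  have h1 := h.start
  have h2 := h.stop
  have h3 : 0 ≤ mH H - 1 - 2 * (y + s.sum.2.1) := by
    unfold mH
    omega
  unfold FB
  rw [List.sum_append, List.sum_append, List.sum_append, List.sum_singleton, sum_gw hs h,
    sum_rp (by omega), sum_rp h3]
  ext
  · simp
  · simp [lb]
  · simp
    ring

theorem dsp_fpr (hA : Steps π.1) (hB : Steps π.2) (hf : FitP H a v π) :
    dsp (FPr H a v π) = vf H (dsp π) := by
  unfold dsp FPr vf
  simp only
  rw [sum_fb hA hf.1, sum_fb hB hf.2]
  ext
  · simp [hz]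
    ring
  · simp [hz]

theorem hgt_fpr (hA : Steps π.1) (hf : FitP H a v π) :
    hgt (FPr H a v π) = mH H * hgt π := by
  unfold KLog.hgt FPr
  simp only
  rw [sum_fb hA hf.1]
  ring

private theorem stp_le (s : List P3) : stp (lets s) ≤ s.length := by
  unfold stp
  refine (List.countP_le_length).trans ?_
  rw [lets, List.length_map]

private theorem stp_up (n : ℤ) : stp (lets (rp n (0, 0, 1))) = 0 := by
  unfold stp lets rp
  rw [List.map_replicate, List.countP_replicate]
  have h : hlet (0, 0, 1) = none := by decide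
  rw [h]
  simp

private theorem length_rp (n : ℤ) (d : P3) : (rp n d).length = n.toNat := by
  unfold rp
  rw [List.length_replicate]

private theorem stp_fx (b c : Bool) : stp (lets (fx b c)) ≤ 1 := by
  refine (stp_le _).trans ?_
  unfold fx
  split_ifs <;> simp

private theorem stp_fw {d : P3} (h0 : 0 ≤ y) (h1 : y ≤ H) :
    (stp (lets (fw H y d)) : ℤ) ≤ mH H + 1 := by
  unfold fw
  split_ifs with e1 e2 e3
  · have h2 := stp_le (rp (mH H - 1 - 2 * y) d ++ (0, 1, 0) :: rp (2 * y + 1) d)
    rw [List.length_append, List.length_cons, length_rp, length_rp] at h2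
    have h3 : (0 : ℤ) ≤ mH H - 1 - 2 * y := by
      unfold mH
      omega
    omega
  · have h2 := stp_le (rp (2 * y + 1) d ++ (0, -1, 0) :: rp (mH H - 1 - 2 * y) d)
    rw [List.length_append, List.length_cons, length_rp, length_rp] at h2
    have h3 : (0 : ℤ) ≤ mH H - 1 - 2 * y := by
      unfold mH
      omega
    omega
  · have h2 : stp (lets [(1, 0, 0), (0, 0, 1), (0, -1, 0), (1, 0, 0), (0, 0, 1)]) = 3 := by decide
    rw [h2]
    unfold mH
    omega
  · have h2 : stp (lets [(0, 0, -1), (-1, 0, 0), (0, 1, 0), (0, 0, -1), (-1, 0, 0)]) = 3 := by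
      decide
    rw [h2]
    unfold mH
    omega

private theorem stp_gw {b c : Bool} (h : HtW H y s) :
    (stp (lets (GW H y b s c)) : ℤ) ≤ (mH H + 2) * s.length + 1 := by
  induction s generalizing y b with
  | nil =>
    have h1 := stp_fx b c
    rw [GW, List.length_nil]
    push_cast
    omega
  | cons d s ih =>
    rw [htw_cons] at h
    have h1 := ih (b := !ou d) h.2
    have h2 := stp_fx b (ou d)
    have h3 := stp_fw (d := d) h.1.1 h.1.2
    rw [GW, lets_append, lets_append, stp_append, stp_append, List.length_cons]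
    push_cast
    have h4 : (mH H + 2) * ((s.length : ℤ) + 1) = (mH H + 2) * s.length + (mH H + 2) := by ring
    rw [h4]
    omega

private theorem stp_fb (h : HtW H y s) :
    (stp (lets (FB H y s)) : ℤ) ≤ (mH H + 2) * (s.length + 1) := by
  have h1 := stp_gw (b := true) (c := false) h
  have h2 : stp (lets [(0, 1, 0)]) = 1 := by decide
  have h3 := mH_pos H
  unfold FB
  rw [lets_append, lets_append, lets_append, stp_append, stp_append, stp_append, stp_up, stp_up,
    h2]
  push_cast
  have h4 : (mH H + 2) * ((s.length : ℤ) + 1) = (mH H + 2) * s.length + (mH H + 2) := by ring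
  rw [h4]
  omega

/-- Each step becomes at most `mH H + 2` horizontal steps: `fx` at most one, `fw` has `mH H + 1` for the first direction, `3` for the
second and `1` for the last; `FB` has at most two more, and `ln π = π.1.length + π.2.length + 2`. -/
theorem nh_fpr (hA : Steps π.1) (hB : Steps π.2) (hf : FitP H a v π) :
    (nh (FPr H a v π) : ℤ) ≤ (mH H + 2) * ln π := by
  have h1 := stp_fb hf.1
  have h2 := stp_fb hf.2
  unfold nh FPr ln
  push_cast
  have h3 : (mH H + 2) * ((π.1.length : ℤ) + π.2.length + 2) =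
      (mH H + 2) * (π.1.length + 1) + (mH H + 2) * (π.2.length + 1) := by ring
  rw [h3]
  exact add_le_add h1 h2

private theorem rp_up_lay {p q : P3} {n : ℤ} (h : q ∈ wk p (rp n (0, 0, 1))) :
    q.2.1 = p.2.1 := by
  obtain ⟨A, B, hAB, rfl⟩ := mem_wk.1 h
  have h1 : ∀ d ∈ A, d = ((0, 0, 1) : P3) := by
    intro d hd
    refine List.eq_of_mem_replicate (n := n.toNat) ?_
    change d ∈ rp n (0, 0, 1)
    rw [hAB]
    exact List.mem_append_left _ hd
  have h2 : A.sum.2.1 = 0 := by
    clear hAB h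
    induction A with
    | nil => rfl
    | cons d A ih =>
      rw [List.sum_cons, h1 d (by simp)]
      change 0 + A.sum.2.1 = 0
      rw [ih fun e he => h1 e (by simp [he]), add_zero]
  change p.2.1 + A.sum.2.1 = p.2.1
  rw [h2, add_zero]

private theorem fb_lay (hs : Steps s) (h : HtW H y s) {p : P3} (hp : p.2.1 = 1) :
    ∀ q ∈ wk p (FB H y s), 0 ≤ q.2.1 ∧ q.2.1 ≤ 1 := by
  have h1 := h.start
  have h2 := h.stop
  have h3 : 0 ≤ mH H - 1 - 2 * (y + s.sum.2.1) := by
    unfold mH
    omega
  intro q hq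
  unfold FB at hq
  rcases mem_wk_append hq with hq | hq
  · rw [rp_up_lay hq, hp]
    omega
  have e1 : (p + (rp (2 * y) (0, 0, 1)).sum).2.1 = 1 := by
    rw [sum_rp (by omega)]
    simp [hp]
  rcases mem_wk_append hq with hq | hq
  · refine gw_lay hs ?_ q hq
    rw [e1]
    rfl
  have e2 : (p + (rp (2 * y) (0, 0, 1)).sum + (GW H y true s false).sum).2.1 = 0 := by
    rw [Prod.snd_add, Prod.fst_add, e1, sum_gw hs h]
    simp [lb]
  rcases mem_wk_append hq with hq | hq
  · rw [rp_up_lay hq, e2]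
    omega
  have e3 : (p + (rp (2 * y) (0, 0, 1)).sum + (GW H y true s false).sum +
      (rp (mH H - 1 - 2 * (y + s.sum.2.1)) (0, 0, 1)).sum).2.1 = 0 := by
    rw [Prod.snd_add, Prod.fst_add, e2, sum_rp h3]
    simp
  rw [wk_cons, wk_nil, List.mem_cons, List.mem_singleton] at hq
  rcases hq with rfl | rfl
  · rw [e3]
    omega
  · rw [Prod.snd_add, Prod.fst_add, e3]
    simp

private theorem fb_cl (hs : Steps s) (h : HtW H y s) :
    ∀ q ∈ wk (0, 0, 1) (FB H y s), 0 ≤ q.2.1 + 1 ∧ q.2.1 + 1 ≤ 1 := by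
  intro q hq
  have h1 : q + (0, 1, 0) ∈ wk (0, 1, 1) (FB H y s) := by
    have h2 := map_wk (0, 1, 0) (0, 0, 1) (FB H y s)
    have h3 : ((0, 0, 1) : P3) + (0, 1, 0) = (0, 1, 1) := by decide
    rw [h3] at h2
    rw [← h2]
    exact List.mem_map_of_mem hq
  exact fb_lay hs h rfl _ h1

/-- `gw_lay` (the first layer is `1`, the last one is `1`). -/
theorem cl_fpr (hA : Steps π.1) (hB : Steps π.2) (hf : FitP H a v π) :
    CL (1, 1) (1, 1) (FPr H a v π) := by
  refine ⟨fb_cl hA hf.1, fb_cl hB hf.2, ?_, ?_⟩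
  · unfold FPr
    simp only
    rw [sum_fb hA hf.1]
    rfl
  · unfold FPr
    simp only
    rw [sum_fb hB hf.2]
    rfl

private theorem ht_of {p q : P3} (h : HtW H y s) (hq : q ∈ wk p s) :
    0 ≤ q.2.1 + (y - p.2.1) ∧ q.2.1 + (y - p.2.1) ≤ H := by
  have h1 : q + (-p.1, y - p.2.1, -p.2.2) ∈ wk (0, y, 0) s := by
    have h2 := map_wk (-p.1, y - p.2.1, -p.2.2) p s
    have h3 : p + (-p.1, y - p.2.1, -p.2.2) = (0, y, 0) := by
      ext <;> simp
    rw [h3] at h2
    rw [← h2]
    exact List.mem_map_of_mem hq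
  exact h _ h1

/-- The heights of the composed half (the points of `sdA π`, `sdB v π` and `l`, moved). -/
theorem fits_glu (hf : FitP H a v π) (fl : Fits H a l) :
    Fits H (a + π.1.sum.2.1) (glu v l π) := by
  intro q hq
  unfold glu at hq
  obtain ⟨q', hq', rfl⟩ := List.mem_map.1 hq
  have h1 : (q' + (-(π.1.sum.1), -(π.1.sum.2.1), -(hgt π))).2.1 + (a + π.1.sum.2.1) =
      q'.2.1 + a := by
    change q'.2.1 + -(π.1.sum.2.1) + (a + π.1.sum.2.1) = q'.2.1 + a
    ring
  rw [h1]
  rcases List.mem_append.1 hq' with h2 | h2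
  · rw [sdB, List.mem_reverse] at h2
    have h3 := ht_of hf.2 h2
    simp only at h3
    omega
  rcases List.mem_append.1 h2 with h2 | h2
  · exact fl q' h2
  · rw [sdA] at h2
    have h3 := ht_of hf.1 h2
    simp only at h3
    omega

end Pool.Agent.KFlat
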