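import Pool.Agent.KFlat.Fpr
import Pool.Agent.KFlat.FlGlu
import Pool.Agent.KFlat.CapH

/-! FB17: the flattened block is a pair of strands. -/

set_option autoImplicit false

open Pool.Agent.LK

namespace Pool.Agent.KFlat

open Pool.Agent.KTube Pool.Agent.KRing Pool.Agent.KLog

variable {H : ℕ} {a : ℤ} {v : ℤ × ℤ} {l : List P3} {π : PP}

private theorem wk_up {n : ℕ} {p q : P3} (h : q ∈ wk p (List.replicate n ((0, 0, 1) : P3))) :
    p.2.2 ≤ q.2.2 ∧ q.2.2 ≤ p.2.2 + n := by
  induction n generalizing p with
  | zero =>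
    simp only [List.replicate_zero, wk_nil, List.mem_singleton] at h
    subst h
    simp
  | succ n ih =>
    rw [List.replicate_succ, wk_cons, List.mem_cons] at h
    rcases h with rfl | h
    · constructor
      · exact le_rfl
      · push_cast
        omega
    · have := ih h
      simp only [Prod.snd_add] at this
      push_cast
      omega

private theorem wk_rp {n : ℤ} (hn : 0 ≤ n) {p q : P3} (h : q ∈ wk p (rp n ((0, 0, 1) : P3))) :
    p.2.2 ≤ q.2.2 ∧ q.2.2 ≤ p.2.2 + n := by
  have h1 := wk_up h
  have h2 : (n.toNat : ℤ) = n := Int.toNat_of_nonneg hn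
  rw [h2] at h1
  exact h1

private theorem mem_wk_append {p q : P3} {s t : List P3} (h : q ∈ wk p (s ++ t)) :
    q ∈ wk p s ∨ q ∈ wk (p + s.sum) t := by
  rw [wk_append, List.mem_append] at h
  exact h.imp_left List.mem_of_mem_dropLast

private theorem mem_self_wk (p : P3) (s : List P3) : p ∈ wk p s :=
  List.mem_of_mem_head? (head_wk p s)

private theorem lev_fb {y n : ℤ} {x : ℤ × ℤ} {s : List P3} (hs : Steps s) (hy : HtW H y s)
    (hl : ∀ q ∈ wk (x.1, x.2, 1) s, 0 + 1 ≤ q.2.2 ∧ q.2.2 ≤ n) (hn : s.sum.2.2 + 1 = n)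
    (c : ℤ × ℤ) : ∀ q ∈ wk (c.1, c.2, 1) (FB H y s), 0 + 1 ≤ q.2.2 ∧ q.2.2 ≤ mH H * n := by
  have hst := hy.start
  have hsp := hy.stop
  have hm : mH H = 2 * H + 2 := rfl
  have hn1 : 1 ≤ n := by
    have := hl _ (mem_self_wk _ _)
    simp only at this
    omega
  have hH : (0 : ℤ) ≤ H := Int.natCast_nonneg H
  have hmn : mH H ≤ mH H * n := by
    have : mH H * 1 ≤ mH H * n := mul_le_mul_of_nonneg_left hn1 (mH_pos H).le
    linarith
  have hms : mH H * s.sum.2.2 + mH H = mH H * n := by
    rw [← hn]
    ring
  have hms0 : 0 ≤ mH H * s.sum.2.2 := by linarith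
  have e1 : (rp (2 * y) ((0, 0, 1) : P3)).sum = (0, 0, 2 * y) := by
    rw [sum_rp (by omega)]
    simp
  have e2 := sum_gw (b := true) (c := false) hs hy
  have key : ∀ q ∈ wk ((c.1, c.2, 1) + (rp (2 * y) ((0, 0, 1) : P3)).sum) (GW H y true s false),
      1 ≤ q.2.2 ∧ q.2.2 ≤ mH H * n - 1 := by
    intro q hq
    have hh : ∀ u ∈ wk ((0, y, 1) : P3) s, 0 ≤ u.2.1 ∧ u.2.1 ≤ H ∧ 1 ≤ u.2.2 ∧ u.2.2 ≤ n := by
      intro u hu
      have h1 := (htw_iff (H := H) (s := s) ((0, y, 1) : P3)).2 hy u hu
      have h2 := hl (u + (x.1, x.2 - y, 0)) (by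
        have h3 : ((x.1, x.2, 1) : P3) = (0, y, 1) + (x.1, x.2 - y, 0) := by
          simp only [Prod.mk_add_mk, zero_add, add_zero]
          refine Prod.ext rfl (Prod.ext ?_ rfl)
          simp only
          ring
        rw [h3, ← map_wk]
        exact List.mem_map_of_mem hu)
      simp only [Prod.snd_add, add_zero, zero_add] at h2
      exact ⟨h1.1, h1.2, h2.1, h2.2⟩
    have t : ((c.1, c.2, 1) : P3) + (rp (2 * y) ((0, 0, 1) : P3)).sum =
        VV H true (0, y, 1) + (c.1 - 2 * y, c.2 - 1, 1 - mH H) := by
      rw [e1]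
      refine Prod.ext ?_ (Prod.ext ?_ ?_)
      · simp only [VV, X0, Prod.fst_add]
        ring
      · simp only [VV, lb, Prod.snd_add, Prod.fst_add, if_true]
        ring
      · simp only [VV, Z0, Prod.snd_add]
        ring
    rw [t, ← map_wk] at hq
    obtain ⟨u, hu, rfl⟩ := List.mem_map.1 hq
    have h3 := gw_low (H := H) (k := 1) (b := true) (c := false) (p := (0, y, 1)) hs
      (fun q hq => ⟨(hh q hq).1, (hh q hq).2.1, (hh q hq).2.2.1⟩) u hu
    have h4 := gw_upp (H := H) (k := n) (b := true) (c := false) (p := (0, y, 1)) hs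
      (fun q hq => ⟨(hh q hq).1, (hh q hq).2.1, (hh q hq).2.2.2⟩) u hu
    simp only [Prod.snd_add]
    constructor
    · linarith
    · linarith
  intro q hq
  unfold FB at hq
  rcases mem_wk_append hq with h | h
  · have h1 := wk_rp (by omega) h
    simp only at h1
    constructor
    · linarith [h1.1]
    · linarith [h1.2, hst.2]
  rcases mem_wk_append h with h | h
  · have h1 := key q h
    constructor
    · linarith [h1.1]
    · linarith [h1.2]
  rw [e1, e2] at h
  rcases mem_wk_append h with h | h
  · have h1 := wk_rp (by omega) h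
    simp only [Prod.mk_add_mk] at h1
    constructor
    · linarith [h1.1]
    · linarith [h1.2]
  · rw [sum_rp (by omega)] at h
    simp only [wk_cons, wk_nil, List.mem_cons, List.not_mem_nil, or_false, Prod.mk_add_mk] at h
    rcases h with rfl | rfl
    · simp only
      constructor
      · linarith
      · linarith
    · simp only
      constructor
      · linarith
      · linarith

private theorem chain_rev {l : List P3} (h : l.IsChain Adj) : l.reverse.IsChain Adj := by
  rw [List.isChain_reverse]
  exact h.imp fun _ _ hab => hab.symm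

private theorem end_ne (hg : Geo v π) : v + dsp π ≠ 0 := by
  intro h
  have hb := hg.block
  have h1 : v + hz π.2.sum = hz π.1.sum := by
    have : v + hz π.2.sum - hz π.1.sum = 0 := by
      rw [add_sub_assoc]
      exact h
    exact sub_eq_zero.1 this
  have h2 := List.mem_of_mem_getLast? hb.lastA
  have h3 := List.mem_of_mem_head? hb.headB
  rw [h1] at h3
  exact hb.disj _ h2 h3

private theorem steps_rp {d : P3} (hd : IsStep d) (n : ℤ) : Steps (rp n d) := by
  intro u hu
  rw [List.eq_of_mem_replicate hu]
  exact hd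

private theorem steps_fb (y : ℤ) (s : List P3) : Steps (FB H y s) := by
  have he : IsStep ((0, 0, 1) : P3) := by simp [IsStep]
  have hf : IsStep ((0, 1, 0) : P3) := by simp [IsStep]
  intro u hu
  unfold FB at hu
  rw [List.mem_append, List.mem_append, List.mem_append, List.mem_singleton] at hu
  rcases hu with h | h | h | h
  · exact steps_rp he _ u h
  · exact steps_gw H y true false s u h
  · exact steps_rp he _ u h
  · rw [h]
    exact hf

/-- PROOF. `vf_ne` (`FitP` gives the heights `a`, `a + v.2`). `Steps`: `steps_gw`. Block: choose lower halves `l` over `v` and an upper half `r`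
over `v + dsp π` with small heights (`exists_lu_h`, `exists_uu_h`; they fit, because the four ends of the strands fit); `glu v l π` is a
lower half over `v + dsp π` (`lower_glu`), which fits (`fits_glu`). By `fh` the list `FLw H (a + π.1.sum.2.1) (v + dsp π) (glu v l π)` is
without repetition, and by `fl_glu` it is `glu (vf H v) (FLw H a v l) (FPr H a v π)`, a translate of
`sdB (vf H v) Π ++ (FLw .. ++ sdA Π)`, `Π = FPr H a v π`; so `sdA Π` and `sdB (vf H v) Π` are without repetition and disjoint. Chains,
heads and lasts from `chain_wk`, `head_wk`, `last_wk`, `sum_fb`. Levels: for `sdA Π = wk (0, 0, 1) (FB H a π.1)`: the first part rises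
from the level `1` to `1 + 2 a`; the part `GW H a true π.1 false` is a translate (by `-(m - 1)` in the last coordinate) of the walk of
`gw_low`, `gw_upp` with the first point `(0, a, 1)` and the old levels `1, …, hgt π` (`Block.levA`), so its levels are between
`m - (m - 1) = 1` and `m hgt π + 2 H - (m - 1) = m hgt π - 1`; the last part rises to `m hgt π` and has there the step between the layers. In
the same way `sdB`, with the height `a + v.2`. -/
theorem geo0_fpr (hg : Geo v π) (hf : FitP H a v π) : Geo0 (vf H v) (FPr H a v π) := by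
  have s1 := hf.1.start
  have s2 := hf.2.start
  have t1 := hf.1.stop
  have t2 := hf.2.stop
  have hne' := end_ne hg
  have hh := hgt_fpr (v := v) hg.stA hf
  have hlev := (Geo0.of_geo hg).level
  have hs1 := sum_fb hg.stA hf.1
  have hs2 := sum_fb hg.stB hf.2
  have hpos : 0 < hgt π := hg.block.lt
  have stA : Steps (FPr H a v π).1 := steps_fb _ _
  have stB : Steps (FPr H a v π).2 := steps_fb _ _
  obtain ⟨l, hl, lh⟩ := exists_lu_h hg.ne
  obtain ⟨r, hr, rh⟩ := exists_uu_h hne'
  have fl : Fits H a l := by
    intro q hq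
    have h1 := lh q hq
    constructor
    · rcases le_total 0 v.2 with h | h
      · rw [min_eq_left h] at h1
        linarith [h1.1, s1.1]
      · rw [min_eq_right h] at h1
        linarith [h1.1, s2.1]
    · rcases le_total 0 v.2 with h | h
      · rw [max_eq_right h] at h1
        linarith [h1.2, s2.2]
      · rw [max_eq_left h] at h1
        linarith [h1.2, s1.2]
  have ev : a + π.1.sum.2.1 + (v + dsp π).2 = a + v.2 + π.2.sum.2.1 := by
    simp only [dsp, hz, Prod.snd_add, Prod.snd_sub]
    ring
  have fr : Fits H (a + π.1.sum.2.1) r := by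
    intro q hq
    have h1 := rh q hq
    constructor
    · rcases le_total 0 (v + dsp π).2 with h | h
      · rw [min_eq_left h] at h1
        linarith [h1.1, t1.1]
      · rw [min_eq_right h] at h1
        linarith [h1.1, t2.1]
    · rcases le_total 0 (v + dsp π).2 with h | h
      · rw [max_eq_right h] at h1
        linarith [h1.2, t2.2]
      · rw [max_eq_left h] at h1
        linarith [h1.2, t1.2]
  have hL := (fh hne' hr.2.1 (KTop.lower_glu hg hl.2.1) fr (fits_glu hf fl)).2.1.nodup
  rw [fl_glu (Geo0.of_geo hg) hf hl.2.1 fl] at hL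
  have hN := List.Nodup.of_map _ hL
  obtain ⟨nB, hN2, hd1⟩ := List.nodup_append.1 hN
  obtain ⟨-, nA, -⟩ := List.nodup_append.1 hN2
  refine ⟨vf_ne hg.ne s1.1 s1.2 s2.1 s2.2, stA, stB, ?_, nA, nB, ?_, ?_, ?_, ?_, ?_, ?_, ?_, ?_,
    ?_⟩
  · rw [hh]
    exact mul_pos (mH_pos H) hpos
  · intro u hu hu'
    exact hd1 u hu' u (List.mem_append_right _ hu) rfl
  · exact chain_wk.2 stA
  · exact chain_rev (chain_wk.2 stB)
  · exact head_wk _ _
  · unfold sdA
    rw [last_wk]
    congr 1
    refine Prod.ext ?_ (Prod.ext ?_ ?_)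
    · simp [hz]
    · simp [hz]
    · simp only [KLog.hgt, Prod.snd_add]
      ring
  · unfold sdB
    rw [List.head?_reverse, last_wk]
    congr 1
    refine Prod.ext ?_ (Prod.ext ?_ ?_)
    · simp [hz]
    · simp [hz]
    · have h5 : (FPr H a v π).2.sum.2.2 = (FPr H a v π).1.sum.2.2 := by
        unfold FPr
        simp only
        rw [hs1, hs2]
        simp only
        rw [hlev]
      simp only [KLog.hgt, Prod.snd_add]
      rw [h5]
      ring
  · unfold sdB
    rw [List.getLast?_reverse, head_wk]
    simp
  · rw [hh]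
    exact lev_fb (x := 0) hg.stA hf.1 hg.block.levA rfl 0
  · rw [hh]
    intro u hu
    unfold sdB at hu
    rw [List.mem_reverse] at hu
    refine lev_fb (x := v) hg.stB hf.2 ?_ ?_ (vf H v) u hu
    · intro q hq
      exact hg.block.levB q (List.mem_reverse.2 hq)
    · unfold KLog.hgt
      rw [hlev]

end Pool.Agent.KFlat
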