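import Pool.Agent.KFlat.Geo0F
import Pool.Agent.KComp.Basic

/-! FB12: a flattened knotted block contains a knotted block; marks far from the origin. -/

set_option autoImplicit false

open Pool.Agent.LK

namespace Pool.Agent.KFlat

open Pool.Agent.KTube Pool.Agent.KRing Pool.Agent.KLog
open Pool.Agent.KAmp (gl)
open Pool.Agent.KTop (GC UC ed ed_nil ed_cons ed_append)
open Pool.Agent.KComp (Kn mk mk_cons mk_append kn_of_mem_mk uc_iff)

variable {H : ℕ} {a : ℤ} {v : ℤ × ℤ} {π : PP} {s : List PP}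

private theorem mf_csh_a (π : PP) :
    csh (π.1.sum.1, π.1.sum.2.1, hgt π) 0 = hz π.1.sum := by
  refine Prod.ext ?_ ?_
  · simp [csh, hz]
  · simp [csh, hz]

private theorem mf_csh_b (v : ℤ × ℤ) (π : PP) :
    csh (π.1.sum.1, π.1.sum.2.1, hgt π) (v + dsp π) = v + hz π.2.sum := by
  refine Prod.ext ?_ ?_
  · simp only [csh, hz, dsp, Prod.fst_add, Prod.fst_sub]; ring
  · simp only [csh, hz, dsp, Prod.snd_add, Prod.snd_sub]; ring

private theorem mf_unk {v : ℤ × ℤ} {l : List P3} {π : PP} (hg : Geo v π) (hl : Lower 0 0 v l)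
    (h : LU 0 0 (v + dsp π) (glu v l π)) : Unk v π := by
  have h1 := h.shift (π.1.sum.1, π.1.sum.2.1, hgt π)
  have e0 : (0 : ℤ) + ((π.1.sum.1, π.1.sum.2.1, hgt π) : P3).2.2 = hgt π := by simp
  have e1 : (glu v l π).map (· + (π.1.sum.1, π.1.sum.2.1, hgt π)) =
      sdB v π ++ (l ++ sdA π) := by
    unfold glu
    rw [List.map_map]
    conv_rhs => rw [← List.map_id (sdB v π ++ (l ++ sdA π))]
    refine List.map_congr_left fun x _ => ?_
    ext <;> simp
  rw [e0, e1, mf_csh_a, mf_csh_b] at h1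
  exact ((unk_lu hg hl).1 h1).2

private theorem mf_fits {H : ℕ} {a : ℤ} {v : ℤ × ℤ} {l : List P3}
    (h : ∀ q ∈ l, min 0 v.2 ≤ q.2.1 ∧ q.2.1 ≤ max 0 v.2)
    (s1 : 0 ≤ a ∧ a ≤ H) (s2 : 0 ≤ a + v.2 ∧ a + v.2 ≤ H) : Fits H a l := by
  intro q hq
  have h1 := h q hq
  constructor
  · rcases le_total 0 v.2 with h | h
    · rw [min_eq_left h] at h1
      linarith [h1.1, s1.1]
    · rw [min_eq_right h] at h1
      linarith [h1.1, s2.1]
  · rcases le_total 0 v.2 with h | h
    · rw [max_eq_right h] at h1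
      linarith [h1.2, s2.2]
    · rw [max_eq_left h] at h1
      linarith [h1.2, s1.2]

/-- PROOF. Suppose `mk (vf H v) s = []`, that is `UC (vf H v) s` (`uc_iff`). Let `l` be the unknotted lower half over `v` of
`exists_lu_h` and `r` the unknotted upper half over `v + dsp π` of `exists_uu_h`; they fit (the ends of the strands fit). `FLw H a v l` is
unknotted (`lu_fl`), so `gl (vf H v) (FLw H a v l) s` is unknotted (`lu_gl`), and it is
`glu (vf H v) (FLw H a v l) (FPr H a v π) = FLw H (a + π.1.sum.2.1) (v + dsp π) (glu v l π)` (`hgl`, `fl_glu`). `FUp H (a + π.1.sum.2.1) r` is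
unknotted (`uu_fu`), so the polygon of these two halves is unknotted (`unknotted_halves`), and by `fh` the polygon
`ring (r ++ glu v l π)` is unknotted. So `glu v l π` is an unknotted lower half (`lu_iff`), and `π` is `Unk v` (see the private
`ct_unk` in `KComp/Count.lean`: `LU.shift`, `unk_lu`), a contradiction. -/
theorem mark_f (hk : Kn v π) (hf : FitP H a v π) (hs : GC (vf H v) s)
    (he : ed (vf H v) s = vf H (v + dsp π))
    (hgl : ∀ l, gl (vf H v) l s = glu (vf H v) l (FPr H a v π)) : mk (vf H v) s ≠ [] := by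
  intro hmk
  have hU : UC (vf H v) s := (uc_iff hs).2 hmk
  have hg := hk.1
  have hne' : v + dsp π ≠ 0 := KComp.Kn.ne' hk
  have s1 := hf.1.start
  have s2 := hf.2.start
  have t1 := hf.1.stop
  have t2 := hf.2.stop
  have ev : a + π.1.sum.2.1 + (v + dsp π).2 = a + v.2 + π.2.sum.2.1 := by
    simp only [dsp, hz, Prod.snd_add, Prod.snd_sub]
    ring
  obtain ⟨l, hl, lh⟩ := exists_lu_h hg.ne
  obtain ⟨r, hr, rh⟩ := exists_uu_h hne'
  have fl : Fits H a l := mf_fits lh s1 s2
  have fr : Fits H (a + π.1.sum.2.1) r := mf_fits rh t1 (by rw [ev]; exact t2)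
  have h2 := KTop.lu_gl hU (lu_fl hl fl)
  rw [he, hgl, ← fl_glu (Geo0.of_geo hg) hf hl.2.1 fl] at h2
  have h3 := unknotted_halves (uu_fu hr fr) h2
  have hL := KTop.lower_glu hg hl.2.1
  have h4 := (fh hne' hr.2.1 hL fr (fits_glu hf fl)).2.2.unknotted h3
  exact hk.2 (mf_unk hg hl.2.1 ((lu_iff hr hL).2 h4))

/-- PROOF. Let `m ∈ mk v s`: `s = s1 ++ m.2 :: s2` and `m.1 = ed v s1` (induction on `s`). By `nrm_dsp_le` `nrm (dsp ρ) ≤ nh ρ`, so
`nrm v ≤ nrm m.1 + (s1.map nh).sum`, and `(s1.map nh).sum + nh m.2 ≤ (s.map nh).sum < nrm v`. -/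
theorem mark_far (hs : GC v s) (h : (s.map nh).sum < nrm v) :
    ∀ m ∈ mk v s, nh m.2 < nrm m.1 ∧ m.2 ∈ s := by
  induction s generalizing v with
  | nil =>
    intro m hm
    simp [mk] at hm
  | cons π s ih =>
    intro m hm
    rw [List.map_cons, List.sum_cons] at h
    have h1 : nrm (dsp π) ≤ nh π := nrm_dsp_le hs.1.stA hs.1.stB
    have h2 : nrm v ≤ nrm (v + dsp π) + nrm (dsp π) := by
      unfold nrm
      simp only [Prod.fst_add, Prod.snd_add]
      omega
    have ih' := ih hs.2 (by omega)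
    rw [mk_cons] at hm
    split_ifs at hm with hu
    · exact ⟨(ih' m hm).1, List.mem_cons_of_mem _ (ih' m hm).2⟩
    · rcases List.mem_cons.1 hm with rfl | hm
      · exact ⟨by simp only; omega, List.mem_cons_self⟩
      · exact ⟨(ih' m hm).1, List.mem_cons_of_mem _ (ih' m hm).2⟩

theorem mk_mem {m : (ℤ × ℤ) × PP} (h : m ∈ mk v s) : m.2 ∈ s := by
  induction s generalizing v with
  | nil => simp [mk] at h
  | cons π s ih =>
    rw [mk_cons] at h
    split_ifs at h with hu
    · exact List.mem_cons_of_mem _ (ih h)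
    · rcases List.mem_cons.1 h with rfl | h
      · exact List.mem_cons_self
      · exact List.mem_cons_of_mem _ (ih h)

end Pool.Agent.KFlat
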