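import Pool.Agent.KFlat.Stp

/-! FB6: the flattened walk is self-avoiding. -/

set_option autoImplicit false

open Pool.Agent.LK

namespace Pool.Agent.KFlat

open Pool.Agent.KTube Pool.Agent.KRing Pool.Agent.KLog
open Pool.Agent.LatticeTube (pedges mem_pedges mem_of_mem_pedges)

private theorem wk_app (p : P3) (s t : List P3) :
    wk p (s ++ t) = wk p s ++ (wk (p + s.sum) t).tail := by
  induction s generalizing p with
  | nil =>
    rw [List.nil_append, List.sum_nil, add_zero, wk_nil]
    cases t <;> rfl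
  | cons d s ih =>
    rw [List.cons_append, wk_cons, wk_cons, ih, List.sum_cons, add_assoc, List.cons_append]

private theorem wk_ht (p : P3) (s : List P3) : wk p s = p :: (wk p s).tail := by
  cases s <;> rfl

private theorem vv_fx (H : ℕ) (b c : Bool) (p : P3) : VV H b p + (fx b c).sum = VV H c p := by
  rw [sum_fx]
  refine Prod.ext ?_ (Prod.ext ?_ ?_)
  · simp [VV]
  · simp [VV]
  · simp [VV]

private theorem fx_mem (H : ℕ) (b c : Bool) (p : P3) :
    ∀ q ∈ wk (VV H b p) (fx b c), q ∈ VP H p := by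
  intro q hq
  cases b <;> cases c <;> simp [fx, VV, lb] at hq <;> simp [VP] <;>
    (try rcases hq with rfl | rfl) <;> simp

private theorem fx_nodup (H : ℕ) (b c : Bool) (p : P3) : (wk (VV H b p) (fx b c)).Nodup := by
  cases b <;> cases c <;> simp [fx, VV, lb]

private theorem fw_len {H : ℕ} {y : ℤ} {d : P3} (hd : IsStep d) (h0 : 0 ≤ y) (h1 : y ≤ H) :
    3 ≤ (fw H y d).length := by
  rcases step_cases hd with rfl | rfl | rfl | rfl | rfl | rfl <;>
    simp [fw, rp, mH] <;> omega

/-- The parts of the walk before the rest. -/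
private theorem gw_cons {H : ℕ} {p d : P3} {w : List P3} {b c : Bool} {I : List P3}
    (hI : wk (VV H (ou d) p) (fw H p.2.1 d) = VV H (ou d) p :: (I ++ [VV H (!ou d) (p + d)])) :
    wk (VV H b p) (GW H p.2.1 b (d :: w) c) = wk (VV H b p) (fx b (ou d)) ++
      (I ++ wk (VV H (!ou d) (p + d)) (GW H (p + d).2.1 (!ou d) w c)) := by
  have h1 : VV H (ou d) p + (fw H p.2.1 d).sum = VV H (!ou d) (p + d) := by
    have h2 := last_wk (VV H (ou d) p) (fw H p.2.1 d)
    rw [hI, List.getLast?_cons, List.getLast?_concat, Option.getD_some, Option.some.injEq] at h2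
    exact h2.symm
  have h3 : GW H p.2.1 b (d :: w) c = fx b (ou d) ++ (fw H p.2.1 d ++
      GW H (p + d).2.1 (!ou d) w c) := rfl
  rw [h3, wk_app, vv_fx, wk_app (VV H (ou d) p), h1, hI]
  congr 1
  rw [List.cons_append, List.tail_cons, List.append_assoc]
  congr 1
  rw [List.singleton_append, ← wk_ht]

variable {H : ℕ} {p : P3} {w : List P3} {b c : Bool}

/-- Induction on `w` (for all `p`, `b`). `w = []`: one or two points over the column of `p`. `w = d :: w'`: the walk is
`wk (VV H b p) (fx b (ou d))` (the points `VV H b p`, and `VV H (ou d) p` if `b ≠ ou d`), then the list `I` of `fw_walk` for the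
edge `s(p, p + d)`, then the walk of `w'` from `VV H (!ou d) (p + d)`. The points of the last walk are over columns of vertices
`u ∈ wk (p + d) w'` (different from `p`) or inside new edges of `pedges (wk (p + d) w')` (different from `s(p, p + d)`, because
`p` is not a vertex of that walk), so by `dj_vv`, `dj_ve`, `dj_ee` they are different from the points before. (The edge
`s(u, u + Ax.v a)` determines `u` and `a`.) -/
theorem gw_nodup (hw : Steps w) (hn : (wk p w).Nodup) (hh : ∀ q ∈ wk p w, 0 ≤ q.2.1 ∧ q.2.1 ≤ H) :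
    (wk (VV H b p) (GW H p.2.1 b w c)).Nodup ∧
    ∀ q ∈ wk (VV H b p) (GW H p.2.1 b w c), (∃ u ∈ wk p w, q ∈ VP H u) ∨
      (∃ u a, s(u, u + Ax.v a) ∈ pedges (wk p w) ∧ q ∈ EP H u a) := by
  induction w generalizing p b with
  | nil =>
    refine ⟨fx_nodup H b c p, fun q hq => Or.inl ⟨p, List.mem_singleton.2 rfl, ?_⟩⟩
    exact fx_mem H b c p q hq
  | cons d w ih =>
    have hp := hh p (by rw [wk_cons]; exact List.mem_cons_self)
    have hh' : ∀ q ∈ wk (p + d) w, 0 ≤ q.2.1 ∧ q.2.1 ≤ H := fun q hq =>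
      hh q (by rw [wk_cons]; exact List.mem_cons_of_mem _ hq)
    have hpd : 0 ≤ (p + d).2.1 ∧ (p + d).2.1 ≤ H := hh' (p + d) (by
      rw [wk_ht]; exact List.mem_cons_self)
    have hn' := hn
    rw [wk_cons, List.nodup_cons] at hn'
    obtain ⟨u, a, I, hu, hu0, hu1, hI, hIn, hIE, -⟩ :=
      fw_walk hw.cons.1 hp.1 hp.2 hpd.1 hpd.2
    obtain ⟨ih1, ih2⟩ := ih (p := p + d) (b := !ou d) hw.cons.2 hn'.2 hh'
    have hed : ∀ e ∈ pedges (wk (p + d) w), e ∈ pedges (wk p (d :: w)) := by
      intro e he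
      rw [wk_cons, wk_ht (p + d) w, LatticeTube.pedges]
      rw [wk_ht (p + d) w] at he
      exact Finset.mem_insert_of_mem he
    have hed0 : s(u, u + Ax.v a) ∈ pedges (wk p (d :: w)) := by
      rw [hu, wk_cons, wk_ht (p + d) w, LatticeTube.pedges]
      exact Finset.mem_insert_self _ _
    have hbd : ∀ (u' : P3) (a' : Ax), s(u', u' + Ax.v a') ∈ pedges (wk (p + d) w) →
        0 ≤ u'.2.1 ∧ u'.2.1 + (Ax.v a').2.1 ≤ H := fun u' a' h =>
      ⟨(hh' u' (mem_of_mem_pedges h).1).1, (hh' _ (mem_of_mem_pedges h).2).2⟩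
    rw [gw_cons hI]
    constructor
    · rw [List.nodup_append, List.nodup_append]
      refine ⟨fx_nodup H b _ p, ⟨hIn, ih1, ?_⟩, ?_⟩
      · rintro x hx _ hy rfl
        have hxE := hIE x hx
        rcases ih2 x hy with ⟨u', hu', hq⟩ | ⟨u', a', hu', hq⟩
        · exact dj_ve hu0 hu1 (hh' u' hu').1 (hh' u' hu').2 hxE hq
        · obtain ⟨b0, b1⟩ := hbd u' a' hu'
          obtain ⟨rfl, rfl⟩ := dj_ee hu0 hu1 b0 b1 hxE hq
          rw [hu] at hu'
          exact hn'.1 (mem_of_mem_pedges hu').1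
      · rintro x hx y hy rfl
        have hxV := fx_mem H b _ p x hx
        rcases List.mem_append.1 hy with hy | hy
        · exact dj_ve hu0 hu1 hp.1 hp.2 (hIE x hy) hxV
        · rcases ih2 x hy with ⟨u', hu', hq⟩ | ⟨u', a', hu', hq⟩
          · have := dj_vv hp.1 hp.2 (hh' u' hu').1 (hh' u' hu').2 hxV hq
            subst this
            exact hn'.1 hu'
          · obtain ⟨b0, b1⟩ := hbd u' a' hu'
            exact dj_ve b0 b1 hp.1 hp.2 hq hxV
    · intro q hq
      rw [List.mem_append, List.mem_append] at hq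
      rcases hq with hq | hq | hq
      · exact Or.inl ⟨p, by rw [wk_cons]; exact List.mem_cons_self, fx_mem H b _ p q hq⟩
      · exact Or.inr ⟨u, a, hed0, hIE q hq⟩
      · rcases ih2 q hq with ⟨u', hu', hq⟩ | ⟨u', a', hu', hq⟩
        · exact Or.inl ⟨u', by rw [wk_cons]; exact List.mem_cons_of_mem _ hu', hq⟩
        · exact Or.inr ⟨u', a', hed _ hu', hq⟩

/-- PROOF. `w = w' ++ [d]` (`w ≠ []`), `lay w = !ou d`, `wk p w = wk p w' ++ [p]`, and `wk p w'` is a rotation of `(wk p w).tail`
(`wk p w' = p :: (wk p w').tail`, `(wk p w).tail = (wk p w').tail ++ [p]`), so it is without repetition. By `gw_append` (with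
`t = []`) `GW H y b w b = GW H y b w' (ou d) ++ (fw H (y + w'.sum.2.1) d ++ fx (!ou d) b)` and `fx (!ou d) b = []` for
`b = lay w`. So `(wk P (GW ..)).tail = (wk P (GW H y b w' (ou d))).tail ++ I ++ [P]`, `P = VV H b p`, where `I` is the list of
`fw_walk` for the edge `s(q, p)`, `q = p + w'.sum` the last point of `wk p w'`. It is without repetition by `gw_nodup` for `w'`,
`dj_ve`, `dj_ee` (the edge `s(q, p)` is not an edge of `wk p w'`, as this walk has at least three points and no repetition). It has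
at least three points, is a chain (`chain_wk`, `steps_gw`), and its last point `P` is adjacent to the first one (the second point
of `wk P ..`; `sum_gw` gives that the walk is closed). -/
theorem ring_flat (h : Clo H p w) :
    Ring (wk (VV H (lay w) p) (GW H p.2.1 (lay w) w (lay w))).tail ∧
      (GW H p.2.1 (lay w) w (lay w)).sum = 0 := by
  have hne : w ≠ [] := by
    rintro rfl
    have h1 := h.ring.three
    simp at h1
  obtain ⟨w', d, rfl⟩ : ∃ w' d, w = w' ++ [d] :=
    ⟨w.dropLast, w.getLast hne, (List.dropLast_append_getLast hne).symm⟩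
  have hsum : p + w'.sum + d = p := by
    have h1 := h.sum
    rw [List.sum_append, List.sum_singleton] at h1
    rw [add_assoc, h1, add_zero]
  have hwk : wk p (w' ++ [d]) = wk p w' ++ [p] := by
    rw [wk_app, wk_cons, wk_nil, List.tail_cons, hsum]
  have htl : (wk p (w' ++ [d])).tail = (wk p w').tail ++ [p] := by
    rw [hwk, wk_ht p w', List.cons_append, List.tail_cons, List.tail_cons]
  have hst : Steps (w' ++ [d]) := by
    refine (chain_wk (p := p)).1 ?_
    rw [wk_ht, List.isChain_cons]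
    refine ⟨?_, h.ring.chain⟩
    intro v hv
    refine h.ring.close p ?_ v hv
    rw [htl, List.getLast?_concat]
    rfl
  have hst' : Steps w' ∧ IsStep d := ⟨hst.append.1, hst.append.2.cons.1⟩
  have hn' : (wk p w').Nodup := by
    have h1 := h.ring.nodup
    rw [htl] at h1
    have h2 := (List.perm_append_singleton p (wk p w').tail).nodup_iff.1 h1
    rw [wk_ht]
    exact h2
  have hh' : ∀ q ∈ wk p w', 0 ≤ q.2.1 ∧ q.2.1 ≤ H := fun q hq =>
    h.ht q (by rw [hwk]; exact List.mem_append_left _ hq)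
  have hlay : lay (w' ++ [d]) = !ou d := by
    unfold lay
    rw [List.getLastD_concat]
  have hp := hh' p (by rw [wk_ht]; exact List.mem_cons_self)
  have hqm : p + w'.sum ∈ wk p w' := mem_wk.2 ⟨w', [], (List.append_nil _).symm, rfl⟩
  have hq := hh' _ hqm
  have hqd : 0 ≤ (p + w'.sum).2.1 + d.2.1 ∧ (p + w'.sum).2.1 + d.2.1 ≤ H := by
    have h1 : (p + w'.sum).2.1 + d.2.1 = p.2.1 := congrArg (fun x : P3 => x.2.1) hsum
    rw [h1]
    exact hp
  have hHt : HtW H p.2.1 (w' ++ [d]) := (htw_iff p).1 h.ht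
  obtain ⟨u, a, I, hu, hu0, hu1, hI, hIn, hIE, -⟩ :=
    fw_walk hst'.2 hq.1 hq.2 hqd.1 hqd.2
  rw [hsum] at hu hI
  have hG : GW H p.2.1 (lay (w' ++ [d])) (w' ++ [d]) (lay (w' ++ [d])) =
      GW H p.2.1 (!ou d) w' (ou d) ++ fw H (p + w'.sum).2.1 d := by
    rw [hlay, gw_append]
    have h1 : GW H (p.2.1 + w'.sum.2.1 + d.2.1) (!ou d) [] (!ou d) = [] := by
      change fx (!ou d) (!ou d) = []
      simp [fx]
    rw [h1, List.append_nil]
    rfl
  have hS : VV H (!ou d) p + (GW H p.2.1 (!ou d) w' (ou d)).sum = VV H (ou d) (p + w'.sum) := by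
    rw [sum_gw hst'.1 ((htw_iff p).1 hh')]
    refine Prod.ext ?_ (Prod.ext ?_ ?_)
    · simp only [VV, X0, Prod.fst_add, Prod.snd_add]
      ring
    · simp only [VV, Prod.fst_add, Prod.snd_add]
      ring
    · simp only [VV, Z0, Prod.fst_add, Prod.snd_add]
      ring
  have hW : wk (VV H (!ou d) p) (GW H p.2.1 (!ou d) w' (ou d) ++ fw H (p + w'.sum).2.1 d) =
      wk (VV H (!ou d) p) (GW H p.2.1 (!ou d) w' (ou d)) ++ (I ++ [VV H (!ou d) p]) := by
    rw [wk_app, hS, hI, List.tail_cons]
  obtain ⟨g1, g2⟩ := gw_nodup (b := !ou d) (c := ou d) hst'.1 hn' hh'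
  have hbd : ∀ (u' : P3) (a' : Ax), s(u', u' + Ax.v a') ∈ pedges (wk p w') →
      0 ≤ u'.2.1 ∧ u'.2.1 + (Ax.v a').2.1 ≤ H := fun u' a' h =>
    ⟨(hh' u' (mem_of_mem_pedges h).1).1, (hh' _ (mem_of_mem_pedges h).2).2⟩
  have hnod := nodup_wk.1 hn'
  have hnot : s(p + w'.sum, p) ∉ pedges (wk p w') := by
    intro h1
    obtain ⟨A, e, B, hAB, h2⟩ := mem_pedges_wk.1 h1
    rw [Sym2.eq_iff] at h2
    rcases h2 with ⟨-, h2⟩ | ⟨h3, h2⟩
    · have h4 : (A ++ [e]).sum = 0 := by
        rw [List.sum_append, List.sum_singleton]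
        rw [add_assoc] at h2
        exact left_eq_add.1 h2
      exact hnod [] (A ++ [e]) B (by rw [hAB]; simp) (by simp) h4
    · have h4 : A.sum = 0 := left_eq_add.1 h2
      have hA : A = [] := by
        by_contra hA
        exact hnod [] A (e :: B) (by rw [hAB]; rfl) hA h4
      subst hA
      rw [List.nil_append] at hAB
      have h5 : B.sum = 0 := by
        rw [hAB, List.sum_cons, List.sum_nil, add_zero, ← add_assoc] at h3
        exact add_eq_left.1 h3
      have hB : B = [] := by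
        by_contra hB
        exact hnod [e] B [] (by rw [hAB]; simp) hB h5
      have h6 := h.ring.three
      rw [hAB, hB, List.length_tail, length_wk] at h6
      simp at h6
  have hdis : ∀ x ∈ wk (VV H (!ou d) p) (GW H p.2.1 (!ou d) w' (ou d)), x ∉ I := by
    intro x hx hxI
    rcases g2 x hx with ⟨u', hu', hq'⟩ | ⟨u', a', hu', hq'⟩
    · exact dj_ve hu0 hu1 (hh' u' hu').1 (hh' u' hu').2 (hIE x hxI) hq'
    · obtain ⟨b0, b1⟩ := hbd u' a' hu'
      obtain ⟨rfl, rfl⟩ := dj_ee hu0 hu1 b0 b1 (hIE x hxI) hq'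
      rw [hu] at hu'
      exact hnot hu'
  have hall : (wk (VV H (!ou d) p) (GW H p.2.1 (!ou d) w' (ou d)) ++ I).Nodup := by
    rw [List.nodup_append]
    refine ⟨g1, hIn, ?_⟩
    rintro x hx y hy rfl
    exact hdis x hx hy
  have hch : (wk (VV H (!ou d) p)
      (GW H p.2.1 (!ou d) w' (ou d) ++ fw H (p + w'.sum).2.1 d)).IsChain Adj := by
    rw [chain_wk, ← hG]
    exact steps_gw _ _ _ _ _
  have htl2 : (wk (VV H (!ou d) p)
      (GW H p.2.1 (!ou d) w' (ou d) ++ fw H (p + w'.sum).2.1 d)).tail =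
      (wk (VV H (!ou d) p) (GW H p.2.1 (!ou d) w' (ou d))).tail ++ I ++ [VV H (!ou d) p] := by
    rw [hW, wk_ht _ (GW H p.2.1 (!ou d) w' (ou d)), List.cons_append, List.tail_cons,
      List.tail_cons, List.append_assoc]
  refine ⟨?_, ?_⟩
  · rw [hG, hlay]
    refine ⟨?_, ?_, ?_, ?_⟩
    · rw [List.length_tail, length_wk, List.length_append]
      have := fw_len hst'.2 hq.1 hq.2
      omega
    · rw [htl2]
      refine (List.perm_append_singleton _ _).nodup_iff.2 ?_
      rw [← List.cons_append, ← wk_ht]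
      exact hall
    · exact hch.tail
    · rw [wk_ht, List.isChain_cons] at hch
      intro x hx y hy
      rw [htl2, List.getLast?_concat, Option.mem_def, Option.some.injEq] at hx
      rw [← hx]
      exact hch.1 y hy
  · rw [sum_gw hst hHt, h.sum]
    simp

end Pool.Agent.KFlat
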