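import Pool.Agent.KFlat.DefsA

/-! FA1: pushing along the second coordinate. -/

set_option autoImplicit false

open Set

namespace Pool.Agent.KFlat

open Pool.Agent.LK

/-- PROOF. If `ι` is empty take the identity. Put `N a b s = L * max |a| |b| + max (κ * s) (Λ * s)` (subadditive in `(a, b, s)`;
`N 0 0 s ≥ κ s` and `N 0 0 s ≥ Λ s`; `N 0 0 0 = 0`), and `F i (x, y, z) = e i + N (x - (P i).1) (z - (P i).2) (y - h i)`.
For a fixed `j` the values `F i q` are bounded below by `e j - N ((P j).1 - x) ((P j).2 - z) (h j - y)` (the hypothesis for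
`(j, i)` and subadditivity). Let `f q = ⨅ i, F i q`. Then:
`f (P j, h j) = e j` (`≤`: `i = j`; `≥`: the hypothesis says `e j ≤ F i (P j, h j)`);
`f (x', y', z') ≤ f (x, y, z) + N (x' - x) (z' - z) (y' - y)` (for each `i`, subadditivity), so `f` is Lipschitz, hence
continuous, and for `y ≤ y'` one has `κ (y' - y) ≤ f (x, y', z) - f (x, y, z) ≤ Λ (y' - y)` (the lower bound is the inequality
with the two points exchanged, `max (κ s) (Λ s) = κ s` for `s ≤ 0`). So for all `x, z` the map `y ↦ f (x, y, z)` is a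
strictly increasing continuous bijection of `ℝ`, and `Φ (x, y, z) = (x, f (x, y, z), z)` is a continuous bijection of `R3`
whose inverse is Lipschitz: if `Φ q = q₁`, `Φ q' = q₁'` then
`κ |y - y'| ≤ |f (x, y, z) - f (x, y', z)| ≤ |y₁ - y₁'| + L max |x - x'| |z - z'|`. (Build the `Homeomorph` with
`Equiv.ofBijective` and `Homeomorph.homeomorphOfContinuousOpen`, or give the inverse and prove that it is Lipschitz.) -/
theorem push {ι : Type*} (P : ι → ℝ × ℝ) (h e : ι → ℝ) {L κ Λ : ℝ} (hL : 0 ≤ L) (hκ : 0 < κ)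
    (hκΛ : κ ≤ Λ)
    (hle : ∀ i j, e i - e j ≤ L * max |(P i).1 - (P j).1| |(P i).2 - (P j).2| +
      max (κ * (h i - h j)) (Λ * (h i - h j))) :
    ∃ φ : R3 ≃ₜ R3, ∀ i, φ ((P i).1, h i, (P i).2) = ((P i).1, e i, (P i).2) := by
  rcases isEmpty_or_nonempty ι with hι | hι
  · exact ⟨Homeomorph.refl _, fun i => (hι.false i).elim⟩
  let N : ℝ → ℝ → ℝ → ℝ := fun a b s => L * max |a| |b| + max (κ * s) (Λ * s)
  have hN : ∀ a b s, N a b s = L * max |a| |b| + max (κ * s) (Λ * s) := fun _ _ _ => rfl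
  have hsub : ∀ a b s a' b' s', N (a + a') (b + b') (s + s') ≤ N a b s + N a' b' s' := by
    intro a b s a' b' s'
    rw [hN, hN, hN]
    have h1 : max |a + a'| |b + b'| ≤ max |a| |b| + max |a'| |b'| := by
      refine max_le ?_ ?_
      · exact (abs_add_le a a').trans (add_le_add (le_max_left _ _) (le_max_left _ _))
      · exact (abs_add_le b b').trans (add_le_add (le_max_right _ _) (le_max_right _ _))
    have h2 : max (κ * (s + s')) (Λ * (s + s')) ≤
        max (κ * s) (Λ * s) + max (κ * s') (Λ * s') := by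
      refine max_le ?_ ?_
      · rw [mul_add]
        exact add_le_add (le_max_left _ _) (le_max_left _ _)
      · rw [mul_add]
        exact add_le_add (le_max_right _ _) (le_max_right _ _)
    have h3 := mul_le_mul_of_nonneg_left h1 hL
    rw [mul_add] at h3
    linarith
  let F : ι → R3 → ℝ := fun i q => e i + N (q.1 - (P i).1) (q.2.2 - (P i).2) (q.2.1 - h i)
  have hF : ∀ i q, F i q = e i + N (q.1 - (P i).1) (q.2.2 - (P i).2) (q.2.1 - h i) :=
    fun _ _ => rfl
  have hij : ∀ i j, e j - e i ≤ N ((P j).1 - (P i).1) ((P j).2 - (P i).2) (h j - h i) :=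
    fun i j => hle j i
  have hb : ∀ q, BddBelow (Set.range fun i => F i q) := by
    intro q
    obtain ⟨j⟩ := hι
    refine ⟨e j - N ((P j).1 - q.1) ((P j).2 - q.2.2) (h j - q.2.1), ?_⟩
    rintro _ ⟨i, rfl⟩
    have h1 := hsub ((P j).1 - q.1) ((P j).2 - q.2.2) (h j - q.2.1) (q.1 - (P i).1)
      (q.2.2 - (P i).2) (q.2.1 - h i)
    have h2 := hij i j
    have e1 : (P j).1 - q.1 + (q.1 - (P i).1) = (P j).1 - (P i).1 := by ring
    have e2 : (P j).2 - q.2.2 + (q.2.2 - (P i).2) = (P j).2 - (P i).2 := by ring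
    have e3 : h j - q.2.1 + (q.2.1 - h i) = h j - h i := by ring
    rw [e1, e2, e3] at h1
    simp only [hF]
    linarith
  let f : R3 → ℝ := fun q => ⨅ i, F i q
  have hf0 : ∀ i q, f q ≤ F i q := fun i q => ciInf_le (hb q) i
  have hf1 : ∀ j, f ((P j).1, h j, (P j).2) = e j := by
    intro j
    refine le_antisymm ?_ ?_
    · refine (hf0 j _).trans ?_
      rw [hF]
      simp only [sub_self, hN]
      simp
    · refine le_ciInf fun i => ?_
      have h1 := hij i j
      rw [hF]
      simp only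
      linarith
  have hf2 : ∀ q q' : R3, f q' ≤ f q + N (q'.1 - q.1) (q'.2.2 - q.2.2) (q'.2.1 - q.2.1) := by
    intro q q'
    rw [← sub_le_iff_le_add]
    refine le_ciInf fun i => ?_
    rw [sub_le_iff_le_add]
    refine (hf0 i _).trans ?_
    rw [hF, hF]
    have h1 := hsub (q.1 - (P i).1) (q.2.2 - (P i).2) (q.2.1 - h i) (q'.1 - q.1)
      (q'.2.2 - q.2.2) (q'.2.1 - q.2.1)
    have e1 : q.1 - (P i).1 + (q'.1 - q.1) = q'.1 - (P i).1 := by ring
    have e2 : q.2.2 - (P i).2 + (q'.2.2 - q.2.2) = q'.2.2 - (P i).2 := by ring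
    have e3 : q.2.1 - h i + (q'.2.1 - q.2.1) = q'.2.1 - h i := by ring
    rw [e1, e2, e3] at h1
    linarith
  have hΛ : 0 < Λ := lt_of_lt_of_le hκ hκΛ
  -- the growth in the second coordinate
  have hgrow : ∀ x y y' z : ℝ, y ≤ y' → κ * (y' - y) ≤ f (x, y', z) - f (x, y, z) := by
    intro x y y' z hy
    have h1 := hf2 (x, y', z) (x, y, z)
    rw [hN] at h1
    simp only [sub_self, abs_zero, max_self, mul_zero, zero_add] at h1
    have h2 : max (κ * (y - y')) (Λ * (y - y')) = κ * (y - y') := by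
      refine max_eq_left ?_
      nlinarith
    rw [h2] at h1
    nlinarith
  -- the Lipschitz condition
  have hdist : ∀ q q' : R3, |q'.1 - q.1| ≤ dist q' q ∧ |q'.2.1 - q.2.1| ≤ dist q' q ∧
      |q'.2.2 - q.2.2| ≤ dist q' q := by
    intro q q'
    rw [Prod.dist_eq, Prod.dist_eq, Real.dist_eq, Real.dist_eq, Real.dist_eq]
    exact ⟨le_max_left _ _, (le_max_left _ _).trans (le_max_right _ _),
      (le_max_right _ _).trans (le_max_right _ _)⟩
  have hlip : LipschitzWith ⟨L + Λ, by positivity⟩ f := by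
    refine LipschitzWith.of_le_add_mul _ fun q' q => ?_
    refine (hf2 q q').trans ?_
    obtain ⟨h1, h2, h3⟩ := hdist q q'
    rw [hN]
    have h4 : max |q'.1 - q.1| |q'.2.2 - q.2.2| ≤ dist q' q := max_le h1 h3
    have h5 : max (κ * (q'.2.1 - q.2.1)) (Λ * (q'.2.1 - q.2.1)) ≤ Λ * dist q' q := by
      have h6 : q'.2.1 - q.2.1 ≤ dist q' q := (le_abs_self _).trans h2
      have h7 : (0 : ℝ) ≤ dist q' q := dist_nonneg
      refine max_le ?_ ?_
      · exact (mul_le_mul_of_nonneg_left h6 hκ.le).trans (mul_le_mul_of_nonneg_right hκΛ h7)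
      · exact mul_le_mul_of_nonneg_left h6 hΛ.le
    have h6 := mul_le_mul_of_nonneg_left h4 hL
    change _ ≤ f q + (L + Λ) * dist q' q
    linarith
  let Φ : R3 → R3 := fun q => (q.1, f q, q.2.2)
  have hΦc : Continuous Φ :=
    continuous_fst.prodMk (hlip.continuous.prodMk (continuous_snd.comp continuous_snd))
  -- the lower bound
  have hanti : ∀ q q' : R3, dist q q' ≤ (1 + (1 + L) / κ) * dist (Φ q) (Φ q') := by
    intro q q'
    have hD : ∀ p p' : R3, dist p p' = max |p.1 - p'.1| (max |p.2.1 - p'.2.1| |p.2.2 - p'.2.2|) := by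
      intro p p'
      rw [Prod.dist_eq, Prod.dist_eq, Real.dist_eq, Real.dist_eq, Real.dist_eq]
    obtain ⟨D, hDD⟩ : ∃ D, D = dist (Φ q) (Φ q') := ⟨_, rfl⟩
    rw [← hDD]
    have hD0 : 0 ≤ D := hDD ▸ dist_nonneg
    have a1 : |q.1 - q'.1| ≤ D := by
      rw [hDD, hD]
      exact le_max_left _ _
    have a2 : |f q - f q'| ≤ D := by
      rw [hDD, hD]
      exact (le_max_left _ _).trans (le_max_right _ _)
    have a3 : |q.2.2 - q'.2.2| ≤ D := by
      rw [hDD, hD]
      exact (le_max_right _ _).trans (le_max_right _ _)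
    -- change of the plane coordinates
    have a4 : |f (q.1, q'.2.1, q.2.2) - f q'| ≤ L * D := by
      have b1 := hf2 q' (q.1, q'.2.1, q.2.2)
      have b2 := hf2 (q.1, q'.2.1, q.2.2) q'
      rw [hN] at b1 b2
      simp only [sub_self, mul_zero, max_self, add_zero] at b1 b2
      have b3 : max |q.1 - q'.1| |q.2.2 - q'.2.2| ≤ D := max_le a1 a3
      have b4 : max |q'.1 - q.1| |q'.2.2 - q.2.2| ≤ D := by
        rw [abs_sub_comm, abs_sub_comm q'.2.2]
        exact b3
      have b5 := mul_le_mul_of_nonneg_left b3 hL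
      have b6 := mul_le_mul_of_nonneg_left b4 hL
      rw [abs_le]
      constructor <;> linarith
    have a5 : κ * |q.2.1 - q'.2.1| ≤ |f q - f (q.1, q'.2.1, q.2.2)| := by
      rcases le_total q.2.1 q'.2.1 with hc | hc
      · have b1 := hgrow q.1 q.2.1 q'.2.1 q.2.2 hc
        rw [abs_sub_comm, abs_of_nonneg (sub_nonneg.2 hc), abs_sub_comm]
        exact b1.trans (le_abs_self _)
      · have b1 := hgrow q.1 q'.2.1 q.2.1 q.2.2 hc
        rw [abs_of_nonneg (sub_nonneg.2 hc)]
        exact b1.trans (le_abs_self _)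
    have a6 : |f q - f (q.1, q'.2.1, q.2.2)| ≤ |f q - f q'| + |f (q.1, q'.2.1, q.2.2) - f q'| := by
      have b1 := abs_sub_le (f q) (f q') (f (q.1, q'.2.1, q.2.2))
      rwa [abs_sub_comm (f q')] at b1
    have a7 : |q.2.1 - q'.2.1| ≤ (1 + L) / κ * D := by
      rw [div_mul_eq_mul_div, le_div_iff₀ hκ]
      nlinarith
    have a8 : 0 ≤ (1 + L) / κ := by positivity
    have a9 : 0 ≤ (1 + L) / κ * D := mul_nonneg a8 hD0
    rw [hD]
    refine max_le ?_ (max_le ?_ ?_)
    · nlinarith
    · nlinarith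
    · nlinarith
  have hanti' : AntilipschitzWith ⟨1 + (1 + L) / κ, by positivity⟩ Φ :=
    AntilipschitzWith.of_le_mul_dist hanti
  have hsurj : Function.Surjective Φ := by
    rintro ⟨x, y, z⟩
    have hc : Continuous fun t : ℝ => f (x, t, z) :=
      hlip.continuous.comp (continuous_const.prodMk (continuous_id.prodMk continuous_const))
    have h1 : Filter.Tendsto (fun t : ℝ => f (x, t, z)) Filter.atTop Filter.atTop := by
      refine Filter.tendsto_atTop.2 fun b => ?_
      refine Filter.eventually_atTop.2 ⟨max 0 ((b - f (x, 0, z)) / κ), fun t ht => ?_⟩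
      have h2 : 0 ≤ t := (le_max_left _ _).trans ht
      have h3 := hgrow x 0 t z h2
      have h4 := (le_max_right _ _).trans ht
      rw [div_le_iff₀ hκ] at h4
      nlinarith
    have h2 : Filter.Tendsto (fun t : ℝ => f (x, t, z)) Filter.atBot Filter.atBot := by
      refine Filter.tendsto_atBot.2 fun b => ?_
      refine Filter.eventually_atBot.2 ⟨min 0 (-((f (x, 0, z) - b) / κ)), fun t ht => ?_⟩
      have h2 : t ≤ 0 := ht.trans (min_le_left _ _)
      have h3 := hgrow x t 0 z h2
      have h4 : (f (x, 0, z) - b) / κ ≤ -t := by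
        have := ht.trans (min_le_right _ _)
        linarith
      rw [div_le_iff₀ hκ] at h4
      nlinarith
    obtain ⟨t, ht⟩ := hc.surjective h1 h2 y
    exact ⟨(x, t, z), by
      change (x, f (x, t, z), z) = (x, y, z)
      rw [show f (x, t, z) = y from ht]⟩
  let E : R3 ≃ R3 := Equiv.ofBijective Φ ⟨hanti'.injective, hsurj⟩
  refine ⟨⟨E, hΦc, ?_⟩, fun i => ?_⟩
  · exact (hanti'.to_rightInverse (g := E.symm) E.right_inv).continuous
  · change ((P i).1, f ((P i).1, h i, (P i).2), (P i).2) = _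
    rw [hf1]

end Pool.Agent.KFlat
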