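import Pool.Agent.KFlat.ChainF
import Pool.Agent.KFlat.CountP
import Pool.Agent.KSlab.YLim
import Pool.Agent.KTop.Loop

/-! FB15: every type is realised by far knotted blocks in two layers. -/

set_option autoImplicit false

open Pool.Agent.LK

namespace Pool.Agent.KFlat

open Pool.Agent.KTube Pool.Agent.KRing Pool.Agent.KLog
open Pool.Agent.KAsym (ln)
open Pool.Agent.KAmp (gl)
open Pool.Agent.KTop (GC UC ed ash TypeN Rz)
open Pool.Agent.KComp (Kn mk)
open Pool.Agent.KSlab (II CB KnF WT RealW)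

/-- A pair of words in the layers `0`, `1` is in every slab with at least two layers: the numbers `i.1`, `i.2`, `j.1`, `j.2` are `0` or `1`
(the first and the last points of the walks are in the lists). -/
theorem cb_of_cl {ρ : PP} {i j : ℤ × ℤ} (h : CL i j ρ) {M : ℕ} (hM : 1 ≤ M) :
    ∃ i' j' : II M, CB i' j' ρ := by
  have h1 := h.inA _ (List.mem_of_head? (head_wk _ _))
  have h2 := h.inB _ (List.mem_of_head? (head_wk _ _))
  have h3 := h.inA _ (List.mem_of_getLast? (last_wk _ _))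
  have h4 := h.inB _ (List.mem_of_getLast? (last_wk _ _))
  have eA := h.eA
  have eB := h.eB
  simp only [Prod.snd_add, Prod.fst_add] at h1 h2 h3 h4
  have hM' : (1 : ℤ) ≤ (M : ℤ) := by exact_mod_cast hM
  refine ⟨(⟨i.1.toNat, by omega⟩, ⟨i.2.toNat, by omega⟩),
    (⟨j.1.toNat, by omega⟩, ⟨j.2.toNat, by omega⟩), ?_, ?_, ?_, ?_⟩
  · intro q hq
    have h5 := h.inA q hq
    show 0 ≤ q.2.1 + ((i.1.toNat : ℕ) : ℤ) ∧ q.2.1 + ((i.1.toNat : ℕ) : ℤ) ≤ M
    omega
  · intro q hq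
    have h5 := h.inB q hq
    show 0 ≤ q.2.1 + ((i.2.toNat : ℕ) : ℤ) ∧ q.2.1 + ((i.2.toNat : ℕ) : ℤ) ≤ M
    omega
  · show ((i.1.toNat : ℕ) : ℤ) + ρ.1.sum.2.1 = ((j.1.toNat : ℕ) : ℤ)
    omega
  · show ((i.2.toNat : ℕ) : ℤ) + ρ.2.sum.2.1 = ((j.2.toNat : ℕ) : ℤ)
    omega

private theorem rl_brk (x : List Letter) : x.length = brk x + stp x := by
  induction x with
  | nil => rfl
  | cons c x ih =>
    cases c with
    | none => rw [List.length_cons, brk_none, stp_none, ih]; omega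
    | some d => rw [List.length_cons, brk_some, stp_some, ih]; omega

private theorem rl_len (π : PP) : nh π ≤ ln π := by
  have h : ln π = nv π + nh π + 2 := by
    unfold ln
    rw [← length_lets π.1, ← length_lets π.2, rl_brk, rl_brk]
    unfold nv nh
    omega
  omega

private theorem rl_nrm (W : ℕ) : nrm ((W : ℤ), (0 : ℤ)) = W := by
  simp [nrm]

private theorem rl_ne {W : ℕ} (hW : 0 < W) : (((W : ℤ), (0 : ℤ)) : ℤ × ℤ) ≠ 0 := by
  intro h
  have h1 : (W : ℤ) = 0 := congrArg Prod.fst h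
  omega

private theorem rl_nrm_vf (H W : ℕ) : ((nrm (vf H ((W : ℤ), (0 : ℤ))) : ℕ) : ℤ) = mH H * W := by
  have h0 := mH_pos H
  have h1 : (0 : ℤ) ≤ mH H * W := by positivity
  have e : vf H ((W : ℤ), (0 : ℤ)) = (mH H * W, 0) := by
    simp [vf]
  rw [e]
  simp only [nrm, Int.natAbs_zero, add_zero]
  exact Int.natAbs_of_nonneg h1

private theorem rl_vf_add (H : ℕ) (u v : ℤ × ℤ) : vf H u + vf H v = vf H (u + v) := by
  refine Prod.ext ?_ ?_
  · simp only [vf, Prod.fst_add, Prod.snd_add]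
    ring
  · simp [vf]

private theorem rl_lt {H W : ℕ} {n : ℕ} (h : 2 * n < W) :
    (mH H + 2) * (n : ℤ) < ((nrm (vf H ((W : ℤ), (0 : ℤ))) : ℕ) : ℤ) := by
  rw [rl_nrm_vf]
  have h0 : (2 : ℤ) ≤ mH H := by unfold mH; omega
  have h1 : (2 * (n : ℤ) + 1) ≤ W := by exact_mod_cast h
  have h2 : (0 : ℤ) ≤ n := Int.natCast_nonneg n
  nlinarith

private theorem rl_kn {π : PP} (h : KnF π) {W : ℕ} (hW : 2 * ln π < W) :
    Kn ((W : ℤ), (0 : ℤ)) π := by
  obtain ⟨v, h1, h2⟩ := h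
  have h3 := rl_len π
  exact (KComp.kn_far h1 (by rw [rl_nrm]; omega)).1 h2

private theorem rl_bound (w : List PP) : ∃ W : ℕ, 0 < W ∧ ∀ π ∈ w, 2 * ln π < W := by
  induction w with
  | nil => exact ⟨1, one_pos, fun π h => absurd h List.not_mem_nil⟩
  | cons π w ih =>
    obtain ⟨W, h0, h1⟩ := ih
    refine ⟨W + (2 * ln π + 1), by omega, fun ρ hρ => ?_⟩
    rcases List.mem_cons.1 hρ with rfl | h
    · omega
    · have := h1 ρ h
      omega

/-- A chain with the given far knotted blocks, all at the displacement `v`. Induction on `w`: `(v, π)`, then an unknotted chain from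
`v + dsp π ≠ 0` back to `v` (`KTop.exists_loop`); `mk_cons`, `mk_append`, `uc_iff`. -/
theorem exists_row {v : ℤ × ℤ} (hv : v ≠ 0) (w : List PP) (hw : ∀ π ∈ w, Kn v π) :
    ∃ s, GC v s ∧ ed v s = v ∧ mk v s = w.map fun π => (v, π) := by
  induction w with
  | nil => exact ⟨[], hv, KTop.ed_nil v, rfl⟩
  | cons π w ih =>
    obtain ⟨s2, h1, h2, h3⟩ := ih fun ρ hρ => hw ρ (List.mem_cons_of_mem _ hρ)
    have hk := hw π List.mem_cons_self
    obtain ⟨s1, -, h4, h5, -⟩ := KTop.exists_loop (v := v + dsp π) (w := v) hk.ne' hv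
    refine ⟨π :: (s1 ++ s2), ⟨hk.1, ?_⟩, ?_, ?_⟩
    · rw [KTop.gc_append, h5]
      exact ⟨h4.gc, h1⟩
    · rw [KTop.ed_cons, KTop.ed_append, h5, h2]
    · rw [KComp.mk_cons, if_neg hk.2, KComp.mk_append, h5, (KComp.uc_iff h4.gc).1 h4,
        List.nil_append, h3]
      rfl

/-- PROOF. Let `W : ℕ` be larger than all `2 * ln π`, `π ∈ w`, and `v = (W, 0)`. `Kn v π` for `π ∈ w` (`KComp.kn_far`: `nh π ≤ ln π < W = nrm v`).
Let `s` be the chain of `exists_row`, `l0`, `r0` unknotted lower halves over `v` (`exists_lu_h`), `U = flp r0`, `E = ring (U ++ gl v l0 s)`.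
`rz_mk` and `Rz.nil` give `Rz w v (gl v l0 s)` (far: `nh π < W`), and `typeN_iff` that `E` is of the type of `K`. Let `H`, `a` be as in
`exists_fit v s l0 U`, `t` as in `chain_f`, `m = mH H ≥ 2`, `v' = vf H v = (m W, 0)`, `l' = FLw H a v l0` (`LU`, `lu_fl`),
`U' = FUp H (a + (ash s).2) U` (`UU`, `uu_fu`, `UU_flp`). `fh` for `U` and `gl v l0 s` (a lower half over `ed v s = v`, `lower_gl`; it fits by
`chain_f`) says that `E' = ring (U' ++ gl v' l' t)` has the type of `E`, so of `K`. `KTen.Few N E'` (`KTen.hinv_few` or `typeClosed_few`),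
so `(mk v' t).length ≤ N = w.length = (mk v s).length` (`count_gc`), with equality by `chain_f`. The condition of the last part of `chain_f`:
`(m + 2) * ln π ≤ 2 m * ln π < m W = nrm (vf H v)`. So all marks of `t` are far. Let `w' = (mk v' t).map Prod.snd`. `rz_mk` gives
`Rz w' (ed v' t) (gl v' l' t)`, and `typeN_iff` with the lower half `flp U'` (`LU_flp`, `flp_flp`) gives `TypeN (SameType K) w'`. Each member
`ρ` of `w'` is `Kn m.1 ρ` with `nh ρ < nrm m.1` (`kn_of_mem_mk`), so `KnF ρ`, and it is a member of `t` (`mk_mem`), so it lies in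
two layers (`chain_f`, `cb_of_cl`). -/
theorem flat_real {K : Finset (Sym2 P3)} {N : ℕ} (hF : KTen.Few N K) {w : List PP}
    (hw : w ∈ WT (SameType K) N) :
    ∃ w' ∈ WT (SameType K) N, ∀ M : ℕ, 1 ≤ M → RealW M w' := by
  obtain ⟨hwN, hwT, hwK⟩ := hw
  obtain ⟨W, hW0, hW⟩ := rl_bound w
  have hv := rl_ne hW0
  set v : ℤ × ℤ := ((W : ℤ), (0 : ℤ)) with hvdef
  obtain ⟨s, hs, he, hmk⟩ := exists_row hv w fun π hπ => rl_kn (hwK π hπ) (hW π hπ)
  obtain ⟨l0, hl0, -⟩ := exists_lu_h hv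
  have hU0 : UU 0 0 v (flp l0) := UU_flp hl0
  have hmk' : (mk v s).map Prod.snd = w := by
    rw [hmk, List.map_map]
    exact List.map_id w
  have hfar : ∀ m ∈ mk v s, nh m.2 < nrm m.1 := by
    intro m hm
    rw [hmk] at hm
    obtain ⟨π, hπ, rfl⟩ := List.mem_map.1 hm
    have h1 := hW π hπ
    have h2 := rl_len π
    show nh π < nrm v
    rw [hvdef, rl_nrm]
    omega
  have hrz := KComp.rz_mk (Rz.nil hl0) hs hfar
  rw [List.nil_append, hmk', he] at hrz
  have hKE : SameType K (ring (flp l0 ++ gl v l0 s)) :=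
    (KTop.typeN_iff (typeClosed_type K) hrz hl0).2 hwT
  obtain ⟨H, a, hfit, fl, fr, ha0, ha1, ha2, ha3⟩ := exists_fit v s l0 (flp l0)
  obtain ⟨t, ht, hte, htg, htl, htc, htf⟩ := chain_f s a v hs hfit ha0 ha1 ha2 ha3
  obtain ⟨hg1, hg2⟩ := htg l0 hl0.2.1 fl
  rw [he] at hg1 hte
  have hL : Lower 0 0 v (gl v l0 s) := by
    have h1 := KTop.lower_gl hs hl0.2.1
    rwa [he] at h1
  obtain ⟨-, -, hEE⟩ := fh hv hU0.2.1 hL fr hg2
  rw [← hg1] at hEE
  have hL' : LU 0 0 (vf H v) (FLw H a v l0) := lu_fl hl0 fl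
  have hU' : UU 0 0 (vf H v) (FUp H (a + (ash s).2) (flp l0)) := uu_fu hU0 fr
  have hKE' := hKE.trans hEE
  have hF' := typeClosed_few N _ _ hKE' hF
  have hcnt : (mk (vf H v) t).length ≤ N := by
    refine count_gc hL'.2.1 ht ?_ hF'
    rw [hte]
    exact hU'
  have hlen : (mk v s).length = N := by
    rw [hmk, List.length_map, hwN]
  have hfar' := htf (by omega) (by
    intro m hm
    rw [hmk] at hm
    obtain ⟨π, hπ, rfl⟩ := List.mem_map.1 hm
    exact rl_lt (hW π hπ))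
  have hrz' := KComp.rz_mk (Rz.nil hL') ht hfar'
  rw [List.nil_append, hte] at hrz'
  have hTN : TypeN (SameType K) ((mk (vf H v) t).map Prod.snd) := by
    refine (KTop.typeN_iff (typeClosed_type K) hrz' (LU_flp hU')).1 ?_
    rw [flp_flp]
    exact hKE'
  have hKN : ∀ ρ ∈ (mk (vf H v) t).map Prod.snd, KnF ρ := by
    intro ρ hρ
    obtain ⟨m, hm, rfl⟩ := List.mem_map.1 hρ
    exact ⟨m.1, hfar' m hm, KComp.kn_of_mem_mk ht hm⟩
  refine ⟨(mk (vf H v) t).map Prod.snd, ⟨?_, hTN, hKN⟩, fun M hM ρ hρ => ⟨hKN ρ hρ, ?_⟩⟩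
  · rw [List.length_map]
    omega
  · obtain ⟨m, hm, rfl⟩ := List.mem_map.1 hρ
    obtain ⟨i, j, hij⟩ := htc m.2 (mk_mem hm)
    exact cb_of_cl hij hM

/-- PROOF. Let `W = 2 * ln π + 1`, `v = (W, 0)`; `Kn v π` (`KComp.kn_far`). Choose `H`, `a` (`exists_fit` for `s = [π]`, `l = r = []`); the chain `t`
of `split_full` for `FPr H a v π` (`geo0_fpr`) has a mark (`mark_f`), and all its marks are far (`mark_far`, `nh_fpr`). -/
theorem flat_knot {π : PP} (hπ : KnF π) :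
    ∃ ρ, KnF ρ ∧ ∀ M : ℕ, 1 ≤ M → ∃ i j : II M, CB i j ρ := by
  have hW : 2 * ln π < 2 * ln π + 1 := Nat.lt_succ_self _
  have hk := rl_kn hπ hW
  have hlt := fun H : ℕ => rl_lt (H := H) hW
  set v : ℤ × ℤ := (((2 * ln π + 1 : ℕ) : ℤ), (0 : ℤ)) with hvdef
  obtain ⟨H, a, hfit, -, -, ha0, ha1, ha2, ha3⟩ := exists_fit v [π] [] []
  have hf : FitP H a v π := hfit.1
  obtain ⟨s, hs, he, hgl, hsum, hcl⟩ := split_full (geo0_fpr hk.1 hf)
  rw [dsp_fpr hk.1.stA hk.1.stB hf, rl_vf_add] at he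
  have hne := mark_f hk hf hs he hgl
  obtain ⟨m, hm⟩ := List.exists_mem_of_ne_nil _ hne
  have h1 : (s.map nh).sum < nrm (vf H v) := by
    rw [hsum]
    have h2 := nh_fpr hk.1.stA hk.1.stB hf
    have h3 := hlt H
    have h4 : (nh (FPr H a v π) : ℤ) < ((nrm (vf H v) : ℕ) : ℤ) := h2.trans_lt h3
    exact_mod_cast h4
  obtain ⟨h5, h6⟩ := mark_far hs h1 m hm
  refine ⟨m.2, ⟨m.1, h5, KComp.kn_of_mem_mk hs hm⟩, fun M hM => ?_⟩
  obtain ⟨i, j, hij⟩ := hcl _ _ (cl_fpr hk.1.stA hk.1.stB hf) m.2 h6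
  exact cb_of_cl hij hM

end Pool.Agent.KFlat
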