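import Pool.Agent.KFlat.DefsA

/-! FA3: moving the columns in the layer `0`. -/

set_option autoImplicit false

open Set

namespace Pool.Agent.KFlat

open Pool.Agent.LK

/-- The bump around the columns: `1/8` on the column in the layer `0` and below, `0` in the layer
`1` and above and at the distance `1/2` (maximum norm) from the column. -/
noncomputable def bmp (p : R3) : ℝ :=
  1 / 8 * (cl (1 - p.2.1) * ((1 - 2 * |p.1 - round p.1|) * (1 - 2 * |p.2.2 - round p.2.2|)))

private theorem prod3 {a b c a' b' c' : ℝ} (hb0 : 0 ≤ b) (hb : b ≤ 1) (hc0 : 0 ≤ c)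
    (hc : c ≤ 1) (ha0' : 0 ≤ a') (ha' : a' ≤ 1) (hb0' : 0 ≤ b') (hb' : b' ≤ 1) :
    |a * (b * c) - a' * (b' * c')| ≤ |a - a'| + |b - b'| + |c - c'| := by
  have e : a * (b * c) - a' * (b' * c') =
      (a - a') * (b * c) + (b - b') * (a' * c) + (c - c') * (a' * b') := by ring
  have h1 : |(a - a') * (b * c)| ≤ |a - a'| := by
    rw [abs_mul, abs_of_nonneg (mul_nonneg hb0 hc0)]
    exact mul_le_of_le_one_right (abs_nonneg _) (mul_le_one₀ hb hc0 hc)
  have h2 : |(b - b') * (a' * c)| ≤ |b - b'| := by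
    rw [abs_mul, abs_of_nonneg (mul_nonneg ha0' hc0)]
    exact mul_le_of_le_one_right (abs_nonneg _) (mul_le_one₀ ha' hc0 hc)
  have h3 : |(c - c') * (a' * b')| ≤ |c - c'| := by
    rw [abs_mul, abs_of_nonneg (mul_nonneg ha0' hb0')]
    exact mul_le_of_le_one_right (abs_nonneg _) (mul_le_one₀ ha' hb0' hb')
  rw [e]
  calc _ ≤ |(a - a') * (b * c) + (b - b') * (a' * c)| + |(c - c') * (a' * b')| := abs_add_le _ _
    _ ≤ |(a - a') * (b * c)| + |(b - b') * (a' * c)| + |(c - c') * (a' * b')| := by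
        gcongr
        exact abs_add_le _ _
    _ ≤ _ := by linarith

private theorem AA_mem (x : ℝ) : 0 ≤ 1 - 2 * |x - round x| ∧ 1 - 2 * |x - round x| ≤ 1 := by
  have h := abs_sub_round x
  have h' := abs_nonneg (x - round x)
  constructor <;> linarith

private theorem AA_eq {x y : ℝ} (h : round x = round y) :
    |(1 - 2 * |x - round x|) - (1 - 2 * |y - round y|)| ≤ 2 * |x - y| := by
  have e : (1 - 2 * |x - round x|) - (1 - 2 * |y - round y|) =
      -(2 * (|x - round x| - |y - round y|)) := by ring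
  rw [e, abs_neg, abs_mul, abs_two, h]
  have h1 := abs_abs_sub_abs_le (x - round y) (y - round y)
  have e2 : x - (round y : ℝ) - (y - round y) = x - y := by ring
  rw [e2] at h1
  linarith

private theorem AA_ne {x y : ℝ} (h : round x ≠ round y) :
    (1 - 2 * |x - round x|) + (1 - 2 * |y - round y|) ≤ 2 * |x - y| := by
  have h1 : (1 : ℝ) ≤ |(round x : ℝ) - round y| := by
    have h2 : (1 : ℤ) ≤ |round x - round y| := Int.one_le_abs (sub_ne_zero.mpr h)
    exact_mod_cast h2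
  have h2 : |(round x : ℝ) - round y| ≤ |x - round x| + |x - y| + |y - round y| := by
    have e : (round x : ℝ) - round y = -(x - round x) + (x - y) + (y - round y) := by ring
    calc |(round x : ℝ) - round y| = |-(x - round x) + (x - y) + (y - round y)| := by rw [← e]
      _ ≤ |-(x - round x) + (x - y)| + |y - round y| := abs_add_le _ _
      _ ≤ |-(x - round x)| + |x - y| + |y - round y| := by
          gcongr
          exact abs_add_le _ _
      _ = _ := by rw [abs_neg]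
  linarith

private theorem bmp_bd (p : R3) : 0 ≤ bmp p ∧ bmp p ≤ 1 / 8 * (1 - 2 * |p.1 - round p.1|) ∧
    bmp p ≤ 1 / 8 * (1 - 2 * |p.2.2 - round p.2.2|) := by
  obtain ⟨h1, h1'⟩ := AA_mem p.1
  obtain ⟨h2, h2'⟩ := AA_mem p.2.2
  have h3 := cl_nonneg (1 - p.2.1)
  have h3' := cl_le (1 - p.2.1)
  unfold bmp
  refine ⟨by positivity, ?_, ?_⟩
  · have : cl (1 - p.2.1) * ((1 - 2 * |p.1 - round p.1|) * (1 - 2 * |p.2.2 - round p.2.2|)) ≤
        1 * ((1 - 2 * |p.1 - round p.1|) * 1) := by gcongr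
    linarith
  · have : cl (1 - p.2.1) * ((1 - 2 * |p.1 - round p.1|) * (1 - 2 * |p.2.2 - round p.2.2|)) ≤
        1 * (1 * (1 - 2 * |p.2.2 - round p.2.2|)) := by gcongr
    linarith

private theorem comp_lip (d : ℤ → ℤ → ℝ) (hd : ∀ i k, |d i k| ≤ 1) (p q : R3) {L : ℝ}
    (h1 : |p.1 - q.1| ≤ L) (h2 : |p.2.1 - q.2.1| ≤ L) (h3 : |p.2.2 - q.2.2| ≤ L) :
    |bmp p * d (round p.1) (round p.2.2) - bmp q * d (round q.1) (round q.2.2)| ≤ 5 / 8 * L := by
  obtain ⟨p0, pA, pB⟩ := bmp_bd p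
  obtain ⟨q0, qA, qB⟩ := bmp_bd q
  have hL : 0 ≤ L := (abs_nonneg _).trans h1
  have hsum : |bmp p * d (round p.1) (round p.2.2) - bmp q * d (round q.1) (round q.2.2)| ≤
      bmp p + bmp q := by
    calc _ ≤ |bmp p * d (round p.1) (round p.2.2)| + |bmp q * d (round q.1) (round q.2.2)| :=
          abs_sub _ _
      _ ≤ bmp p + bmp q := by
          rw [abs_mul, abs_mul, abs_of_nonneg p0, abs_of_nonneg q0]
          exact add_le_add (mul_le_of_le_one_right p0 (hd _ _))
            (mul_le_of_le_one_right q0 (hd _ _))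
  by_cases hx : round p.1 = round q.1
  · by_cases hz : round p.2.2 = round q.2.2
    · have hA := AA_eq hx
      have hB := AA_eq hz
      have hC := cl_lip (1 - p.2.1) (1 - q.2.1)
      have eC : |1 - p.2.1 - (1 - q.2.1)| = |p.2.1 - q.2.1| := by
        rw [← abs_neg]
        congr 1
        ring
      rw [eC] at hC
      have hP := prod3 (a := cl (1 - p.2.1)) (b := 1 - 2 * |p.1 - round p.1|)
        (c := 1 - 2 * |p.2.2 - round p.2.2|) (a' := cl (1 - q.2.1))
        (b' := 1 - 2 * |q.1 - round q.1|) (c' := 1 - 2 * |q.2.2 - round q.2.2|)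
        (AA_mem _).1 (AA_mem _).2 (AA_mem _).1 (AA_mem _).2 (cl_nonneg _) (cl_le _)
        (AA_mem _).1 (AA_mem _).2
      rw [hx, hz] at hP ⊢
      rw [hx] at hA
      rw [hz] at hB
      have e : bmp p * d (round q.1) (round q.2.2) - bmp q * d (round q.1) (round q.2.2) =
          1 / 8 * (cl (1 - p.2.1) * ((1 - 2 * |p.1 - round q.1|) *
            (1 - 2 * |p.2.2 - round q.2.2|)) -
            cl (1 - q.2.1) * ((1 - 2 * |q.1 - round q.1|) * (1 - 2 * |q.2.2 - round q.2.2|))) *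
            d (round q.1) (round q.2.2) := by
        unfold bmp
        rw [hx, hz]
        ring
      rw [e, abs_mul, abs_mul, abs_of_pos (by norm_num : (0 : ℝ) < 1 / 8)]
      calc _ ≤ 1 / 8 * (|cl (1 - p.2.1) - cl (1 - q.2.1)| +
            |1 - 2 * |p.1 - round q.1| - (1 - 2 * |q.1 - round q.1|)| +
            |1 - 2 * |p.2.2 - round q.2.2| - (1 - 2 * |q.2.2 - round q.2.2|)|) * 1 := by
            gcongr
            exact hd _ _
        _ ≤ 5 / 8 * L := by linarith
    · have hB := AA_ne hz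
      linarith
  · have hA := AA_ne hx
    linarith

/-- The column `(i, k)` is moved by `D i k / 8` in the layer `0`. -/
noncomputable def SM (D : ℤ → ℤ → ℝ × ℝ) (p : R3) : R3 :=
  (p.1 + bmp p * (D (round p.1) (round p.2.2)).1, p.2.1,
    p.2.2 + bmp p * (D (round p.1) (round p.2.2)).2)

/-- PROOF. `SM D p = p + δ p`, and `δ` is Lipschitz with the constant `5/8` (maximum norm of `R3`,
`L` below). Then `id + δ` is a homeomorphism (`ApproximatesLinearOn.toHomeomorph` with
`f' = ContinuousLinearEquiv.refl`, or by the Banach fixed point theorem). For a component of `δ`: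
put `c p = cl (1 - p.2.1) ∈ [0, 1]`, `A x = 1 - 2 |x - round x| ∈ [0, 1]` (`abs_sub_round`), so the
component is `1/8 * c p * A p.1 * A p.2.2 * D..`.
(i) If `round p.1 = round q.1` and `round p.2.2 = round q.2.2`: `|A p.1 - A q.1| ≤ 2 |p.1 - q.1|`
etc., `c` is 1-Lipschitz, so the difference is at most `1/8 (1 + 2 + 2) |p - q|`.
(ii) If for instance `round p.1 ≠ round q.1`: `A p.1 + A q.1 ≤ 2 |p.1 - q.1|` (with
`i = round p.1`, `i' = round q.1`:
`1 ≤ |i - i'| ≤ |p.1 - i| + |p.1 - q.1| + |q.1 - i'|`), so the difference is at most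
`1/8 (A p.1 + A q.1) ≤ 1/4 |p - q|`. -/
theorem smap (D : ℤ → ℤ → ℝ × ℝ) (hD : ∀ i k, |(D i k).1| ≤ 1 ∧ |(D i k).2| ≤ 1) :
    ∃ φ : R3 ≃ₜ R3, ∀ p : R3, φ p = SM D p := by
  have hap : ApproximatesLinearOn (SM D)
      ((ContinuousLinearEquiv.refl ℝ R3 : R3 ≃L[ℝ] R3) : R3 →L[ℝ] R3) univ (5 / 8) := by
    intro p _ q _
    have hc : ((5 / 8 : NNReal) : ℝ) = 5 / 8 := by norm_num
    rw [hc]
    have h1 : |p.1 - q.1| ≤ ‖p - q‖ := norm_fst_le (p - q)
    have h2 : |p.2.1 - q.2.1| ≤ ‖p - q‖ := (norm_fst_le (p - q).2).trans (norm_snd_le (p - q))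
    have h3 : |p.2.2 - q.2.2| ≤ ‖p - q‖ := (norm_snd_le (p - q).2).trans (norm_snd_le (p - q))
    have k1 := comp_lip (fun i k => (D i k).1) (fun i k => (hD i k).1) p q h1 h2 h3
    have k2 := comp_lip (fun i k => (D i k).2) (fun i k => (hD i k).2) p q h1 h2 h3
    have e : SM D p - SM D q - ((ContinuousLinearEquiv.refl ℝ R3 : R3 ≃L[ℝ] R3) :
        R3 →L[ℝ] R3) (p - q) =
        (bmp p * (D (round p.1) (round p.2.2)).1 - bmp q * (D (round q.1) (round q.2.2)).1, 0,
          bmp p * (D (round p.1) (round p.2.2)).2 - bmp q * (D (round q.1) (round q.2.2)).2) := by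
      refine Prod.ext ?_ (Prod.ext ?_ ?_)
      · change p.1 + bmp p * (D (round p.1) (round p.2.2)).1 -
          (q.1 + bmp q * (D (round q.1) (round q.2.2)).1) - (p.1 - q.1) = _
        ring
      · change p.2.1 - q.2.1 - (p.2.1 - q.2.1) = 0
        ring
      · change p.2.2 + bmp p * (D (round p.1) (round p.2.2)).2 -
          (q.2.2 + bmp q * (D (round q.1) (round q.2.2)).2) - (p.2.2 - q.2.2) = _
        ring
    rw [e]
    refine norm_prod_le_iff.mpr ⟨k1, norm_prod_le_iff.mpr ⟨?_, k2⟩⟩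
    change ‖(0 : ℝ)‖ ≤ _
    rw [norm_zero]
    positivity
  refine ⟨hap.toHomeomorph (SM D) (Or.inr ?_), fun p => rfl⟩
  have hN : ‖(((ContinuousLinearEquiv.refl ℝ R3 : R3 ≃L[ℝ] R3).symm : R3 ≃L[ℝ] R3) :
      R3 →L[ℝ] R3)‖₊ = 1 := by
    have h : (((ContinuousLinearEquiv.refl ℝ R3 : R3 ≃L[ℝ] R3).symm : R3 ≃L[ℝ] R3) :
      R3 →L[ℝ] R3) = ContinuousLinearMap.id ℝ R3 := rfl
    rw [h]
    exact NNReal.eq ContinuousLinearMap.norm_id
  rw [hN, inv_one]
  have : (5 / 8 : NNReal) < 1 := by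
    rw [div_lt_one (by norm_num)]
    norm_num
  exact this

end Pool.Agent.KFlat
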