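import Pool.Agent.KFlat.DefsA

/-! FA4: the shear. -/

set_option autoImplicit false

open Set

namespace Pool.Agent.KFlat

open Pool.Agent.LK

private theorem cl_cont : Continuous cl := by
  unfold cl
  fun_prop

private noncomputable def sg (H : ℕ) (y : ℝ) : ℝ :=
  ∑ j ∈ Finset.range H, (cl (4 * (y - j)) + cl (4 * (y - j) - 2))

private noncomputable def ta (H : ℕ) (y : ℝ) : ℝ :=
  ∑ j ∈ Finset.range H, (cl (4 * (y - j) - 1) + cl (4 * (y - j) - 3))

private theorem sg_cont (H : ℕ) : Continuous (sg H) := by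
  unfold sg
  refine continuous_finsetSum _ fun j _ => ?_
  exact (cl_cont.comp (by fun_prop)).add (cl_cont.comp (by fun_prop))

private theorem ta_cont (H : ℕ) : Continuous (ta H) := by
  unfold ta
  refine continuous_finsetSum _ fun j _ => ?_
  exact (cl_cont.comp (by fun_prop)).add (cl_cont.comp (by fun_prop))

private theorem sum_eval {H n : ℕ} {f : ℝ → ℝ} (h0 : ∀ t, t ≤ 0 → f t = 0)
    (h4 : ∀ t, 4 ≤ t → f t = 2) {t : ℝ} (ht : 0 ≤ t) (ht' : t ≤ 4) (hn : n < H) :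
    ∑ j ∈ Finset.range H, f (4 * ((n : ℝ) + t / 4 - j)) = 2 * n + f t := by
  obtain ⟨k, rfl⟩ := Nat.exists_eq_add_of_lt hn
  rw [show n + k + 1 = n + (1 + k) by ring, Finset.sum_range_add, Finset.sum_range_add]
  have e1 : ∑ x ∈ Finset.range n, f (4 * ((n : ℝ) + t / 4 - (x : ℕ))) = 2 * n := by
    rw [Finset.sum_congr rfl (g := fun _ => (2 : ℝ))]
    · simp [mul_comm]
    · intro x hx
      have : (x : ℝ) + 1 ≤ n := by exact_mod_cast Finset.mem_range.mp hx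
      exact h4 _ (by linarith)
  have e2 : ∑ x ∈ Finset.range 1, f (4 * ((n : ℝ) + t / 4 - ((n + x : ℕ) : ℝ))) = f t := by
    rw [Finset.sum_range_one]
    congr 1
    push_cast
    ring
  have e3 : ∑ x ∈ Finset.range k, f (4 * ((n : ℝ) + t / 4 - ((n + (1 + x) : ℕ) : ℝ))) = 0 := by
    refine Finset.sum_eq_zero fun x _ => h0 _ ?_
    push_cast
    have : (0 : ℝ) ≤ x := Nat.cast_nonneg x
    linarith
  rw [e1, e2, e3, add_zero]

private theorem sum_eval' {H n : ℕ} {f : ℝ → ℝ} (h0 : ∀ t, t ≤ 0 → f t = 0)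
    (h4 : ∀ t, 4 ≤ t → f t = 2) (hn : n ≤ H) :
    ∑ j ∈ Finset.range H, f (4 * ((n : ℝ) - j)) = 2 * n := by
  obtain ⟨k, rfl⟩ := Nat.exists_eq_add_of_le hn
  rw [Finset.sum_range_add]
  have e1 : ∑ x ∈ Finset.range n, f (4 * ((n : ℝ) - (x : ℕ))) = 2 * n := by
    rw [Finset.sum_congr rfl (g := fun _ => (2 : ℝ))]
    · simp [mul_comm]
    · intro x hx
      have : (x : ℝ) + 1 ≤ n := by exact_mod_cast Finset.mem_range.mp hx
      exact h4 _ (by linarith)
  have e3 : ∑ x ∈ Finset.range k, f (4 * ((n : ℝ) - ((n + x : ℕ) : ℝ))) = 0 := by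
    refine Finset.sum_eq_zero fun x _ => h0 _ ?_
    push_cast
    have : (0 : ℝ) ≤ x := Nat.cast_nonneg x
    linarith
  rw [e1, e3, add_zero]

private theorem fs0 (t : ℝ) (h : t ≤ 0) : cl t + cl (t - 2) = 0 := by
  rw [cl_of_le h, cl_of_le (by linarith), add_zero]

private theorem fs4 (t : ℝ) (h : 4 ≤ t) : cl t + cl (t - 2) = 2 := by
  rw [cl_of_ge (by linarith), cl_of_ge (by linarith)]; norm_num

private theorem ft0 (t : ℝ) (h : t ≤ 0) : cl (t - 1) + cl (t - 3) = 0 := by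
  rw [cl_of_le (by linarith), cl_of_le (by linarith), add_zero]

private theorem ft4 (t : ℝ) (h : 4 ≤ t) : cl (t - 1) + cl (t - 3) = 2 := by
  rw [cl_of_ge (by linarith), cl_of_ge (by linarith)]; norm_num

private theorem sg_nat {H n : ℕ} (hn : n ≤ H) : sg H n = 2 * n :=
  sum_eval' (f := fun t => cl t + cl (t - 2)) fs0 fs4 hn

private theorem ta_nat {H n : ℕ} (hn : n ≤ H) : ta H n = 2 * n :=
  sum_eval' (f := fun t => cl (t - 1) + cl (t - 3)) ft0 ft4 hn

private theorem sg_mid {H n : ℕ} {t : ℝ} (hn : n < H) (ht : 0 ≤ t) (ht' : t ≤ 4) :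
    sg H ((n : ℝ) + t / 4) = 2 * n + (cl t + cl (t - 2)) :=
  sum_eval (f := fun t => cl t + cl (t - 2)) fs0 fs4 ht ht' hn

private theorem ta_mid {H n : ℕ} {t : ℝ} (hn : n < H) (ht : 0 ≤ t) (ht' : t ≤ 4) :
    ta H ((n : ℝ) + t / 4) = 2 * n + (cl (t - 1) + cl (t - 3)) :=
  sum_eval (f := fun t => cl (t - 1) + cl (t - 3)) ft0 ft4 ht ht' hn

private noncomputable def shHom (H : ℕ) : R3 ≃ₜ R3 where
  toFun p := ((mH H : ℝ) * p.1 + sg H p.2.1, p.2.1, (mH H : ℝ) * p.2.2 + ta H p.2.1)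
  invFun p := ((p.1 - sg H p.2.1) / (mH H : ℝ), p.2.1, (p.2.2 - ta H p.2.1) / (mH H : ℝ))
  left_inv p := by
    have hm0 : (mH H : ℝ) ≠ 0 := by exact_mod_cast (mH_pos H).ne'
    refine Prod.ext ?_ (Prod.ext rfl ?_)
    · show ((mH H : ℝ) * p.1 + sg H p.2.1 - sg H p.2.1) / (mH H : ℝ) = p.1
      rw [add_sub_cancel_right, mul_div_cancel_left₀ _ hm0]
    · show ((mH H : ℝ) * p.2.2 + ta H p.2.1 - ta H p.2.1) / (mH H : ℝ) = p.2.2
      rw [add_sub_cancel_right, mul_div_cancel_left₀ _ hm0]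
  right_inv p := by
    have hm0 : (mH H : ℝ) ≠ 0 := by exact_mod_cast (mH_pos H).ne'
    refine Prod.ext ?_ (Prod.ext rfl ?_)
    · show (mH H : ℝ) * ((p.1 - sg H p.2.1) / (mH H : ℝ)) + sg H p.2.1 = p.1
      rw [mul_div_cancel₀ _ hm0, sub_add_cancel]
    · show (mH H : ℝ) * ((p.2.2 - ta H p.2.1) / (mH H : ℝ)) + ta H p.2.1 = p.2.2
      rw [mul_div_cancel₀ _ hm0, sub_add_cancel]
  continuous_toFun := by
    have h1 := (sg_cont H).comp (continuous_fst.comp (continuous_snd (X := ℝ) (Y := ℝ × ℝ)))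
    have h2 := (ta_cont H).comp (continuous_fst.comp (continuous_snd (X := ℝ) (Y := ℝ × ℝ)))
    exact ((continuous_const.mul continuous_fst).add h1).prodMk
      ((continuous_fst.comp continuous_snd).prodMk
        ((continuous_const.mul (continuous_snd.comp continuous_snd)).add h2))
  continuous_invFun := by
    have h1 := (sg_cont H).comp (continuous_fst.comp (continuous_snd (X := ℝ) (Y := ℝ × ℝ)))
    have h2 := (ta_cont H).comp (continuous_fst.comp (continuous_snd (X := ℝ) (Y := ℝ × ℝ)))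
    exact ((continuous_fst.sub h1).div_const _).prodMk
      ((continuous_fst.comp continuous_snd).prodMk
        (((continuous_snd.comp continuous_snd).sub h2).div_const _))

private theorem orient {u v : P3} (h : Adj u v) :
    (∃ a, v = u + Ax.v a) ∨ (∃ a, u = v + Ax.v a) := by
  obtain ⟨u1, u2, u3⟩ := u
  obtain ⟨v1, v2, v3⟩ := v
  simp only [Adj] at h
  have h1 : (v1 = u1 + 1 ∧ v2 = u2 ∧ v3 = u3) ∨ (v1 = u1 ∧ v2 = u2 + 1 ∧ v3 = u3) ∨
      (v1 = u1 ∧ v2 = u2 ∧ v3 = u3 + 1) ∨ (u1 = v1 + 1 ∧ u2 = v2 ∧ u3 = v3) ∨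
      (u1 = v1 ∧ u2 = v2 + 1 ∧ u3 = v3) ∨ (u1 = v1 ∧ u2 = v2 ∧ u3 = v3 + 1) := by
    rcases abs_cases (u1 - v1) with ⟨e1, e1'⟩ | ⟨e1, e1'⟩ <;>
    rcases abs_cases (u2 - v2) with ⟨e2, e2'⟩ | ⟨e2, e2'⟩ <;>
    rcases abs_cases (u3 - v3) with ⟨e3, e3'⟩ | ⟨e3, e3'⟩ <;>
    rw [e1, e2, e3] at h <;> omega
  rcases h1 with ⟨rfl, rfl, rfl⟩ | ⟨rfl, rfl, rfl⟩ | ⟨rfl, rfl, rfl⟩ | ⟨rfl, rfl, rfl⟩ |
    ⟨rfl, rfl, rfl⟩ | ⟨rfl, rfl, rfl⟩
  · exact Or.inl ⟨.x, by simp [Ax.v]⟩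
  · exact Or.inl ⟨.y, by simp [Ax.v]⟩
  · exact Or.inl ⟨.z, by simp [Ax.v]⟩
  · exact Or.inr ⟨.x, by simp [Ax.v]⟩
  · exact Or.inr ⟨.y, by simp [Ax.v]⟩
  · exact Or.inr ⟨.z, by simp [Ax.v]⟩

/-- PROOF. Let `σ y = ∑ j ∈ Finset.range H, (cl (4 * (y - j)) + cl (4 * (y - j) - 2))` and
`τ y = ∑ j ∈ Finset.range H, (cl (4 * (y - j) - 1) + cl (4 * (y - j) - 3))` (continuous functions of `y : ℝ`), `m = mH H`,
`φ (x, y, z) = (m x + σ y, y, m z + τ y)`, with the inverse `(x, y, z) ↦ ((x - σ y) / m, y, (z - τ y) / m)`.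
If `n : ℕ`, `n ≤ H`, then `σ n = τ n = 2 n` (the terms with `j < n` are `2`, the others are `0`), and if `n < H`,
`t ∈ [0, 4]` then `σ (n + t / 4) = 2 n + cl t + cl (t - 2)`, `τ (n + t / 4) = 2 n + cl (t - 1) + cl (t - 3)` (the terms with
`j < n` are `2`, the term `j = n` is the rest, those with `j > n` are `0`).
Each edge of `E` is `s(u, u + Ax.v a)` for one `u` and one axis `a` (`Adj`), and its segment is
`{toR u + (t / leN H a) • toR (Ax.v a) | 0 ≤ t ≤ leN H a}`. The heights of `u` and of `u + Ax.v a` are natural numbers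
`≤ H` (`Ht`), for `a = y` the height `n` of `u` is `< H`. So `φ` maps the point with the parameter `t` to
`((gm H u a t).1, hm u a t, (gm H u a t).2)`: for `a = x`: `m (u₁ + t / m) + 2 n = X0 H u + t`, `m u₃ + 2 n = Z0 H u`; for
`a = y`: the formulas above. -/
theorem shear {H : ℕ} {E : Finset (Sym2 P3)} (hadj : ∀ u v, s(u, v) ∈ E → Adj u v) (hE : Ht H E) :
    ∃ φ : R3 ≃ₜ R3, φ '' body E = CH H E := by
  classical
  have hm0 : (0 : ℝ) < (mH H : ℝ) := by exact_mod_cast mH_pos H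
  refine ⟨shHom H, ?_⟩
  -- the edges
  have key : ∀ (u : P3) (a : Ax) (t : ℝ), s(u, u + Ax.v a) ∈ E → 0 ≤ t → t ≤ leN H a →
      shHom H (toR u + (t / leN H a) • toR (Ax.v a)) =
        ((gm H u a t).1, hm u a t, (gm H u a t).2) := by
    intro u a t hu ht0 ht1
    have hy1 := hE u ⟨_, hu⟩
    have hy2 := hE (u + Ax.v a) ⟨u, by rw [Sym2.eq_swap]; exact hu⟩
    obtain ⟨n, hn⟩ := Int.eq_ofNat_of_zero_le hy1.1
    have hnr : ((u.2.1 : ℤ) : ℝ) = (n : ℝ) := by rw [hn]; simp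
    have hnH : n ≤ H := by
      have := hy1.2
      rw [hn] at this
      exact_mod_cast this
    have hl0 : ((2 * H + 2 : ℕ) : ℝ) = (mH H : ℝ) := by unfold mH; push_cast; ring
    cases a with
    | x =>
      have h1 : toR u + (t / (leN H Ax.x : ℕ)) • toR (Ax.v Ax.x) =
          ((u.1 : ℝ) + t / (mH H : ℝ), (n : ℝ), (u.2.2 : ℝ)) := by
        simp only [toR, Ax.v, leN, hl0, hnr]
        ext <;> simp
      rw [h1]
      show ((mH H : ℝ) * ((u.1 : ℝ) + t / (mH H : ℝ)) + sg H (n : ℝ), (n : ℝ),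
        (mH H : ℝ) * (u.2.2 : ℝ) + ta H (n : ℝ)) = _
      rw [sg_nat hnH, ta_nat hnH]
      simp only [gm, hm, X0, Z0]
      push_cast
      rw [hnr]
      refine Prod.ext ?_ (Prod.ext ?_ ?_)
      · simp only
        field_simp
        ring
      · rfl
      · rfl
    | y =>
      have hnH' : n < H := by
        have h3 := hy2.2
        have h4 : (u + Ax.v Ax.y).2.1 = u.2.1 + 1 := rfl
        rw [h4, hn] at h3
        exact_mod_cast h3
      have ht4 : t ≤ 4 := by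
        have : ((leN H Ax.y : ℕ) : ℝ) = 4 := by simp [leN]
        rw [this] at ht1
        exact ht1
      have h1 : toR u + (t / (leN H Ax.y : ℕ)) • toR (Ax.v Ax.y) =
          ((u.1 : ℝ), (n : ℝ) + t / 4, (u.2.2 : ℝ)) := by
        simp only [toR, Ax.v, leN, hnr]
        ext <;> simp
      rw [h1]
      show ((mH H : ℝ) * (u.1 : ℝ) + sg H ((n : ℝ) + t / 4), (n : ℝ) + t / 4,
        (mH H : ℝ) * (u.2.2 : ℝ) + ta H ((n : ℝ) + t / 4)) = _
      rw [sg_mid hnH' ht0 ht4, ta_mid hnH' ht0 ht4]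
      simp only [gm, hm, X0, Z0]
      push_cast
      rw [hnr]
      refine Prod.ext ?_ (Prod.ext ?_ ?_)
      · simp only
        ring
      · rfl
      · simp only
        ring
    | z =>
      have h1 : toR u + (t / (leN H Ax.z : ℕ)) • toR (Ax.v Ax.z) =
          ((u.1 : ℝ), (n : ℝ), (u.2.2 : ℝ) + t / (mH H : ℝ)) := by
        simp only [toR, Ax.v, leN, hl0, hnr]
        ext <;> simp
      rw [h1]
      show ((mH H : ℝ) * (u.1 : ℝ) + sg H (n : ℝ), (n : ℝ),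
        (mH H : ℝ) * ((u.2.2 : ℝ) + t / (mH H : ℝ)) + ta H (n : ℝ)) = _
      rw [sg_nat hnH, ta_nat hnH]
      simp only [gm, hm, X0, Z0]
      push_cast
      rw [hnr]
      refine Prod.ext ?_ (Prod.ext ?_ ?_)
      · rfl
      · rfl
      · simp only
        field_simp
        ring
  have hlpos : ∀ a : Ax, (0 : ℝ) < (leN H a : ℝ) := by
    intro a
    cases a
    · simp only [leN]; positivity
    · simp only [leN]; norm_num
    · simp only [leN]; positivity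
  have htoR : ∀ u v : P3, toR (u + v) = toR u + toR v := by
    intro u v
    simp only [toR]
    ext <;> simp
  ext p
  constructor
  · rintro ⟨q, ⟨u, v, huv, hq⟩, rfl⟩
    -- orient the edge
    have hor : ∃ w a, s(w, w + Ax.v a) ∈ E ∧ q ∈ segment ℝ (toR w) (toR (w + Ax.v a)) := by
      rcases orient (hadj u v huv) with ⟨a, h⟩ | ⟨a, h⟩
      · exact ⟨u, a, h ▸ huv, h ▸ hq⟩
      · refine ⟨v, a, ?_, ?_⟩
        · rw [← h, Sym2.eq_swap]; exact huv
        · rw [← h, segment_symm]; exact hq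
    obtain ⟨w, a, hw, hq'⟩ := hor
    rw [segment_eq_image'] at hq'
    obtain ⟨s, ⟨hs0, hs1⟩, rfl⟩ := hq'
    refine ⟨w, a, s * leN H a, hw, mul_nonneg hs0 (hlpos a).le,
      mul_le_of_le_one_left (hlpos a).le hs1, ?_⟩
    rw [← key w a (s * leN H a) hw (mul_nonneg hs0 (hlpos a).le)
      (mul_le_of_le_one_left (hlpos a).le hs1)]
    congr 1
    show toR w + s • (toR (w + Ax.v a) - toR w) = _
    rw [mul_div_cancel_right₀ _ (hlpos a).ne', htoR, add_sub_cancel_left]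
  · rintro ⟨u, a, t, hu, ht0, ht1, rfl⟩
    refine ⟨toR u + (t / leN H a) • toR (Ax.v a), ⟨u, u + Ax.v a, hu, ?_⟩, key u a t hu ht0 ht1⟩
    rw [segment_eq_image']
    refine ⟨t / leN H a, ⟨div_nonneg ht0 (hlpos a).le, (div_le_one (hlpos a)).mpr ht1⟩, ?_⟩
    show toR u + (t / leN H a) • (toR (u + Ax.v a) - toR u) = _
    rw [htoR, add_sub_cancel_left]

end Pool.Agent.KFlat
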