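import Pool.Agent.KFlat.Word
import Pool.Agent.KFlat.Dl
import Pool.Agent.KFlat.DJ

/-! FB5: one new edge as a walk. -/

set_option autoImplicit false

open Pool.Agent.LK

namespace Pool.Agent.KFlat

open Pool.Agent.KTube Pool.Agent.KRing Pool.Agent.KLog
open Pool.Agent.LatticeTube (pedges mem_pedges mem_of_mem_pedges)

/-- The new edge as a subset of space. -/
def PE (H : ℕ) (u : P3) : Ax → Set R3
  | .x => PX H u
  | .y => PY H u
  | .z => PZ H u

variable {H : ℕ} {p d : P3}

theorem toR_add (p d : P3) : toR (p + d) = toR p + toR d := by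
  simp [toR]

theorem seg_eq (p d : P3) : segment ℝ (toR p) (toR (p + d)) =
    {x | ∃ t : ℝ, 0 ≤ t ∧ t ≤ 1 ∧ x = toR p + t • toR d} := by
  rw [segment_eq_image', toR_add, add_sub_cancel_left]
  ext x
  constructor
  · rintro ⟨t, ht, rfl⟩
    exact ⟨t, ht.1, ht.2, rfl⟩
  · rintro ⟨t, h0, h1, rfl⟩
    exact ⟨t, ⟨h0, h1⟩, rfl⟩

theorem body_wk_nil (p : P3) : body (pedges (wk p [])) = ∅ := by
  ext x
  simp [body, pedges]

theorem body_wk_cons (p d : P3) (s : List P3) : body (pedges (wk p (d :: s))) =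
    segment ℝ (toR p) (toR (p + d)) ∪ body (pedges (wk (p + d) s)) := by
  have h : ∃ l, wk (p + d) s = (p + d) :: l := by
    cases s with
    | nil => exact ⟨[], rfl⟩
    | cons e s => exact ⟨_, rfl⟩
  obtain ⟨l, hl⟩ := h
  rw [wk_cons, hl, pedges_cons_cons, body_insert]

/-- The subset of space of a straight walk. -/
theorem body_rp (p d : P3) (n : ℕ) (hn : 0 < n) :
    body (pedges (wk p (List.replicate n d))) =
      {x | ∃ t : ℝ, 0 ≤ t ∧ t ≤ n ∧ x = toR p + t • toR d} := by
  induction n generalizing p with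
  | zero => exact absurd hn (lt_irrefl _)
  | succ n ih =>
    rw [List.replicate_succ, body_wk_cons, seg_eq]
    rcases Nat.eq_zero_or_pos n with h0 | h0
    · subst h0
      rw [List.replicate_zero, body_wk_nil, Set.union_empty]
      simp
    · rw [ih (p + d) h0, toR_add]
      ext x
      constructor
      · rintro (⟨t, ht0, ht1, rfl⟩ | ⟨t, ht0, ht1, rfl⟩)
        · refine ⟨t, ht0, ?_, rfl⟩
          have : (0 : ℝ) ≤ n := Nat.cast_nonneg _
          push_cast
          linarith
        · refine ⟨t + 1, by linarith, ?_, ?_⟩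
          · push_cast
            linarith
          · rw [add_smul, one_smul]
            abel
      · rintro ⟨t, ht0, ht1, rfl⟩
        push_cast at ht1
        rcases le_total t 1 with h1 | h1
        · exact Or.inl ⟨t, ht0, h1, rfl⟩
        · refine Or.inr ⟨t - 1, by linarith, by linarith, ?_⟩
          rw [sub_smul, one_smul]
          abel

/-- The subset of space of a composed walk is the union (`wk_append`, the edges are those of the two walks). -/
theorem body_append (p : P3) (s t : List P3) :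
    body (pedges (wk p (s ++ t))) =
      body (pedges (wk p s)) ∪ body (pedges (wk (p + s.sum) t)) := by
  induction s generalizing p with
  | nil => rw [List.nil_append, body_wk_nil, List.sum_nil, add_zero, Set.empty_union]
  | cons d s ih =>
    rw [List.cons_append, body_wk_cons, body_wk_cons, ih, List.sum_cons, add_assoc,
      Set.union_assoc]

/-- The same points and the same subset of space backwards (`wk_reverse`, `rev_fw`). -/
theorem body_rev (p : P3) (s : List P3) :
    body (pedges (wk (p + s.sum) (rev s))) = body (pedges (wk p s)) := by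
  rw [← wk_reverse]
  ext x
  simp only [body, Set.mem_setOf_eq, mem_pedges_reverse]

theorem mem_wk_rp {p q : P3} {n : ℕ} (h : q ∈ wk p (List.replicate n d)) :
    ∃ i : ℕ, i ≤ n ∧ q = p + ((i : ℤ) * d.1, (i : ℤ) * d.2.1, (i : ℤ) * d.2.2) := by
  induction n generalizing p with
  | zero =>
    rw [List.replicate_zero, wk_nil, List.mem_singleton] at h
    refine ⟨0, le_rfl, ?_⟩
    rw [h]
    simp
  | succ n ih =>
    rw [List.replicate_succ, wk_cons, List.mem_cons] at h
    rcases h with h | h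
    · refine ⟨0, Nat.zero_le _, ?_⟩
      rw [h]
      simp
    · obtain ⟨i, hi, h⟩ := ih h
      refine ⟨i + 1, Nat.succ_le_succ hi, ?_⟩
      rw [h]
      ext <;> simp <;> ring

/-- A walk with at least one step. -/
theorem wk_split (p : P3) {s : List P3} (hs : s ≠ []) :
    ∃ I, wk p s = p :: (I ++ [p + s.sum]) := by
  cases s with
  | nil => exact absurd rfl hs
  | cons d s =>
    refine ⟨(wk (p + d) s).dropLast, ?_⟩
    rw [wk_cons, List.cons.injEq]
    refine ⟨rfl, ?_⟩
    have h1 := List.dropLast_append_getLast? (p + (d :: s).sum) (by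
      rw [Option.mem_def, last_wk, List.sum_cons, add_assoc] :
        p + (d :: s).sum ∈ (wk (p + d) s).getLast?)
    exact h1.symm

/-- A walk whose steps increase an additive functional. -/
theorem nodup_incr (f : P3 →+ ℤ) {p : P3} {s : List P3} (h : ∀ d ∈ s, 0 < f d) :
    (wk p s).Nodup := by
  rw [nodup_wk]
  intro A u B hs hu h0
  have h1 : 0 < f u.sum := by
    rw [map_list_sum]
    apply List.sum_pos
    · intro x hx
      obtain ⟨d, hd, rfl⟩ := List.mem_map.1 hx
      exact h d (by rw [hs]; simp [hd])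
    · simpa using hu
  rw [h0, map_zero] at h1
  exact lt_irrefl _ h1

/-- The functional `α x + β y + γ z`. -/
def fl3 (α β γ : ℤ) : P3 →+ ℤ where
  toFun q := α * q.1 + β * q.2.1 + γ * q.2.2
  map_zero' := by simp
  map_add' p q := by simp only [Prod.fst_add, Prod.snd_add]; ring

theorem fl3_apply (α β γ : ℤ) (q : P3) : fl3 α β γ q = α * q.1 + β * q.2.1 + γ * q.2.2 := rfl

theorem sum_rep (n : ℕ) (d : P3) : (List.replicate n d).sum =
    ((n : ℤ) * d.1, (n : ℤ) * d.2.1, (n : ℤ) * d.2.2) := by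
  rw [List.sum_replicate]
  ext <;> simp

theorem fw_x (h0 : 0 ≤ p.2.1) (h1 : p.2.1 ≤ H) :
    ∃ I, wk (VV H false p) (fw H p.2.1 (1, 0, 0)) =
        VV H false p :: (I ++ [VV H true (p + (1, 0, 0))]) ∧
      I.Nodup ∧ (∀ q ∈ I, q ∈ EP H p .x) ∧
      body (pedges (wk (VV H false p) (fw H p.2.1 (1, 0, 0)))) = PX H p := by
  obtain ⟨n, hn⟩ : ∃ n : ℕ, (n : ℤ) = mH H - 1 - 2 * p.2.1 :=
    ⟨(mH H - 1 - 2 * p.2.1).toNat, Int.toNat_of_nonneg (by unfold mH; omega)⟩
  obtain ⟨k, hk⟩ : ∃ k : ℕ, (k : ℤ) = 2 * p.2.1 + 1 :=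
    ⟨(2 * p.2.1 + 1).toNat, Int.toNat_of_nonneg (by omega)⟩
  have hn0 : 0 < n := by unfold mH at hn; omega
  have hk0 : 0 < k := by omega
  have hfw : fw H p.2.1 (1, 0, 0) =
      List.replicate n (1, 0, 0) ++ (0, 1, 0) :: List.replicate k (1, 0, 0) := by
    rw [fw, if_pos (Or.inl rfl), rp, rp, ← hn, ← hk, Int.toNat_natCast, Int.toNat_natCast]
  rw [hfw]
  have hXn : X0 H p + n = mH H * (p.1 + 1) - 1 := by rw [hn]; unfold X0; ring
  have hnk : X0 H p + n + k = X0 H p + mH H := by rw [hn, hk]; ring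
  have hend : VV H false p + (List.replicate n ((1, 0, 0) : P3) ++
      (0, 1, 0) :: List.replicate k (1, 0, 0)).sum = VV H true (p + (1, 0, 0)) := by
    rw [List.sum_append, List.sum_cons, sum_rep, sum_rep]
    ext
    · simp only [VV, Prod.fst_add, mul_one, zero_add]
      unfold X0
      simp only [Prod.fst_add, Prod.snd_add, add_zero]
      unfold X0 at hnk
      linarith
    · simp [VV, lb]
    · simp [VV, Z0]
  obtain ⟨I, hI⟩ := wk_split (VV H false p) (s := List.replicate n ((1, 0, 0) : P3) ++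
      (0, 1, 0) :: List.replicate k (1, 0, 0)) (by simp)
  have hnd : (wk (VV H false p) (List.replicate n ((1, 0, 0) : P3) ++
      (0, 1, 0) :: List.replicate k (1, 0, 0))).Nodup := by
    apply nodup_incr (fl3 1 1 0)
    intro d hd
    rw [List.mem_append, List.mem_cons, List.mem_replicate, List.mem_replicate] at hd
    rcases hd with ⟨_, rfl⟩ | rfl | ⟨_, rfl⟩ <;> simp [fl3_apply]
  refine ⟨I, by rw [hI, hend], ?_, ?_, ?_⟩
  · rw [hI, List.nodup_cons] at hnd
    exact hnd.2.sublist (List.sublist_append_left _ _)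
  · intro r hr
    rw [hI, List.nodup_cons] at hnd
    have hr0 : r ≠ VV H false p := by
      rintro rfl
      exact hnd.1 (List.mem_append_left _ hr)
    have hr1 : r ≠ VV H true (p + (1, 0, 0)) := by
      rintro rfl
      rw [hend] at hnd
      exact (List.disjoint_of_nodup_append hnd.2) hr (List.mem_singleton.2 rfl)
    have hr' : r ∈ wk (VV H false p) (List.replicate n ((1, 0, 0) : P3) ++
        (0, 1, 0) :: List.replicate k (1, 0, 0)) := by
      rw [hI]
      exact List.mem_cons_of_mem _ (List.mem_append_left _ hr)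
    rw [wk_snoc, List.mem_append] at hr'
    rcases hr' with hr' | hr'
    · obtain ⟨i, hi, rfl⟩ := mem_wk_rp hr'
      have hi0 : 0 < i := by
        rcases Nat.eq_zero_or_pos i with h | h
        · exfalso
          apply hr0
          rw [h]
          simp
        · exact h
      refine ⟨?_, Or.inl ⟨?_, ?_, ?_⟩⟩
      · simp [VV]
      · simp [VV, lb]
      · simp only [VV, Prod.fst_add, mul_one]
        omega
      · simp only [VV, Prod.fst_add, mul_one]
        rw [← hXn]
        omega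
    · obtain ⟨i, hi, rfl⟩ := mem_wk_rp hr'
      have hi0 : i < k := by
        rcases Nat.lt_or_ge i k with h | h
        · exact h
        · exfalso
          apply hr1
          have h2 : i = k := le_antisymm hi h
          rw [← hend, List.sum_append, List.sum_cons, sum_rep, sum_rep, h2]
          abel
      refine ⟨?_, Or.inr ⟨?_, ?_, ?_⟩⟩
      · simp [VV, sum_rep]
      · simp [VV, lb, sum_rep]
      · simp only [VV, Prod.fst_add, mul_one, sum_rep, add_zero]
        rw [← hXn]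
        omega
      · simp only [VV, Prod.fst_add, mul_one, sum_rep, add_zero]
        rw [← hnk]
        omega
  · have hXn' : (X0 H p : ℝ) + n = mH H * (p.1 + 1) - 1 := by exact_mod_cast hXn
    have hnk' : (X0 H p : ℝ) + n + k = X0 H p + mH H := by exact_mod_cast hnk
    have q0 : toR (VV H false p) = ((X0 H p : ℝ), 0, (Z0 H p : ℝ)) := by simp [toR, VV, lb]
    have q1 : toR (VV H false p + (List.replicate n ((1, 0, 0) : P3)).sum) =
        ((X0 H p : ℝ) + n, 0, (Z0 H p : ℝ)) := by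
      rw [sum_rep]; simp [toR, VV, lb]
    have q2 : toR (VV H false p + (List.replicate n ((1, 0, 0) : P3)).sum + (0, 1, 0)) =
        ((X0 H p : ℝ) + n, 1, (Z0 H p : ℝ)) := by
      rw [sum_rep]; simp [toR, VV, lb]
    have e1 : toR (1, 0, 0) = (1, 0, 0) := by simp [toR]
    have e2 : toR (0, 1, 0) = (0, 1, 0) := by simp [toR]
    rw [body_append, body_wk_cons, seg_eq, body_rp _ _ _ hn0, body_rp _ _ _ hk0, q0, q1, q2, e1,
      e2, PX]
    ext ⟨a, b, c⟩
    constructor
    · rintro (⟨t, t0, t1, h⟩ | ⟨t, t0, t1, h⟩ | ⟨t, t0, t1, h⟩)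
      · simp only [Prod.smul_mk, smul_eq_mul, Prod.mk_add_mk, Prod.mk.injEq, mul_one, mul_zero,
          add_zero] at h
        obtain ⟨rfl, rfl, rfl⟩ := h
        exact ⟨rfl, Or.inl ⟨rfl, by simpa using t0, by simp only; linarith⟩⟩
      · simp only [Prod.smul_mk, smul_eq_mul, Prod.mk_add_mk, Prod.mk.injEq, mul_one, mul_zero,
          add_zero, zero_add] at h
        obtain ⟨rfl, rfl, rfl⟩ := h
        exact ⟨rfl, Or.inr (Or.inl ⟨hXn', t0, t1⟩)⟩
      · simp only [Prod.smul_mk, smul_eq_mul, Prod.mk_add_mk, Prod.mk.injEq, mul_one, mul_zero,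
          add_zero] at h
        obtain ⟨rfl, rfl, rfl⟩ := h
        exact ⟨rfl, Or.inr (Or.inr ⟨rfl, by simp only; linarith, by simp only; linarith⟩)⟩
    · rintro ⟨hc, ⟨hb, h1, h2⟩ | ⟨ha, h1, h2⟩ | ⟨hb, h1, h2⟩⟩
      · simp only at hc hb h1 h2
        refine Or.inl ⟨a - X0 H p, by linarith, by linarith, ?_⟩
        simp [hb, hc]
      · simp only at hc ha h1 h2
        refine Or.inr (Or.inl ⟨b, h1, h2, ?_⟩)
        simp [ha, hc, hXn']
      · simp only at hc hb h1 h2
        refine Or.inr (Or.inr ⟨a - (X0 H p + n), by linarith, by linarith, ?_⟩)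
        simp [hb, hc]

theorem fw_z (h0 : 0 ≤ p.2.1) (h1 : p.2.1 ≤ H) :
    ∃ I, wk (VV H false p) (fw H p.2.1 (0, 0, 1)) =
        VV H false p :: (I ++ [VV H true (p + (0, 0, 1))]) ∧
      I.Nodup ∧ (∀ q ∈ I, q ∈ EP H p .z) ∧
      body (pedges (wk (VV H false p) (fw H p.2.1 (0, 0, 1)))) = PZ H p := by
  obtain ⟨n, hn⟩ : ∃ n : ℕ, (n : ℤ) = mH H - 1 - 2 * p.2.1 :=
    ⟨(mH H - 1 - 2 * p.2.1).toNat, Int.toNat_of_nonneg (by unfold mH; omega)⟩
  obtain ⟨k, hk⟩ : ∃ k : ℕ, (k : ℤ) = 2 * p.2.1 + 1 :=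
    ⟨(2 * p.2.1 + 1).toNat, Int.toNat_of_nonneg (by omega)⟩
  have hn0 : 0 < n := by unfold mH at hn; omega
  have hk0 : 0 < k := by omega
  have hfw : fw H p.2.1 (0, 0, 1) =
      List.replicate n (0, 0, 1) ++ (0, 1, 0) :: List.replicate k (0, 0, 1) := by
    rw [fw, if_pos (Or.inr rfl), rp, rp, ← hn, ← hk, Int.toNat_natCast, Int.toNat_natCast]
  rw [hfw]
  have hXn : Z0 H p + n = mH H * (p.2.2 + 1) - 1 := by rw [hn]; unfold Z0; ring
  have hnk : Z0 H p + n + k = Z0 H p + mH H := by rw [hn, hk]; ring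
  have hend : VV H false p + (List.replicate n ((0, 0, 1) : P3) ++
      (0, 1, 0) :: List.replicate k (0, 0, 1)).sum = VV H true (p + (0, 0, 1)) := by
    rw [List.sum_append, List.sum_cons, sum_rep, sum_rep]
    ext
    · simp [VV, X0]
    · simp [VV, lb]
    · simp only [VV, Prod.snd_add, mul_one, zero_add]
      unfold Z0
      simp only [Prod.fst_add, Prod.snd_add, add_zero]
      unfold Z0 at hnk
      linarith
  obtain ⟨I, hI⟩ := wk_split (VV H false p) (s := List.replicate n ((0, 0, 1) : P3) ++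
      (0, 1, 0) :: List.replicate k (0, 0, 1)) (by simp)
  have hnd : (wk (VV H false p) (List.replicate n ((0, 0, 1) : P3) ++
      (0, 1, 0) :: List.replicate k (0, 0, 1))).Nodup := by
    apply nodup_incr (fl3 0 1 1)
    intro d hd
    rw [List.mem_append, List.mem_cons, List.mem_replicate, List.mem_replicate] at hd
    rcases hd with ⟨_, rfl⟩ | rfl | ⟨_, rfl⟩ <;> simp [fl3_apply]
  refine ⟨I, by rw [hI, hend], ?_, ?_, ?_⟩
  · rw [hI, List.nodup_cons] at hnd
    exact hnd.2.sublist (List.sublist_append_left _ _)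
  · intro r hr
    rw [hI, List.nodup_cons] at hnd
    have hr0 : r ≠ VV H false p := by
      rintro rfl
      exact hnd.1 (List.mem_append_left _ hr)
    have hr1 : r ≠ VV H true (p + (0, 0, 1)) := by
      rintro rfl
      rw [hend] at hnd
      exact (List.disjoint_of_nodup_append hnd.2) hr (List.mem_singleton.2 rfl)
    have hr' : r ∈ wk (VV H false p) (List.replicate n ((0, 0, 1) : P3) ++
        (0, 1, 0) :: List.replicate k (0, 0, 1)) := by
      rw [hI]
      exact List.mem_cons_of_mem _ (List.mem_append_left _ hr)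
    rw [wk_snoc, List.mem_append] at hr'
    rcases hr' with hr' | hr'
    · obtain ⟨i, hi, rfl⟩ := mem_wk_rp hr'
      have hi0 : 0 < i := by
        rcases Nat.eq_zero_or_pos i with h | h
        · exfalso
          apply hr0
          rw [h]
          simp
        · exact h
      refine ⟨?_, Or.inl ⟨?_, ?_, ?_⟩⟩
      · simp [VV]
      · simp [VV, lb]
      · simp only [VV, Prod.snd_add, mul_one]
        omega
      · simp only [VV, Prod.snd_add, mul_one]
        rw [← hXn]
        omega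
    · obtain ⟨i, hi, rfl⟩ := mem_wk_rp hr'
      have hi0 : i < k := by
        rcases Nat.lt_or_ge i k with h | h
        · exact h
        · exfalso
          apply hr1
          have h2 : i = k := le_antisymm hi h
          rw [← hend, List.sum_append, List.sum_cons, sum_rep, sum_rep, h2]
          abel
      refine ⟨?_, Or.inr ⟨?_, ?_, ?_⟩⟩
      · simp [VV, sum_rep]
      · simp [VV, lb, sum_rep]
      · simp only [VV, Prod.snd_add, mul_one, sum_rep, add_zero]
        rw [← hXn]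
        omega
      · simp only [VV, Prod.snd_add, mul_one, sum_rep, add_zero]
        rw [← hnk]
        omega
  · have hXn' : (Z0 H p : ℝ) + n = mH H * (p.2.2 + 1) - 1 := by exact_mod_cast hXn
    have hnk' : (Z0 H p : ℝ) + n + k = Z0 H p + mH H := by exact_mod_cast hnk
    have q0 : toR (VV H false p) = ((X0 H p : ℝ), 0, (Z0 H p : ℝ)) := by simp [toR, VV, lb]
    have q1 : toR (VV H false p + (List.replicate n ((0, 0, 1) : P3)).sum) =
        ((X0 H p : ℝ), 0, (Z0 H p : ℝ) + n) := by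
      rw [sum_rep]; simp [toR, VV, lb]
    have q2 : toR (VV H false p + (List.replicate n ((0, 0, 1) : P3)).sum + (0, 1, 0)) =
        ((X0 H p : ℝ), 1, (Z0 H p : ℝ) + n) := by
      rw [sum_rep]; simp [toR, VV, lb]
    have e1 : toR (0, 0, 1) = (0, 0, 1) := by simp [toR]
    have e2 : toR (0, 1, 0) = (0, 1, 0) := by simp [toR]
    rw [body_append, body_wk_cons, seg_eq, body_rp _ _ _ hn0, body_rp _ _ _ hk0, q0, q1, q2, e1,
      e2, PZ]
    ext ⟨c, b, a⟩
    constructor
    · rintro (⟨t, t0, t1, h⟩ | ⟨t, t0, t1, h⟩ | ⟨t, t0, t1, h⟩)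
      · simp only [Prod.smul_mk, smul_eq_mul, Prod.mk_add_mk, Prod.mk.injEq, mul_one, mul_zero,
          add_zero] at h
        obtain ⟨rfl, rfl, rfl⟩ := h
        exact ⟨rfl, Or.inl ⟨rfl, by simpa using t0, by simp only; linarith⟩⟩
      · simp only [Prod.smul_mk, smul_eq_mul, Prod.mk_add_mk, Prod.mk.injEq, mul_one, mul_zero,
          add_zero, zero_add] at h
        obtain ⟨rfl, rfl, rfl⟩ := h
        exact ⟨rfl, Or.inr (Or.inl ⟨hXn', t0, t1⟩)⟩
      · simp only [Prod.smul_mk, smul_eq_mul, Prod.mk_add_mk, Prod.mk.injEq, mul_one, mul_zero,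
          add_zero] at h
        obtain ⟨rfl, rfl, rfl⟩ := h
        exact ⟨rfl, Or.inr (Or.inr ⟨rfl, by simp only; linarith, by simp only; linarith⟩)⟩
    · rintro ⟨hc, ⟨hb, h1, h2⟩ | ⟨ha, h1, h2⟩ | ⟨hb, h1, h2⟩⟩
      · simp only at hc hb h1 h2
        refine Or.inl ⟨a - Z0 H p, by linarith, by linarith, ?_⟩
        simp [hb, hc]
      · simp only at hc ha h1 h2
        refine Or.inr (Or.inl ⟨b, h1, h2, ?_⟩)
        simp [ha, hc, hXn']
      · simp only at hc hb h1 h2
        refine Or.inr (Or.inr ⟨a - (Z0 H p + n), by linarith, by linarith, ?_⟩)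
        simp [hb, hc]

theorem fw_y (p : P3) :
    ∃ I, wk (VV H true p) (fw H p.2.1 (0, 1, 0)) =
        VV H true p :: (I ++ [VV H false (p + (0, 1, 0))]) ∧
      I.Nodup ∧ (∀ q ∈ I, q ∈ EP H p .y) ∧
      body (pedges (wk (VV H true p) (fw H p.2.1 (0, 1, 0)))) = PY H p := by
  have hfw : fw H p.2.1 (0, 1, 0) =
      [(1, 0, 0), (0, 0, 1), (0, -1, 0), (1, 0, 0), (0, 0, 1)] := by
    rw [fw, if_neg (by decide), if_neg (by decide), if_pos rfl]
  rw [hfw]
  have a0 : VV H true p = (X0 H p, 1, Z0 H p) := rfl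
  have a5 : VV H false (p + (0, 1, 0)) = (X0 H p + 2, 0, Z0 H p + 2) := by
    simp [VV, lb, X0, Z0]
    constructor <;> ring
  have b1 : ((X0 H p, 1, Z0 H p) : P3) + (1, 0, 0) = (X0 H p + 1, 1, Z0 H p) := by
    ext <;> simp
  have b2 : ((X0 H p + 1, 1, Z0 H p) : P3) + (0, 0, 1) = (X0 H p + 1, 1, Z0 H p + 1) := by
    ext <;> simp
  have b3 : ((X0 H p + 1, 1, Z0 H p + 1) : P3) + (0, -1, 0) = (X0 H p + 1, 0, Z0 H p + 1) := by
    ext <;> simp
  have b4 : ((X0 H p + 1, 0, Z0 H p + 1) : P3) + (1, 0, 0) = (X0 H p + 2, 0, Z0 H p + 1) := by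
    ext <;> simp <;> ring
  have b5 : ((X0 H p + 2, 0, Z0 H p + 1) : P3) + (0, 0, 1) = (X0 H p + 2, 0, Z0 H p + 2) := by
    ext <;> simp <;> ring
  refine ⟨[(X0 H p + 1, 1, Z0 H p), (X0 H p + 1, 1, Z0 H p + 1), (X0 H p + 1, 0, Z0 H p + 1),
    (X0 H p + 2, 0, Z0 H p + 1)], ?_, ?_, ?_, ?_⟩
  · rw [a5, a0, wk_cons, b1, wk_cons, b2, wk_cons, b3, wk_cons, b4, wk_cons, b5, wk_nil]
    rfl
  · simp
  · intro q hq
    simp only [List.mem_cons, List.not_mem_nil, or_false] at hq
    exact hq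
  · have c0 : toR (X0 H p, 1, Z0 H p) = ((X0 H p : ℝ), 1, (Z0 H p : ℝ)) := by simp [toR]
    have c1 : toR (X0 H p + 1, 1, Z0 H p) = ((X0 H p : ℝ) + 1, 1, (Z0 H p : ℝ)) := by simp [toR]
    have c2 : toR (X0 H p + 1, 1, Z0 H p + 1) = ((X0 H p : ℝ) + 1, 1, (Z0 H p : ℝ) + 1) := by
      simp [toR]
    have c3 : toR (X0 H p + 1, 0, Z0 H p + 1) = ((X0 H p : ℝ) + 1, 0, (Z0 H p : ℝ) + 1) := by
      simp [toR]
    have c4 : toR (X0 H p + 2, 0, Z0 H p + 1) = ((X0 H p : ℝ) + 2, 0, (Z0 H p : ℝ) + 1) := by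
      simp [toR]
    have e1 : toR (1, 0, 0) = (1, 0, 0) := by simp [toR]
    have e2 : toR (0, -1, 0) = (0, -1, 0) := by simp [toR]
    have e3 : toR (0, 0, 1) = (0, 0, 1) := by simp [toR]
    rw [a0, body_wk_cons, body_wk_cons, body_wk_cons, body_wk_cons, body_wk_cons, body_wk_nil,
      seg_eq, seg_eq, seg_eq, seg_eq, seg_eq, b1, b2, b3, b4, Set.union_empty, c0, c1, c2, c3, c4,
      e1, e2, e3, PY]
    ext ⟨a, b, c⟩
    constructor
    · rintro (⟨t, t0, t1, h⟩ | ⟨t, t0, t1, h⟩ | ⟨t, t0, t1, h⟩ | ⟨t, t0, t1, h⟩ | ⟨t, t0, t1, h⟩)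
      all_goals
        simp only [Prod.smul_mk, smul_eq_mul, Prod.mk_add_mk, Prod.mk.injEq, mul_one, mul_zero,
          add_zero] at h
        obtain ⟨rfl, rfl, rfl⟩ := h
      · exact Or.inl ⟨rfl, rfl, by simp only; linarith, by simp only; linarith⟩
      · exact Or.inr (Or.inl ⟨rfl, rfl, by simp only; linarith, by simp only; linarith⟩)
      · exact Or.inr (Or.inr (Or.inl ⟨rfl, rfl, by simp only; linarith, by simp only; linarith⟩))
      · refine Or.inr (Or.inr (Or.inr (Or.inl ⟨rfl, rfl, ?_, ?_⟩)))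
        · simp only; linarith
        · simp only; linarith
      · refine Or.inr (Or.inr (Or.inr (Or.inr ⟨rfl, rfl, ?_, ?_⟩)))
        · simp only; linarith
        · simp only; linarith
    · rintro (⟨h1, h2, h3, h4⟩ | ⟨h1, h2, h3, h4⟩ | ⟨h1, h2, h3, h4⟩ | ⟨h1, h2, h3, h4⟩ |
        ⟨h1, h2, h3, h4⟩)
      all_goals
        simp only at h1 h2 h3 h4
        subst h1
        subst h2
      · refine Or.inl ⟨a - X0 H p, by linarith, by linarith, ?_⟩
        simp
      · refine Or.inr (Or.inl ⟨c - Z0 H p, by linarith, by linarith, ?_⟩)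
        simp
      · refine Or.inr (Or.inr (Or.inl ⟨1 - b, by linarith, by linarith, ?_⟩))
        simp
      · refine Or.inr (Or.inr (Or.inr (Or.inl ⟨a - (X0 H p + 1), by linarith, by linarith, ?_⟩)))
        simp
      · refine Or.inr (Or.inr (Or.inr (Or.inr ⟨c - (Z0 H p + 1), by linarith, by linarith, ?_⟩)))
        simp

/-- The new edge in the direction of an axis. -/
theorem fw_axis (a : Ax) (h0 : 0 ≤ p.2.1) (h1 : p.2.1 ≤ H) :
    ∃ I, wk (VV H (ou (Ax.v a)) p) (fw H p.2.1 (Ax.v a)) =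
        VV H (ou (Ax.v a)) p :: (I ++ [VV H (!ou (Ax.v a)) (p + Ax.v a)]) ∧
      I.Nodup ∧ (∀ q ∈ I, q ∈ EP H p a) ∧
      body (pedges (wk (VV H (ou (Ax.v a)) p) (fw H p.2.1 (Ax.v a)))) = PE H p a := by
  cases a with
  | x => exact fw_x h0 h1
  | y => exact fw_y p
  | z => exact fw_z h0 h1

theorem step_ax (hd : IsStep d) : ∃ a, d = Ax.v a ∨ d = -Ax.v a := by
  rcases step_cases hd with rfl | rfl | rfl | rfl | rfl | rfl
  · exact ⟨.x, Or.inl rfl⟩
  · exact ⟨.x, Or.inr rfl⟩
  · exact ⟨.y, Or.inl rfl⟩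
  · exact ⟨.y, Or.inr rfl⟩
  · exact ⟨.z, Or.inl rfl⟩
  · exact ⟨.z, Or.inr rfl⟩

theorem step_v (a : Ax) : IsStep (Ax.v a) := by
  cases a <;> simp [IsStep, Ax.v]

/-- PROOF. Let first `d = Ax.v a`, `u = p`. The walk `wk (VV H (ou d) p) (fw H p.2.1 d)` ends in `VV H (!ou d) (p + d)` (`sum_fw`); the
points between are pairwise different (one coordinate increases, and there is one step between the layers; `nodup_wk` or
directly) and lie in `EP H u a`, and its subset of space is `PX`, `PZ` or `PY` (`body_append`, `body_rp`; for `a = y` five single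
edges). For `d = -Ax.v a` put `u = p + d`: the walk is the walk from `u` backwards (`rev_fw`, `wk_reverse`, `ou_neg`), with
the height `u.2.1 = p.2.1 + d.2.1`. -/
theorem fw_walk (hd : IsStep d) (h0 : 0 ≤ p.2.1) (h1 : p.2.1 ≤ H) (h2 : 0 ≤ p.2.1 + d.2.1)
    (h3 : p.2.1 + d.2.1 ≤ H) :
    ∃ (u : P3) (a : Ax) (I : List P3), s(u, u + Ax.v a) = s(p, p + d) ∧
      0 ≤ u.2.1 ∧ u.2.1 + (Ax.v a).2.1 ≤ H ∧
      wk (VV H (ou d) p) (fw H p.2.1 d) = VV H (ou d) p :: (I ++ [VV H (!ou d) (p + d)]) ∧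
      I.Nodup ∧ (∀ q ∈ I, q ∈ EP H u a) ∧
      body (pedges (wk (VV H (ou d) p) (fw H p.2.1 d))) = PE H u a := by
  obtain ⟨a, ha | ha⟩ := step_ax hd
  · subst ha
    obtain ⟨I, hI, hnd, hEP, hb⟩ := fw_axis a h0 h1
    exact ⟨p, a, I, rfl, h0, h3, hI, hnd, hEP, hb⟩
  · subst ha
    have hv := step_v a
    obtain ⟨u, hu⟩ : ∃ u : P3, p = u + Ax.v a := ⟨p - Ax.v a, by rw [sub_add_cancel]⟩
    subst hu
    simp only [Prod.snd_add, Prod.fst_add, Prod.snd_neg, Prod.fst_neg, add_neg_cancel_right]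
      at h0 h1 h2 h3
    obtain ⟨I, hI, hnd, hEP, hb⟩ := fw_axis a h2 h3
    have hw : wk (VV H (ou (-Ax.v a)) (u + Ax.v a)) (fw H (u + Ax.v a).2.1 (-Ax.v a)) =
        (wk (VV H (ou (Ax.v a)) u) (fw H u.2.1 (Ax.v a))).reverse := by
      rw [wk_reverse, rev_fw hv, ou_neg hv]
      have hs := sum_fw hv h2 h3
      congr 1
      rw [hs]
      simp only [VV, X0, Z0]
      ext <;> simp <;> ring
    refine ⟨u, a, I.reverse, ?_, h2, h1, ?_, List.nodup_reverse.2 hnd, ?_, ?_⟩
    · rw [add_neg_cancel_right]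
      exact Sym2.eq_swap
    · rw [hw, hI, ou_neg hv, Bool.not_not, add_neg_cancel_right]
      simp
    · intro q hq
      exact hEP q (List.mem_reverse.1 hq)
    · rw [hw, ← hb]
      ext x
      simp only [body, Set.mem_setOf_eq, mem_pedges_reverse]

end Pool.Agent.KFlat
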