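import Pool.Agent.KFlat.Push

/-! FA2: pushing curves over unit segments of the square lattice. -/

set_option autoImplicit false

open Set

namespace Pool.Agent.KFlat

open Pool.Agent.LK

/-- The unit segment from `a` in the first direction (`true`) or the second direction (`false`). -/
def tl (a : ℤ × ℤ) (o : Bool) (t : ℝ) : ℝ × ℝ :=
  if o then ((a.1 : ℝ) + t, (a.2 : ℝ)) else ((a.1 : ℝ), (a.2 : ℝ) + t)

private theorem tn_int {x y : ℤ} (h : x ≠ y) : 1 ≤ |(x : ℝ) - y| := by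
  have h1 : (1 : ℤ) ≤ |x - y| := Int.one_le_abs (sub_ne_zero.2 h)
  exact_mod_cast h1

private theorem tn_ort {x y : ℤ} {s : ℝ} (hs : s ∈ Icc (0 : ℝ) 1) :
    1 ≤ |(x : ℝ) + s - y| ∨ ∃ s0 ∈ Icc (0 : ℝ) 1, (x : ℝ) + s0 = y ∧
      |s - s0| ≤ |(x : ℝ) + s - y| := by
  obtain ⟨h1, h2⟩ := hs
  by_cases h : y = x ∨ y = x + 1
  · right
    refine ⟨(y : ℝ) - x, ?_, by ring, ?_⟩
    · rcases h with h | h
      · subst h
        simp
      · subst h
        push_cast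
        simp
    · exact (congrArg abs (by ring)).le
  · left
    push Not at h
    rcases lt_or_ge y x with h3 | h3
    · have h4 : (y : ℝ) + 1 ≤ x := by exact_mod_cast h3
      rw [le_abs]
      left
      linarith
    · have h4 : x + 2 ≤ y := by omega
      have h5 : (x : ℝ) + 2 ≤ y := by exact_mod_cast h4
      rw [le_abs]
      right
      linarith

private theorem tn_par {x y : ℤ} {s t : ℝ} (hs : s ∈ Icc (0 : ℝ) 1) (ht : t ∈ Icc (0 : ℝ) 1) :
    1 ≤ |(x : ℝ) + s - (y + t)| ∨ ∃ s0 ∈ Icc (0 : ℝ) 1, ∃ t0 ∈ Icc (0 : ℝ) 1,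
      (x : ℝ) + s0 = y + t0 ∧ |s - s0| ≤ |(x : ℝ) + s - (y + t)| ∧
        |t - t0| ≤ |(x : ℝ) + s - (y + t)| := by
  obtain ⟨h1, h2⟩ := hs
  obtain ⟨h3, h4⟩ := ht
  by_cases e0 : y = x
  · subst e0
    right
    refine ⟨s, ⟨h1, h2⟩, s, ⟨h1, h2⟩, rfl, by simp, ?_⟩
    rw [abs_sub_comm]
    exact (congrArg abs (by ring)).le
  by_cases e1 : y = x + 1
  · subst e1
    right
    push_cast
    have h5 : |(x : ℝ) + s - (x + 1 + t)| = 1 + t - s := by
      rw [abs_sub_comm, abs_of_nonneg (by linarith)]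
      ring
    rw [h5]
    refine ⟨1, ⟨zero_le_one, le_rfl⟩, 0, ⟨le_rfl, zero_le_one⟩, by ring, ?_, ?_⟩
    · rw [abs_sub_comm, abs_of_nonneg (by linarith)]
      linarith
    · rw [sub_zero, abs_of_nonneg h3]
      linarith
  by_cases e2 : x = y + 1
  · subst e2
    right
    push_cast
    have h5 : |(y : ℝ) + 1 + s - (y + t)| = 1 + s - t := by
      rw [abs_of_nonneg (by linarith)]
      ring
    rw [h5]
    refine ⟨0, ⟨le_rfl, zero_le_one⟩, 1, ⟨zero_le_one, le_rfl⟩, by ring, ?_, ?_⟩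
    · rw [sub_zero, abs_of_nonneg h1]
      linarith
    · rw [abs_sub_comm, abs_of_nonneg (by linarith)]
      linarith
  left
  rcases lt_or_ge y x with h5 | h5
  · have h6 : y + 2 ≤ x := by omega
    have h7 : (y : ℝ) + 2 ≤ x := by exact_mod_cast h6
    rw [le_abs]
    left
    linarith
  · have h6 : x + 2 ≤ y := by omega
    have h7 : (x : ℝ) + 2 ≤ y := by exact_mod_cast h6
    rw [le_abs]
    right
    linarith

/-- Let `d` be the maximum. Parallel segments (`o = o'`, say `true`): if `a.2 ≠ b.2` then `d ≥ 1`. If `a.2 = b.2` and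
`a.1 = b.1`: `s0 = t0 = s`. If `b.1 = a.1 + 1`: `s0 = 1`, `t0 = 0`, `d = 1 + t - s`. If `a.1 = b.1 + 1`: symmetric. Otherwise
`|a.1 - b.1| ≥ 2` and `d ≥ 1`. Orthogonal segments (`o = true`, `o' = false`): `d = max |a.1 + s - b.1| |a.2 - b.2 - t|`. If
`b.1 - a.1 ∈ {0, 1}` and `a.2 - b.2 ∈ {0, 1}` take `s0 = b.1 - a.1`, `t0 = a.2 - b.2`. Otherwise one of the two numbers is
`≥ 1`. The case `o = false`, `o' = true` is symmetric. -/
theorem tl_near (a b : ℤ × ℤ) (o o' : Bool) {s t : ℝ} (hs : s ∈ Icc (0 : ℝ) 1)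
    (ht : t ∈ Icc (0 : ℝ) 1) :
    1 ≤ max |(tl a o s).1 - (tl b o' t).1| |(tl a o s).2 - (tl b o' t).2| ∨
    ∃ s0 ∈ Icc (0 : ℝ) 1, ∃ t0 ∈ Icc (0 : ℝ) 1, tl a o s0 = tl b o' t0 ∧
      |s - s0| ≤ max |(tl a o s).1 - (tl b o' t).1| |(tl a o s).2 - (tl b o' t).2| ∧
      |t - t0| ≤ max |(tl a o s).1 - (tl b o' t).1| |(tl a o s).2 - (tl b o' t).2| := by
  cases o <;> cases o'
  · simp only [tl, Bool.false_eq_true, if_false]
    by_cases h : a.1 = b.1
    · rcases tn_par (x := a.2) (y := b.2) hs ht with h1 | ⟨s0, hs0, t0, ht0, h2, h3, h4⟩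
      · exact Or.inl (le_max_of_le_right h1)
      · exact Or.inr ⟨s0, hs0, t0, ht0, by rw [h, h2], le_max_of_le_right h3,
          le_max_of_le_right h4⟩
    · exact Or.inl (le_max_of_le_left (tn_int h))
  · simp only [tl, Bool.false_eq_true, if_false, if_true]
    rcases tn_ort (x := a.2) (y := b.2) hs with h1 | ⟨s0, hs0, h2, h3⟩
    · exact Or.inl (le_max_of_le_right h1)
    rcases tn_ort (x := b.1) (y := a.1) ht with h1 | ⟨t0, ht0, h4, h5⟩
    · rw [abs_sub_comm] at h1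
      exact Or.inl (le_max_of_le_left h1)
    rw [abs_sub_comm ((b.1 : ℝ) + t)] at h5
    exact Or.inr ⟨s0, hs0, t0, ht0, by rw [h2, h4], le_max_of_le_right h3, le_max_of_le_left h5⟩
  · simp only [tl, Bool.false_eq_true, if_false, if_true]
    rcases tn_ort (x := a.1) (y := b.1) hs with h1 | ⟨s0, hs0, h2, h3⟩
    · exact Or.inl (le_max_of_le_left h1)
    rcases tn_ort (x := b.2) (y := a.2) ht with h1 | ⟨t0, ht0, h4, h5⟩
    · rw [abs_sub_comm] at h1
      exact Or.inl (le_max_of_le_right h1)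
    rw [abs_sub_comm ((b.2 : ℝ) + t)] at h5
    exact Or.inr ⟨s0, hs0, t0, ht0, by rw [h2, h4], le_max_of_le_left h3, le_max_of_le_right h5⟩
  · simp only [tl, if_true]
    by_cases h : a.2 = b.2
    · rcases tn_par (x := a.1) (y := b.1) hs ht with h1 | ⟨s0, hs0, t0, ht0, h2, h3, h4⟩
      · exact Or.inl (le_max_of_le_left h1)
      · exact Or.inr ⟨s0, hs0, t0, ht0, by rw [h, h2], le_max_of_le_left h3,
          le_max_of_le_left h4⟩
    · exact Or.inl (le_max_of_le_right (tn_int h))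

/-- If `ι` is empty take the identity. Otherwise `0 ≤ B`, `0 ≤ C`. Apply `push` to the index type
`ι × Icc (0 : ℝ) 1` with `L = 2 * B * (1 + Λ) + 2 * C * (1 + Λ)`. Let `(i, s)`, `(j, t)` be two indices, `d` the distance of
`tl (a i) (o i) s` and `tl (a j) (o j) t` in the maximum norm, `σ = h i s - h j t`. By `tl_near` either `1 ≤ d`: then
`e i s - e j t ≤ 2 B` and `max (κ σ) (Λ σ) ≥ κ σ ≥ - 2 B Λ` (`|σ| ≤ 2 B`, `κ ≤ Λ`), done. Or there are `s0`, `t0`; with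
`σ0 = h i s0 - h j t0` the hypothesis `ord` gives `e i s0 - e j t0 ≤ max (κ σ0) (Λ σ0) ≤ max (κ σ) (Λ σ) + Λ |σ - σ0|`, and
`|σ - σ0| ≤ 2 C d`, `e i s - e j t ≤ e i s0 - e j t0 + 2 C d`. -/
theorem tile {ι : Type*} (a : ι → ℤ × ℤ) (o : ι → Bool) (h e : ι → ℝ → ℝ) {B C κ Λ : ℝ}
    (hκ : 0 < κ) (hκΛ : κ ≤ Λ)
    (hB : ∀ i, ∀ t ∈ Icc (0 : ℝ) 1, |h i t| ≤ B ∧ |e i t| ≤ B)
    (hC : ∀ i, ∀ s ∈ Icc (0 : ℝ) 1, ∀ t ∈ Icc (0 : ℝ) 1, |h i s - h i t| ≤ C * |s - t| ∧
      |e i s - e i t| ≤ C * |s - t|)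
    (ord : ∀ i j, ∀ s ∈ Icc (0 : ℝ) 1, ∀ t ∈ Icc (0 : ℝ) 1, tl (a i) (o i) s = tl (a j) (o j) t →
      OrdR κ Λ (h i s - h j t) (e i s - e j t)) :
    ∃ φ : R3 ≃ₜ R3, ∀ i, ∀ t ∈ Icc (0 : ℝ) 1,
      φ ((tl (a i) (o i) t).1, h i t, (tl (a i) (o i) t).2) =
        ((tl (a i) (o i) t).1, e i t, (tl (a i) (o i) t).2) := by
  rcases isEmpty_or_nonempty ι with hι | ⟨⟨i0⟩⟩
  · exact ⟨Homeomorph.refl _, fun i => hι.elim i⟩
  have hΛ : 0 < Λ := hκ.trans_le hκΛ
  have h0 : (0 : ℝ) ∈ Icc (0 : ℝ) 1 := ⟨le_rfl, zero_le_one⟩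
  have h1 : (1 : ℝ) ∈ Icc (0 : ℝ) 1 := ⟨zero_le_one, le_rfl⟩
  have hB0 : 0 ≤ B := (abs_nonneg _).trans (hB i0 0 h0).1
  have hC0 : 0 ≤ C := by
    have h2 := (abs_nonneg _).trans (hC i0 0 h0 1 h1).1
    rw [zero_sub, abs_neg, abs_one, mul_one] at h2
    exact h2
  have hL : 0 ≤ 2 * B * (1 + Λ) + 2 * C * (1 + Λ) := by positivity
  obtain ⟨φ, hφ⟩ := push (ι := ι × Icc (0 : ℝ) 1) (fun x => tl (a x.1) (o x.1) x.2)
    (fun x => h x.1 x.2) (fun x => e x.1 x.2) hL hκ hκΛ (by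
      rintro ⟨i, s, hs⟩ ⟨j, t, ht⟩
      simp only
      have hd : 0 ≤ max |(tl (a i) (o i) s).1 - (tl (a j) (o j) t).1|
          |(tl (a i) (o i) s).2 - (tl (a j) (o j) t).2| := (abs_nonneg _).trans (le_max_left _ _)
      have hn := tl_near (a i) (a j) (o i) (o j) hs ht
      generalize max |(tl (a i) (o i) s).1 - (tl (a j) (o j) t).1|
        |(tl (a i) (o i) s).2 - (tl (a j) (o j) t).2| = d at hd hn ⊢
      rcases hn with h2 | ⟨s0, hs0, t0, ht0, h2, h3, h4⟩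
      · obtain ⟨b1, b2⟩ := hB i s hs
        obtain ⟨b3, b4⟩ := hB j t ht
        rw [abs_le] at b1 b2 b3 b4
        have c1 : e i s - e j t ≤ 2 * B := by linarith
        have c2 : -(2 * B) * Λ ≤ κ * (h i s - h j t) := by
          have c3 : -(2 * B) ≤ h i s - h j t := by linarith
          have c4 : κ * (-(2 * B)) ≤ κ * (h i s - h j t) := mul_le_mul_of_nonneg_left c3 hκ.le
          have c5 : κ * (2 * B) ≤ Λ * (2 * B) := mul_le_mul_of_nonneg_right hκΛ (by linarith)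
          linarith
        have c6 := le_max_left (κ * (h i s - h j t)) (Λ * (h i s - h j t))
        have c7 : (2 * B * (1 + Λ) + 2 * C * (1 + Λ)) * 1 ≤
            (2 * B * (1 + Λ) + 2 * C * (1 + Λ)) * d := mul_le_mul_of_nonneg_left h2 hL
        have c8 : 0 ≤ 2 * C * (1 + Λ) := by positivity
        linarith
      · have o1 := ord i j s0 hs0 t0 ht0 h2
        obtain ⟨b1, b2⟩ := hC i s hs s0 hs0
        obtain ⟨b3, b4⟩ := hC j t ht t0 ht0
        have b1' := b1.trans (mul_le_mul_of_nonneg_left h3 hC0)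
        have b2' := b2.trans (mul_le_mul_of_nonneg_left h3 hC0)
        have b3' := b3.trans (mul_le_mul_of_nonneg_left h4 hC0)
        have b4' := b4.trans (mul_le_mul_of_nonneg_left h4 hC0)
        rw [abs_le] at b1' b2' b3' b4'
        have c1 : h i s0 - h j t0 ≤ h i s - h j t + 2 * (C * d) := by linarith
        have c2 : e i s - e j t ≤ e i s0 - e j t0 + 2 * (C * d) := by linarith
        have c3 : 0 ≤ C * d := mul_nonneg hC0 hd
        have c4 : κ * (2 * (C * d)) ≤ Λ * (2 * (C * d)) :=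
          mul_le_mul_of_nonneg_right hκΛ (by linarith)
        have c5 : 0 ≤ 2 * B * (1 + Λ) * d := by positivity
        rcases le_total 0 (h i s0 - h j t0) with c6 | c6
        · have c7 := (o1.1 c6).2
          have c8 : Λ * (h i s0 - h j t0) ≤ Λ * (h i s - h j t + 2 * (C * d)) :=
            mul_le_mul_of_nonneg_left c1 hΛ.le
          have c9 := le_max_right (κ * (h i s - h j t)) (Λ * (h i s - h j t))
          linarith
        · have c7 := (o1.2 c6).2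
          have c8 : κ * (h i s0 - h j t0) ≤ κ * (h i s - h j t + 2 * (C * d)) :=
            mul_le_mul_of_nonneg_left c1 hκ.le
          have c9 := le_max_left (κ * (h i s - h j t)) (Λ * (h i s - h j t))
          linarith)
  exact ⟨φ, fun i t ht => hφ (i, ⟨t, ht⟩)⟩

end Pool.Agent.KFlat
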