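import Pool.Agent.KFlat.DefsB

/-! FB1: words. All proofs are inductions on the list of steps and case distinctions over the six unit steps
(`KTube`/`KRing`: `IsStep d` means that `d` is one of the six vectors `(±1, 0, 0)`, `(0, ±1, 0)`, `(0, 0, ±1)`). -/

set_option autoImplicit false

open Pool.Agent.LK

namespace Pool.Agent.KFlat

open Pool.Agent.KTube Pool.Agent.KRing Pool.Agent.KLog

variable {H : ℕ} {y : ℤ} {b c : Bool} {s t : List P3} {d : P3}

theorem step_cases (h : IsStep d) : d = (1, 0, 0) ∨ d = (-1, 0, 0) ∨ d = (0, 1, 0) ∨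
    d = (0, -1, 0) ∨ d = (0, 0, 1) ∨ d = (0, 0, -1) := by
  obtain ⟨a, b, c⟩ := d
  unfold IsStep at h
  simp only at h
  have ha := abs_nonneg a
  have hb := abs_nonneg b
  have hc := abs_nonneg c
  have ha1 := abs_le.1 (by omega : |a| ≤ 1)
  have hb1 := abs_le.1 (by omega : |b| ≤ 1)
  have hc1 := abs_le.1 (by omega : |c| ≤ 1)
  obtain ⟨a1, a2⟩ := ha1
  obtain ⟨b1, b2⟩ := hb1
  obtain ⟨c1, c2⟩ := hc1
  interval_cases a <;> interval_cases b <;> interval_cases c <;> simp at h ⊢

theorem ou_neg (h : IsStep d) : ou (-d) = !ou d := by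
  rcases step_cases h with rfl | rfl | rfl | rfl | rfl | rfl <;> decide

private theorem isStep_of (d : P3) (h : d = (1, 0, 0) ∨ d = (-1, 0, 0) ∨ d = (0, 1, 0) ∨
    d = (0, -1, 0) ∨ d = (0, 0, 1) ∨ d = (0, 0, -1)) : IsStep d := by
  rcases h with rfl | rfl | rfl | rfl | rfl | rfl <;> simp [IsStep]

theorem steps_fx (b c : Bool) : Steps (fx b c) := by
  intro d hd
  unfold fx at hd
  split_ifs at hd
  · simp at hd
  · rw [List.mem_singleton] at hd
    exact isStep_of d (by simp [hd])
  · rw [List.mem_singleton] at hd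
    exact isStep_of d (by simp [hd])

theorem sum_fx (b c : Bool) : (fx b c).sum = (0, lb c - lb b, 0) := by
  cases b <;> cases c <;> decide

theorem sum_rp {n : ℤ} (hn : 0 ≤ n) (d : P3) : (rp n d).sum = (n * d.1, n * d.2.1, n * d.2.2) := by
  unfold rp
  rw [List.sum_replicate]
  have h : (n.toNat : ℤ) = n := Int.toNat_of_nonneg hn
  refine Prod.ext ?_ (Prod.ext ?_ ?_)
  · rw [Prod.smul_fst, nsmul_eq_mul, h]
  · rw [Prod.smul_snd, Prod.smul_fst, nsmul_eq_mul, h]
  · rw [Prod.smul_snd, Prod.smul_snd, nsmul_eq_mul, h]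

/-- `rp (n + k) d = rp n d ++ rp k d` (`List.replicate_add`). -/
theorem rp_add {n k : ℤ} (hn : 0 ≤ n) (hk : 0 ≤ k) (d : P3) : rp (n + k) d = rp n d ++ rp k d := by
  unfold rp
  rw [Int.toNat_add hn hk, List.replicate_add]

theorem rp_one (d : P3) : rp 1 d = [d] := rfl

private theorem steps_rp (n : ℤ) (h : IsStep d) : Steps (rp n d) := by
  intro e he
  rw [List.eq_of_mem_replicate he]
  exact h

private theorem steps_app (hs : Steps s) (ht : Steps t) : Steps (s ++ t) := by
  intro e he
  rcases List.mem_append.1 he with h | h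
  · exact hs e h
  · exact ht e h

private theorem steps_cons (h : IsStep d) (ht : Steps t) : Steps (d :: t) := by
  intro e he
  rcases List.mem_cons.1 he with h1 | h1
  · rw [h1]
    exact h
  · exact ht e h1

theorem steps_fw (H : ℕ) (y : ℤ) (d : P3) : Steps (fw H y d) := by
  unfold fw
  split_ifs with h1 h2 h3
  · have h4 : IsStep d := isStep_of d (by tauto)
    exact steps_app (steps_rp _ h4) (steps_cons (isStep_of _ (by simp)) (steps_rp _ h4))
  · have h4 : IsStep d := isStep_of d (by tauto)
    exact steps_app (steps_rp _ h4) (steps_cons (isStep_of _ (by simp)) (steps_rp _ h4))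
  · intro e he
    simp only [List.mem_cons, List.not_mem_nil, or_false] at he
    exact isStep_of e (by tauto)
  · intro e he
    simp only [List.mem_cons, List.not_mem_nil, or_false] at he
    exact isStep_of e (by tauto)

theorem steps_gw (H : ℕ) (y : ℤ) (b c : Bool) (s : List P3) : Steps (GW H y b s c) := by
  induction s generalizing y b with
  | nil => exact steps_fx b c
  | cons d s ih => exact steps_app (steps_fx _ _) (steps_app (steps_fw _ _ _) (ih _ _))

/-- The displacement of a new edge. -/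
theorem sum_fw (hd : IsStep d) (h0 : 0 ≤ y) (h1 : y ≤ H) :
    (fw H y d).sum = (mH H * d.1 + 2 * d.2.1, lb (!ou d) - lb (ou d), mH H * d.2.2 + 2 * d.2.1) := by
  have a1 : 0 ≤ mH H - 1 - 2 * y := by
    unfold mH
    omega
  have a2 : 0 ≤ 2 * y + 1 := by omega
  rcases step_cases hd with rfl | rfl | rfl | rfl | rfl | rfl
  · have e : fw H y (1, 0, 0) = rp (mH H - 1 - 2 * y) (1, 0, 0) ++ (0, 1, 0) ::
      rp (2 * y + 1) (1, 0, 0) := by simp [fw]
    rw [e, List.sum_append, List.sum_cons, sum_rp a1, sum_rp a2]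
    simp [lb, ou]
    ring
  · have e : fw H y (-1, 0, 0) = rp (2 * y + 1) (-1, 0, 0) ++ (0, -1, 0) ::
      rp (mH H - 1 - 2 * y) (-1, 0, 0) := by simp [fw]
    rw [e, List.sum_append, List.sum_cons, sum_rp a1, sum_rp a2]
    simp [lb, ou]
    ring
  · have e : fw H y (0, 1, 0) = [(1, 0, 0), (0, 0, 1), (0, -1, 0), (1, 0, 0), (0, 0, 1)] := by
      simp [fw]
    rw [e]
    simp [lb, ou]
  · have e : fw H y (0, -1, 0) =
        [(0, 0, -1), (-1, 0, 0), (0, 1, 0), (0, 0, -1), (-1, 0, 0)] := by
      simp [fw]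
    rw [e]
    simp [lb, ou]
  · have e : fw H y (0, 0, 1) = rp (mH H - 1 - 2 * y) (0, 0, 1) ++ (0, 1, 0) ::
      rp (2 * y + 1) (0, 0, 1) := by simp [fw]
    rw [e, List.sum_append, List.sum_cons, sum_rp a1, sum_rp a2]
    simp [lb, ou]
    ring
  · have e : fw H y (0, 0, -1) = rp (2 * y + 1) (0, 0, -1) ++ (0, -1, 0) ::
      rp (mH H - 1 - 2 * y) (0, 0, -1) := by simp [fw]
    rw [e, List.sum_append, List.sum_cons, sum_rp a1, sum_rp a2]
    simp [lb, ou]
    ring

/-! ### Heights -/

private theorem htw_aux {p p' : P3} (h : p.2.1 = p'.2.1) (s : List P3) :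
    (∀ q ∈ wk p s, 0 ≤ q.2.1 ∧ q.2.1 ≤ (H : ℤ)) ↔ ∀ q ∈ wk p' s, 0 ≤ q.2.1 ∧ q.2.1 ≤ (H : ℤ) := by
  induction s generalizing p p' with
  | nil =>
    simp only [wk_nil, List.mem_singleton, forall_eq, h]
  | cons d s ih =>
    have h1 : (p + d).2.1 = (p' + d).2.1 := by
      simp only [Prod.snd_add, Prod.fst_add, h]
    simp only [wk_cons, List.mem_cons, forall_eq_or_imp, ih h1, h]

theorem htw_nil : HtW H y [] ↔ 0 ≤ y ∧ y ≤ H := by
  unfold HtW
  simp only [wk_nil, List.mem_singleton, forall_eq]

theorem htw_cons : HtW H y (d :: s) ↔ (0 ≤ y ∧ y ≤ H) ∧ HtW H (y + d.2.1) s := by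
  unfold HtW
  have h1 : (((0, y, 0) : P3) + d).2.1 = ((0, y + d.2.1, 0) : P3).2.1 := rfl
  rw [wk_cons]
  simp only [List.mem_cons, forall_eq_or_imp]
  rw [htw_aux h1]

theorem htw_append : HtW H y (s ++ t) ↔ HtW H y s ∧ HtW H (y + s.sum.2.1) t := by
  induction s generalizing y with
  | nil =>
    rw [List.nil_append, htw_nil, List.sum_nil]
    have h0 : y + (0 : P3).2.1 = y := add_zero y
    rw [h0]
    constructor
    · intro h
      refine ⟨?_, h⟩
      cases t with
      | nil => exact htw_nil.1 h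
      | cons d t => exact (htw_cons.1 h).1
    · exact fun h => h.2
  | cons d s ih =>
    rw [List.cons_append, htw_cons, htw_cons, ih, List.sum_cons]
    have h0 : y + (d + s.sum).2.1 = y + d.2.1 + s.sum.2.1 := by
      rw [Prod.snd_add, Prod.fst_add, add_assoc]
    rw [h0]
    exact and_assoc.symm

/-- The heights do not depend on the other coordinates of the first point. -/
theorem htw_iff (p : P3) : (∀ q ∈ wk p s, 0 ≤ q.2.1 ∧ q.2.1 ≤ H) ↔ HtW H p.2.1 s :=
  htw_aux (p := p) (p' := (0, p.2.1, 0)) rfl s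

theorem HtW.start (h : HtW H y s) : 0 ≤ y ∧ y ≤ H := by
  cases s with
  | nil => exact htw_nil.1 h
  | cons d s => exact (htw_cons.1 h).1

theorem HtW.stop (h : HtW H y s) : 0 ≤ y + s.sum.2.1 ∧ y + s.sum.2.1 ≤ H := by
  have h1 : HtW H y (s ++ []) := by rwa [List.append_nil]
  exact htw_nil.1 (htw_append.1 h1).2

/-! ### The flattened word -/

/-- The displacement of a flattened walk. -/
theorem sum_gw (hs : Steps s) (h : HtW H y s) :
    (GW H y b s c).sum =
      (mH H * s.sum.1 + 2 * s.sum.2.1, lb c - lb b, mH H * s.sum.2.2 + 2 * s.sum.2.1) := by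
  induction s generalizing y b with
  | nil =>
    change (fx b c).sum = _
    rw [sum_fx]
    simp
  | cons d s ih =>
    have h1 := htw_cons.1 h
    change (fx b (ou d) ++ (fw H y d ++ GW H (y + d.2.1) (!ou d) s c)).sum = _
    rw [List.sum_append, List.sum_append, sum_fx, sum_fw hs.cons.1 h1.1.1 h1.1.2,
      ih hs.cons.2 h1.2, List.sum_cons]
    refine Prod.ext ?_ (Prod.ext ?_ ?_)
    · simp only [Prod.fst_add, Prod.snd_add]
      ring
    · simp only [Prod.fst_add, Prod.snd_add]
      ring
    · simp only [Prod.fst_add, Prod.snd_add]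
      ring

/-- Composition. -/
theorem gw_append : GW H y b (s ++ d :: t) c =
    GW H y b s (ou d) ++ (fw H (y + s.sum.2.1) d ++
      GW H (y + s.sum.2.1 + d.2.1) (!ou d) t c) := by
  induction s generalizing y b with
  | nil =>
    have h0 : y + (([] : List P3).sum).2.1 = y := add_zero y
    rw [h0]
    rfl
  | cons e s ih =>
    have h0 : y + ((e :: s).sum).2.1 = y + e.2.1 + s.sum.2.1 := by
      rw [List.sum_cons, Prod.snd_add, Prod.fst_add, add_assoc]
    rw [h0]
    change fx b (ou e) ++ (fw H y e ++ GW H (y + e.2.1) (!ou e) (s ++ d :: t) c) =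
      (fx b (ou e) ++ (fw H y e ++ GW H (y + e.2.1) (!ou e) s (ou d))) ++ _
    rw [ih]
    simp only [List.append_assoc]

private theorem fx_self (b : Bool) : fx b b = [] := by
  simp [fx]

/-- The layer at the end. -/
theorem gw_last (hs : s ≠ []) : GW H y b s c = GW H y b s (lay s) ++ fx (lay s) c := by
  induction s generalizing y b with
  | nil => exact absurd rfl hs
  | cons d s ih =>
    cases s with
    | nil =>
      have h1 : lay [d] = !ou d := rfl
      rw [h1]
      change fx b (ou d) ++ (fw H y d ++ fx (!ou d) c) =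
        (fx b (ou d) ++ (fw H y d ++ fx (!ou d) (!ou d))) ++ fx (!ou d) c
      rw [fx_self]
      simp only [List.append_assoc, List.append_nil]
    | cons e s =>
      have h1 : lay (d :: e :: s) = lay (e :: s) := rfl
      rw [h1]
      change fx b (ou d) ++ (fw H y d ++ GW H (y + d.2.1) (!ou d) (e :: s) c) =
        (fx b (ou d) ++ (fw H y d ++ GW H (y + d.2.1) (!ou d) (e :: s) (lay (e :: s)))) ++
          fx (lay (e :: s)) c
      rw [ih (List.cons_ne_nil _ _)]
      simp only [List.append_assoc]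

/-! ### Reversal -/

theorem rev_append (s t : List P3) : rev (s ++ t) = rev t ++ rev s := by
  unfold rev
  rw [List.map_append, List.reverse_append]

theorem rev_rev (s : List P3) : rev (rev s) = s := by
  unfold rev
  rw [List.map_reverse, List.reverse_reverse, List.map_map]
  have h : ((fun d : P3 => -d) ∘ fun d => -d) = id := by
    funext d
    exact neg_neg d
  rw [h, List.map_id]

private theorem rev_cons (d : P3) (s : List P3) : rev (d :: s) = rev s ++ [-d] := by
  unfold rev
  rw [List.map_cons, List.reverse_cons]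

theorem sum_rev (s : List P3) : (rev s).sum = -s.sum := by
  induction s with
  | nil => exact neg_zero.symm
  | cons d s ih =>
    rw [rev_cons, List.sum_append, ih, List.sum_singleton, List.sum_cons, neg_add_rev]

theorem steps_rev (hs : Steps s) : Steps (rev s) := by
  intro e he
  unfold rev at he
  rw [List.mem_reverse, List.mem_map] at he
  obtain ⟨d, hd, rfl⟩ := he
  have h := hs d hd
  unfold IsStep at h ⊢
  simp only [Prod.fst_neg, Prod.snd_neg, abs_neg]
  exact h

theorem rev_rp (n : ℤ) (d : P3) : rev (rp n d) = rp n (-d) := by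
  unfold rev rp
  rw [List.map_replicate, List.reverse_replicate]

theorem rev_fw (hd : IsStep d) : rev (fw H y d) = fw H (y + d.2.1) (-d) := by
  rcases step_cases hd with rfl | rfl | rfl | rfl | rfl | rfl
  · simp [fw, rev_append, rev_cons, rev_rp]
  · simp [fw, rev_append, rev_cons, rev_rp]
  · simp [fw, rev]
  · simp [fw, rev]
  · simp [fw, rev_append, rev_cons, rev_rp]
  · simp [fw, rev_append, rev_cons, rev_rp]

private theorem rev_fx (b c : Bool) : rev (fx b c) = fx c b := by
  cases b <;> cases c <;> decide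

/-- The flattened walk backwards (`gw_append` for `rev (d :: s) = rev s ++ [-d]`, `rev_fw`, `ou_neg`). -/
theorem rev_gw (hs : Steps s) :
    rev (GW H y b s c) = GW H (y + s.sum.2.1) c (rev s) b := by
  induction s generalizing y b with
  | nil => exact rev_fx b c
  | cons d s ih =>
    have h0 : y + ((d :: s).sum).2.1 = y + d.2.1 + s.sum.2.1 := by
      rw [List.sum_cons, Prod.snd_add, Prod.fst_add, add_assoc]
    have h1 : y + d.2.1 + s.sum.2.1 + (rev s).sum.2.1 = y + d.2.1 := by
      rw [sum_rev, Prod.snd_neg, Prod.fst_neg]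
      ring
    have h2 : GW H (y + d.2.1 + s.sum.2.1 + (rev s).sum.2.1 + (-d).2.1) (!ou (-d)) [] b =
        fx (ou d) b := by
      rw [ou_neg hs.cons.1, Bool.not_not]
      rfl
    rw [h0, rev_cons, gw_append, h2, h1, ou_neg hs.cons.1, ← rev_fw hs.cons.1,
      ← ih hs.cons.2]
    change rev (fx b (ou d) ++ (fw H y d ++ GW H (y + d.2.1) (!ou d) s c)) = _
    rw [rev_append, rev_append, rev_fx, List.append_assoc]

end Pool.Agent.KFlat
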